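import Mathlib

namespace Pool.Agent.Helper11.Fatou

/-! ### The layered complex -/

/-- The number of vertices of level `n`. Level `0` is one vertex (the root); every vertex of
level `n` receives `b n` new vertices of level `n + 1`. -/
def L (b : ℕ → ℕ) : ℕ → ℕ
  | 0 => 1
  | n + 1 => L b n * b n

/-- The vertices. -/
def Vtx (b : ℕ → ℕ) : Type := (n : ℕ) × ZMod (L b n)

/-- The vertex number `j` (modulo `L b n`) of level `n`. -/
def mk (b : ℕ → ℕ) (n : ℕ) (j : ℤ) : Vtx b := ⟨n, (j : ZMod (L b n))⟩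

/-- The faces, each with one choice of the first vertex. -/
inductive Base (b : ℕ → ℕ) : Vtx b → Vtx b → Vtx b → Prop
  | down (n : ℕ) (k : ℤ) :
      Base b (mk b n (k / (b n : ℤ))) (mk b (n + 1) k) (mk b (n + 1) (k + 1))
  | up (n : ℕ) (hn : 1 ≤ n) (j : ℤ) :
      Base b (mk b n j) (mk b (n + 1) ((j + 1) * (b n : ℤ))) (mk b n (j + 1))

/-- The positively oriented faces. -/
def fc (b : ℕ → ℕ) (x y z : Vtx b) : Prop := Base b x y z ∨ Base b y z x ∨ Base b z x y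

/-- periodicity of a function on the levels -/
def Per (b : ℕ → ℕ) {X : Type} (f : ℕ → ℤ → X) : Prop := ∀ n j, f n (j + (L b n : ℤ)) = f n j

/-! ### Angle sums -/

/-- The angle at the vertex `(n, j)` used by the faces towards the root. -/
noncomputable def used (b : ℕ → ℕ) (α : ℝ → ℝ → ℝ → ℝ) (f : ℕ → ℤ → ℝ) : ℕ → ℤ → ℝ
  | 0, _ => 0
  | m + 1, j =>
    if 1 ≤ m ∧ (b m : ℤ) ∣ j then
      α (f (m + 1) j) (f (m + 1) (j + 1)) (f m (j / (b m : ℤ)))
        + α (f (m + 1) j) (f m (j / (b m : ℤ))) (f m (j / (b m : ℤ) - 1))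
        + α (f (m + 1) j) (f m (j / (b m : ℤ) - 1)) (f (m + 1) (j - 1))
    else
      α (f (m + 1) j) (f (m + 1) (j + 1)) (f m (j / (b m : ℤ)))
        + α (f (m + 1) j) (f m (j / (b m : ℤ))) (f (m + 1) (j - 1))

/-- The angle at the vertex `(n, j)` used by the faces with two vertices of level `n + 1`. -/
noncomputable def kids (b : ℕ → ℕ) (α : ℝ → ℝ → ℝ → ℝ) (f : ℕ → ℤ → ℝ) (n : ℕ) (j : ℤ) : ℝ :=
  ∑ i ∈ Finset.range (b n),
    α (f n j) (f (n + 1) (j * (b n : ℤ) + (i : ℤ))) (f (n + 1) (j * (b n : ℤ) + (i : ℤ) + 1))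

/-- The total angle at the vertex `(n, j)`. -/
noncomputable def total (b : ℕ → ℕ) (α : ℝ → ℝ → ℝ → ℝ) (f : ℕ → ℤ → ℝ) (n : ℕ) (j : ℤ) : ℝ :=
  if n = 0 then kids b α f n j
  else α (f n j) (f n (j - 1)) (f (n + 1) (j * (b n : ℤ))) + kids b α f n j
    + α (f n j) (f (n + 1) ((j + 1) * (b n : ℤ))) (f n (j + 1)) + used b α f n j

/-! ### Abstract plane geometry of tangent circles -/

/-- A geometry of tangent circles in (a part of) the plane: labels, positions, directions. -/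
structure Geom where
  ok : ℝ → Prop
  ins : ℂ → Prop
  α : ℝ → ℝ → ℝ → ℝ
  Tg : ℝ → ℝ → ℂ → ℂ → Prop
  dir : ℂ → ℂ → ℂ
  tg_ins : ∀ {r s x y}, Tg r s x y → ins x ∧ ins y
  tg_symm : ∀ {r s x y}, Tg r s x y → Tg s r y x
  place : ∀ {r s x} {d : ℂ}, ok r → ok s → ins x → ‖d‖ = 1 → ∃ y, Tg r s x y ∧ dir x y = d
  uniq : ∀ {r s x y y'}, ok r → ok s → Tg r s x y → Tg r s x y' → dir x y = dir x y' → y = y'
  dir_norm : ∀ {r s x y}, ok r → ok s → Tg r s x y → ‖dir x y‖ = 1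
  tri : ∀ {r s t x y z}, ok r → ok s → ok t → Tg r s x y → Tg r t x z →
    dir x z = Complex.exp ((α r s t : ℝ) * Complex.I) * dir x y →
    Tg s t y z ∧ dir y x = Complex.exp ((α s t r : ℝ) * Complex.I) * dir y z ∧
      dir z y = Complex.exp ((α t r s : ℝ) * Complex.I) * dir z x

/-- three mutually tangent circles, positively oriented -/
structure FaceOK (G : Geom) (r s t : ℝ) (x y z : ℂ) : Prop where
  t1 : G.Tg r s x y
  t2 : G.Tg s t y z
  t3 : G.Tg r t x z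
  d1 : G.dir x z = Complex.exp ((G.α r s t : ℝ) * Complex.I) * G.dir x y
  d2 : G.dir y x = Complex.exp ((G.α s t r : ℝ) * Complex.I) * G.dir y z
  d3 : G.dir z y = Complex.exp ((G.α t r s : ℝ) * Complex.I) * G.dir z x

/-- A developed labelling: positions of all vertices with all faces in place. -/
def Dev (G : Geom) (b : ℕ → ℕ) (f : ℕ → ℤ → ℝ) (p : ℕ → ℤ → ℂ) : Prop :=
  (∀ (n : ℕ) (k : ℤ), FaceOK G (f n (k / (b n : ℤ))) (f (n + 1) k) (f (n + 1) (k + 1))
    (p n (k / (b n : ℤ))) (p (n + 1) k) (p (n + 1) (k + 1))) ∧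
  (∀ (n : ℕ), 1 ≤ n → ∀ j : ℤ, FaceOK G (f n j) (f (n + 1) ((j + 1) * (b n : ℤ))) (f n (j + 1))
    (p n j) (p (n + 1) ((j + 1) * (b n : ℤ))) (p n (j + 1)))

/-! ### Hyperbolic and euclidean data -/

/-- euclidean angle at the circle of radius `x` of a triple of tangent circles -/
noncomputable def ae (x y z : ℝ) : ℝ := 2 * Real.arctan (Real.sqrt (y * z / (x * (x + y + z))))

/-- hyperbolic angle at the circle of radius `log x` -/
noncomputable def ah (x y z : ℝ) : ℝ :=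
  2 * Real.arctan (Real.sqrt (x ^ 2 * (y ^ 2 - 1) * (z ^ 2 - 1) /
    ((x ^ 2 - 1) * (x ^ 2 * y ^ 2 * z ^ 2 - 1))))

/-- `tanh (log x / 2)` -/
noncomputable def Th (x : ℝ) : ℝ := (x - 1) / (x + 1)

/-- the automorphism of the disc which moves `a` to `0` -/
noncomputable def ph (a z : ℂ) : ℂ := (z - a) / (1 - (starRingEnd ℂ) a * z)

/-- the unit vector in the direction of `z` -/
noncomputable def un (z : ℂ) : ℂ := z / (‖z‖ : ℂ)

/-- hyperbolic tangency of the circles with centres `x`, `y` and radii `log r`, `log s` -/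
def TgH (r s : ℝ) (x y : ℂ) : Prop := ‖x‖ < 1 ∧ ‖y‖ < 1 ∧ ‖ph x y‖ = Th (r * s)

/-- euclidean centre of the circle with hyperbolic centre `a` and hyperbolic radius `log x` -/
noncomputable def cc (a : ℂ) (x : ℝ) : ℂ :=
  a * (((1 - Th x ^ 2) / (1 - ‖a‖ ^ 2 * Th x ^ 2) : ℝ) : ℂ)

/-- euclidean radius of the circle with hyperbolic centre `a` and hyperbolic radius `log x` -/
noncomputable def cr (a : ℂ) (x : ℝ) : ℝ :=
  Th x * (1 - ‖a‖ ^ 2) / (1 - ‖a‖ ^ 2 * Th x ^ 2)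

end Pool.Agent.Helper11.Fatou
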