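import Mathlib
import Pool.Agent.Helper11.Fatou.Defs

namespace Pool.Agent.Helper11.Fatou

theorem Q_pos {x y z : ℝ} (hx : 1 < x) (hy : 1 < y) (hz : 1 < z) :
    0 < x ^ 2 * y ^ 2 * z ^ 2 - 1 := by
  have h1 : 1 < x ^ 2 := by nlinarith
  have h2 : 1 < y ^ 2 := by nlinarith
  have h3 : 1 < z ^ 2 := by nlinarith
  have h4 : 1 < x ^ 2 * y ^ 2 := by nlinarith
  nlinarith

theorem ah_pos {x y z : ℝ} (hx : 1 < x) (hy : 1 < y) (hz : 1 < z) : 0 < ah x y z := by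
  unfold ah
  have h0 := Q_pos hx hy hz
  have h1 : 0 < x ^ 2 - 1 := by nlinarith
  have h2 : 0 < y ^ 2 - 1 := by nlinarith
  have h3 : 0 < z ^ 2 - 1 := by nlinarith
  have h4 : 0 < x := by linarith
  have h5 : 0 < Real.sqrt (x ^ 2 * (y ^ 2 - 1) * (z ^ 2 - 1) /
    ((x ^ 2 - 1) * (x ^ 2 * y ^ 2 * z ^ 2 - 1))) := Real.sqrt_pos.2 (by positivity)
  have h6 := Real.arctan_pos.2 h5
  linarith

theorem ah_lt_pi {x y z : ℝ} : ah x y z < Real.pi := by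
  unfold ah
  have := Real.arctan_lt_pi_div_two (Real.sqrt (x ^ 2 * (y ^ 2 - 1) * (z ^ 2 - 1) /
    ((x ^ 2 - 1) * (x ^ 2 * y ^ 2 * z ^ 2 - 1))))
  linarith

theorem ah_symm (x y z : ℝ) : ah x y z = ah x z y := by
  unfold ah
  congr 3
  rw [mul_right_comm (x ^ 2) (y ^ 2 - 1) (z ^ 2 - 1), mul_right_comm (x ^ 2) (y ^ 2) (z ^ 2)]

theorem ah_cont : ContinuousOn (fun p : ℝ × ℝ × ℝ => ah p.1 p.2.1 p.2.2)
    {p | 1 < p.1 ∧ 1 < p.2.1 ∧ 1 < p.2.2} := by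
  unfold ah
  apply ContinuousOn.mul continuousOn_const
  apply Real.continuous_arctan.comp_continuousOn
  apply Real.continuous_sqrt.comp_continuousOn
  apply ContinuousOn.div
  · fun_prop
  · fun_prop
  · rintro ⟨x, y, z⟩ ⟨hx, hy, hz⟩
    simp only at hx hy hz ⊢
    have h0 := Q_pos hx hy hz
    have h1 : 0 < x ^ 2 - 1 := by nlinarith
    positivity

theorem ah_mono1 {x y z y' : ℝ} (hx : 1 < x) (hy : 1 < y) (hz : 1 < z) (hyy : y ≤ y') :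
    ah x y z ≤ ah x y' z := by
  unfold ah
  have h0 := Q_pos hx hy hz
  have hy' : 1 < y' := by linarith
  have h0' := Q_pos hx hy' hz
  have h1 : 0 < x ^ 2 - 1 := by nlinarith
  have h2 : 0 < y ^ 2 - 1 := by nlinarith
  have h3 : 0 < z ^ 2 - 1 := by nlinarith
  have h4 : 0 < x := by linarith
  have h5 : 0 ≤ y' ^ 2 - y ^ 2 := by nlinarith
  have h6 : 0 < x ^ 2 * z ^ 2 - 1 := by nlinarith
  apply mul_le_mul_of_nonneg_left _ (by norm_num)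
  apply Real.arctan_le_arctan_iff.2
  apply Real.sqrt_le_sqrt
  rw [div_le_div_iff₀ (by positivity) (by positivity)]
  have h7 : 0 ≤ x ^ 2 * (z ^ 2 - 1) * (x ^ 2 - 1) * ((y' ^ 2 - y ^ 2) * (x ^ 2 * z ^ 2 - 1)) := by
    positivity
  nlinarith [h7]

theorem ah_mono {x y z y' z' : ℝ} (hx : 1 < x) (hy : 1 < y) (hz : 1 < z) (hyy : y ≤ y')
    (hzz : z ≤ z') : ah x y z ≤ ah x y' z' := by
  refine (ah_mono1 hx hy hz hyy).trans ?_
  rw [ah_symm x y' z, ah_symm x y' z']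
  exact ah_mono1 hx hz (by linarith) hzz

theorem arctan_le_self' {t : ℝ} (ht : 0 ≤ t) : Real.arctan t ≤ t := by
  have h := Real.le_tan (Real.arctan_nonneg.2 ht) (Real.arctan_lt_pi_div_two t)
  rwa [Real.tan_arctan] at h

theorem ah_le {x y z : ℝ} (hx : 2 ≤ x) (hy : 1 < y) (hz : 1 < z) : ah x y z ≤ 3 / x := by
  have hx1 : 1 < x := by linarith
  have h0 := Q_pos hx1 hy hz
  have h1 : 0 < x ^ 2 - 1 := by nlinarith
  have h2 : 0 < y ^ 2 - 1 := by nlinarith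
  have h3 : 0 < z ^ 2 - 1 := by nlinarith
  have h4 : 0 < x := by linarith
  have hQ : x ^ 2 * (y ^ 2 - 1) * (z ^ 2 - 1) / ((x ^ 2 - 1) * (x ^ 2 * y ^ 2 * z ^ 2 - 1)) ≤
      (3 / (2 * x)) ^ 2 := by
    have e1 : x ^ 2 * (y ^ 2 - 1) * (z ^ 2 - 1) / ((x ^ 2 - 1) * (x ^ 2 * y ^ 2 * z ^ 2 - 1)) ≤
        1 / (x ^ 2 - 1) := by
      rw [div_le_div_iff₀ (by positivity) h1]
      have e2 : x ^ 2 * (y ^ 2 - 1) * (z ^ 2 - 1) ≤ x ^ 2 * y ^ 2 * z ^ 2 - 1 := by nlinarith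
      nlinarith
    refine e1.trans ?_
    rw [div_pow, div_le_div_iff₀ h1 (by positivity)]
    nlinarith
  have hs : Real.sqrt (x ^ 2 * (y ^ 2 - 1) * (z ^ 2 - 1) /
      ((x ^ 2 - 1) * (x ^ 2 * y ^ 2 * z ^ 2 - 1))) ≤ 3 / (2 * x) := by
    rw [Real.sqrt_le_iff]
    exact ⟨by positivity, hQ⟩
  unfold ah
  have ha := (arctan_le_self' (Real.sqrt_nonneg (x ^ 2 * (y ^ 2 - 1) * (z ^ 2 - 1) /
      ((x ^ 2 - 1) * (x ^ 2 * y ^ 2 * z ^ 2 - 1))))).trans hs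
  calc _ ≤ 2 * (3 / (2 * x)) := by linarith
    _ = 3 / x := by field_simp

theorem ah_ge {x y z : ℝ} (hx : 1000 ≤ x) (hy : 1000 ≤ y) (hz : 1000 ≤ z) :
    19 / 10 / x ≤ ah x y z := by
  have hx1 : 1 < x := by linarith
  have hy1 : 1 < y := by linarith
  have hz1 : 1 < z := by linarith
  have h0 := Q_pos hx1 hy1 hz1
  have h1 : 0 < x ^ 2 - 1 := by nlinarith
  have h2 : 0 < y ^ 2 - 1 := by nlinarith
  have h3 : 0 < z ^ 2 - 1 := by nlinarith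
  have h4 : 0 < x := by linarith
  have h5 : 0 < y := by linarith
  have h6 : 0 < z := by linarith
  have hY : 995 / 1000 * y ^ 2 ≤ y ^ 2 - 1 := by nlinarith
  have hZ : 995 / 1000 * z ^ 2 ≤ z ^ 2 - 1 := by nlinarith
  have hQ : (99 / 100 / x) ^ 2 ≤
      x ^ 2 * (y ^ 2 - 1) * (z ^ 2 - 1) / ((x ^ 2 - 1) * (x ^ 2 * y ^ 2 * z ^ 2 - 1)) := by
    rw [div_pow, div_le_div_iff₀ (by positivity) (by positivity)]
    have e1 : (995 / 1000 * y ^ 2) * (995 / 1000 * z ^ 2) ≤ (y ^ 2 - 1) * (z ^ 2 - 1) :=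
      mul_le_mul hY hZ (by positivity) h2.le
    have e2 : (x ^ 2 - 1) * (x ^ 2 * y ^ 2 * z ^ 2 - 1) ≤ x ^ 2 * (x ^ 2 * y ^ 2 * z ^ 2) := by
      apply mul_le_mul _ _ h0.le (by positivity)
      · linarith
      · linarith
    calc (99 / 100) ^ 2 * ((x ^ 2 - 1) * (x ^ 2 * y ^ 2 * z ^ 2 - 1))
        ≤ (99 / 100) ^ 2 * (x ^ 2 * (x ^ 2 * y ^ 2 * z ^ 2)) := by gcongr
      _ ≤ x ^ 2 * x ^ 2 * ((995 / 1000 * y ^ 2) * (995 / 1000 * z ^ 2)) := by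
          have : 0 ≤ x ^ 2 * x ^ 2 * (y ^ 2 * z ^ 2) := by positivity
          nlinarith
      _ ≤ x ^ 2 * x ^ 2 * ((y ^ 2 - 1) * (z ^ 2 - 1)) := by gcongr
      _ = x ^ 2 * (y ^ 2 - 1) * (z ^ 2 - 1) * x ^ 2 := by ring
  have ht0 : 0 ≤ 99 / 100 / x := by positivity
  have hs : 99 / 100 / x ≤ Real.sqrt (x ^ 2 * (y ^ 2 - 1) * (z ^ 2 - 1) /
      ((x ^ 2 - 1) * (x ^ 2 * y ^ 2 * z ^ 2 - 1))) := Real.le_sqrt_of_sq_le hQ
  have ha := Real.arctan_le_arctan_iff.2 hs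
  have hb : (99 / 100 / x) / (1001 / 1000) ≤ Real.arctan (99 / 100 / x) := by
    have e1 := Real.sin_le (Real.arctan_nonneg.2 ht0)
    rw [Real.sin_arctan] at e1
    refine le_trans ?_ e1
    have e2 : Real.sqrt (1 + (99 / 100 / x) ^ 2) ≤ 1001 / 1000 := by
      rw [Real.sqrt_le_iff]
      refine ⟨by norm_num, ?_⟩
      have e3 : 99 / 100 / x ≤ 1 / 1000 := by
        rw [div_le_iff₀ h4]
        linarith
      nlinarith
    have e4 : 0 < Real.sqrt (1 + (99 / 100 / x) ^ 2) := Real.sqrt_pos.2 (by positivity)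
    exact div_le_div_of_nonneg_left ht0 e4 e2
  unfold ah
  have hc : 19 / 10 / x ≤ 2 * ((99 / 100 / x) / (1001 / 1000)) := by
    have e1 : 2 * ((99 / 100 / x) / (1001 / 1000)) = (2 * (99 / 100) / (1001 / 1000)) / x := by
      field_simp
    rw [e1]
    apply div_le_div_of_nonneg_right _ h4.le
    norm_num
  linarith

end Pool.Agent.Helper11.Fatou

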