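import Mathlib
import Pool.Agent.Helper11.Fatou.Defs

namespace Pool.Agent.Helper11.Fatou

/-- The data which select the blocks and the parity classes: the block of the vertex `(n, j)` is
the set of its children with index in `[s n j, s n j + B n)`. -/
structure Blk (b : ℕ → ℕ) where
  B : ℕ → ℕ
  s : ℕ → ℤ → ℤ
  eps : ℕ → ℤ
  s_per : ∀ n j, s n (j + (L b n : ℤ)) = s n j + (L b (n + 1) : ℤ)
  s_lo : ∀ n j, j * (b n : ℤ) + 1 ≤ s n j
  s_hi : ∀ n j, s n j + (B n : ℤ) ≤ (j + 1) * (b n : ℤ)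

/-- `k` (of level `n + 1`) is in the block of its parent -/
def Blk.inb {b : ℕ → ℕ} (D : Blk b) (n : ℕ) (k : ℤ) : Prop :=
  D.s n (k / (b n : ℤ)) ≤ k ∧ k < D.s n (k / (b n : ℤ)) + (D.B n : ℤ)

/-- no ancestor is in a block -/
def Blk.alive {b : ℕ → ℕ} (D : Blk b) : ℕ → ℤ → Prop
  | 0, _ => True
  | n + 1, k => D.alive n (k / (b n : ℤ)) ∧ ¬ D.inb n k

/-- the vertices with circles of radius `1 / 2` -/
def Blk.giant {b : ℕ → ℕ} (D : Blk b) (n : ℕ) (k : ℤ) : Prop :=
  Odd n ∧ k % 2 = D.eps n ∧ D.alive n k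

/-- the size of the small circles of level `n` -/
noncomputable def msz (n : ℕ) : ℝ := (1 / 2) ^ (n + 10)

open Classical in
/-- the radius given in advance to the vertices of level `n + 1` outside of the blocks -/
noncomputable def Blk.pre {b : ℕ → ℕ} (D : Blk b) (n : ℕ) (k : ℤ) : ℝ :=
  if D.giant (n + 1) k then 1 / 2 else msz (n + 1) / (b n : ℝ)

end Pool.Agent.Helper11.Fatou
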