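import Mathlib
import Pool.Agent.Helper11.Fatou.Defs
import Pool.Agent.Helper11.Fatou.Blocks

namespace Pool.Agent.Helper11.Fatou














theorem I2_parent {b : ℕ → ℕ} (hb : ∀ n, 4 ≤ b n) {Θ : ℕ → ℤ → ℝ}
    (hmono : ∀ n j, Θ (n + 1) j < Θ (n + 1) (j + 1))
    (hnest : ∀ n j, Θ (n + 2) (j * (b (n + 1) : ℤ)) < Θ (n + 1) j ∧
      Θ (n + 1) j < Θ (n + 2) ((j + 1) * (b (n + 1) : ℤ) - 1)) {θ : ℝ}
    {m : ℕ} {x : ℤ} (h1 : Θ (m + 2) (x - 1) < θ) (h2 : θ < Θ (m + 2) (x + 1)) :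
    Θ (m + 1) (x / (b (m + 1) : ℤ) - 1) < θ ∧ θ < Θ (m + 1) (x / (b (m + 1) : ℤ) + 1) := by
  have hsm : StrictMono (Θ (m + 2)) := strictMono_int_of_lt_succ (hmono (m + 1))
  have hbp : (0 : ℤ) < (b (m + 1) : ℤ) := by
    have := hb (m + 1)
    exact_mod_cast (by omega : 0 < b (m + 1))
  set u : ℤ := x / (b (m + 1) : ℤ) with hu
  have e1 : u * (b (m + 1) : ℤ) ≤ x := Int.ediv_mul_le x hbp.ne'
  have e2 : x < (u + 1) * (b (m + 1) : ℤ) := Int.lt_ediv_add_one_mul_self x hbp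
  constructor
  · have h3 := (hnest m (u - 1)).2
    have h4 : (u - 1 + 1) * (b (m + 1) : ℤ) - 1 ≤ x - 1 := by
      rw [sub_add_cancel]; linarith
    exact h3.trans_le ((hsm.monotone h4).trans h1.le)
  · have h3 := (hnest m (u + 1)).1
    have h4 : x + 1 ≤ (u + 1) * (b (m + 1) : ℤ) := by omega
    exact h2.trans_le ((hsm.monotone h4).trans h3.le)

/-- outside of the dead set all vertices near the ray are alive -/
theorem alive_of {b : ℕ → ℕ} (hb : ∀ n, 4 ≤ b n) (D : Blk b) {Θ : ℕ → ℤ → ℝ}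
    (hmono : ∀ n j, Θ (n + 1) j < Θ (n + 1) (j + 1))
    (hnest : ∀ n j, Θ (n + 2) (j * (b (n + 1) : ℤ)) < Θ (n + 1) j ∧
      Θ (n + 1) j < Θ (n + 2) ((j + 1) * (b (n + 1) : ℤ) - 1)) {θ : ℝ}
    (hθ : ∀ n j, ¬ (Θ (n + 1) (D.s n j - 1) ≤ θ ∧ θ ≤ Θ (n + 1) (D.s n j + (D.B n : ℤ))))
    {m : ℕ} {k : ℤ} (h1 : Θ (m + 1) (k - 1) < θ) (h2 : θ < Θ (m + 1) (k + 1)) :
    D.alive (m + 1) k := by
  have hinb : ∀ (n : ℕ) (k : ℤ), Θ (n + 1) (k - 1) < θ → θ < Θ (n + 1) (k + 1) → ¬ D.inb n k := by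
    intro n k h1 h2 h
    have hsm : StrictMono (Θ (n + 1)) := strictMono_int_of_lt_succ (hmono n)
    obtain ⟨h3, h4⟩ := h
    apply hθ n (k / (b n : ℤ))
    constructor
    · exact (hsm.monotone (by linarith)).trans h1.le
    · exact h2.le.trans (hsm.monotone (by omega))
  induction m generalizing k with
  | zero => exact ⟨trivial, hinb 0 k h1 h2⟩
  | succ m ih =>
    obtain ⟨h3, h4⟩ := I2_parent hb hmono hnest h1 h2
    exact ⟨ih h3 h4, hinb (m + 1) k h1 h2⟩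

/-- consecutive vertices near a ray -/
theorem parent_close {b : ℕ → ℕ} (hb : ∀ n, 4 ≤ b n) {Θ : ℕ → ℤ → ℝ}
    (hmono : ∀ n j, Θ (n + 1) j < Θ (n + 1) (j + 1))
    (hnest : ∀ n j, Θ (n + 2) (j * (b (n + 1) : ℤ)) < Θ (n + 1) j ∧
      Θ (n + 1) j < Θ (n + 2) ((j + 1) * (b (n + 1) : ℤ) - 1)) {θ : ℝ}
    {m : ℕ} {x y : ℤ} (h1 : Θ (m + 2) (x - 1) < θ) (h2 : θ < Θ (m + 2) (x + 1))
    (h3 : Θ (m + 1) (y - 1) < θ) (h4 : θ < Θ (m + 1) (y + 1)) :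
    |x / (b (m + 1) : ℤ) - y| ≤ 1 := by
  have hsm : StrictMono (Θ (m + 1)) := strictMono_int_of_lt_succ (hmono m)
  obtain ⟨h5, h6⟩ := I2_parent hb hmono hnest h1 h2
  have h7 := hsm.lt_iff_lt.1 (h5.trans h4)
  have h8 := hsm.lt_iff_lt.1 (h3.trans h6)
  rw [abs_le]
  constructor <;> omega

end Pool.Agent.Helper11.Fatou
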