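import Mathlib
import Pool.Agent.Helper11.Fatou.Defs

namespace Pool.Agent.Helper11.Fatou

theorem aux_shift {L0 : ℕ} {g : ℤ → ℝ} (hper : ∀ j, g (j + (L0 : ℤ)) = g j + 2 * Real.pi) (q : ℤ) :
    ∀ x : ℤ, g (x + q * (L0 : ℤ)) = g x + (q : ℝ) * (2 * Real.pi) := by
  induction q using Int.induction_on with
  | zero => intro x; simp
  | succ i ih =>
    intro x
    have h1 : x + ((i : ℤ) + 1) * (L0 : ℤ) = (x + (i : ℤ) * (L0 : ℤ)) + (L0 : ℤ) := by ring
    rw [h1, hper, ih]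
    push_cast
    ring
  | pred i ih =>
    intro x
    have h1 : (x + (-(i : ℤ) - 1) * (L0 : ℤ)) + (L0 : ℤ) = x + (-(i : ℤ)) * (L0 : ℤ) := by ring
    have h2 := hper (x + (-(i : ℤ) - 1) * (L0 : ℤ))
    rw [h1, ih] at h2
    push_cast at h2 ⊢
    linarith

/-- choice of blocks with a small share -/
theorem exists_blocks {b : ℕ → ℕ} (hb : ∀ n, 4 ≤ b n) (B T : ℕ → ℕ) (hT : ∀ n, 1 ≤ T n)
    (hbT : ∀ n, 1 + T n * (B n + 1) ≤ b n) {Θ : ℕ → ℤ → ℝ}
    (hmono : ∀ n j, Θ (n + 1) j < Θ (n + 1) (j + 1))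
    (hper : ∀ n j, Θ (n + 1) (j + (L b (n + 1) : ℤ)) = Θ (n + 1) j + 2 * Real.pi) :
    ∃ s : ℕ → ℤ → ℤ, (∀ n j, s n (j + (L b n : ℤ)) = s n j + (L b (n + 1) : ℤ)) ∧
      (∀ n j, j * (b n : ℤ) + 1 ≤ s n j) ∧
      (∀ n j, s n j + (B n : ℤ) ≤ (j + 1) * (b n : ℤ)) ∧
      ∀ n j, Θ (n + 1) (s n j + (B n : ℤ)) - Θ (n + 1) (s n j - 1) ≤
        (Θ (n + 1) ((j + 1) * (b n : ℤ)) - Θ (n + 1) (j * (b n : ℤ))) / (T n : ℝ) := by
  have hmon : ∀ n, Monotone (Θ (n + 1)) := fun n =>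
    (strictMono_int_of_lt_succ (fun j => hmono n j)).monotone
  have key : ∀ (n : ℕ) (j : ℤ), ∃ o : ℕ, o < T n ∧
      Θ (n + 1) (j * (b n : ℤ) + 1 + (o : ℤ) * ((B n : ℤ) + 1) + (B n : ℤ)) -
        Θ (n + 1) (j * (b n : ℤ) + 1 + (o : ℤ) * ((B n : ℤ) + 1) - 1) ≤
        (Θ (n + 1) ((j + 1) * (b n : ℤ)) - Θ (n + 1) (j * (b n : ℤ))) / (T n : ℝ) := by
    intro n j
    set G : ℕ → ℝ := fun i => Θ (n + 1) (j * (b n : ℤ) + (i : ℤ) * ((B n : ℤ) + 1)) with hG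
    have hTpos : (0 : ℝ) < T n := by
      have := hT n
      exact_mod_cast this
    have htel : ∑ i ∈ Finset.range (T n), (G (i + 1) - G i) = G (T n) - G 0 :=
      Finset.sum_range_sub G (T n)
    have hle : G (T n) - G 0 ≤ Θ (n + 1) ((j + 1) * (b n : ℤ)) - Θ (n + 1) (j * (b n : ℤ)) := by
      have h1 : G (T n) ≤ Θ (n + 1) ((j + 1) * (b n : ℤ)) := by
        apply hmon n
        have h2 : ((1 + T n * (B n + 1) : ℕ) : ℤ) ≤ (b n : ℤ) := by exact_mod_cast hbT n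
        push_cast at h2
        linarith
      have h3 : G 0 = Θ (n + 1) (j * (b n : ℤ)) := by
        simp [hG]
      rw [h3]
      linarith
    have hex : ∃ i ∈ Finset.range (T n), (G (i + 1) - G i) ≤
        (Θ (n + 1) ((j + 1) * (b n : ℤ)) - Θ (n + 1) (j * (b n : ℤ))) / (T n : ℝ) := by
      apply Finset.exists_le_of_sum_le
      · exact ⟨0, Finset.mem_range.mpr (hT n)⟩
      · rw [htel, Finset.sum_const, Finset.card_range, nsmul_eq_mul, mul_div_cancel₀ _ hTpos.ne']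
        exact hle
    obtain ⟨i, hi, hi2⟩ := hex
    refine ⟨i, Finset.mem_range.mp hi, ?_⟩
    have e1 : j * (b n : ℤ) + 1 + (i : ℤ) * ((B n : ℤ) + 1) + (B n : ℤ) =
        j * (b n : ℤ) + ((i + 1 : ℕ) : ℤ) * ((B n : ℤ) + 1) := by push_cast; ring
    have e2 : j * (b n : ℤ) + 1 + (i : ℤ) * ((B n : ℤ) + 1) - 1 =
        j * (b n : ℤ) + (i : ℤ) * ((B n : ℤ) + 1) := by ring
    rw [e1, e2]
    exact hi2
  choose o ho1 ho2 using key
  refine ⟨fun n j => j * (b n : ℤ) + 1 + (o n (j % (L b n : ℤ)) : ℤ) * ((B n : ℤ) + 1), ?_, ?_, ?_, ?_⟩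
  · intro n j
    have h1 : (j + (L b n : ℤ)) % (L b n : ℤ) = j % (L b n : ℤ) := by
      rw [Int.add_emod_right]
    have h2 : ((L b (n + 1) : ℕ) : ℤ) = (L b n : ℤ) * (b n : ℤ) := by
      show ((L b n * b n : ℕ) : ℤ) = _
      push_cast
      ring
    simp only [h1, h2]
    ring
  · intro n j
    have h1 : (0 : ℤ) ≤ (o n (j % (L b n : ℤ)) : ℤ) * ((B n : ℤ) + 1) := by positivity
    simp only
    linarith
  · intro n j
    have h1 : (o n (j % (L b n : ℤ)) : ℤ) + 1 ≤ (T n : ℤ) := by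
      exact_mod_cast ho1 n (j % (L b n : ℤ))
    have h2 : ((1 + T n * (B n + 1) : ℕ) : ℤ) ≤ (b n : ℤ) := by exact_mod_cast hbT n
    push_cast at h2
    have h3 : ((o n (j % (L b n : ℤ)) : ℤ) + 1) * ((B n : ℤ) + 1) ≤ (T n : ℤ) * ((B n : ℤ) + 1) :=
      mul_le_mul_of_nonneg_right h1 (by positivity)
    simp only
    linarith
  · intro n j
    simp only
    set j' := j % (L b n : ℤ) with hj'
    set q := j / (L b n : ℤ) with hq
    have hj : j = j' + (L b n : ℤ) * q := by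
      rw [hj', hq]
      exact (Int.emod_add_mul_ediv j _).symm
    have h2 : ((L b (n + 1) : ℕ) : ℤ) = (L b n : ℤ) * (b n : ℤ) := by
      show ((L b n * b n : ℕ) : ℤ) = _
      push_cast
      ring
    have hs := aux_shift (hper n) q
    have e1 : j * (b n : ℤ) + 1 + (o n j' : ℤ) * ((B n : ℤ) + 1) + (B n : ℤ) =
        (j' * (b n : ℤ) + 1 + (o n j' : ℤ) * ((B n : ℤ) + 1) + (B n : ℤ)) +
          q * (L b (n + 1) : ℤ) := by
      rw [h2]
      conv_lhs => rw [hj]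
      ring
    have e2 : j * (b n : ℤ) + 1 + (o n j' : ℤ) * ((B n : ℤ) + 1) - 1 =
        (j' * (b n : ℤ) + 1 + (o n j' : ℤ) * ((B n : ℤ) + 1) - 1) + q * (L b (n + 1) : ℤ) := by
      rw [h2]
      conv_lhs => rw [hj]
      ring
    have e3 : (j + 1) * (b n : ℤ) = (j' + 1) * (b n : ℤ) + q * (L b (n + 1) : ℤ) := by
      rw [h2]
      conv_lhs => rw [hj]
      ring
    have e4 : j * (b n : ℤ) = j' * (b n : ℤ) + q * (L b (n + 1) : ℤ) := by
      rw [h2]
      conv_lhs => rw [hj]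
      ring
    rw [e1, e2, e3, hs, hs, hs]
    rw [e4, hs]
    have := ho2 n j'
    have e5 : ∀ x y z : ℝ, (x + z) - (y + z) = x - y := by intros; ring
    rw [e5, e5]
    exact this

theorem aux_one_interval (a c : ℝ) (t : ℤ) :
    MeasureTheory.volume (Set.Icc (a + 2 * Real.pi * t) (c + 2 * Real.pi * t) ∩
      Set.Ico 0 (2 * Real.pi)) =
    MeasureTheory.volume (Set.Icc a c ∩ Set.Ico ((-t : ℤ) • (2 * Real.pi))
      (((-t : ℤ) + 1) • (2 * Real.pi))) := by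
  rw [← MeasureTheory.measure_preimage_add_right MeasureTheory.volume (2 * Real.pi * t)
    (Set.Icc (a + 2 * Real.pi * t) (c + 2 * Real.pi * t) ∩ Set.Ico 0 (2 * Real.pi))]
  congr 1
  ext x
  simp only [Set.mem_preimage, Set.mem_inter_iff, Set.mem_Icc, Set.mem_Ico, zsmul_eq_mul]
  push_cast
  constructor
  · rintro ⟨⟨h1, h2⟩, h3, h4⟩
    refine ⟨⟨by linarith, by linarith⟩, by linarith, by linarith⟩
  · rintro ⟨⟨h1, h2⟩, h3, h4⟩
    refine ⟨⟨by linarith, by linarith⟩, by linarith, by linarith⟩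

theorem aux_tsum_interval (a c : ℝ) :
    ∑' t : ℤ, MeasureTheory.volume (Set.Icc (a + 2 * Real.pi * t) (c + 2 * Real.pi * t) ∩
      Set.Ico 0 (2 * Real.pi)) = ENNReal.ofReal (c - a) := by
  have hp : (0 : ℝ) < 2 * Real.pi := by positivity
  simp_rw [aux_one_interval]
  have hneg := (Equiv.neg ℤ).tsum_eq (fun t : ℤ => MeasureTheory.volume (Set.Icc a c ∩
    Set.Ico (t • (2 * Real.pi)) ((t + 1) • (2 * Real.pi))))
  simp only [Equiv.neg_apply] at hneg
  rw [hneg]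
  rw [← MeasureTheory.measure_iUnion]
  · rw [← Set.inter_iUnion, iUnion_Ico_zsmul hp, Set.inter_univ, Real.volume_Icc]
  · intro s t hst
    have := Set.pairwise_disjoint_Ico_zsmul (2 * Real.pi) hst
    exact this.mono Set.inter_subset_right Set.inter_subset_right
  · intro t
    exact measurableSet_Icc.inter measurableSet_Ico

/-- a periodic family of intervals -/
theorem dead_measure {N : ℕ} {a c : ℤ → ℝ} (ha : ∀ j, a (j + (N : ℤ)) = a j + 2 * Real.pi)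
    (hc : ∀ j, c (j + (N : ℤ)) = c j + 2 * Real.pi) (hac : ∀ j, a j ≤ c j) :
    MeasureTheory.volume ((⋃ j, Set.Icc (a j) (c j)) ∩ Set.Ico 0 (2 * Real.pi)) ≤
      ENNReal.ofReal (∑ j ∈ Finset.range N, (c (j : ℤ) - a (j : ℤ))) := by
  have hp : (0 : ℝ) < 2 * Real.pi := by positivity
  have hN : (N : ℤ) ≠ 0 := by
    intro h0
    have := ha 0
    rw [h0] at this
    simp at this
  have hNpos : (0 : ℤ) < N := by
    have : (0 : ℤ) ≤ N := Int.natCast_nonneg N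
    omega
  have hsub : (⋃ j, Set.Icc (a j) (c j)) ∩ Set.Ico 0 (2 * Real.pi) ⊆
      ⋃ r ∈ Finset.range N, ⋃ t : ℤ, (Set.Icc (a (r : ℤ) + 2 * Real.pi * t)
        (c (r : ℤ) + 2 * Real.pi * t) ∩ Set.Ico 0 (2 * Real.pi)) := by
    rintro x ⟨hx, hx2⟩
    rw [Set.mem_iUnion] at hx
    obtain ⟨j, hj⟩ := hx
    have h0 : 0 ≤ j % (N : ℤ) := Int.emod_nonneg j hN
    have h1 : j % (N : ℤ) < N := Int.emod_lt_of_pos j hNpos
    have hr : (((j % (N : ℤ)).toNat : ℕ) : ℤ) = j % (N : ℤ) := Int.toNat_of_nonneg h0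
    have hj2 : j = ((j % (N : ℤ)).toNat : ℤ) + (j / (N : ℤ)) * (N : ℤ) := by
      rw [hr]
      have := Int.emod_add_mul_ediv j (N : ℤ)
      linarith
    simp only [Set.mem_iUnion]
    refine ⟨(j % (N : ℤ)).toNat, ?_, j / (N : ℤ), ?_, hx2⟩
    · rw [Finset.mem_range]
      omega
    · rw [hj2, aux_shift ha, aux_shift hc] at hj
      rw [Set.mem_Icc] at hj ⊢
      constructor
      · linarith [hj.1]
      · linarith [hj.2]
  refine (MeasureTheory.measure_mono hsub).trans ?_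
  refine (MeasureTheory.measure_biUnion_finset_le _ _).trans ?_
  rw [ENNReal.ofReal_sum_of_nonneg (fun i _ => sub_nonneg.mpr (hac _))]
  refine Finset.sum_le_sum (fun r _ => ?_)
  refine (MeasureTheory.measure_iUnion_le _).trans ?_
  rw [aux_tsum_interval]

/-- the limsup of large sets is large -/
theorem limsup_large {X : ℕ → Set ℝ} (hX : ∀ m, MeasurableSet (X m))
    (hsub : ∀ m, X m ⊆ Set.Ico 0 (2 * Real.pi)) {c : ENNReal} (hc : 0 < c)
    (hv : ∀ m, Odd m → c ≤ MeasureTheory.volume (X m)) :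
    MeasurableSet {θ | ∃ᶠ m in Filter.atTop, Odd m ∧ θ ∈ X m} ∧
      0 < MeasureTheory.volume {θ | ∃ᶠ m in Filter.atTop, Odd m ∧ θ ∈ X m} := by
  set Y : ℕ → Set ℝ := fun n => ⋃ m, ⋃ (_ : n ≤ m ∧ Odd m), X m with hY
  have hset : {θ | ∃ᶠ m in Filter.atTop, Odd m ∧ θ ∈ X m} = ⋂ n, Y n := by
    ext θ
    simp only [Set.mem_setOf_eq, Filter.frequently_atTop, Set.mem_iInter, hY, Set.mem_iUnion,
      exists_prop]
    constructor
    · intro h n
      obtain ⟨m, hm, h1, h2⟩ := h n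
      exact ⟨m, ⟨hm, h1⟩, h2⟩
    · intro h n
      obtain ⟨m, ⟨hm, h1⟩, h2⟩ := h n
      exact ⟨m, hm, h1, h2⟩
  have hYm : ∀ n, MeasurableSet (Y n) := fun n =>
    MeasurableSet.iUnion (fun m => MeasurableSet.iUnion (fun _ => hX m))
  have hanti : Antitone Y := by
    intro n n' hn x hx
    simp only [hY, Set.mem_iUnion, exists_prop] at hx ⊢
    obtain ⟨m, ⟨hm, h1⟩, h2⟩ := hx
    exact ⟨m, ⟨hn.trans hm, h1⟩, h2⟩
  have hfin : MeasureTheory.volume (Y 0) ≠ ⊤ := by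
    have h1 : Y 0 ⊆ Set.Ico 0 (2 * Real.pi) := by
      intro x hx
      simp only [hY, Set.mem_iUnion, exists_prop] at hx
      obtain ⟨m, _, h2⟩ := hx
      exact hsub m h2
    refine ((MeasureTheory.measure_mono h1).trans_lt ?_).ne
    rw [Real.volume_Ico]
    exact ENNReal.ofReal_lt_top
  rw [hset]
  refine ⟨MeasurableSet.iInter hYm, ?_⟩
  rw [hanti.measure_iInter (fun n => (hYm n).nullMeasurableSet) ⟨0, hfin⟩]
  refine hc.trans_le (le_iInf (fun n => ?_))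
  have hodd : Odd (2 * n + 1) := ⟨n, rfl⟩
  refine (hv (2 * n + 1) hodd).trans (MeasureTheory.measure_mono ?_)
  intro x hx
  simp only [hY, Set.mem_iUnion, exists_prop]
  exact ⟨2 * n + 1, ⟨by omega, hodd⟩, hx⟩

end Pool.Agent.Helper11.Fatou
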