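import Pool.Agent.Helper11.Koebe.Geo
import Pool.Agent.Helper11.Koebe.Meas

namespace Pool.Agent.Helper11.Fatou

open Pool.Agent.Helper11.Koebe

theorem area_le {ι : Type*} (S : Finset ι) (c : ι → ℂ) (r : ι → ℝ) (hr : ∀ i ∈ S, 0 < r i)
    (hd : ∀ i ∈ S, ∀ j ∈ S, i ≠ j → r i + r j ≤ dist (c i) (c j)) (p : ℂ) (R : ℝ) (hR : 0 ≤ R)
    (hin : ∀ i ∈ S, dist (c i) p + r i ≤ R) : ∑ i ∈ S, (r i) ^ 2 ≤ R ^ 2 :=
  Pool.Agent.Helper11.Koebe.area_le S c r hr hd p R hR hin

/-- a connected set which leaves the family of stars only through discs of the family -/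
theorem covered {V : Type*} {K : Tri V} {P : Packing K} (hP : P.Univalent) (W : Set V)
    (hW : W.Finite) (hint : ∀ x ∈ W, K.Interior x)
    (γ : Set ℂ) (hγ : IsPreconnected γ) (x0 : V) (hx0 : x0 ∈ W)
    (hx0' : (Metric.closedBall (P.c x0) (P.r x0) ∩ γ).Nonempty)
    (hcl : ∀ x ∈ W, ∀ y, K.Adj x y → (Metric.closedBall (P.c y) (P.r y) ∩ γ).Nonempty → y ∈ W) :
    γ ⊆ P.carrier := by
  refine (Packing.covered hP W hW hint γ hγ x0 hx0 hx0' hcl).trans ?_
  exact Set.iUnion₂_subset fun x _ => Packing.star_subset_carrier x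

theorem disc_subset_star' {V : Type*} {K : Tri V} {P : Packing K} {a : V} (ha : K.Interior a) :
    Metric.closedBall (P.c a) (P.r a) ⊆
      {z | ∃ x y, K.face a x y ∧ z ∈ convexHull ℝ {P.c a, P.c x, P.c y}} := by
  obtain ⟨m, hm, h⟩ := Packing.exists_min_nbr (P := P) a
  have hra := P.r_pos a
  have h1 := Packing.ball_subset_star' ha hm.le h
  have h2 : P.r a < Real.sqrt ((P.r a) ^ 2 + 2 * P.r a * m) := by
    apply Real.lt_sqrt_of_sq_lt
    have : 0 < P.r a * m := mul_pos hra hm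
    linarith
  exact (Metric.closedBall_subset_ball h2).trans h1

end Pool.Agent.Helper11.Fatou
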