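import Mathlib
import Pool.Agent.Helper11.Koebe.Defs
import Pool.Agent.Helper11.Fatou.Defs
import Pool.Agent.Helper11.Fatou.Bridge

namespace Pool.Agent.Helper11.Fatou

open Pool.Agent.Helper11.Koebe

theorem finite_in {V : Type*} {K : Tri V} {Q : Packing K} (hQ : Q.Univalent)
    (hin : ∀ v, ‖Q.c v‖ + Q.r v < 1)
    (hlow : ∀ v ρ, 0 ≤ ρ → ρ < 1 → ‖Q.c v‖ - Q.r v ≤ ρ → (1 - ρ) / 8 ≤ Q.r v)
    {ρ : ℝ} (hρ0 : 0 ≤ ρ) (hρ1 : ρ < 1) : {v | ‖Q.c v‖ - Q.r v ≤ ρ}.Finite := by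
  by_contra hinf
  have hinf' : ({v | ‖Q.c v‖ - Q.r v ≤ ρ} : Set V).Infinite := hinf
  have hpos : 0 < 1 - ρ := by linarith
  obtain ⟨n, hn⟩ := exists_nat_gt (64 / (1 - ρ) ^ 2)
  obtain ⟨S, hS, hcard⟩ := hinf'.exists_subset_card_eq n
  have hsum : ∑ i ∈ S, (Q.r i) ^ 2 ≤ (1 : ℝ) ^ 2 := by
    refine area_le S Q.c Q.r (fun i _ => Q.r_pos i) ?_ 0 1 zero_le_one ?_
    · intro i _ j _ hij
      exact (disjoint_ball_ball_iff (Q.r_pos i) (Q.r_pos j)).1 (hQ i j hij)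
    · intro i _
      rw [dist_zero_right]
      exact (hin i).le
  have hlow' : ∑ i ∈ S, ((1 - ρ) / 8) ^ 2 ≤ ∑ i ∈ S, (Q.r i) ^ 2 := by
    refine Finset.sum_le_sum fun i hi => ?_
    have h1 : (1 - ρ) / 8 ≤ Q.r i := hlow i ρ hρ0 hρ1 (hS hi)
    exact pow_le_pow_left₀ (by positivity) h1 2
  rw [Finset.sum_const, hcard, nsmul_eq_mul] at hlow'
  have h2 : 64 < (n : ℝ) * (1 - ρ) ^ 2 := by
    rw [div_lt_iff₀ (by positivity)] at hn
    exact hn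
  nlinarith

theorem carrier_eq {V : Type*} {K : Tri V} {Q : Packing K} (hQ : Q.Univalent)
    (hint : ∀ v, K.Interior v) (hin : ∀ v, ‖Q.c v‖ + Q.r v < 1)
    (hlow : ∀ v ρ, 0 ≤ ρ → ρ < 1 → ‖Q.c v‖ - Q.r v ≤ ρ → (1 - ρ) / 8 ≤ Q.r v)
    (v0 : V) (h0 : Q.c v0 = 0) : Q.carrier = Metric.ball 0 1 := by
  apply Set.Subset.antisymm
  · rintro z ⟨u, v, w, -, hz⟩
    have hc : ∀ x, Q.c x ∈ Metric.ball (0 : ℂ) 1 := fun x => by
      rw [mem_ball_zero_iff]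
      have := hin x
      have := Q.r_pos x
      linarith
    refine convexHull_min ?_ (convex_ball (0 : ℂ) 1) hz
    rintro y hy
    rcases hy with rfl | rfl | rfl
    · exact hc u
    · exact hc v
    · exact hc w
  · intro z hz
    have hz1 : ‖z‖ < 1 := by rwa [mem_ball_zero_iff] at hz
    have hγ : IsPreconnected (Metric.closedBall (0 : ℂ) ‖z‖) :=
      (convex_closedBall (0 : ℂ) ‖z‖).isPreconnected
    have hsub := covered hQ {v | ‖Q.c v‖ - Q.r v ≤ ‖z‖}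
      (finite_in hQ hin hlow (norm_nonneg z) hz1) (fun x _ => hint x)
      (Metric.closedBall (0 : ℂ) ‖z‖) hγ v0 ?_ ?_ ?_
    · exact hsub (by rw [mem_closedBall_zero_iff])
    · show ‖Q.c v0‖ - Q.r v0 ≤ ‖z‖
      rw [h0, norm_zero]
      have := Q.r_pos v0
      have := norm_nonneg z
      linarith
    · refine ⟨0, ?_, ?_⟩
      · rw [h0, mem_closedBall_zero_iff, norm_zero]
        exact (Q.r_pos v0).le
      · rw [mem_closedBall_zero_iff, norm_zero]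
        exact norm_nonneg z
    · rintro x - y - ⟨q, hq1, hq2⟩
      show ‖Q.c y‖ - Q.r y ≤ ‖z‖
      rw [Metric.mem_closedBall] at hq1
      rw [mem_closedBall_zero_iff] at hq2
      have h3 : ‖Q.c y‖ ≤ ‖q‖ + dist q (Q.c y) := by
        rw [dist_comm, dist_eq_norm]
        calc ‖Q.c y‖ = ‖q + (Q.c y - q)‖ := by congr 1; ring
          _ ≤ ‖q‖ + ‖Q.c y - q‖ := norm_add_le _ _
      linarith

end Pool.Agent.Helper11.Fatou
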