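import Mathlib
import Pool.Agent.Helper11.Fatou.Defs

namespace Pool.Agent.Helper11.Fatou

lemma D2_im_div {u : ℂ} (hu : u ≠ 0) (w : ℂ) :
    (w / u).im = ((starRingEnd ℂ) u * w).im / Complex.normSq u := by
  have h0 : Complex.normSq u ≠ 0 := by
    rw [Ne, Complex.normSq_eq_zero]; exact hu
  have h1 : w / u = ((Complex.normSq u)⁻¹ : ℝ) * ((starRingEnd ℂ) u * w) := by
    rw [div_eq_mul_inv, Complex.inv_def]
    ring
  rw [h1, Complex.im_ofReal_mul]
  field_simp

lemma D2_normSq {u : ℂ} (hu : u ≠ 0) : 0 < Complex.normSq u := by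
  rw [Complex.normSq_pos]; exact hu

lemma D2_pos {u w : ℂ} (hu : u ≠ 0) (h : 0 < ((starRingEnd ℂ) u * w).im) :
    0 < Complex.arg (w / u) ∧ Complex.arg (w / u) < Real.pi := by
  have h1 : 0 < (w / u).im := by
    rw [D2_im_div hu]
    exact div_pos h (D2_normSq hu)
  constructor
  · have h2 : 0 ≤ Complex.arg (w / u) := Complex.arg_nonneg_iff.2 h1.le
    refine lt_of_le_of_ne h2 (fun h3 => ?_)
    rw [eq_comm, Complex.arg_eq_zero_iff] at h3
    linarith [h3.2]
  · refine lt_of_le_of_ne (Complex.arg_le_pi _) (fun h3 => ?_)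
    rw [Complex.arg_eq_pi_iff] at h3
    linarith [h3.2]

lemma D2_neg {u w : ℂ} (hu : u ≠ 0) (h : ((starRingEnd ℂ) u * w).im < 0) :
    Complex.arg (w / u) < 0 := by
  rw [Complex.arg_neg_iff, D2_im_div hu]
  exact div_neg_of_neg_of_pos h (D2_normSq hu)

lemma D2_pos_of {u w : ℂ} (hu : u ≠ 0) (h : 0 < Complex.arg (w / u))
    (h' : Complex.arg (w / u) < Real.pi) : 0 < ((starRingEnd ℂ) u * w).im := by
  have h1 : 0 ≤ (w / u).im := Complex.arg_nonneg_iff.1 h.le
  have h2 : (w / u).im ≠ 0 := by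
    intro h3
    rcases le_or_gt 0 (w / u).re with h4 | h4
    · rw [Complex.arg_eq_zero_iff.2 ⟨h4, h3⟩] at h
      exact lt_irrefl _ h
    · rw [Complex.arg_eq_pi_iff.2 ⟨h4, h3⟩] at h'
      exact lt_irrefl _ h'
  have h3 : 0 < (w / u).im := lt_of_le_of_ne h1 h2.symm
  rw [D2_im_div hu] at h3
  have h4 := D2_normSq hu
  by_contra hcon
  push Not at hcon
  have := div_nonpos_of_nonpos_of_nonneg hcon h4.le
  linarith

lemma D2_ne {u w : ℂ} (h : 0 < ((starRingEnd ℂ) u * w).im) : u ≠ 0 ∧ w ≠ 0 := by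
  constructor
  · rintro rfl
    simp at h
  · rintro rfl
    simp at h

lemma D2_add {x y z : ℂ} (hx : x ≠ 0) (hy : y ≠ 0) (hz : z ≠ 0) :
    ∃ k : ℤ, Complex.arg (z / x) - (Complex.arg (y / x) + Complex.arg (z / y)) = 2 * Real.pi * k := by
  rw [← Real.Angle.angle_eq_iff_two_pi_dvd_sub, Real.Angle.coe_add,
    ← Complex.arg_mul_coe_angle (div_ne_zero hy hx) (div_ne_zero hz hy)]
  congr 2
  field_simp

/-- arguments of the children relative to `v` -/
theorem children_args {N : ℕ} (hN : 2 ≤ N) {v : ℂ} (hv0 : v ≠ 0) {a : ℕ → ℂ}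
    (h1 : ∀ i < N, 0 < ((starRingEnd ℂ) (a i) * a (i + 1)).im)
    (h2 : ((starRingEnd ℂ) v * a 0).im < 0) (h3 : 0 < ((starRingEnd ℂ) v * a (N - 1)).im)
    (h4 : 0 < ((starRingEnd ℂ) v * a N).im)
    (h5 : ∀ i < N, 0 ≤ ((starRingEnd ℂ) v * a i).im → 0 < ((starRingEnd ℂ) v * a (i + 1)).im)
    (h6 : ∀ i ≤ N, ((starRingEnd ℂ) v * a i).im = 0 → ∃ s : ℝ, 0 < s ∧ a i = (s : ℂ) * v) :
    (∀ i ≤ N, -Real.pi < Complex.arg (a i / v) ∧ Complex.arg (a i / v) < Real.pi) ∧
    (∀ i < N, 0 < Complex.arg (a (i + 1) / v) - Complex.arg (a i / v) ∧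
      Complex.arg (a (i + 1) / v) - Complex.arg (a i / v) < Real.pi) ∧
    Complex.arg (a 0 / v) < 0 ∧ 0 < Complex.arg (a (N - 1) / v) ∧
    0 < Complex.arg (a N / v) ∧
    (∀ i ≤ N, a i ≠ 0 ∧
      a i = (‖a i‖ : ℂ) * (Complex.exp ((Complex.arg (a i / v) : ℝ) * Complex.I) *
        (v / (‖v‖ : ℂ)))) := by
  have hpi := Real.pi_pos
  have hA : ∀ i ≤ N, -Real.pi < Complex.arg (a i / v) ∧ Complex.arg (a i / v) < Real.pi := by
    intro i hi
    refine ⟨Complex.neg_pi_lt_arg _, lt_of_le_of_ne (Complex.arg_le_pi _) (fun h => ?_)⟩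
    have h7 := Complex.arg_eq_pi_iff.1 h
    have h8 : ((starRingEnd ℂ) v * a i).im = 0 := by
      have h9 := h7.2
      rw [D2_im_div hv0, div_eq_zero_iff] at h9
      rcases h9 with h9 | h9
      · exact h9
      · exact absurd h9 (D2_normSq hv0).ne'
    obtain ⟨s, hs, hs'⟩ := h6 i hi h8
    have h10 : a i / v = (s : ℂ) := by
      rw [hs', mul_div_assoc, div_self hv0, mul_one]
    rw [h10, Complex.arg_ofReal_of_nonneg hs.le] at h
    linarith
  have hne : ∀ i ≤ N, a i ≠ 0 := by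
    intro i hi
    rcases hi.lt_or_eq with h | h
    · exact (D2_ne (h1 i h)).1
    · rw [h]; exact (D2_ne h4).2
  refine ⟨hA, ?_, D2_neg hv0 h2, (D2_pos hv0 h3).1, (D2_pos hv0 h4).1, ?_⟩
  · intro i hi
    have a1 := hA i hi.le
    have a2 := hA (i + 1) hi
    have a3 := D2_pos (hne i hi.le) (h1 i hi)
    obtain ⟨k, hk⟩ := D2_add hv0 (hne i hi.le) (hne (i + 1) hi)
    have hk0 : k = 0 := by
      have k1 : k < 1 := by
        by_contra hcon
        push Not at hcon
        have : (1 : ℝ) ≤ k := by exact_mod_cast hcon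
        nlinarith
      have k2 : -2 < k := by
        by_contra hcon
        push Not at hcon
        have : (k : ℝ) ≤ -2 := by exact_mod_cast hcon
        nlinarith
      have k3 : k = 0 ∨ k = -1 := by omega
      rcases k3 with k3 | k3
      · exact k3
      · exfalso
        rw [k3] at hk
        push_cast at hk
        have k4 : 0 < Complex.arg (a i / v) := by linarith
        have k5 := D2_pos_of hv0 k4 a1.2
        have k6 := (D2_pos hv0 (h5 i hi k5.le)).1
        linarith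
    rw [hk0] at hk
    push_cast at hk
    constructor <;> linarith
  · intro i hi
    refine ⟨hne i hi, ?_⟩
    have h7 := Complex.norm_mul_exp_arg_mul_I (a i / v)
    have hvn : (‖v‖ : ℂ) ≠ 0 := by
      exact_mod_cast (norm_pos_iff.2 hv0).ne'
    rw [norm_div] at h7
    push_cast at h7
    have h8 : a i = (‖a i‖ : ℂ) / (‖v‖ : ℂ) * Complex.exp ((Complex.arg (a i / v) : ℝ) * Complex.I) * v := by
      rw [h7, div_mul_cancel₀ _ hv0]
    calc a i = (‖a i‖ : ℂ) / (‖v‖ : ℂ) * Complex.exp ((Complex.arg (a i / v) : ℝ) * Complex.I) * v := h8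
      _ = _ := by ring

/-- the argument of a shared child relative to its two parents -/
theorem shared_arg {v v' w : ℂ} (h : 0 < ((starRingEnd ℂ) v * v').im)
    (h1 : 0 < ((starRingEnd ℂ) v * w).im) (h2 : 0 < ((starRingEnd ℂ) w * v').im) :
    Complex.arg (w / v) - Complex.arg (w / v') = Complex.arg (v' / v) ∧
      0 < Complex.arg (v' / v) ∧ Complex.arg (v' / v) < Real.pi ∧ Complex.arg (w / v') < 0 := by
  have hpi := Real.pi_pos
  obtain ⟨hv, hv'⟩ := D2_ne h
  obtain ⟨_, hw⟩ := D2_ne h1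
  have a1 := D2_pos hv h
  have a2 := D2_pos hv h1
  have a3 := D2_pos hw h2
  obtain ⟨k, hk⟩ := D2_add hv hw hv'
  have hk0 : k = 0 := by
    have k1 : k < 1 := by
      by_contra hcon
      push Not at hcon
      have : (1 : ℝ) ≤ k := by exact_mod_cast hcon
      nlinarith
    have k2 : -1 < k := by
      by_contra hcon
      push Not at hcon
      have : (k : ℝ) ≤ -1 := by exact_mod_cast hcon
      nlinarith
    omega
  rw [hk0] at hk
  push_cast at hk
  have h5 : Complex.arg (w / v') = - Complex.arg (v' / w) := by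
    rw [← inv_div, Complex.arg_inv, if_neg a3.2.ne]
  rw [h5]
  refine ⟨by linarith, a1.1, a1.2, by linarith⟩

end Pool.Agent.Helper11.Fatou
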