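import Mathlib
import Pool.Agent.Helper11.Koebe.Defs
import Pool.Agent.Helper11.Fatou.Defs

namespace Pool.Agent.Helper11.Fatou

open Pool.Agent.Helper11.Koebe (orient)


theorem Th_pos_aux {x : ℝ} (hx : 1 < x) : 0 < Th x := by
  unfold Th
  apply div_pos <;> linarith

theorem Th_lt_one_aux {x : ℝ} (hx : 1 < x) : Th x < 1 := by
  unfold Th
  rw [div_lt_one (by linarith)]
  linarith

theorem D_pos_aux {A t : ℝ} (hA0 : 0 ≤ A) (hA : A < 1) (ht0 : 0 < t) (ht : t < 1) :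
    0 < 1 - A ^ 2 * t ^ 2 := by
  have h1 : A * t < 1 := by nlinarith
  have h2 : 0 ≤ A * t := by positivity
  nlinarith

theorem norm_cc_aux {a : ℂ} {x : ℝ} (ha : ‖a‖ < 1) (hx : 1 < x) :
    ‖cc a x‖ = ‖a‖ * ((1 - Th x ^ 2) / (1 - ‖a‖ ^ 2 * Th x ^ 2)) := by
  have ht0 := Th_pos_aux hx
  have ht1 := Th_lt_one_aux hx
  have hD := D_pos_aux (norm_nonneg a) ha ht0 ht1
  unfold cc
  rw [norm_mul, Complex.norm_real, Real.norm_eq_abs, abs_of_nonneg]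
  apply div_nonneg _ hD.le
  nlinarith

theorem cr_pos {a : ℂ} {x : ℝ} (ha : ‖a‖ < 1) (hx : 1 < x) : 0 < cr a x := by
  have ht0 := Th_pos_aux hx
  have ht1 := Th_lt_one_aux hx
  have hD := D_pos_aux (norm_nonneg a) ha ht0 ht1
  unfold cr
  apply div_pos _ hD
  apply mul_pos ht0
  nlinarith [norm_nonneg a]

theorem cc_inside {a : ℂ} {x : ℝ} (ha : ‖a‖ < 1) (hx : 1 < x) : ‖cc a x‖ + cr a x < 1 := by
  have ht0 := Th_pos_aux hx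
  have ht1 := Th_lt_one_aux hx
  have hA0 := norm_nonneg a
  have hD := D_pos_aux hA0 ha ht0 ht1
  rw [norm_cc_aux ha hx]
  unfold cr
  rw [← mul_div_assoc, ← add_div, div_lt_one hD]
  have h1 : ‖a‖ * Th x < 1 := by nlinarith
  have h2 : 0 < (1 - ‖a‖ * Th x) * ((1 - ‖a‖) * (1 - Th x)) :=
    mul_pos (by linarith) (mul_pos (by linarith) (by linarith))
  nlinarith

/-- the euclidean centre is a positive multiple of the hyperbolic centre -/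
theorem cc_eq {a : ℂ} {x : ℝ} (ha : ‖a‖ < 1) (hx : 1 < x) :
    ∃ s : ℝ, 0 < s ∧ cc a x = (s : ℂ) * a := by
  have ht0 := Th_pos_aux hx
  have ht1 := Th_lt_one_aux hx
  have hD := D_pos_aux (norm_nonneg a) ha ht0 ht1
  refine ⟨(1 - Th x ^ 2) / (1 - ‖a‖ ^ 2 * Th x ^ 2), ?_, ?_⟩
  · apply div_pos _ hD
    nlinarith
  · unfold cc
    rw [mul_comm]

theorem tang_id_aux (t u X Y : ℝ) (hP : 1 - X * t ^ 2 ≠ 0) (hQ : 1 - Y * u ^ 2 ≠ 0) :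
    ((1 - u ^ 2) / (1 - Y * u ^ 2)) ^ 2 * Y + ((1 - t ^ 2) / (1 - X * t ^ 2)) ^ 2 * X
      - ((1 + t * u) ^ 2 * (X + Y) - (t + u) ^ 2 * (1 + X * Y))
        / ((1 - X * t ^ 2) * (1 - Y * u ^ 2))
    = (t * (1 - X) / (1 - X * t ^ 2) + u * (1 - Y) / (1 - Y * u ^ 2)) ^ 2 := by
  obtain ⟨P, hPd⟩ : ∃ P, P = 1 - X * t ^ 2 := ⟨_, rfl⟩
  obtain ⟨Q, hQd⟩ : ∃ Q, Q = 1 - Y * u ^ 2 := ⟨_, rfl⟩
  rw [← hPd] at hP
  rw [← hQd] at hQ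
  rw [← hPd, ← hQd]
  field_simp
  rw [hPd, hQd]
  ring

/-- hyperbolic tangency implies euclidean tangency -/
theorem cc_tangent {r s : ℝ} {x y : ℂ} (hr : 1 < r) (hs : 1 < s) (h : TgH r s x y) :
    ‖cc y s - cc x r‖ = cr x r + cr y s := by
  obtain ⟨hx1, hy1, hph⟩ := h
  have ht0 := Th_pos_aux hr
  have ht1 := Th_lt_one_aux hr
  have hu0 := Th_pos_aux hs
  have hu1 := Th_lt_one_aux hs
  have hX0 := norm_nonneg x
  have hY0 := norm_nonneg y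
  have hP := D_pos_aux hX0 hx1 ht0 ht1
  have hQ := D_pos_aux hY0 hy1 hu0 hu1
  have hTT : Th (r * s) = (Th r + Th s) / (1 + Th r * Th s) := by
    unfold Th
    have h1 : r + 1 ≠ 0 := by positivity
    have h2 : s + 1 ≠ 0 := by positivity
    have h3 : r * s + 1 ≠ 0 := by positivity
    have h4 : (r + 1) * (s + 1) + (r - 1) * (s - 1) ≠ 0 := by
      have : (r + 1) * (s + 1) + (r - 1) * (s - 1) = 2 * (r * s + 1) := by ring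
      rw [this]
      positivity
    have h5 : 1 + (r - 1) / (r + 1) * ((s - 1) / (s + 1)) ≠ 0 := by
      have : 1 + (r - 1) / (r + 1) * ((s - 1) / (s + 1))
          = ((r + 1) * (s + 1) + (r - 1) * (s - 1)) / ((r + 1) * (s + 1)) := by
        field_simp
      rw [this]
      exact div_ne_zero h4 (mul_ne_zero h1 h2)
    rw [eq_div_iff h5]
    field_simp
    ring
  obtain ⟨t, ht⟩ : ∃ t, t = Th r := ⟨_, rfl⟩
  obtain ⟨u, hu⟩ : ∃ u, u = Th s := ⟨_, rfl⟩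
  rw [hTT] at hph
  have hcr1 : cr x r = t * (1 - ‖x‖ ^ 2) / (1 - ‖x‖ ^ 2 * t ^ 2) := by unfold cr; rw [ht]
  have hcr2 : cr y s = u * (1 - ‖y‖ ^ 2) / (1 - ‖y‖ ^ 2 * u ^ 2) := by unfold cr; rw [hu]
  have hcc1 : cc x r = x * (((1 - t ^ 2) / (1 - ‖x‖ ^ 2 * t ^ 2) : ℝ) : ℂ) := by
    unfold cc; rw [ht]
  have hcc2 : cc y s = y * (((1 - u ^ 2) / (1 - ‖y‖ ^ 2 * u ^ 2) : ℝ) : ℂ) := by
    unfold cc; rw [hu]
  have hp1 := cr_pos hx1 hr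
  have hp2 := cr_pos hy1 hs
  rw [← ht, ← hu] at hph
  rw [← ht] at hP ht0 ht1
  rw [← hu] at hQ hu0 hu1
  obtain ⟨c, hc⟩ : ∃ c, c = x.re * y.re + x.im * y.im := ⟨_, rfl⟩
  have hXn : ‖x‖ ^ 2 = x.re ^ 2 + x.im ^ 2 := by
    rw [Complex.sq_norm, Complex.normSq_apply]; ring
  have hYn : ‖y‖ ^ 2 = y.re ^ 2 + y.im ^ 2 := by
    rw [Complex.sq_norm, Complex.normSq_apply]; ring
  have hden : ‖1 - (starRingEnd ℂ) x * y‖ ^ 2 = 1 - 2 * c + ‖x‖ ^ 2 * ‖y‖ ^ 2 := by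
    rw [hXn, hYn, Complex.sq_norm, Complex.normSq_apply, hc]
    simp
    ring
  have hnum : ‖y - x‖ ^ 2 = ‖x‖ ^ 2 + ‖y‖ ^ 2 - 2 * c := by
    rw [hXn, hYn, Complex.sq_norm, Complex.normSq_apply, hc]
    simp
    ring
  have htu : 0 < 1 + t * u := by positivity
  have hden0 : ‖1 - (starRingEnd ℂ) x * y‖ ≠ 0 := by
    intro h0
    unfold ph at hph
    rw [norm_div, h0, div_zero] at hph
    have : 0 < (t + u) / (1 + t * u) := by positivity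
    linarith
  have heq : (‖x‖ ^ 2 + ‖y‖ ^ 2 - 2 * c) * (1 + t * u) ^ 2
      = (t + u) ^ 2 * (1 - 2 * c + ‖x‖ ^ 2 * ‖y‖ ^ 2) := by
    unfold ph at hph
    rw [norm_div, div_eq_div_iff hden0 htu.ne'] at hph
    rw [← hden, ← hnum, ← mul_pow, ← mul_pow, hph]
  have hsq : ‖cc y s - cc x r‖ ^ 2 = (cr x r + cr y s) ^ 2 := by
    obtain ⟨κ, hκ⟩ : ∃ κ, κ = (1 - t ^ 2) / (1 - ‖x‖ ^ 2 * t ^ 2) := ⟨_, rfl⟩
    obtain ⟨l, hl⟩ : ∃ l, l = (1 - u ^ 2) / (1 - ‖y‖ ^ 2 * u ^ 2) := ⟨_, rfl⟩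
    have h1 : ‖cc y s - cc x r‖ ^ 2 = l ^ 2 * ‖y‖ ^ 2 + κ ^ 2 * ‖x‖ ^ 2 - 2 * κ * l * c := by
      rw [hcc1, hcc2, ← hκ, ← hl, hXn, hYn, Complex.sq_norm, Complex.normSq_apply, hc]
      simp
      ring
    rw [h1, hcr1, hcr2, hκ, hl]
    generalize ‖x‖ ^ 2 = X at *
    generalize ‖y‖ ^ 2 = Y at *
    have hP' := hP.ne'
    have hQ' := hQ.ne'
    have h2c : 2 * c * ((1 - t ^ 2) * (1 - u ^ 2))
        = (1 + t * u) ^ 2 * (X + Y) - (t + u) ^ 2 * (1 + X * Y) := by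
      linear_combination -heq
    have hfin : ((1 - u ^ 2) / (1 - Y * u ^ 2)) ^ 2 * Y + ((1 - t ^ 2) / (1 - X * t ^ 2)) ^ 2 * X
        - 2 * ((1 - t ^ 2) / (1 - X * t ^ 2)) * ((1 - u ^ 2) / (1 - Y * u ^ 2)) * c
        = ((1 - u ^ 2) / (1 - Y * u ^ 2)) ^ 2 * Y + ((1 - t ^ 2) / (1 - X * t ^ 2)) ^ 2 * X
        - ((1 + t * u) ^ 2 * (X + Y) - (t + u) ^ 2 * (1 + X * Y)) /
          ((1 - X * t ^ 2) * (1 - Y * u ^ 2)) := by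
      rw [← h2c]
      field_simp
    rw [hfin]
    exact tang_id_aux t u X Y hP' hQ'
  have h2 := (sq_eq_sq₀ (norm_nonneg _) (by linarith : 0 ≤ cr x r + cr y s)).1 hsq
  exact h2

/-- lower bound of the radius -/
theorem cr_ge {a : ℂ} {x ρ : ℝ} (ha : ‖a‖ < 1) (hx : 1000 ≤ x) (hρ0 : 0 ≤ ρ) (hρ1 : ρ < 1)
    (h : ‖cc a x‖ - cr a x ≤ ρ) : (1 - ρ) / 8 ≤ cr a x := by
  have hx' : (1 : ℝ) < x := by linarith
  have ht0 := Th_pos_aux hx'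
  have ht1 := Th_lt_one_aux hx'
  have hA0 := norm_nonneg a
  have hD := D_pos_aux hA0 ha ht0 ht1
  have ht2 : 1 / 2 ≤ Th x := by
    unfold Th
    rw [le_div_iff₀ (by linarith)]
    linarith
  have key : 1 - (‖cc a x‖ - cr a x) ≤ 8 * cr a x := by
    rw [norm_cc_aux ha hx']
    unfold cr
    obtain ⟨t, ht⟩ : ∃ t, t = Th x := ⟨_, rfl⟩
    rw [← ht] at ht0 ht1 hD ht2 ⊢
    have h1 : 1 ≤ (‖a‖ * (1 - t ^ 2) + 7 * (t * (1 - ‖a‖ ^ 2))) / (1 - ‖a‖ ^ 2 * t ^ 2) := by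
      rw [le_div_iff₀ hD]
      have h2 : (1 + t) * (1 + ‖a‖ * t) ≤ 8 * t * (1 + ‖a‖) := by nlinarith
      have h3 : 0 ≤ (1 - ‖a‖) * (8 * t * (1 + ‖a‖) - (1 + t) * (1 + ‖a‖ * t)) :=
        mul_nonneg (by linarith) (by linarith)
      nlinarith
    have h4 : (‖a‖ * (1 - t ^ 2) + 7 * (t * (1 - ‖a‖ ^ 2))) / (1 - ‖a‖ ^ 2 * t ^ 2)
        = ‖a‖ * ((1 - t ^ 2) / (1 - ‖a‖ ^ 2 * t ^ 2)) + 7 * (t * (1 - ‖a‖ ^ 2) /
          (1 - ‖a‖ ^ 2 * t ^ 2)) := by ring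
    rw [h4] at h1
    linarith
  linarith

end Pool.Agent.Helper11.Fatou
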