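import Mathlib
import Pool.Agent.Helper11.Fatou.Defs

namespace Pool.Agent.Helper11.Fatou

theorem j6520_arctan_le {t : ℝ} (ht : 0 ≤ t) : Real.arctan t ≤ t := by
  have h1 := Real.arctan_lt_pi_div_two t
  have h0 := Real.arctan_nonneg.2 ht
  have h2 := Real.le_tan h0 h1
  rwa [Real.tan_arctan] at h2

theorem j6520_arctan_ge {t : ℝ} (ht : 0 ≤ t) (ht1 : t ≤ 1) : t / 2 ≤ Real.arctan t := by
  have hpi := Real.pi_gt_three
  have hcos : 1 / 2 ≤ Real.cos (t / 2) := by
    have h1 := Real.one_sub_sq_div_two_le_cos (x := t / 2)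
    have h2 : (t / 2) ^ 2 ≤ (1 / 2) ^ 2 := pow_le_pow_left₀ (by linarith) (by linarith) 2
    norm_num at h2
    linarith
  have hsin : Real.sin (t / 2) ≤ t / 2 := Real.sin_le (by linarith)
  have htan : Real.tan (t / 2) ≤ t := by
    rw [Real.tan_eq_sin_div_cos, div_le_iff₀ (by linarith)]
    have := mul_le_mul_of_nonneg_left hcos ht
    linarith
  have h3 := Real.arctan_mono htan
  rwa [Real.arctan_tan (by linarith) (by linarith)] at h3

theorem ae_nonneg {x y z : ℝ} : 0 ≤ ae x y z := by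
  unfold ae
  have := Real.arctan_nonneg.2 (Real.sqrt_nonneg (y * z / (x * (x + y + z))))
  linarith

theorem ae_mono {x y z y' z' : ℝ} (hx : 0 < x) (hy : 0 ≤ y) (hz : 0 ≤ z) (hyy : y ≤ y')
    (hzz : z ≤ z') : ae x y z ≤ ae x y' z' := by
  have hy' : 0 ≤ y' := hy.trans hyy
  have hz' : 0 ≤ z' := hz.trans hzz
  have h1 : y * z / (x * (x + y + z)) ≤ y' * z' / (x * (x + y' + z')) := by
    rw [div_le_div_iff₀ (by positivity) (by positivity)]
    have e1 : y * z ≤ y' * z' := mul_le_mul hyy hzz hz hy'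
    have e2 : y * z * y' ≤ y' * z' * y := by
      have := mul_le_mul_of_nonneg_left hzz (mul_nonneg hy hy')
      linarith
    have e3 : y * z * z' ≤ y' * z' * z := by
      have := mul_le_mul_of_nonneg_right hyy (mul_nonneg hz hz')
      linarith
    have e4 : y * z * x ≤ y' * z' * x := mul_le_mul_of_nonneg_right e1 hx.le
    have e5 : x * (y * z * (x + y' + z')) ≤ x * (y' * z' * (x + y + z)) := by
      apply mul_le_mul_of_nonneg_left _ hx.le
      linarith
    linarith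
  unfold ae
  have h2 := Real.arctan_mono (Real.sqrt_le_sqrt h1)
  linarith

/-- small neighbours of a circle of radius `1/2` are seen under small angles -/
theorem ae_half_le {y z m : ℝ} (hy : 0 ≤ y) (hz : 0 ≤ z) (hym : y ≤ m) (hzm : z ≤ m) :
    ae (1 / 2) y z ≤ 4 * m := by
  have hm : 0 ≤ m := hy.trans hym
  have h1 : y * z / (1 / 2 * (1 / 2 + y + z)) ≤ (2 * m) ^ 2 := by
    rw [div_le_iff₀ (by positivity)]
    have e1 : y * z ≤ m * m := mul_le_mul hym hzm hz hm
    have e2 : (2 * m) ^ 2 * (1 / 4) ≤ (2 * m) ^ 2 * (1 / 2 * (1 / 2 + y + z)) :=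
      mul_le_mul_of_nonneg_left (by linarith) (by positivity)
    have e3 : (2 * m) ^ 2 * (1 / 4) = m * m := by ring
    linarith
  have h2 : Real.sqrt (y * z / (1 / 2 * (1 / 2 + y + z))) ≤ 2 * m :=
    Real.sqrt_le_iff.2 ⟨by positivity, h1⟩
  have h3 := j6520_arctan_le (Real.sqrt_nonneg (y * z / (1 / 2 * (1 / 2 + y + z))))
  unfold ae
  linarith

theorem ae_ge_half {x m : ℝ} (hx : 0 < x) (hx1 : x ≤ 1) (hm : 0 < m) (hm1 : m ≤ 1) :
    m / 2 ≤ ae x m m := by
  have h1 : (m / 2) ^ 2 ≤ m * m / (x * (x + m + m)) := by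
    rw [le_div_iff₀ (by positivity)]
    have e1 : x * (x + m + m) ≤ 4 := by
      have h2 : x * (x + m + m) ≤ 1 * (x + m + m) :=
        mul_le_mul_of_nonneg_right hx1 (by positivity)
      linarith
    have e2 : (m / 2) ^ 2 * (x * (x + m + m)) ≤ (m / 2) ^ 2 * 4 :=
      mul_le_mul_of_nonneg_left e1 (by positivity)
    have e3 : (m / 2) ^ 2 * 4 = m * m := by ring
    linarith
  have h2 : m / 2 ≤ Real.sqrt (m * m / (x * (x + m + m))) := Real.le_sqrt_of_sq_le h1
  have h3 := Real.arctan_mono h2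
  have h4 := j6520_arctan_ge (show 0 ≤ m / 2 by positivity) (by linarith)
  unfold ae
  linarith

theorem j6520_cont {x m : ℝ} (hx : 0 < x) (u v : ℝ → ℝ) (hu : Continuous u) (hv : Continuous v)
    (hu0 : ∀ τ, 0 ≤ τ → 0 ≤ u τ) (hv0 : ∀ τ, 0 ≤ τ → 0 ≤ v τ) :
    ContinuousOn (fun τ => ae x (u τ) (v τ)) (Set.Icc 0 m) := by
  unfold ae
  refine continuousOn_const.mul (Real.continuous_arctan.comp_continuousOn ?_)
  refine Real.continuous_sqrt.comp_continuousOn ?_
  refine ContinuousOn.div (hu.mul hv).continuousOn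
    (continuous_const.mul ((continuous_const.add hu).add hv)).continuousOn ?_
  intro τ hτ
  have h1 := hu0 τ hτ.1
  have h2 := hv0 τ hτ.1
  positivity

theorem j6520_ivt {m C : ℝ} (hm : 0 < m) (f : ℝ → ℝ) (hf : ContinuousOn f (Set.Icc 0 m))
    (h : f 0 + 2 * Real.pi ≤ f m) :
    ∃ τ : ℝ, 0 < τ ∧ τ ≤ m ∧ ∃ k : ℤ, C + f τ = 2 * Real.pi * k := by
  have hpi : 0 < 2 * Real.pi := by have := Real.pi_pos; linarith
  have h1 := Int.lt_floor_add_one ((C + f 0) / (2 * Real.pi))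
  have h2 := Int.floor_le ((C + f 0) / (2 * Real.pi))
  rw [div_lt_iff₀ hpi] at h1
  rw [le_div_iff₀ hpi] at h2
  have h3 : 2 * Real.pi * ((⌊(C + f 0) / (2 * Real.pi)⌋ + 1 : ℤ) : ℝ) - C ∈ Set.Icc (f 0) (f m) := by
    push_cast
    constructor
    · linarith
    · linarith
  rcases intermediate_value_Icc hm.le hf h3 with ⟨τ, hτ, hτ2⟩
  refine ⟨τ, ?_, hτ.2, ⌊(C + f 0) / (2 * Real.pi)⌋ + 1, by rw [hτ2]; ring⟩
  refine lt_of_le_of_ne hτ.1 ?_
  rintro rfl
  push_cast at hτ2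
  linarith

theorem j6520_nn {y : ℕ → ℝ} (hy : ∀ i, 0 ≤ y i) (s B i : ℕ) (τ : ℝ) (hτ : 0 ≤ τ) :
    0 ≤ (if s ≤ i ∧ i < s + B then τ else y i) := by
  split_ifs
  · exact hτ
  · exact hy i

theorem j6520_mono (y : ℕ → ℝ) (s B i : ℕ) {τ τ' : ℝ} (hτ : τ ≤ τ') :
    (if s ≤ i ∧ i < s + B then τ else y i) ≤ (if s ≤ i ∧ i < s + B then τ' else y i) := by
  split_ifs
  · exact hτ
  · exact le_rfl

/-- closing lemma -/
theorem closing {x m C : ℝ} (hx : 0 < x) (hx1 : x ≤ 1) (hm : 0 < m) (hm1 : m ≤ 1) {N B s : ℕ}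
    (hsN : s + B ≤ N) (hB : 2 * Real.pi ≤ ((B : ℝ) - 1) * (m / 2)) {y : ℕ → ℝ}
    (hy : ∀ i, 0 ≤ y i) :
    ∃ τ : ℝ, 0 < τ ∧ τ ≤ m ∧ ∃ k : ℤ,
      C + ∑ i ∈ Finset.range N, ae x (if s ≤ i ∧ i < s + B then τ else y i)
        (if s ≤ i + 1 ∧ i + 1 < s + B then τ else y (i + 1)) = 2 * Real.pi * k := by
  have hB1 : 1 < B := by
    by_contra hcon
    have h1 : (B : ℝ) ≤ 1 := by exact_mod_cast not_lt.1 hcon
    have h2 : ((B : ℝ) - 1) * (m / 2) ≤ 0 := mul_nonpos_of_nonpos_of_nonneg (by linarith) (by linarith)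
    have := Real.pi_pos
    linarith
  refine j6520_ivt hm (fun τ => ∑ i ∈ Finset.range N, ae x (if s ≤ i ∧ i < s + B then τ else y i)
        (if s ≤ i + 1 ∧ i + 1 < s + B then τ else y (i + 1))) ?_ ?_
  · refine continuousOn_finset_sum _ fun i _ => ?_
    refine j6520_cont hx (fun τ => if s ≤ i ∧ i < s + B then τ else y i)
      (fun τ => if s ≤ i + 1 ∧ i + 1 < s + B then τ else y (i + 1)) ?_ ?_
      (fun τ hτ => j6520_nn hy s B i τ hτ) (fun τ hτ => j6520_nn hy s B (i + 1) τ hτ)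
    · split_ifs
      · exact continuous_id
      · exact continuous_const
    · split_ifs
      · exact continuous_id
      · exact continuous_const
  · have key : ∑ i ∈ Finset.range N, (if i ∈ Finset.Ico s (s + (B - 1)) then m / 2 else 0)
        ≤ ∑ i ∈ Finset.range N, (ae x (if s ≤ i ∧ i < s + B then m else y i)
          (if s ≤ i + 1 ∧ i + 1 < s + B then m else y (i + 1)) -
          ae x (if s ≤ i ∧ i < s + B then 0 else y i)
          (if s ≤ i + 1 ∧ i + 1 < s + B then 0 else y (i + 1))) := by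
      refine Finset.sum_le_sum fun i _ => ?_
      by_cases hi : i ∈ Finset.Ico s (s + (B - 1))
      · rw [if_pos hi]
        rw [Finset.mem_Ico] at hi
        have c1 : s ≤ i ∧ i < s + B := by omega
        have c2 : s ≤ i + 1 ∧ i + 1 < s + B := by omega
        rw [if_pos c1, if_pos c2, if_pos c1, if_pos c2]
        have h0 : ae x 0 0 = 0 := by simp [ae]
        rw [h0, sub_zero]
        exact ae_ge_half hx hx1 hm hm1
      · rw [if_neg hi, sub_nonneg]
        exact ae_mono hx (j6520_nn hy s B i 0 le_rfl) (j6520_nn hy s B (i + 1) 0 le_rfl)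
          (j6520_mono y s B i hm.le) (j6520_mono y s B (i + 1) hm.le)
    have e1 : ∑ i ∈ Finset.range N, (if i ∈ Finset.Ico s (s + (B - 1)) then m / 2 else 0)
        = ((B : ℝ) - 1) * (m / 2) := by
      rw [← Finset.sum_filter]
      have e2 : (Finset.range N).filter (fun i => i ∈ Finset.Ico s (s + (B - 1)))
          = Finset.Ico s (s + (B - 1)) := by
        ext i
        rw [Finset.mem_filter, Finset.mem_range, Finset.mem_Ico]
        omega
      rw [e2, Finset.sum_const, Nat.card_Ico, Nat.add_sub_cancel_left, nsmul_eq_mul,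
        Nat.cast_sub hB1.le, Nat.cast_one]
    rw [e1, Finset.sum_sub_distrib] at key
    linarith

end Pool.Agent.Helper11.Fatou
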