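import Mathlib
import Pool.Agent.Helper11.Fatou.Defs

namespace Pool.Agent.Helper11.Fatou

theorem L_pos {b : ℕ → ℕ} (hb : ∀ n, 4 ≤ b n) (n : ℕ) : 0 < L b n := by
  induction n with
  | zero => simp [L]
  | succ n ih =>
    show 0 < L b n * b n
    exact Nat.mul_pos ih (by have := hb n; omega)

theorem L_ge {b : ℕ → ℕ} (hb : ∀ n, 4 ≤ b n) {n : ℕ} (hn : 1 ≤ n) : 4 ≤ L b n := by
  obtain ⟨m, rfl⟩ : ∃ m, n = m + 1 := ⟨n - 1, by omega⟩
  show 4 ≤ L b m * b m
  have h1 := L_pos hb m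
  have h2 := hb m
  nlinarith

theorem mk_eq_iff {b : ℕ → ℕ} {n m : ℕ} {j k : ℤ} :
    mk b n j = mk b m k ↔ n = m ∧ (L b n : ℤ) ∣ j - k := by
  constructor
  · intro h
    unfold mk at h
    have h1 : n = m := congrArg Sigma.fst h
    subst h1
    refine ⟨rfl, ?_⟩
    have h2 : ((j : ZMod (L b n))) = (k : ZMod (L b n)) := by
      have := (Sigma.mk.inj_iff.1 h).2
      exact eq_of_heq this
    have h3 := (ZMod.intCast_eq_intCast_iff_dvd_sub _ _ _).1 h2.symm
    exact h3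
  · rintro ⟨rfl, h⟩
    unfold mk
    have h2 : ((j : ZMod (L b n))) = (k : ZMod (L b n)) :=
      ((ZMod.intCast_eq_intCast_iff_dvd_sub _ _ _).2 h).symm
    rw [h2]

theorem exists_rep {b : ℕ → ℕ} (v : Vtx b) : ∃ n j, v = mk b n j := by
  obtain ⟨n, z⟩ := v
  obtain ⟨j, hj⟩ := ZMod.intCast_surjective z
  exact ⟨n, j, by unfold mk; rw [hj]⟩

theorem L_succ_cast (b : ℕ → ℕ) (n : ℕ) : ((L b (n + 1) : ℕ) : ℤ) = (L b n : ℤ) * (b n : ℤ) := by
  show ((L b n * b n : ℕ) : ℤ) = _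
  push_cast; ring

theorem mk_congr {b : ℕ → ℕ} {n : ℕ} {j k : ℤ} (h : (L b n : ℤ) ∣ j - k) :
    mk b n j = mk b n k := mk_eq_iff.2 ⟨rfl, h⟩

theorem dvd_div_sub {b : ℕ → ℕ} (hb : ∀ n, 4 ≤ b n) {n : ℕ} {k k' : ℤ}
    (h : (L b (n + 1) : ℤ) ∣ k - k') : (L b n : ℤ) ∣ k / (b n : ℤ) - k' / (b n : ℤ) := by
  obtain ⟨c, hc⟩ := h
  rw [L_succ_cast] at hc
  have h0 : (b n : ℤ) ≠ 0 := by have := hb n; exact_mod_cast (by omega : b n ≠ 0)
  have hk : k = k' + (L b n * c) * (b n : ℤ) := by linear_combination hc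
  rw [hk, Int.add_mul_ediv_right _ _ h0]
  exact ⟨c, by ring⟩

theorem base_iff {b : ℕ → ℕ} {x y z : Vtx b} :
    Base b x y z ↔
      (∃ (n : ℕ) (k : ℤ), x = mk b n (k / (b n : ℤ)) ∧ y = mk b (n + 1) k ∧
        z = mk b (n + 1) (k + 1)) ∨
      (∃ (n : ℕ), 1 ≤ n ∧ ∃ (j : ℤ), x = mk b n j ∧ y = mk b (n + 1) ((j + 1) * (b n : ℤ)) ∧
        z = mk b n (j + 1)) := by
  constructor
  · intro h
    cases h with
    | down n k => exact Or.inl ⟨n, k, rfl, rfl, rfl⟩
    | up n hn j => exact Or.inr ⟨n, hn, j, rfl, rfl, rfl⟩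
  · rintro (⟨n, k, rfl, rfl, rfl⟩ | ⟨n, hn, j, rfl, rfl, rfl⟩)
    · exact Base.down n k
    · exact Base.up n hn j

theorem fc_root_iff {b : ℕ → ℕ} (hb : ∀ n, 4 ≤ b n) (j : ℤ) (y z : Vtx b) :
    fc b (mk b 0 j) y z ↔ ∃ k : ℤ, y = mk b 1 k ∧ z = mk b 1 (k + 1) := by
  unfold fc
  rw [base_iff, base_iff, base_iff]
  constructor
  · rintro ((⟨n, k, h1, h2, h3⟩ | ⟨n, hn, j', h1, h2, h3⟩) |
      (⟨n, k, h1, h2, h3⟩ | ⟨n, hn, j', h1, h2, h3⟩) |
      (⟨n, k, h1, h2, h3⟩ | ⟨n, hn, j', h1, h2, h3⟩))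
    · have hn := (mk_eq_iff.1 h1).1
      subst hn
      exact ⟨k, h2, h3⟩
    · have := (mk_eq_iff.1 h1).1
      omega
    · have := (mk_eq_iff.1 h3).1
      omega
    · have := (mk_eq_iff.1 h3).1
      omega
    · have := (mk_eq_iff.1 h2).1
      omega
    · have := (mk_eq_iff.1 h2).1
      omega
  · rintro ⟨k, h1, h2⟩
    refine Or.inl (Or.inl ⟨0, k, ?_, h1, h2⟩)
    apply mk_congr
    show (((1 : ℕ)) : ℤ) ∣ _
    simp

theorem fc_iff {b : ℕ → ℕ} (hb : ∀ n, 4 ≤ b n) (m : ℕ) (j : ℤ) (y z : Vtx b) :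
    fc b (mk b (m + 1) j) y z ↔
      (∃ i : ℕ, i < b (m + 1) ∧ y = mk b (m + 2) (j * (b (m + 1) : ℤ) + i) ∧
        z = mk b (m + 2) (j * (b (m + 1) : ℤ) + i + 1)) ∨
      (y = mk b (m + 2) ((j + 1) * (b (m + 1) : ℤ)) ∧ z = mk b (m + 1) (j + 1)) ∨
      (y = mk b (m + 1) (j + 1) ∧ z = mk b m (j / (b m : ℤ))) ∨
      (1 ≤ m ∧ (b m : ℤ) ∣ j ∧ y = mk b m (j / (b m : ℤ)) ∧ z = mk b m (j / (b m : ℤ) - 1)) ∨
      (y = mk b m ((j - 1) / (b m : ℤ)) ∧ z = mk b (m + 1) (j - 1)) ∨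
      (y = mk b (m + 1) (j - 1) ∧ z = mk b (m + 2) (j * (b (m + 1) : ℤ))) := by
  have hb0 : ∀ n, (b n : ℤ) ≠ 0 := by
    intro n
    have := hb n; exact_mod_cast (by omega : b n ≠ 0)
  have hbpos : ∀ n, (0 : ℤ) < (b n : ℤ) := by
    intro n
    have := hb n; exact_mod_cast (by omega : 0 < b n)
  constructor
  · unfold fc
    rw [base_iff, base_iff, base_iff]
    rintro ((⟨n, k, h1, h2, h3⟩ | ⟨n, hn, j', h1, h2, h3⟩) |
      (⟨n, k, h1, h2, h3⟩ | ⟨n, hn, j', h1, h2, h3⟩) |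
      (⟨n, k, h1, h2, h3⟩ | ⟨n, hn, j', h1, h2, h3⟩))
    · -- v is the first vertex of a down face
      left
      obtain ⟨hn, hd⟩ := mk_eq_iff.1 h1
      subst hn
      obtain ⟨c, hc⟩ := hd
      set B : ℤ := (b (m + 1) : ℤ) with hB
      have hk : (k + (L b (m + 1) * c) * B) / B = j := by
        rw [Int.add_mul_ediv_right _ _ (hb0 (m + 1))]
        linarith
      set k' := k + (L b (m + 1) * c) * B with hk'
      have hmod := Int.emod_add_mul_ediv k' B
      rw [hk] at hmod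
      have hr0 := Int.emod_nonneg k' (hb0 (m + 1))
      have hr1 := Int.emod_lt_of_pos k' (hbpos (m + 1))
      refine ⟨(k' % B).toNat, ?_, ?_, ?_⟩
      · have : ((k' % B).toNat : ℤ) < (b (m + 1) : ℤ) := by
          rw [Int.toNat_of_nonneg hr0]; exact hr1
        exact_mod_cast this
      · rw [h2]
        apply mk_congr
        rw [Int.toNat_of_nonneg hr0, L_succ_cast]
        refine ⟨-c, ?_⟩
        have : j * B + k' % B = k' := by linarith
        rw [this, hk']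
        ring
      · rw [h3]
        apply mk_congr
        rw [Int.toNat_of_nonneg hr0, L_succ_cast]
        refine ⟨-c, ?_⟩
        have : j * B + k' % B = k' := by linarith
        rw [this, hk']
        ring
    · -- up face, v first
      right; left
      obtain ⟨hn', hd⟩ := mk_eq_iff.1 h1
      subst hn'
      obtain ⟨c, hc⟩ := hd
      refine ⟨?_, ?_⟩
      · rw [h2]
        apply mk_congr
        rw [L_succ_cast]
        exact ⟨-c, by linear_combination (-(b (m + 1) : ℤ)) * hc⟩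
      · rw [h3]
        apply mk_congr
        exact ⟨-c, by linear_combination (-1 : ℤ) * hc⟩
    · -- Base y z v, down
      right; right; right; right; left
      obtain ⟨hn', hd⟩ := mk_eq_iff.1 h3
      have hn'' : n = m := by omega
      subst hn''
      refine ⟨?_, ?_⟩
      · rw [h1]
        apply mk_congr
        apply dvd_div_sub hb
        obtain ⟨c, hc⟩ := hd
        exact ⟨-c, by linear_combination (-1 : ℤ) * hc⟩
      · rw [h2]
        apply mk_congr
        obtain ⟨c, hc⟩ := hd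
        exact ⟨-c, by linear_combination (-1 : ℤ) * hc⟩
    · -- Base y z v, up
      right; right; right; right; right
      obtain ⟨hn', hd⟩ := mk_eq_iff.1 h3
      subst hn'
      obtain ⟨c, hc⟩ := hd
      refine ⟨?_, ?_⟩
      · rw [h1]
        apply mk_congr
        exact ⟨-c, by linear_combination (-1 : ℤ) * hc⟩
      · rw [h2]
        apply mk_congr
        rw [L_succ_cast]
        exact ⟨-c, by linear_combination (-(b (m + 1) : ℤ)) * hc⟩
    · -- Base z v y, down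
      right; right; left
      obtain ⟨hn', hd⟩ := mk_eq_iff.1 h2
      have hn'' : n = m := by omega
      subst hn''
      refine ⟨?_, ?_⟩
      · rw [h3]
        apply mk_congr
        obtain ⟨c, hc⟩ := hd
        exact ⟨-c, by linear_combination (-1 : ℤ) * hc⟩
      · rw [h1]
        apply mk_congr
        apply dvd_div_sub hb
        obtain ⟨c, hc⟩ := hd
        exact ⟨-c, by linear_combination (-1 : ℤ) * hc⟩
    · -- Base z v y, up
      right; right; right; left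
      obtain ⟨hn', hd⟩ := mk_eq_iff.1 h2
      have hn'' : n = m := by omega
      subst hn''
      obtain ⟨c, hc⟩ := hd
      rw [L_succ_cast] at hc
      have hj : j = (j' + 1 + L b n * c) * (b n : ℤ) := by linear_combination hc
      have hjd : j / (b n : ℤ) = j' + 1 + L b n * c := by
        rw [hj, Int.mul_ediv_cancel _ (hb0 n)]
      refine ⟨hn, ⟨j' + 1 + L b n * c, by rw [hj]; ring⟩, ?_, ?_⟩
      · rw [h3, hjd]
        apply mk_congr
        exact ⟨-c, by ring⟩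
      · rw [h1, hjd]
        apply mk_congr
        exact ⟨-c, by ring⟩
  · rintro (⟨i, hi, h1, h2⟩ | ⟨h1, h2⟩ | ⟨h1, h2⟩ | ⟨hm, hd, h1, h2⟩ | ⟨h1, h2⟩ | ⟨h1, h2⟩)
    · left
      rw [base_iff]
      refine Or.inl ⟨m + 1, j * (b (m + 1) : ℤ) + i, ?_, h1, h2⟩
      congr 1
      have hi' : (i : ℤ) / (b (m + 1) : ℤ) = 0 :=
        Int.ediv_eq_zero_of_lt (by positivity) (by exact_mod_cast hi)
      rw [add_comm, Int.add_mul_ediv_right _ _ (hb0 (m + 1)), hi']
      ring
    · left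
      rw [base_iff]
      exact Or.inr ⟨m + 1, by omega, j, rfl, h1, h2⟩
    · right; right
      rw [base_iff]
      exact Or.inl ⟨m, j, h2, rfl, h1⟩
    · right; right
      rw [base_iff]
      refine Or.inr ⟨m, hm, j / (b m : ℤ) - 1, h2, ?_, ?_⟩
      · congr 1
        obtain ⟨c, hc⟩ := hd
        rw [hc, Int.mul_ediv_cancel_left _ (hb0 m)]
        ring
      · rw [h1]
        congr 1
        ring
    · right; left
      rw [base_iff]
      refine Or.inl ⟨m, j - 1, h1, h2, ?_⟩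
      congr 1
      ring
    · right; left
      rw [base_iff]
      refine Or.inr ⟨m + 1, by omega, j - 1, h1, ?_, ?_⟩
      · rw [h2]
        congr 1
        ring
      · congr 1
        ring

end Pool.Agent.Helper11.Fatou
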