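import Mathlib
import Pool.Agent.Helper11.Koebe.Defs
import Pool.Agent.Helper11.Fatou.Defs
import Pool.Agent.Helper11.Fatou.Faces

namespace Pool.Agent.Helper11.Fatou

open Pool.Agent.Helper11.Koebe

/-- a general way to get a cycle from a list of pairs -/
theorem cycleRel_of {V : Type*} {R : V → V → Prop} (n : ℕ) (hn : 3 ≤ n) (g : ℕ → V)
    (hinj : Set.InjOn g (Set.Iio n))
    (h : ∀ x y, R x y ↔ ∃ i < n, g i = x ∧ (if i + 1 = n then g 0 else g (i + 1)) = y) :
    CycleRel R := by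
  have hn0 : 0 < n := by omega
  refine ⟨n, hn, fun i => g (i % n), ?_, ?_, ?_⟩
  · intro i
    simp
  · intro i hi i' hi' hg
    have hi1 : i < n := hi
    have hi2 : i' < n := hi'
    simp only [Nat.mod_eq_of_lt hi1, Nat.mod_eq_of_lt hi2] at hg
    exact hinj hi hi' hg
  · intro x y
    rw [h]
    have key : ∀ i < n, g ((i + 1) % n) = if i + 1 = n then g 0 else g (i + 1) := by
      intro i hi
      split_ifs with h1
      · rw [h1, Nat.mod_self]
      · rw [Nat.mod_eq_of_lt (by omega)]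
    constructor
    · rintro ⟨i, hi, h1, h2⟩
      refine ⟨i, ?_, ?_⟩
      · show g (i % n) = x
        rw [Nat.mod_eq_of_lt hi, h1]
      · show g ((i + 1) % n) = y
        rw [key i hi, h2]
    · rintro ⟨i, h1, h2⟩
      refine ⟨i % n, Nat.mod_lt _ hn0, h1, ?_⟩
      rw [← key _ (Nat.mod_lt _ hn0), ← h2]
      show g ((i % n + 1) % n) = g ((i + 1) % n)
      rw [Nat.mod_add_mod]

theorem C2_root {b : ℕ → ℕ} (hb : ∀ n, 4 ≤ b n) (j : ℤ) : CycleRel (fc b (mk b 0 j)) := by
  have hL : 4 ≤ L b 1 := L_ge hb le_rfl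
  have hLp : (0 : ℤ) < (L b 1 : ℤ) := by exact_mod_cast (by omega : 0 < L b 1)
  refine cycleRel_of (L b 1) (by omega) (fun i => mk b 1 (i : ℤ)) ?_ ?_
  · intro i hi i' hi' h
    have h1 : i < L b 1 := hi
    have h2 : i' < L b 1 := hi'
    have h3 := (mk_eq_iff.1 h).2
    have h4 : (i : ℤ) - i' = 0 := by
      apply Int.eq_zero_of_abs_lt_dvd h3
      rw [abs_lt]
      constructor <;> omega
    omega
  · intro x y
    rw [fc_root_iff hb]
    constructor
    · rintro ⟨k, rfl, rfl⟩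
      have e0 := Int.emod_nonneg k hLp.ne'
      have e1 := Int.emod_lt_of_pos k hLp
      have e2 : (L b 1 : ℤ) ∣ k % (L b 1 : ℤ) - k := by
        have := Int.emod_add_mul_ediv k (L b 1 : ℤ)
        exact ⟨-(k / (L b 1 : ℤ)), by linarith⟩
      obtain ⟨c, hc⟩ := e2
      refine ⟨(k % (L b 1 : ℤ)).toNat, by omega, ?_, ?_⟩
      · show mk b 1 _ = mk b 1 _
        rw [mk_eq_iff]
        refine ⟨rfl, ⟨c, ?_⟩⟩
        rw [Int.toNat_of_nonneg e0]
        exact hc
      · split_ifs with h1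
        · show mk b 1 _ = mk b 1 _
          rw [mk_eq_iff]
          refine ⟨rfl, ⟨c - 1, ?_⟩⟩
          have h2 : (k % (L b 1 : ℤ)) + 1 = (L b 1 : ℤ) := by omega
          push_cast
          linarith
        · show mk b 1 _ = mk b 1 _
          rw [mk_eq_iff]
          refine ⟨rfl, ⟨c, ?_⟩⟩
          push_cast
          rw [Int.toNat_of_nonneg e0]
          linarith
    · rintro ⟨i, hi, rfl, rfl⟩
      refine ⟨i, rfl, ?_⟩
      split_ifs with h1
      · show mk b 1 _ = mk b 1 _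
        rw [mk_eq_iff]
        refine ⟨rfl, ⟨-1, ?_⟩⟩
        push_cast
        have : (i : ℤ) + 1 = (L b 1 : ℤ) := by exact_mod_cast h1
        linarith
      · show mk b 1 _ = mk b 1 _
        push_cast
        rfl

theorem C2_par {b : ℕ → ℕ} (hb : ∀ n, 4 ≤ b n) (m : ℕ) (j : ℤ) (h : ¬ (1 ≤ m ∧ (b m : ℤ) ∣ j)) :
    mk b m ((j - 1) / (b m : ℤ)) = mk b m (j / (b m : ℤ)) := by
  rcases Nat.eq_zero_or_pos m with h0 | h0
  · subst h0
    rw [mk_eq_iff]
    refine ⟨rfl, ?_⟩
    have : (L b 0 : ℤ) = 1 := by simp [L]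
    rw [this]
    exact one_dvd _
  · have h1 : ¬ (b m : ℤ) ∣ j := fun h2 => h ⟨h0, h2⟩
    have hbm : (0 : ℤ) < (b m : ℤ) := by exact_mod_cast (by have := hb m; omega : 0 < b m)
    congr 1
    have e0 := Int.emod_nonneg j hbm.ne'
    have e1 := Int.emod_lt_of_pos j hbm
    have e2 := Int.emod_add_mul_ediv j (b m : ℤ)
    have e3 : j % (b m : ℤ) ≠ 0 := fun h3 => h1 (Int.dvd_of_emod_eq_zero h3)
    have e4 : (j - 1) = (j % (b m : ℤ) - 1) + (b m : ℤ) * (j / (b m : ℤ)) := by linarith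
    rw [e4, Int.add_mul_ediv_left _ _ hbm.ne', Int.ediv_eq_zero_of_lt (by omega) (by omega),
      zero_add]

theorem C2_par' {b : ℕ → ℕ} (hb : ∀ n, 4 ≤ b n) (m : ℕ) (j : ℤ) (h : (b m : ℤ) ∣ j) :
    (j - 1) / (b m : ℤ) = j / (b m : ℤ) - 1 := by
  have hbm : (0 : ℤ) < (b m : ℤ) := by exact_mod_cast (by have := hb m; omega : 0 < b m)
  have hbm1 : (1 : ℤ) < (b m : ℤ) := by exact_mod_cast (by have := hb m; omega : 1 < b m)
  obtain ⟨c, rfl⟩ := h
  rw [Int.mul_ediv_cancel_left _ hbm.ne']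
  have e4 : (b m : ℤ) * c - 1 = ((b m : ℤ) - 1) + (b m : ℤ) * (c - 1) := by ring
  rw [e4, Int.add_mul_ediv_left _ _ hbm.ne', Int.ediv_eq_zero_of_lt (by omega) (by omega),
    zero_add]

theorem C2_child {b : ℕ → ℕ} (hb : ∀ n, 4 ≤ b n) (m : ℕ) (j : ℤ) (i i' : ℕ)
    (hi : i ≤ b (m + 1)) (hi' : i' ≤ b (m + 1))
    (h : mk b (m + 2) (j * (b (m + 1) : ℤ) + i) = mk b (m + 2) (j * (b (m + 1) : ℤ) + i')) :
    i = i' := by
  have h1 := (mk_eq_iff.1 h).2
  have hL : 4 ≤ L b (m + 1) := L_ge hb (by omega)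
  have h2 : L b (m + 2) = L b (m + 1) * b (m + 1) := rfl
  have h3 : b (m + 1) < L b (m + 2) := by
    rw [h2]
    have := hb (m + 1)
    nlinarith
  have h4 : (j * (b (m + 1) : ℤ) + i) - (j * (b (m + 1) : ℤ) + i') = 0 := by
    apply Int.eq_zero_of_abs_lt_dvd h1
    rw [abs_lt]
    constructor <;> omega
  omega

theorem C2_lvl {b : ℕ → ℕ} {n m : ℕ} (h : n ≠ m) (j k : ℤ) : mk b n j ≠ mk b m k :=
  fun e => h (mk_eq_iff.1 e).1

theorem C2_sib {b : ℕ → ℕ} (hb : ∀ n, 4 ≤ b n) (m : ℕ) (j : ℤ) :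
    mk b (m + 1) (j + 1) ≠ mk b (m + 1) (j - 1) := by
  intro e
  have h1 := (mk_eq_iff.1 e).2
  have hL : 4 ≤ L b (m + 1) := L_ge hb (by omega)
  have h2 : (j + 1) - (j - 1) = 0 := by
    apply Int.eq_zero_of_abs_lt_dvd h1
    rw [abs_lt]
    constructor <;> omega
  omega

theorem C2_pp {b : ℕ → ℕ} (hb : ∀ n, 4 ≤ b n) (m : ℕ) (hm : 1 ≤ m) (j : ℤ) :
    mk b m j ≠ mk b m (j - 1) := by
  intro e
  have h1 := (mk_eq_iff.1 e).2
  have hL : 4 ≤ L b m := L_ge hb hm
  have h2 : j - (j - 1) = 0 := by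
    apply Int.eq_zero_of_abs_lt_dvd h1
    rw [abs_lt]
    constructor <;> omega
  omega

/-- first kind of links -/
def C2_gA (b : ℕ → ℕ) (m : ℕ) (j : ℤ) (i : ℕ) : Vtx b :=
  if i ≤ b (m + 1) then mk b (m + 2) (j * (b (m + 1) : ℤ) + i)
  else if i = b (m + 1) + 1 then mk b (m + 1) (j + 1)
  else if i = b (m + 1) + 2 then mk b m (j / (b m : ℤ))
  else mk b (m + 1) (j - 1)

/-- second kind of links -/
def C2_gB (b : ℕ → ℕ) (m : ℕ) (j : ℤ) (i : ℕ) : Vtx b :=
  if i ≤ b (m + 1) then mk b (m + 2) (j * (b (m + 1) : ℤ) + i)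
  else if i = b (m + 1) + 1 then mk b (m + 1) (j + 1)
  else if i = b (m + 1) + 2 then mk b m (j / (b m : ℤ))
  else if i = b (m + 1) + 3 then mk b m (j / (b m : ℤ) - 1)
  else mk b (m + 1) (j - 1)

theorem C2_A {b : ℕ → ℕ} (hb : ∀ n, 4 ≤ b n) (m : ℕ) (j : ℤ) (h : ¬ (1 ≤ m ∧ (b m : ℤ) ∣ j)) :
    CycleRel (fc b (mk b (m + 1) j)) := by
  have hB := hb (m + 1)
  have g1 : ∀ i, i ≤ b (m + 1) → C2_gA b m j i = mk b (m + 2) (j * (b (m + 1) : ℤ) + i) :=
    fun i hi => by unfold C2_gA; rw [if_pos hi]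
  have g2 : C2_gA b m j (b (m + 1) + 1) = mk b (m + 1) (j + 1) := by
    unfold C2_gA; rw [if_neg (by omega), if_pos rfl]
  have g3 : C2_gA b m j (b (m + 1) + 2) = mk b m (j / (b m : ℤ)) := by
    unfold C2_gA; rw [if_neg (by omega), if_neg (by omega), if_pos rfl]
  have g4 : C2_gA b m j (b (m + 1) + 3) = mk b (m + 1) (j - 1) := by
    unfold C2_gA; rw [if_neg (by omega), if_neg (by omega), if_neg (by omega)]
  refine cycleRel_of (b (m + 1) + 4) (by omega) (C2_gA b m j) ?_ ?_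
  · intro i hi i' hi' hg
    have h1 : i < b (m + 1) + 4 := hi
    have h2 : i' < b (m + 1) + 4 := hi'
    rcases (by omega : i ≤ b (m + 1) ∨ i = b (m + 1) + 1 ∨ i = b (m + 1) + 2 ∨
      i = b (m + 1) + 3) with c | c | c | c <;>
    rcases (by omega : i' ≤ b (m + 1) ∨ i' = b (m + 1) + 1 ∨ i' = b (m + 1) + 2 ∨
      i' = b (m + 1) + 3) with c' | c' | c' | c'
    · rw [g1 i c, g1 i' c'] at hg
      exact C2_child hb m j i i' c c' hg
    all_goals first
      | (rw [c, c'])
      | skip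
    · rw [g1 i c, c', g2] at hg; exact absurd hg (C2_lvl (by omega) _ _)
    · rw [g1 i c, c', g3] at hg; exact absurd hg (C2_lvl (by omega) _ _)
    · rw [g1 i c, c', g4] at hg; exact absurd hg (C2_lvl (by omega) _ _)
    · rw [g1 i' c', c, g2] at hg; exact absurd hg (C2_lvl (by omega) _ _)
    · rw [c, c', g2, g3] at hg; exact absurd hg (C2_lvl (by omega) _ _)
    · rw [c, c', g2, g4] at hg; exact absurd hg (C2_sib hb m j)
    · rw [g1 i' c', c, g3] at hg; exact absurd hg (C2_lvl (by omega) _ _)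
    · rw [c, c', g3, g2] at hg; exact absurd hg (C2_lvl (by omega) _ _)
    · rw [c, c', g3, g4] at hg; exact absurd hg (C2_lvl (by omega) _ _)
    · rw [g1 i' c', c, g4] at hg; exact absurd hg (C2_lvl (by omega) _ _)
    · rw [c, c', g4, g2] at hg; exact absurd hg.symm (C2_sib hb m j)
    · rw [c, c', g4, g3] at hg; exact absurd hg (C2_lvl (by omega) _ _)
  · intro x y
    rw [fc_iff hb]
    constructor
    · rintro (⟨i, hi, rfl, rfl⟩ | ⟨rfl, rfl⟩ | ⟨rfl, rfl⟩ | ⟨h1, h2, -, -⟩ | ⟨rfl, rfl⟩ | ⟨rfl, rfl⟩)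
      · refine ⟨i, by omega, g1 i hi.le, ?_⟩
        rw [if_neg (by omega), g1 (i + 1) (by omega)]
        push_cast
        rw [add_assoc]
      · refine ⟨b (m + 1), by omega, ?_, ?_⟩
        · rw [g1 _ le_rfl]; congr 1; ring
        · rw [if_neg (by omega), g2]
      · refine ⟨b (m + 1) + 1, by omega, g2, ?_⟩
        rw [if_neg (by omega), g3]
      · exact absurd ⟨h1, h2⟩ h
      · refine ⟨b (m + 1) + 2, by omega, ?_, ?_⟩
        · rw [g3, C2_par hb m j h]
        · rw [if_neg (by omega), g4]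
      · refine ⟨b (m + 1) + 3, by omega, g4, ?_⟩
        rw [if_pos (by omega), g1 0 (by omega)]
        congr 1; push_cast; ring
    · rintro ⟨i, hi, rfl, rfl⟩
      rcases (by omega : i < b (m + 1) ∨ i = b (m + 1) ∨ i = b (m + 1) + 1 ∨ i = b (m + 1) + 2 ∨
        i = b (m + 1) + 3) with c | c | c | c | c
      · left
        refine ⟨i, c, g1 i c.le, ?_⟩
        rw [if_neg (by omega), g1 (i + 1) (by omega)]
        push_cast
        rw [add_assoc]
      · right; left
        subst c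
        refine ⟨?_, ?_⟩
        · rw [g1 _ le_rfl]; congr 1; ring
        · rw [if_neg (by omega), g2]
      · right; right; left
        subst c
        refine ⟨g2, ?_⟩
        rw [if_neg (by omega), g3]
      · right; right; right; right; left
        subst c
        refine ⟨?_, ?_⟩
        · rw [g3, C2_par hb m j h]
        · rw [if_neg (by omega), g4]
      · right; right; right; right; right
        subst c
        refine ⟨g4, ?_⟩
        rw [if_pos (by omega), g1 0 (by omega)]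
        congr 1; push_cast; ring

theorem C2_B {b : ℕ → ℕ} (hb : ∀ n, 4 ≤ b n) (m : ℕ) (j : ℤ) (hm : 1 ≤ m) (hd : (b m : ℤ) ∣ j) :
    CycleRel (fc b (mk b (m + 1) j)) := by
  have hB := hb (m + 1)
  have g1 : ∀ i, i ≤ b (m + 1) → C2_gB b m j i = mk b (m + 2) (j * (b (m + 1) : ℤ) + i) :=
    fun i hi => by unfold C2_gB; rw [if_pos hi]
  have g2 : C2_gB b m j (b (m + 1) + 1) = mk b (m + 1) (j + 1) := by
    unfold C2_gB; rw [if_neg (by omega), if_pos rfl]
  have g3 : C2_gB b m j (b (m + 1) + 2) = mk b m (j / (b m : ℤ)) := by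
    unfold C2_gB; rw [if_neg (by omega), if_neg (by omega), if_pos rfl]
  have g4 : C2_gB b m j (b (m + 1) + 3) = mk b m (j / (b m : ℤ) - 1) := by
    unfold C2_gB; rw [if_neg (by omega), if_neg (by omega), if_neg (by omega), if_pos rfl]
  have g5 : C2_gB b m j (b (m + 1) + 4) = mk b (m + 1) (j - 1) := by
    unfold C2_gB
    rw [if_neg (by omega), if_neg (by omega), if_neg (by omega), if_neg (by omega)]
  refine cycleRel_of (b (m + 1) + 5) (by omega) (C2_gB b m j) ?_ ?_
  · intro i hi i' hi' hg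
    have h1 : i < b (m + 1) + 5 := hi
    have h2 : i' < b (m + 1) + 5 := hi'
    rcases (by omega : i ≤ b (m + 1) ∨ i = b (m + 1) + 1 ∨ i = b (m + 1) + 2 ∨
      i = b (m + 1) + 3 ∨ i = b (m + 1) + 4) with c | c | c | c | c <;>
    rcases (by omega : i' ≤ b (m + 1) ∨ i' = b (m + 1) + 1 ∨ i' = b (m + 1) + 2 ∨
      i' = b (m + 1) + 3 ∨ i' = b (m + 1) + 4) with c' | c' | c' | c' | c'
    · rw [g1 i c, g1 i' c'] at hg
      exact C2_child hb m j i i' c c' hg
    all_goals first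
      | (rw [c, c'])
      | skip
    · rw [g1 i c, c', g2] at hg; exact absurd hg (C2_lvl (by omega) _ _)
    · rw [g1 i c, c', g3] at hg; exact absurd hg (C2_lvl (by omega) _ _)
    · rw [g1 i c, c', g4] at hg; exact absurd hg (C2_lvl (by omega) _ _)
    · rw [g1 i c, c', g5] at hg; exact absurd hg (C2_lvl (by omega) _ _)
    · rw [g1 i' c', c, g2] at hg; exact absurd hg (C2_lvl (by omega) _ _)
    · rw [c, c', g2, g3] at hg; exact absurd hg (C2_lvl (by omega) _ _)
    · rw [c, c', g2, g4] at hg; exact absurd hg (C2_lvl (by omega) _ _)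
    · rw [c, c', g2, g5] at hg; exact absurd hg (C2_sib hb m j)
    · rw [g1 i' c', c, g3] at hg; exact absurd hg (C2_lvl (by omega) _ _)
    · rw [c, c', g3, g2] at hg; exact absurd hg (C2_lvl (by omega) _ _)
    · rw [c, c', g3, g4] at hg; exact absurd hg (C2_pp hb m hm _)
    · rw [c, c', g3, g5] at hg; exact absurd hg (C2_lvl (by omega) _ _)
    · rw [g1 i' c', c, g4] at hg; exact absurd hg (C2_lvl (by omega) _ _)
    · rw [c, c', g4, g2] at hg; exact absurd hg (C2_lvl (by omega) _ _)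
    · rw [c, c', g4, g3] at hg; exact absurd hg.symm (C2_pp hb m hm _)
    · rw [c, c', g4, g5] at hg; exact absurd hg (C2_lvl (by omega) _ _)
    · rw [g1 i' c', c, g5] at hg; exact absurd hg (C2_lvl (by omega) _ _)
    · rw [c, c', g5, g2] at hg; exact absurd hg.symm (C2_sib hb m j)
    · rw [c, c', g5, g3] at hg; exact absurd hg (C2_lvl (by omega) _ _)
    · rw [c, c', g5, g4] at hg; exact absurd hg (C2_lvl (by omega) _ _)
  · intro x y
    rw [fc_iff hb]
    constructor
    · rintro (⟨i, hi, rfl, rfl⟩ | ⟨rfl, rfl⟩ | ⟨rfl, rfl⟩ | ⟨-, -, rfl, rfl⟩ | ⟨rfl, rfl⟩ | ⟨rfl, rfl⟩)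
      · refine ⟨i, by omega, g1 i hi.le, ?_⟩
        rw [if_neg (by omega), g1 (i + 1) (by omega)]
        push_cast
        rw [add_assoc]
      · refine ⟨b (m + 1), by omega, ?_, ?_⟩
        · rw [g1 _ le_rfl]; congr 1; ring
        · rw [if_neg (by omega), g2]
      · refine ⟨b (m + 1) + 1, by omega, g2, ?_⟩
        rw [if_neg (by omega), g3]
      · refine ⟨b (m + 1) + 2, by omega, g3, ?_⟩
        rw [if_neg (by omega), g4]
      · refine ⟨b (m + 1) + 3, by omega, ?_, ?_⟩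
        · rw [g4, C2_par' hb m j hd]
        · rw [if_neg (by omega), g5]
      · refine ⟨b (m + 1) + 4, by omega, g5, ?_⟩
        rw [if_pos (by omega), g1 0 (by omega)]
        congr 1; push_cast; ring
    · rintro ⟨i, hi, rfl, rfl⟩
      rcases (by omega : i < b (m + 1) ∨ i = b (m + 1) ∨ i = b (m + 1) + 1 ∨ i = b (m + 1) + 2 ∨
        i = b (m + 1) + 3 ∨ i = b (m + 1) + 4) with c | c | c | c | c | c
      · left
        refine ⟨i, c, g1 i c.le, ?_⟩
        rw [if_neg (by omega), g1 (i + 1) (by omega)]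
        push_cast
        rw [add_assoc]
      · right; left
        subst c
        refine ⟨?_, ?_⟩
        · rw [g1 _ le_rfl]; congr 1; ring
        · rw [if_neg (by omega), g2]
      · right; right; left
        subst c
        refine ⟨g2, ?_⟩
        rw [if_neg (by omega), g3]
      · right; right; right; left
        subst c
        refine ⟨hm, hd, g3, ?_⟩
        rw [if_neg (by omega), g4]
      · right; right; right; right; left
        subst c
        refine ⟨?_, ?_⟩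
        · rw [g4, C2_par' hb m j hd]
        · rw [if_neg (by omega), g5]
      · right; right; right; right; right
        subst c
        refine ⟨g5, ?_⟩
        rw [if_pos (by omega), g1 0 (by omega)]
        congr 1; push_cast; ring

theorem link_cycle {b : ℕ → ℕ} (hb : ∀ n, 4 ≤ b n) (v : Vtx b) : CycleRel (fc b v) := by
  obtain ⟨n, j, rfl⟩ := exists_rep v
  cases n with
  | zero => exact C2_root hb j
  | succ m =>
    by_cases h : 1 ≤ m ∧ (b m : ℤ) ∣ j
    · exact C2_B hb m j h.1 h.2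
    · exact C2_A hb m j h

end Pool.Agent.Helper11.Fatou
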