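import Mathlib
import Pool.Agent.Helper11.Koebe.Defs
import Pool.Agent.Helper11.Fatou.Defs
import Pool.Agent.Helper11.Fatou.Faces
import Pool.Agent.Helper11.Fatou.Link

namespace Pool.Agent.Helper11.Fatou

open Pool.Agent.Helper11.Koebe

/-- the layered complex -/
def KK (b : ℕ → ℕ) (hb : ∀ n, 4 ≤ b n) : Tri (Vtx b) where
  face := fc b
  rot := by
    intro u v w h
    rcases h with h | h | h
    · exact Or.inr (Or.inr h)
    · exact Or.inl h
    · exact Or.inr (Or.inl h)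
  link := fun v => Or.inl (link_cycle hb v)

theorem KK_interior {b : ℕ → ℕ} (hb : ∀ n, 4 ≤ b n) (v : Vtx b) : (KK b hb).Interior v :=
  link_cycle hb v

theorem KK_infinite {b : ℕ → ℕ} : Infinite (Vtx b) := by
  refine Infinite.of_injective (fun n : ℕ => mk b n 0) ?_
  intro n m h
  exact (mk_eq_iff.1 h).1

theorem KK_adj_symm {b : ℕ → ℕ} (hb : ∀ n, 4 ≤ b n) {u v : Vtx b} (h : (KK b hb).Adj u v) :
    (KK b hb).Adj v u := by
  obtain ⟨w, h | h⟩ := h
  · exact ⟨w, Or.inr h⟩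
  · exact ⟨w, Or.inl h⟩

theorem KK_adj_parent_aux {b : ℕ → ℕ} (hb : ∀ n, 4 ≤ b n) (n : ℕ) (k : ℤ) :
    (KK b hb).Adj (mk b n (k / (b n : ℤ))) (mk b (n + 1) k) :=
  ⟨mk b (n + 1) (k + 1), Or.inl (Or.inl (Base.down n k))⟩

theorem KK_root_aux {b : ℕ → ℕ} (hb : ∀ n, 4 ≤ b n) (n : ℕ) :
    ∀ k : ℤ, Relation.ReflTransGen (KK b hb).Adj (mk b n k) (mk b 0 0) ∧
      Relation.ReflTransGen (KK b hb).Adj (mk b 0 0) (mk b n k) := by
  induction n with
  | zero =>
    intro k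
    have h : mk b 0 k = mk b 0 0 := by
      rw [mk_eq_iff]
      refine ⟨rfl, ?_⟩
      simp [L]
    rw [h]
    exact ⟨Relation.ReflTransGen.refl, Relation.ReflTransGen.refl⟩
  | succ n ih =>
    intro k
    obtain ⟨h1, h2⟩ := ih (k / (b n : ℤ))
    have h3 := KK_adj_parent_aux hb n k
    exact ⟨Relation.ReflTransGen.head (KK_adj_symm hb h3) h1, Relation.ReflTransGen.tail h2 h3⟩

theorem KK_connected {b : ℕ → ℕ} (hb : ∀ n, 4 ≤ b n) : (KK b hb).Connected := by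
  intro u v
  obtain ⟨n, j, rfl⟩ := exists_rep u
  obtain ⟨m, k, rfl⟩ := exists_rep v
  exact (KK_root_aux hb n j).1.trans (KK_root_aux hb m k).2

/-- positively oriented triple of mutually tangent circles -/
def TO (x y z : ℂ) (r s t : ℝ) : Prop :=
  dist x y = r + s ∧ dist y z = s + t ∧ dist x z = r + t ∧ 0 < orient x y z

theorem Per_dvd {b : ℕ → ℕ} {X : Type} {f : ℕ → ℤ → X} (hf : Per b f) {n : ℕ} {j k : ℤ}
    (h : (L b n : ℤ) ∣ j - k) : f n j = f n k := by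
  obtain ⟨c, hc⟩ := h
  have h1 : j = k + (L b n : ℤ) * c := by linarith
  rw [h1]
  have h2 : ∀ m : ℕ, ∀ k : ℤ, f n (k + (L b n : ℤ) * (m : ℤ)) = f n k := by
    intro m
    induction m with
    | zero => intro k; simp
    | succ m ih =>
      intro k
      have h3 : k + (L b n : ℤ) * ((m + 1 : ℕ) : ℤ) = (k + (L b n : ℤ) * (m : ℤ)) + (L b n : ℤ) := by
        push_cast; ring
      rw [h3, hf, ih]
  rcases Int.eq_nat_or_neg c with ⟨m, hm | hm⟩
  · rw [hm]; exact h2 m k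
  · have h4 := h2 m (k + (L b n : ℤ) * c)
    rw [← h4, hm]
    congr 1
    ring

theorem orient_rot (x y z : ℂ) : orient y z x = orient x y z := by
  unfold orient
  simp only [map_sub, Complex.mul_im, Complex.sub_re, Complex.sub_im, Complex.conj_re,
    Complex.conj_im]
  ring

theorem TO_rot {x y z : ℂ} {r s t : ℝ} (h : TO x y z r s t) : TO y z x s t r := by
  obtain ⟨h1, h2, h3, h4⟩ := h
  refine ⟨h2, ?_, ?_, ?_⟩
  · rw [dist_comm, h3]; ring
  · rw [dist_comm, h1]; ring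
  · rw [orient_rot]; exact h4

/-- a packing from periodic data -/
theorem exists_packing {b : ℕ → ℕ} (hb : ∀ n, 4 ≤ b n) {c : ℕ → ℤ → ℂ} {r : ℕ → ℤ → ℝ}
    (hc : Per b c) (hr : Per b r) (hpos : ∀ n j, 0 < r n j)
    (hdown : ∀ (n : ℕ) (k : ℤ), TO (c n (k / (b n : ℤ))) (c (n + 1) k) (c (n + 1) (k + 1))
      (r n (k / (b n : ℤ))) (r (n + 1) k) (r (n + 1) (k + 1)))
    (hup : ∀ (n : ℕ), 1 ≤ n → ∀ j : ℤ, TO (c n j) (c (n + 1) ((j + 1) * (b n : ℤ))) (c n (j + 1))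
      (r n j) (r (n + 1) ((j + 1) * (b n : ℤ))) (r n (j + 1))) :
    ∃ P : Packing (KK b hb), (∀ n j, P.c (mk b n j) = c n j) ∧ ∀ n j, P.r (mk b n j) = r n j := by
  classical
  choose N J hNJ using (exists_rep (b := b))
  let C : Vtx b → ℂ := fun v => c (N v) (J v)
  let R : Vtx b → ℝ := fun v => r (N v) (J v)
  have hC : ∀ n j, C (mk b n j) = c n j := by
    intro n j
    have h := hNJ (mk b n j)
    obtain ⟨h1, h2⟩ := mk_eq_iff.1 h
    show c (N (mk b n j)) (J (mk b n j)) = c n j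
    rw [← h1]
    exact (Per_dvd hc h2).symm
  have hR : ∀ n j, R (mk b n j) = r n j := by
    intro n j
    have h := hNJ (mk b n j)
    obtain ⟨h1, h2⟩ := mk_eq_iff.1 h
    show r (N (mk b n j)) (J (mk b n j)) = r n j
    rw [← h1]
    exact (Per_dvd hr h2).symm
  have hbase : ∀ x y z, Base b x y z → TO (C x) (C y) (C z) (R x) (R y) (R z) := by
    intro x y z h
    cases h with
    | down n k =>
      rw [hC, hC, hC, hR, hR, hR]
      exact hdown n k
    | up n hn j =>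
      rw [hC, hC, hC, hR, hR, hR]
      exact hup n hn j
  have hface : ∀ x y z, fc b x y z → TO (C x) (C y) (C z) (R x) (R y) (R z) := by
    intro x y z h
    rcases h with h | h | h
    · exact hbase _ _ _ h
    · exact TO_rot (TO_rot (hbase _ _ _ h))
    · exact TO_rot (hbase _ _ _ h)
  refine ⟨⟨C, R, ?_, ?_, ?_⟩, hC, hR⟩
  · intro v
    exact hpos _ _
  · intro u v huv
    obtain ⟨w, h | h⟩ := huv
    · exact (hface _ _ _ h).1
    · have h5 := (hface _ _ _ h).1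
      rw [dist_comm, h5]; ring
  · intro u v w h
    exact (hface _ _ _ h).2.2.2

theorem adj_sibling {b : ℕ → ℕ} (hb : ∀ n, 4 ≤ b n) (n : ℕ) (j : ℤ) :
    (KK b hb).Adj (mk b (n + 1) j) (mk b (n + 1) (j + 1)) :=
  ⟨mk b n (j / (b n : ℤ)), Or.inl (Or.inr (Or.inr (Base.down n j)))⟩

theorem adj_parent {b : ℕ → ℕ} (hb : ∀ n, 4 ≤ b n) (n : ℕ) (k : ℤ) :
    (KK b hb).Adj (mk b n (k / (b n : ℤ))) (mk b (n + 1) k) :=
  KK_adj_parent_aux hb n k

end Pool.Agent.Helper11.Fatou
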