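import Pool.Agent.Helper11.Koebe.Defs

/-!
# The discrete Fatou theorem: the statement

`Tri V`, `Packing K`, `Packing.Univalent`, `Tri.Interior`, `Tri.Connected` are defined in
`Pool.Agent.Helper11.Koebe.Defs`: `Tri V` is an oriented triangulated surface given by its
positively oriented faces `face u v w` such that the link of every vertex is a finite cycle
(interior vertex) or a finite path; a `Packing K` is a family of circles with positive radii,
externally tangent along the edges, such that the triple of centres of every positively oriented
face is positively oriented (so that it may be branched and need not be univalent).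
-/

namespace Pool.Agent.Helper11.Fatou

open Pool.Agent.Helper11.Koebe Filter Topology

/-- The geometric realization of `K`: barycentric coordinates of the points of the faces, with the
topology of pointwise convergence (which is the usual one as `K` is locally finite). -/
def realization {V : Type} (K : Tri V) : Set (V → ℝ) :=
  {x | (∀ v, 0 ≤ x v) ∧ ∃ a b c, K.face a b c ∧ x a + x b + x c = 1 ∧
    ∀ v, v ≠ a → v ≠ b → v ≠ c → x v = 0}

/-- `K` is a combinatorial open disc: an infinite (locally finite, since links are finite)
connected simplicial 2-complex without boundary which triangulates a topological open disc. -/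
def IsOpenDisc {V : Type} (K : Tri V) : Prop :=
  Infinite V ∧ K.Connected ∧ (∀ v, K.Interior v) ∧
    Nonempty (realization K ≃ₜ Metric.ball (0 : ℂ) 1)

/-- The carrier: the union of the closed discs and of the triangular interstices, that is the
union of the closed discs and of the closed triangles of centres of the faces. -/
def fullCarrier {V : Type} {K : Tri V} (Q : Packing K) : Set ℂ :=
  {z | (∃ v, z ∈ Metric.closedBall (Q.c v) (Q.r v)) ∨
    ∃ u v w, K.face u v w ∧ z ∈ convexHull ℝ {Q.c u, Q.c v, Q.c w}}

/-- `Q` is the maximal packing of a hyperbolic complex: it is univalent and its carrier is the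
open unit disc. -/
def IsMaximalPacking {V : Type} {K : Tri V} (Q : Packing K) : Prop :=
  Q.Univalent ∧ fullCarrier Q = Metric.ball 0 1

/-- The union of the circles of `P` is bounded. -/
def IsBoundedPacking {V : Type} {K : Tri V} (P : Packing K) : Prop :=
  ∃ M : ℝ, ∀ v, Metric.closedBall (P.c v) (P.r v) ⊆ Metric.closedBall 0 M

/-- The sequence `Z` of points of the unit disc converges nontangentially to `ζ`. -/
def Nontangential (Z : ℕ → ℂ) (ζ : ℂ) : Prop :=
  Tendsto Z atTop (𝓝 ζ) ∧ ∃ M : ℝ, ∀ j, ‖ζ - Z j‖ ≤ M * (1 - ‖Z j‖)

/-- The statement of Q1: for every hyperbolic combinatorial open disc `K` with maximal packing `Q`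
and every bounded packing `P` for `K` (that is, every bounded discrete analytic function
`f : Q → P`, `f (Q.c v) = P.c v`), for almost every `ζ = e^{iθ}` of the unit circle, whenever the
centres of the circles `Z 0, Z 1, ...` of `Q` converge nontangentially to `ζ`, the sequence of
their images converges. -/
def DiscreteFatou : Prop :=
  ∀ (V : Type) (K : Tri V), IsOpenDisc K → ∀ Q : Packing K, IsMaximalPacking Q →
    ∀ P : Packing K, IsBoundedPacking P →
      ∀ᵐ θ : ℝ, ∀ Z : ℕ → V,
        Nontangential (fun j => Q.c (Z j)) (Complex.exp ((θ : ℝ) * Complex.I)) →
          ∃ w : ℂ, Tendsto (fun j => P.c (Z j)) atTop (𝓝 w)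

end Pool.Agent.Helper11.Fatou
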