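import Pool.Agent.Helper11.Koebe.Geo
import Pool.Agent.Helper11.Fatou.Statement

namespace Pool.Agent.Helper11.Fatou

open Pool.Agent.Helper11.Koebe

theorem face_ne {V : Type} {K : Tri V} {a b c : V} (h : K.face a b c) : a ≠ b ∧ b ≠ c ∧ a ≠ c :=
  ⟨Tri.face_ne12 h, Tri.face_ne23 h, Tri.face_ne13 h⟩

theorem nbrs_finite {V : Type} {K : Tri V} (a : V) : {x | K.Adj a x}.Finite := Tri.nbrs_finite a

/-- if the disc of `y` meets the triangle then `y` is a vertex of it -/
theorem mem_face_of_meet {V : Type} {K : Tri V} {P : Packing K} (hK : K.Connected)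
    (hP : P.Univalent) {a b c y : V} (hf : K.face a b c)
    {p : ℂ} (hp : p ∈ Metric.closedBall (P.c y) (P.r y))
    (hpt : p ∈ convexHull ℝ {P.c a, P.c b, P.c c}) : y = a ∨ y = b ∨ y = c :=
  Packing.mem_face_of_meet hK hP hf hp hpt

theorem tri_cases {p q r z : ℂ} (h : 0 < orient p q r) (hz : z ∈ convexHull ℝ {p, q, r}) :
    z ∈ interior (convexHull ℝ {p, q, r}) ∨ z ∈ segment ℝ p q ∨ z ∈ segment ℝ q r ∨
      z ∈ segment ℝ r p := by
  have h1 := (mem_tri_iff h z).1 hz
  obtain ⟨ha, hb, hc⟩ := h1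
  rcases ha.lt_or_eq with ha | ha
  · rcases hb.lt_or_eq with hb | hb
    · rcases hc.lt_or_eq with hc | hc
      · exact Or.inl (mem_interior_tri h ha hb hc)
      · right; right; right
        have hr : 0 < orient r p q := by rw [← orient_cyc]; exact h
        have hz' : z ∈ convexHull ℝ {r, p, q} := by
          have e : ({r, p, q} : Set ℂ) = {p, q, r} := Koebe.tri_rot r p q
          rw [e]; exact hz
        exact mem_segment_of_orient_zero hr hz' hc.symm
    · right; right; left
      have hr : 0 < orient q r p := by rw [orient_cyc]; exact h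
      have hz' : z ∈ convexHull ℝ {q, r, p} := by
        rw [← Koebe.tri_rot p q r]; exact hz
      exact mem_segment_of_orient_zero hr hz' hb.symm
  · right; left
    exact mem_segment_of_orient_zero h hz ha.symm

/-- the edge `ab` does not meet the disc of a third vertex -/
theorem edge_not_disc {V : Type} {K : Tri V} {P : Packing K} (hP : P.Univalent) {a b x : V}
    (hab : K.Adj a b) (hxa : x ≠ a) (hxb : x ≠ b) {p : ℂ} (hp : p ∈ segment ℝ (P.c a) (P.c b)) :
    p ∉ Metric.closedBall (P.c x) (P.r x) :=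
  Packing.edge_not_disc hP hab hxa hxb hp

theorem edge_cover {a b : ℂ} {α β : ℝ} (hα : 0 < α) (hβ : 0 < β) (hab : dist a b = α + β) {p : ℂ}
    (hp : p ∈ segment ℝ a b) : p ∈ Metric.closedBall a α ∨ p ∈ Metric.closedBall b β :=
  Koebe.edge_cover hα hβ hab hp

end Pool.Agent.Helper11.Fatou
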