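import Mathlib
import Pool.Agent.Helper11.Koebe.Defs
import Pool.Agent.Helper11.Fatou.Defs
import Pool.Agent.Helper11.Fatou.RBridge

namespace Pool.Agent.Helper11.Fatou

open Pool.Agent.Helper11.Koebe

/-- affine uniqueness of coordinates in a triangle -/
theorem coords_in_face {V : Type} {K : Tri V} {Q : Packing K} {a b c : V} (hf : K.face a b c)
    {x y : V → ℝ} (hx1 : x a + x b + x c = 1) (hx2 : ∀ v, v ≠ a → v ≠ b → v ≠ c → x v = 0)
    (hy1 : y a + y b + y c = 1) (hy2 : ∀ v, v ≠ a → v ≠ b → v ≠ c → y v = 0)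
    (h : (x a : ℂ) * Q.c a + x b * Q.c b + x c * Q.c c =
      (y a : ℂ) * Q.c a + y b * Q.c b + y c * Q.c c) : x = y := by
  have ho := Q.oriented a b c hf
  unfold orient at ho
  simp only [Complex.mul_im, Complex.conj_re, Complex.conj_im, Complex.sub_re, Complex.sub_im] at ho
  have hre := congrArg Complex.re h
  have him := congrArg Complex.im h
  simp only [Complex.add_re, Complex.add_im, Complex.re_ofReal_mul, Complex.im_ofReal_mul] at hre him
  have hxa : x a = 1 - x b - x c := by linarith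
  have hya : y a = 1 - y b - y c := by linarith
  rw [hxa, hya] at hre him
  have h1 : (x b - y b) * (((Q.c b).re - (Q.c a).re) * ((Q.c c).im - (Q.c a).im) +
      -((Q.c b).im - (Q.c a).im) * ((Q.c c).re - (Q.c a).re)) = 0 := by
    linear_combination ((Q.c c).im - (Q.c a).im) * hre - ((Q.c c).re - (Q.c a).re) * him
  have h2 : (x c - y c) * (((Q.c b).re - (Q.c a).re) * ((Q.c c).im - (Q.c a).im) +
      -((Q.c b).im - (Q.c a).im) * ((Q.c c).re - (Q.c a).re)) = 0 := by
    linear_combination (-((Q.c b).im - (Q.c a).im)) * hre + ((Q.c b).re - (Q.c a).re) * him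
  have hb : x b = y b := by
    rcases mul_eq_zero.mp h1 with h | h
    · linarith
    · exact absurd h ho.ne'
  have hc : x c = y c := by
    rcases mul_eq_zero.mp h2 with h | h
    · linarith
    · exact absurd h ho.ne'
  funext v
  by_cases hva : v = a
  · subst hva; rw [hxa, hya, hb, hc]
  by_cases hvb : v = b
  · subst hvb; exact hb
  by_cases hvc : v = c
  · subst hvc; exact hc
  rw [hx2 v hva hvb hvc, hy2 v hva hvb hvc]

/-- the sum over the coordinates -/
theorem finsum_face {V : Type} {K : Tri V} {Q : Packing K} {a b c : V} (hf : K.face a b c)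
    {x : V → ℝ} (hx2 : ∀ v, v ≠ a → v ≠ b → v ≠ c → x v = 0) :
    ∑ᶠ v, (x v : ℂ) * Q.c v = (x a : ℂ) * Q.c a + x b * Q.c b + x c * Q.c c := by
  classical
  obtain ⟨hab, hbc, hac⟩ := face_ne hf
  rw [finsum_eq_sum_of_support_subset (s := ({a, b, c} : Finset V))]
  · rw [Finset.sum_insert (by simp [hab, hac]), Finset.sum_insert (by simp [hbc]),
      Finset.sum_singleton]
    ring
  · intro v hv
    by_contra hn
    simp only [Finset.coe_insert, Finset.coe_singleton, Set.mem_insert_iff,
      Set.mem_singleton_iff, not_or] at hn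
    apply hv
    simp [hx2 v hn.1 hn.2.1 hn.2.2]

/-- the point of a face in the closed triangle -/
theorem mem_tri_of_coords {p q r : ℂ} {s t u : ℝ} (hs : 0 ≤ s) (ht : 0 ≤ t) (hu : 0 ≤ u)
    (h : s + t + u = 1) : (s : ℂ) * p + t * q + u * r ∈ convexHull ℝ {p, q, r} := by
  have hc := convex_convexHull ℝ ({p, q, r} : Set ℂ)
  have hp : p ∈ convexHull ℝ ({p, q, r} : Set ℂ) := subset_convexHull ℝ _ (by simp)
  have hq : q ∈ convexHull ℝ ({p, q, r} : Set ℂ) := subset_convexHull ℝ _ (by simp)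
  have hr : r ∈ convexHull ℝ ({p, q, r} : Set ℂ) := subset_convexHull ℝ _ (by simp)
  have := hc.sum_mem (t := Finset.univ) (w := ![s, t, u]) (z := ![p, q, r])
    (by intro i _; fin_cases i <;> simpa) (by simp [Fin.sum_univ_three, h])
    (by intro i _; fin_cases i <;> simpa)
  simpa [Fin.sum_univ_three] using this

/-- nondegenerate triangle: nonempty interior -/
theorem tri_interior_nonempty {p q r : ℂ} (h : 0 < orient p q r) :
    (interior (convexHull ℝ {p, q, r})).Nonempty := by
  have hai : AffineIndependent ℝ ![p, q, r] := by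
    rw [affineIndependent_iff_linearIndependent_vsub ℝ _ (0 : Fin 3)]
    have : LinearIndependent ℝ ![q - p, r - p] := by
      rw [LinearIndependent.pair_iff]
      intro s t hst
      unfold orient at h
      simp only [Complex.mul_im, Complex.conj_re, Complex.conj_im, Complex.sub_re,
        Complex.sub_im] at h
      have hre := congrArg Complex.re hst
      have him := congrArg Complex.im hst
      simp at hre him
      have h1 : s * ((q.re - p.re) * (r.im - p.im) + -(q.im - p.im) * (r.re - p.re)) = 0 := by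
        linear_combination (r.im - p.im) * hre - (r.re - p.re) * him
      have h2 : t * ((q.re - p.re) * (r.im - p.im) + -(q.im - p.im) * (r.re - p.re)) = 0 := by
        linear_combination (-(q.im - p.im)) * hre + (q.re - p.re) * him
      constructor
      · rcases mul_eq_zero.mp h1 with h' | h'
        · exact h'
        · exact absurd h' h.ne'
      · rcases mul_eq_zero.mp h2 with h' | h'
        · exact h'
        · exact absurd h' h.ne'
    have hinj := this
    rw [← linearIndependent_equiv (finSuccAboveEquiv (0 : Fin 3))]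
    convert this using 1 <;> first | rfl | (funext i; fin_cases i <;> rfl)
  have hspan : affineSpan ℝ (Set.range ![p, q, r]) = ⊤ := by
    apply hai.affineSpan_eq_top_iff_card_eq_finrank_add_one.mpr
    rw [Complex.finrank_real_complex]; rfl
  have := (interior_convexHull_nonempty_iff_affineSpan_eq_top (s := Set.range ![p, q, r])).mpr hspan
  convert this using 3
  ext v
  simp only [Set.mem_insert_iff, Set.mem_singleton_iff, Set.mem_range, Fin.exists_fin_succ]
  simp [eq_comm]
  try tauto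

/-- two triangles of which one has interior meeting the other -/
theorem interiors_meet {p q r p' q' r' z : ℂ} (h' : 0 < orient p' q' r')
    (hz : z ∈ interior (convexHull ℝ {p, q, r})) (hz' : z ∈ convexHull ℝ {p', q', r'}) :
    (interior (convexHull ℝ {p, q, r}) ∩ interior (convexHull ℝ {p', q', r'})).Nonempty := by
  have hcl : closure (interior (convexHull ℝ {p', q', r'})) = closure (convexHull ℝ {p', q', r'}) :=
    (convex_convexHull ℝ _).closure_interior_eq_closure_of_nonempty_interior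
      (tri_interior_nonempty h')
  have hz2 : z ∈ closure (interior (convexHull ℝ {p', q', r'})) := by
    rw [hcl]; exact subset_closure hz'
  exact mem_closure_iff.mp hz2 _ isOpen_interior hz

/-- coordinates on an edge -/
theorem edge_coords {V : Type} {K : Tri V} {Q : Packing K} {a b c : V} (hf : K.face a b c)
    {x : V → ℝ} (hx1 : x a + x b + x c = 1) (hx2 : ∀ v, v ≠ a → v ≠ b → v ≠ c → x v = 0)
    {z : ℂ} (h : (x a : ℂ) * Q.c a + x b * Q.c b + x c * Q.c c = z)
    (hz : z ∈ segment ℝ (Q.c a) (Q.c b)) : x c = 0 := by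
  classical
  obtain ⟨hab, hbc, hac⟩ := face_ne hf
  obtain ⟨s, t, hs, ht, hst, rfl⟩ := hz
  set y : V → ℝ := fun v => if v = a then s else if v = b then t else 0 with hy
  have hya : y a = s := by simp [hy]
  have hyb : y b = t := by simp [hy, hab.symm]
  have hyc : y c = 0 := by simp [hy, hac.symm, hbc.symm]
  have := coords_in_face (Q := Q) hf hx1 hx2 (y := y) (by rw [hya, hyb, hyc]; linarith)
    (by intro v h1 h2 h3; simp [hy, h1, h2])
    (by rw [h, hya, hyb, hyc]; simp)
  rw [this, hyc]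

/-- coordinates of boundary points of a face -/
theorem bdry_coords {V : Type} {K : Tri V} {Q : Packing K} {a b c : V} (hf : K.face a b c)
    {x : V → ℝ} (hx0 : ∀ v, 0 ≤ x v)
    (hx1 : x a + x b + x c = 1) (hx2 : ∀ v, v ≠ a → v ≠ b → v ≠ c → x v = 0)
    {z : ℂ} (h : (x a : ℂ) * Q.c a + x b * Q.c b + x c * Q.c c = z)
    (hz : z ∉ interior (convexHull ℝ {Q.c a, Q.c b, Q.c c})) :
    ∃ p q, K.Adj p q ∧ p ≠ q ∧ x p + x q = 1 ∧ (∀ v, v ≠ p → v ≠ q → x v = 0) ∧
      (x p : ℂ) * Q.c p + x q * Q.c q = z := by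
  obtain ⟨hab, hbc, hac⟩ := face_ne hf
  have hzt : z ∈ convexHull ℝ {Q.c a, Q.c b, Q.c c} := by
    rw [← h]; exact mem_tri_of_coords (hx0 a) (hx0 b) (hx0 c) hx1
  rcases tri_cases (Q.oriented a b c hf) hzt with h1 | h1 | h1 | h1
  · exact absurd h1 hz
  · have hc : x c = 0 := edge_coords hf hx1 hx2 h h1
    refine ⟨a, b, ⟨c, Or.inl hf⟩, hab, by linarith, ?_, ?_⟩
    · intro v hva hvb
      by_cases hvc : v = c
      · rw [hvc, hc]
      · exact hx2 v hva hvb hvc
    · rw [← h, hc]; simp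
  · have hf' := K.rot _ _ _ hf
    have ha : x a = 0 := edge_coords (Q := Q) hf' (x := x) (by linarith)
      (fun v h1 h2 h3 => hx2 v h3 h1 h2) (z := z) (by rw [← h]; ring) h1
    refine ⟨b, c, ⟨a, Or.inl hf'⟩, hbc, by linarith, ?_, ?_⟩
    · intro v hvb hvc
      by_cases hva : v = a
      · rw [hva, ha]
      · exact hx2 v hva hvb hvc
    · rw [← h, ha]; simp
  · have hf' := K.rot _ _ _ (K.rot _ _ _ hf)
    have hb : x b = 0 := edge_coords (Q := Q) hf' (x := x) (by linarith)
      (fun v h1 h2 h3 => hx2 v h2 h3 h1) (z := z) (by rw [← h]; ring) h1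
    refine ⟨c, a, ⟨b, Or.inl hf'⟩, hac.symm, by linarith, ?_, ?_⟩
    · intro v hvc hva
      by_cases hvb : v = b
      · rw [hvb, hb]
      · exact hx2 v hva hvb hvc
    · rw [← h, hb]; simp; ring

theorem adj_symm' {V : Type} {K : Tri V} {a b : V} (h : K.Adj a b) : K.Adj b a := by
  obtain ⟨w, h | h⟩ := h
  · exact ⟨w, Or.inr h⟩
  · exact ⟨w, Or.inl h⟩

/-- two edges with a common vertex -/
theorem pair_unique {V : Type} {K : Tri V} {Q : Packing K} (hQ : Q.Univalent) {p q q' : V}
    (h1 : K.Adj p q) (h2 : K.Adj p q') (hpq : p ≠ q) (hpq' : p ≠ q') {x y : V → ℝ}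
    (hx0 : ∀ v, 0 ≤ x v) (hy0 : ∀ v, 0 ≤ y v)
    (hx1 : x p + x q = 1) (hx2 : ∀ v, v ≠ p → v ≠ q → x v = 0)
    (hy1 : y p + y q' = 1) (hy2 : ∀ v, v ≠ p → v ≠ q' → y v = 0)
    (h : (x p : ℂ) * Q.c p + x q * Q.c q = (y p : ℂ) * Q.c p + y q' * Q.c q') : x = y := by
  have d1 := Q.tangent p q h1
  have d2 := Q.tangent p q' h2
  have rp := Q.r_pos p
  have rq := Q.r_pos q
  have rq' := Q.r_pos q'
  rw [dist_comm, Complex.dist_eq] at d1 d2
  have hxp : x p = 1 - x q := by linarith
  have hyp : y p = 1 - y q' := by linarith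
  have key : (x q : ℂ) * (Q.c q - Q.c p) = (y q' : ℂ) * (Q.c q' - Q.c p) := by
    rw [hxp, hyp] at h
    push_cast at h
    linear_combination h
  have hn := congrArg norm key
  rw [norm_mul, norm_mul, Complex.norm_real, Complex.norm_real, d1, d2,
    Real.norm_of_nonneg (hx0 q), Real.norm_of_nonneg (hy0 q')] at hn
  -- final step from equality of all values
  by_cases hqq : q = q'
  · subst hqq
    have hxy : x q = y q := by
      have : (x q - y q) * (Q.r p + Q.r q) = 0 := by linarith
      rcases mul_eq_zero.mp this with h | h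
      · linarith
      · linarith
    funext v
    by_cases hvp : v = p
    · rw [hvp, hxp, hyp, hxy]
    by_cases hvq : v = q
    · rw [hvq, hxy]
    rw [hx2 v hvp hvq, hy2 v hvp hvq]
  by_cases hx : x q = 0
  · have hy : y q' = 0 := by
      rw [hx] at hn
      have : y q' * (Q.r p + Q.r q') = 0 := by linarith
      rcases mul_eq_zero.mp this with h | h
      · exact h
      · linarith
    funext v
    by_cases hvp : v = p
    · rw [hvp, hxp, hyp, hx, hy]
    have e1 : x v = 0 := by
      by_cases hvq : v = q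
      · rw [hvq, hx]
      · exact hx2 v hvp hvq
    have e2 : y v = 0 := by
      by_cases hvq : v = q'
      · rw [hvq, hy]
      · exact hy2 v hvp hvq
    rw [e1, e2]
  exfalso
  have hxpos : 0 < x q := lt_of_le_of_ne (hx0 q) (Ne.symm hx)
  have hdisj := hQ q q' hqq
  have hd : Q.r q + Q.r q' ≤ dist (Q.c q) (Q.c q') :=
    (disjoint_ball_ball_iff rq rq').mp hdisj
  -- x q (c q - c q') = (y q' - x q) (c q' - c p)
  have k2 : (x q : ℂ) * (Q.c q - Q.c q') = ((y q' - x q : ℝ) : ℂ) * (Q.c q' - Q.c p) := by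
    push_cast
    linear_combination key
  have hn2 := congrArg norm k2
  rw [norm_mul, norm_mul, Complex.norm_real, Complex.norm_real, d2,
    Real.norm_of_nonneg (hx0 q), ← Complex.dist_eq, Real.norm_eq_abs] at hn2
  have e : |y q' - x q| * (Q.r p + Q.r q') = |x q * (Q.r q - Q.r q')| := by
    have : x q * (Q.r q - Q.r q') = (y q' - x q) * (Q.r p + Q.r q') := by
      linear_combination hn
    rw [this, abs_mul, abs_of_pos (by linarith : (0:ℝ) < Q.r p + Q.r q')]
  rw [e, abs_mul, abs_of_pos hxpos] at hn2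
  have e3 : dist (Q.c q) (Q.c q') = |Q.r q - Q.r q'| := mul_left_cancel₀ hx hn2
  rw [e3] at hd
  rcases abs_cases (Q.r q - Q.r q') with h | h <;> linarith

/-- two edges -/
theorem edges_unique {V : Type} {K : Tri V} {Q : Packing K} (hQ : Q.Univalent) {p q p' q' : V}
    (h1 : K.Adj p q) (h2 : K.Adj p' q') (hpq : p ≠ q) (hpq' : p' ≠ q') {x y : V → ℝ}
    (hx0 : ∀ v, 0 ≤ x v) (hy0 : ∀ v, 0 ≤ y v)
    (hx1 : x p + x q = 1) (hx2 : ∀ v, v ≠ p → v ≠ q → x v = 0)
    (hy1 : y p' + y q' = 1) (hy2 : ∀ v, v ≠ p' → v ≠ q' → y v = 0)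
    (h : (x p : ℂ) * Q.c p + x q * Q.c q = (y p' : ℂ) * Q.c p' + y q' * Q.c q') : x = y := by
  -- the disc of p contains the point
  have main : ∀ (s t : V), K.Adj s t → s ≠ t → x s + x t = 1 → (∀ v, v ≠ s → v ≠ t → x v = 0) →
      (x s : ℂ) * Q.c s + x t * Q.c t = (y p' : ℂ) * Q.c p' + y q' * Q.c q' →
      (x s : ℂ) * Q.c s + x t * Q.c t ∈ Metric.closedBall (Q.c s) (Q.r s) → x = y := by
    intro s t hst hne hs1 hs2 he hmem
    have hseg : (x s : ℂ) * Q.c s + x t * Q.c t ∈ segment ℝ (Q.c p') (Q.c q') := by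
      rw [he]
      exact ⟨y p', y q', hy0 _, hy0 _, hy1, by simp⟩
    by_cases hsp : s = p'
    · subst hsp
      exact pair_unique hQ hst h2 hne hpq' hx0 hy0 hs1 hs2 hy1 hy2 he
    by_cases hsq : s = q'
    · subst hsq
      exact pair_unique hQ hst (adj_symm' h2) hne hpq'.symm hx0 hy0 hs1 hs2
        (by linarith) (fun v h1 h2 => hy2 v h2 h1) (by rw [he]; ring)
    exact absurd hmem (edge_not_disc hQ h2 hsp hsq hseg)
  have hseg : (x p : ℂ) * Q.c p + x q * Q.c q ∈ segment ℝ (Q.c p) (Q.c q) :=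
    ⟨x p, x q, hx0 _, hx0 _, hx1, by simp⟩
  rcases edge_cover (Q.r_pos p) (Q.r_pos q) (Q.tangent p q h1) hseg with hm | hm
  · exact main p q h1 hpq hx1 hx2 h hm
  · exact main q p (adj_symm' h1) hpq.symm (by linarith) (fun v h1 h2 => hx2 v h2 h1)
      (by rw [← h]; ring) (by rw [add_comm]; exact hm)

/-- the same vertex set -/
theorem same_face {V : Type} {K : Tri V} {Q : Packing K} {a b c a' b' c' : V}
    (hf : K.face a b c) (hf' : K.face a' b' c') (hset : ({a, b, c} : Set V) = {a', b', c'})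
    {x y : V → ℝ}
    (hx1 : x a + x b + x c = 1) (hx2 : ∀ v, v ≠ a → v ≠ b → v ≠ c → x v = 0)
    (hy1 : y a' + y b' + y c' = 1) (hy2 : ∀ v, v ≠ a' → v ≠ b' → v ≠ c' → y v = 0)
    (h : ∑ᶠ v, (x v : ℂ) * Q.c v = ∑ᶠ v, (y v : ℂ) * Q.c v) : x = y := by
  classical
  obtain ⟨hab, hbc, hac⟩ := face_ne hf
  obtain ⟨hab', hbc', hac'⟩ := face_ne hf'
  have hy2' : ∀ v, v ≠ a → v ≠ b → v ≠ c → y v = 0 := by
    intro v h1 h2 h3
    have : v ∉ ({a, b, c} : Set V) := by simp [h1, h2, h3]
    rw [hset] at this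
    simp only [Set.mem_insert_iff, Set.mem_singleton_iff, not_or] at this
    exact hy2 v this.1 this.2.1 this.2.2
  have hfs : ({a, b, c} : Finset V) = {a', b', c'} := by
    apply Finset.coe_injective
    simpa using hset
  have hs1 : ∑ v ∈ ({a, b, c} : Finset V), y v = y a + y b + y c := by
    rw [Finset.sum_insert (by simp [hab, hac]), Finset.sum_insert (by simp [hbc]),
      Finset.sum_singleton]
    ring
  have hs2 : ∑ v ∈ ({a', b', c'} : Finset V), y v = y a' + y b' + y c' := by
    rw [Finset.sum_insert (by simp [hab', hac']), Finset.sum_insert (by simp [hbc']),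
      Finset.sum_singleton]
    ring
  have hy1' : y a + y b + y c = 1 := by
    rw [← hs1, hfs, hs2, hy1]
  rw [finsum_face hf hx2, finsum_face hf hy2'] at h
  exact coords_in_face hf hx1 hx2 hy1' hy2' h

/-- a point has only one set of coordinates -/
theorem coord_unique {V : Type} {K : Tri V} (hK : K.Connected) {Q : Packing K}
    (hQ : Q.Univalent) {G : ℂ → Prop} (hG : ∀ U : Set ℂ, IsOpen U → U.Nonempty → ∃ z ∈ U, G z)
    (hGu : ∀ z, G z → ∀ a b c a' b' c', K.face a b c → K.face a' b' c' →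
      z ∈ convexHull ℝ {Q.c a, Q.c b, Q.c c} → z ∈ convexHull ℝ {Q.c a', Q.c b', Q.c c'} →
      ({a, b, c} : Set V) = {a', b', c'})
    {x y : V → ℝ} (hx : x ∈ realization K) (hy : y ∈ realization K)
    (h : ∑ᶠ v, (x v : ℂ) * Q.c v = ∑ᶠ v, (y v : ℂ) * Q.c v) : x = y := by
  obtain ⟨hx0, a, b, c, hf, hx1, hx2⟩ := hx
  obtain ⟨hy0, a', b', c', hf', hy1, hy2⟩ := hy
  have hh := h
  rw [finsum_face hf hx2, finsum_face hf' hy2] at hh
  have hzt : (x a : ℂ) * Q.c a + x b * Q.c b + x c * Q.c c ∈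
      convexHull ℝ {Q.c a, Q.c b, Q.c c} := mem_tri_of_coords (hx0 a) (hx0 b) (hx0 c) hx1
  have hzt' : (y a' : ℂ) * Q.c a' + y b' * Q.c b' + y c' * Q.c c' ∈
      convexHull ℝ {Q.c a', Q.c b', Q.c c'} := mem_tri_of_coords (hy0 a') (hy0 b') (hy0 c') hy1
  have meet : (interior (convexHull ℝ {Q.c a, Q.c b, Q.c c}) ∩
      interior (convexHull ℝ {Q.c a', Q.c b', Q.c c'})).Nonempty → x = y := by
    intro hne
    obtain ⟨w, ⟨hw1, hw2⟩, hw⟩ := hG _ (isOpen_interior.inter isOpen_interior) hne
    have hset := hGu w hw a b c a' b' c' hf hf' (interior_subset hw1) (interior_subset hw2)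
    exact same_face hf hf' hset hx1 hx2 hy1 hy2 h
  by_cases hi : (x a : ℂ) * Q.c a + x b * Q.c b + x c * Q.c c ∈
      interior (convexHull ℝ {Q.c a, Q.c b, Q.c c})
  · exact meet (interiors_meet (Q.oriented _ _ _ hf') hi (by rw [hh]; exact hzt'))
  by_cases hi' : (y a' : ℂ) * Q.c a' + y b' * Q.c b' + y c' * Q.c c' ∈
      interior (convexHull ℝ {Q.c a', Q.c b', Q.c c'})
  · apply meet
    rw [Set.inter_comm]
    exact interiors_meet (Q.oriented _ _ _ hf) hi' (by rw [← hh]; exact hzt)
  obtain ⟨p, q, hpq, hne, hs, hs2, he⟩ := bdry_coords hf hx0 hx1 hx2 rfl hi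
  obtain ⟨p', q', hpq', hne', hs', hs2', he'⟩ := bdry_coords hf' hy0 hy1 hy2 rfl hi'
  exact edges_unique hQ hpq hpq' hne hne' hx0 hy0 hs hs2 hs' hs2' (by rw [he, he', hh])

end Pool.Agent.Helper11.Fatou
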