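import Mathlib
import Pool.Agent.Helper11.Fatou.Defs

namespace Pool.Agent.Helper11.Fatou

theorem j5967_per {X : Type} (F : ℤ → X) (B : ℤ) (hF : ∀ j, F (j + B) = F j) (k : ℤ) :
    F (k % B) = F k := by
  have h1 : ∀ (n : ℕ) (j : ℤ), F (j + B * n) = F j := by
    intro n
    induction n with
    | zero => intro j; simp
    | succ n ih =>
      intro j
      have e : j + B * ((n + 1 : ℕ) : ℤ) = (j + B * n) + B := by push_cast; ring
      rw [e, hF, ih]
  have h2 : ∀ (m : ℤ) (j : ℤ), F (j + B * m) = F j := by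
    intro m j
    rcases Int.eq_nat_or_neg m with ⟨n, rfl | rfl⟩
    · exact h1 n j
    · have := h1 n (j + B * -(n : ℤ))
      rw [← this]
      congr 1
      ring
  have h3 := h2 (k / B) (k % B)
  rw [Int.emod_add_mul_ediv] at h3
  exact h3.symm

theorem j5967_dirs (g : ℤ → ℝ) (B : ℕ) (hB : 0 < B) (hg : ∀ k, g (k + (B : ℤ)) = g k) (k0 : ℤ)
    (hsum : ∑ i ∈ Finset.range B, g (i : ℤ) = 2 * Real.pi * k0) :
    ∃ D : ℤ → ℂ, (∀ k, ‖D k‖ = 1) ∧ (∀ k, D (k % (B : ℤ)) = D k) ∧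
      ∀ k, D (k + 1) = Complex.exp ((g k : ℝ) * Complex.I) * D k := by
  have hB' : (0 : ℤ) < B := by exact_mod_cast hB
  refine ⟨fun k => Complex.exp (((∑ i ∈ Finset.range (k % (B : ℤ)).toNat, g (i : ℤ) : ℝ) : ℂ)
    * Complex.I), ?_, ?_, ?_⟩
  · intro k
    exact Complex.norm_exp_ofReal_mul_I _
  · intro k
    simp only [Int.emod_emod_of_dvd _ (dvd_refl _)]
  · intro k
    have h0 : 0 ≤ k % (B : ℤ) := Int.emod_nonneg _ hB'.ne'
    have h1 : k % (B : ℤ) < B := Int.emod_lt_of_pos _ hB'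
    have hgk : g (k % (B : ℤ)) = g k := j5967_per g B hg k
    have hm : (((k % (B : ℤ)).toNat : ℕ) : ℤ) = k % (B : ℤ) := Int.toNat_of_nonneg h0
    have hdiv := Int.emod_add_mul_ediv k (B : ℤ)
    dsimp only
    rw [← Complex.exp_add, ← add_mul, ← Complex.ofReal_add]
    have key : g k + ∑ i ∈ Finset.range (k % (B : ℤ)).toNat, g (i : ℤ)
        = ∑ i ∈ Finset.range ((k % (B : ℤ)).toNat + 1), g (i : ℤ) := by
      rw [Finset.sum_range_succ, hm, hgk, add_comm]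
    rw [key]
    by_cases hlt : k % (B : ℤ) + 1 < B
    · have e : (k + 1) % (B : ℤ) = k % (B : ℤ) + 1 := by
        have e1 : k + 1 = (k % (B : ℤ) + 1) + B * (k / B) := by linarith
        rw [e1, Int.add_mul_emod_self_left]
        exact Int.emod_eq_of_lt (by linarith) hlt
      have e2 : ((k + 1) % (B : ℤ)).toNat = (k % (B : ℤ)).toNat + 1 := by
        rw [e]
        omega
      rw [e2]
    · have hE : k % (B : ℤ) + 1 = B := by omega
      have e : (k + 1) % (B : ℤ) = 0 := by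
        have e1 : k + 1 = 0 + B * (k / B + 1) := by linarith
        rw [e1, Int.add_mul_emod_self_left]
        exact Int.zero_emod _
      have e2 : (k % (B : ℤ)).toNat + 1 = B := by omega
      rw [e, e2, hsum]
      simp only [Int.toNat_zero, Finset.range_zero, Finset.sum_empty, Complex.ofReal_zero, zero_mul,
        Complex.exp_zero]
      have e3 : ((2 * Real.pi * k0 : ℝ) : ℂ) * Complex.I = k0 * (2 * Real.pi * Complex.I) := by
        push_cast
        ring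
      rw [e3, Complex.exp_int_mul_two_pi_mul_I]

theorem j5967_core (G : Geom) (r : ℝ) (hr : G.ok r) (F : ℤ → ℝ) (hF : ∀ j, G.ok (F j)) (B : ℕ)
    (hB : 0 < B) (hper : ∀ j, F (j + (B : ℤ)) = F j) (k0 : ℤ)
    (hsum : ∑ i ∈ Finset.range B, G.α r (F (i : ℤ)) (F ((i : ℤ) + 1)) = 2 * Real.pi * k0)
    (x0 : ℂ) (hx0 : G.ins x0) :
    ∃ p : ℤ → ℂ, (∀ j, p (j + (B : ℤ)) = p j) ∧
      (∀ k : ℤ, FaceOK G r (F k) (F (k + 1)) x0 (p k) (p (k + 1))) := by
  have hg : ∀ k : ℤ, G.α r (F (k + (B : ℤ))) (F (k + (B : ℤ) + 1)) = G.α r (F k) (F (k + 1)) := by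
    intro k
    have e : k + (B : ℤ) + 1 = (k + 1) + B := by ring
    rw [e, hper, hper]
  rcases j5967_dirs (fun k => G.α r (F k) (F (k + 1))) B hB hg k0 hsum with ⟨D, hD1, hD2, hD3⟩
  have hP : ∀ m : ℤ, ∃ y, G.Tg r (F m) x0 y ∧ G.dir x0 y = D m := fun m =>
    G.place hr (hF m) hx0 (hD1 m)
  choose P hP1 hP2 using hP
  have hT : ∀ k : ℤ, G.Tg r (F k) x0 (P (k % (B : ℤ))) := by
    intro k
    have := hP1 (k % (B : ℤ))
    rwa [j5967_per F B hper k] at this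
  have hdir : ∀ k : ℤ, G.dir x0 (P (k % (B : ℤ))) = D k := by
    intro k
    rw [hP2, hD2]
  refine ⟨fun k => P (k % (B : ℤ)), ?_, ?_⟩
  · intro j
    show P ((j + (B : ℤ)) % (B : ℤ)) = P (j % (B : ℤ))
    rw [Int.add_emod_right]
  · intro k
    have hd1 : G.dir x0 (P ((k + 1) % (B : ℤ)))
        = Complex.exp ((G.α r (F k) (F (k + 1)) : ℝ) * Complex.I) * G.dir x0 (P (k % (B : ℤ))) := by
      rw [hdir, hdir]
      exact hD3 k
    have h := G.tri hr (hF k) (hF (k + 1)) (hT k) (hT (k + 1)) hd1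
    exact ⟨hT k, h.1, hT (k + 1), hd1, h.2.1, h.2.2⟩

/-- base step: the first level around the root -/
theorem dev_base (G : Geom) (b : ℕ → ℕ) (hb : ∀ n, 4 ≤ b n) (f : ℕ → ℤ → ℝ) (hf : Per b f)
    (hok : ∀ n j, G.ok (f n j)) (hclose : ∃ k : ℤ, total b G.α f 0 0 = 2 * Real.pi * k)
    (x0 : ℂ) (hx0 : G.ins x0) :
    ∃ p : ℤ → ℂ, (∀ j, p (j + (L b 1 : ℤ)) = p j) ∧
      (∀ k : ℤ, FaceOK G (f 0 (k / (b 0 : ℤ))) (f 1 k) (f 1 (k + 1)) x0 (p k) (p (k + 1))) ∧
      (∀ j, G.Tg (f 1 j) (f 1 (j + 1)) (p j) (p (j + 1))) ∧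
      (∀ j, G.dir (p j) (p (j - 1)) =
        Complex.exp ((used b G.α f 1 j : ℝ) * Complex.I) * G.dir (p j) (p (j + 1))) := by
  have hL0 : ((L b 0 : ℕ) : ℤ) = 1 := rfl
  have hL1 : L b 1 = b 0 := by
    show 1 * b 0 = b 0
    rw [one_mul]
  have hr : ∀ j, f 0 j = f 0 0 := by
    intro j
    have h := j5967_per (f 0) 1 (fun j => by have := hf 0 j; rwa [hL0] at this) j
    rw [Int.emod_one] at h
    exact h.symm
  have hper : ∀ j, f 1 (j + (b 0 : ℤ)) = f 1 j := by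
    intro j
    have := hf 1 j
    rwa [hL1] at this
  rcases hclose with ⟨k0, hk0⟩
  have hsum : ∑ i ∈ Finset.range (b 0), G.α (f 0 0) (f 1 (i : ℤ)) (f 1 ((i : ℤ) + 1))
      = 2 * Real.pi * k0 := by
    rw [← hk0]
    unfold total kids
    simp only [if_true, zero_mul, zero_add]
  have hB : 0 < b 0 := by have := hb 0; omega
  rcases j5967_core G (f 0 0) (hok 0 0) (f 1) (hok 1) (b 0) hB hper k0 hsum x0 hx0 with ⟨p, hp, hF⟩
  refine ⟨p, ?_, ?_, fun j => (hF j).t2, ?_⟩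
  · intro j
    rw [hL1]
    exact hp j
  · intro k
    rw [hr]
    exact hF k
  · intro j
    have h1 := (hF j).d2
    have h2 := (hF (j - 1)).d3
    rw [sub_add_cancel] at h2
    rw [h2, h1, ← mul_assoc, ← Complex.exp_add, ← add_mul, ← Complex.ofReal_add]
    have e : used b G.α f 1 j = G.α (f 1 j) (f 0 0) (f 1 (j - 1)) + G.α (f 1 j) (f 1 (j + 1)) (f 0 0) := by
      have e0 : used b G.α f (0 + 1) j
          = G.α (f 1 j) (f 1 (j + 1)) (f 0 (j / (b 0 : ℤ)))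
            + G.α (f 1 j) (f 0 (j / (b 0 : ℤ))) (f 1 (j - 1)) := by
        rw [used, if_neg (by rintro ⟨h, _⟩; omega)]
      rw [show used b G.α f 1 j = used b G.α f (0 + 1) j from rfl, e0, hr, add_comm]
    rw [e]

end Pool.Agent.Helper11.Fatou
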