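import Mathlib
import Pool.Agent.Helper11.Fatou.Defs

namespace Pool.Agent.Helper11.Fatou

/-- unit complex numbers -/
noncomputable def ex (x : ℝ) : ℂ := Complex.exp ((x : ℝ) * Complex.I)

theorem ex_add (x y : ℝ) : ex (x + y) = ex x * ex y := by
  unfold ex
  rw [← Complex.exp_add]
  push_cast
  ring_nf

theorem ex_norm (x : ℝ) : ‖ex x‖ = 1 := Complex.norm_exp_ofReal_mul_I x

theorem ex_two_pi (k : ℤ) : ex (2 * Real.pi * k) = 1 := by
  unfold ex
  rw [Complex.exp_eq_one_iff]
  exact ⟨k, by push_cast; ring⟩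

theorem ex_zero : ex 0 = 1 := by
  unfold ex
  simp

theorem ex_comb (a s u : ℝ) (d : ℂ) : ex a * (ex s * (ex u * d)) = ex (a + (s + u)) * d := by
  rw [ex_add, ex_add]
  ring

theorem FaceOK.mk' (G : Geom) {r s t : ℝ} {x y z : ℂ} (hr : G.ok r) (hs : G.ok s) (ht : G.ok t)
    (h1 : G.Tg r s x y) (h3 : G.Tg r t x z) (hd : G.dir x z = ex (G.α r s t) * G.dir x y) :
    FaceOK G r s t x y z := by
  obtain ⟨h2, d2, d3⟩ := G.tri hr hs ht h1 h3 hd
  exact ⟨h1, h2, h3, hd, d2, d3⟩

/-- inductive step: from level `n ≥ 1` to level `n + 1` -/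
theorem dev_step (G : Geom) (b : ℕ → ℕ) (hb : ∀ n, 4 ≤ b n) (f : ℕ → ℤ → ℝ) (hf : Per b f)
    (hok : ∀ n j, G.ok (f n j)) (n : ℕ) (hn : 1 ≤ n)
    (hclose : ∀ j, ∃ k : ℤ, total b G.α f n j = 2 * Real.pi * k)
    (p : ℤ → ℂ) (hper : ∀ j, p (j + (L b n : ℤ)) = p j)
    (hTg : ∀ j, G.Tg (f n j) (f n (j + 1)) (p j) (p (j + 1)))
    (hdir : ∀ j, G.dir (p j) (p (j - 1)) =
        Complex.exp ((used b G.α f n j : ℝ) * Complex.I) * G.dir (p j) (p (j + 1))) :
    ∃ p' : ℤ → ℂ, (∀ j, p' (j + (L b (n + 1) : ℤ)) = p' j) ∧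
      (∀ k : ℤ, FaceOK G (f n (k / (b n : ℤ))) (f (n + 1) k) (f (n + 1) (k + 1))
        (p (k / (b n : ℤ))) (p' k) (p' (k + 1))) ∧
      (∀ j : ℤ, FaceOK G (f n j) (f (n + 1) ((j + 1) * (b n : ℤ))) (f n (j + 1))
        (p j) (p' ((j + 1) * (b n : ℤ))) (p (j + 1))) ∧
      (∀ j, G.Tg (f (n + 1) j) (f (n + 1) (j + 1)) (p' j) (p' (j + 1))) ∧
      (∀ j, G.dir (p' j) (p' (j - 1)) =
        Complex.exp ((used b G.α f (n + 1) j : ℝ) * Complex.I) * G.dir (p' j) (p' (j + 1))) := by
  classical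
  set B : ℤ := (b n : ℤ) with hB
  have hB0 : 0 < B := by
    have := hb n
    rw [hB]
    exact_mod_cast (by omega : 0 < b n)
  have hTgb : ∀ j, G.Tg (f n j) (f n (j - 1)) (p j) (p (j - 1)) := by
    intro j
    have := G.tg_symm (hTg (j - 1))
    rwa [sub_add_cancel] at this
  -- directions
  let S : ℤ → ℕ → ℝ := fun j i => G.α (f n j) (f n (j - 1)) (f (n + 1) (j * B)) +
    ∑ l ∈ Finset.range i, G.α (f n j) (f (n + 1) (j * B + (l : ℤ))) (f (n + 1) (j * B + (l : ℤ) + 1))
  let E : ℤ → ℕ → ℂ := fun j i => ex (S j i) * G.dir (p j) (p (j - 1))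
  have hEn : ∀ (j : ℤ) (i : ℕ), ‖E j i‖ = 1 := by
    intro j i
    show ‖ex (S j i) * G.dir (p j) (p (j - 1))‖ = 1
    rw [norm_mul, ex_norm, G.dir_norm (hok _ _) (hok _ _) (hTgb j), mul_one]
  have hES : ∀ (j : ℤ) (i : ℕ), E j (i + 1) =
      ex (G.α (f n j) (f (n + 1) (j * B + (i : ℤ))) (f (n + 1) (j * B + (i : ℤ) + 1))) * E j i := by
    intro j i
    show ex (S j (i + 1)) * G.dir (p j) (p (j - 1)) = _ * (ex (S j i) * G.dir (p j) (p (j - 1)))
    have : S j (i + 1) = G.α (f n j) (f (n + 1) (j * B + (i : ℤ)))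
        (f (n + 1) (j * B + (i : ℤ) + 1)) + S j i := by
      simp only [S, Finset.sum_range_succ]
      ring
    rw [this, ex_add]
    ring
  have hex : ∀ (j : ℤ) (i : ℕ), ∃ y, G.Tg (f n j) (f (n + 1) (j * B + (i : ℤ))) (p j) y ∧
      G.dir (p j) y = E j i := fun j i =>
    G.place (hok _ _) (hok _ _) (G.tg_ins (hTg j)).1 (hEn j i)
  let P : ℤ → ℕ → ℂ := fun j i => (hex j i).choose
  have hP1 : ∀ (j : ℤ) (i : ℕ), G.Tg (f n j) (f (n + 1) (j * B + (i : ℤ))) (p j) (P j i) := fun j i =>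
    (hex j i).choose_spec.1
  have hP2 : ∀ (j : ℤ) (i : ℕ), G.dir (p j) (P j i) = E j i := fun j i => (hex j i).choose_spec.2
  -- the second kind of faces
  have hsecond : ∀ j, FaceOK G (f n j) (f (n + 1) ((j + 1) * B)) (f n (j + 1))
      (p j) (P j (b n)) (p (j + 1)) := by
    intro j
    have hidx : j * B + ((b n : ℕ) : ℤ) = (j + 1) * B := by rw [← hB]; ring
    have h1 := hP1 j (b n)
    rw [hidx] at h1
    refine FaceOK.mk' G (hok _ _) (hok _ _) (hok _ _) h1 (hTg j) ?_
    rw [hP2]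
    show _ = _ * (ex (S j (b n)) * G.dir (p j) (p (j - 1)))
    have hdj : G.dir (p j) (p (j - 1)) = ex (used b G.α f n j) * G.dir (p j) (p (j + 1)) := hdir j
    rw [hdj]
    obtain ⟨k, hk⟩ := hclose j
    have hn0 : n ≠ 0 := by omega
    have hsum : G.α (f n j) (f (n + 1) ((j + 1) * B)) (f n (j + 1)) + (S j (b n) +
        used b G.α f n j) = 2 * Real.pi * k := by
      rw [← hk]
      simp only [total, if_neg hn0, kids, S]
      rw [← hB]
      ring
    rw [ex_comb, hsum, ex_two_pi, one_mul]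
  -- key
  have hkey : ∀ j, P j (b n) = P (j + 1) 0 := by
    intro j
    have hF := hsecond j
    have h1 := hP1 (j + 1) 0
    rw [Nat.cast_zero, add_zero] at h1
    refine G.uniq (hok _ _) (hok _ _) (G.tg_symm hF.t2) h1 ?_
    rw [hP2, hF.d3]
    show _ = ex (S (j + 1) 0) * G.dir (p (j + 1)) (p (j + 1 - 1))
    have : S (j + 1) 0 = G.α (f n (j + 1)) (f n j) (f (n + 1) ((j + 1) * B)) := by
      simp only [S, Finset.range_zero, Finset.sum_empty, add_zero, add_sub_cancel_right]
    rw [this, add_sub_cancel_right]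
    rfl
  let p' : ℤ → ℂ := fun k => P (k / B) (k % B).toNat
  have hdm : ∀ (j : ℤ) (i : ℕ), i < b n → (j * B + (i : ℤ)) / B = j ∧ (j * B + (i : ℤ)) % B = i := by
    intro j i hi
    rw [Int.ediv_emod_unique hB0]
    refine ⟨by ring, by positivity, ?_⟩
    rw [hB]
    exact_mod_cast hi
  have hp'1 : ∀ (j : ℤ) (i : ℕ), i < b n → p' (j * B + (i : ℤ)) = P j i := by
    intro j i hi
    show P ((j * B + (i : ℤ)) / B) ((j * B + (i : ℤ)) % B).toNat = P j i
    rw [(hdm j i hi).1, (hdm j i hi).2, Int.toNat_natCast]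
  have hbn : 0 < b n := by have := hb n; omega
  have hp'2 : ∀ (j : ℤ) (i : ℕ), i ≤ b n → p' (j * B + (i : ℤ)) = P j i := by
    intro j i hi
    rcases hi.lt_or_eq with h | h
    · exact hp'1 j i h
    · rw [h, hkey]
      have := hp'1 (j + 1) 0 hbn
      rw [← this]
      congr 1
      rw [← hB]
      push_cast
      ring
  have hrep : ∀ k : ℤ, ∃ (j : ℤ) (i : ℕ), i < b n ∧ k = j * B + (i : ℤ) ∧ k / B = j := by
    intro k
    have h1 := Int.emod_nonneg k hB0.ne'
    have h2 := Int.emod_lt_of_pos k hB0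
    refine ⟨k / B, (k % B).toNat, ?_, ?_, rfl⟩
    · have : (((k % B).toNat : ℕ) : ℤ) < (b n : ℤ) := by
        rw [Int.toNat_of_nonneg h1]
        exact h2
      exact_mod_cast this
    · rw [Int.toNat_of_nonneg h1, mul_comm]
      exact (Int.mul_ediv_add_emod k B).symm
  have hface : ∀ k : ℤ, FaceOK G (f n (k / B)) (f (n + 1) k) (f (n + 1) (k + 1))
        (p (k / B)) (p' k) (p' (k + 1)) := by
    intro k
    obtain ⟨j, i, hi, hk, hkj⟩ := hrep k
    rw [hkj]
    have e1 : p' k = P j i := by rw [hk]; exact hp'1 j i hi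
    have hk1 : k + 1 = j * B + ((i + 1 : ℕ) : ℤ) := by rw [hk]; push_cast; ring
    have e2 : p' (k + 1) = P j (i + 1) := by rw [hk1]; exact hp'2 j (i + 1) hi
    rw [e1, e2]
    have h1 := hP1 j i
    rw [← hk] at h1
    have h2 := hP1 j (i + 1)
    rw [← hk1] at h2
    refine FaceOK.mk' G (hok _ _) (hok _ _) (hok _ _) h1 h2 ?_
    rw [hP2, hP2, hES, ← hk]
  have hface2 : ∀ j : ℤ, FaceOK G (f n j) (f (n + 1) ((j + 1) * B)) (f n (j + 1))
        (p j) (p' ((j + 1) * B)) (p (j + 1)) := by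
    intro j
    have h1 : p' ((j + 1) * B) = P j (b n) := by
      rw [hkey, ← hp'1 (j + 1) 0 hbn]
      congr 1
      push_cast
      ring
    rw [h1]
    exact hsecond j
  refine ⟨p', ?_, hface, hface2, fun j => (hface j).t2, ?_⟩
  · -- periodicity
    intro k
    have hL : (L b (n + 1) : ℤ) = (L b n : ℤ) * B := by
      rw [hB]; simp [L]
    have hd : (k + (L b (n + 1) : ℤ)) / B = k / B + (L b n : ℤ) := by
      rw [hL, Int.add_mul_ediv_right _ _ hB0.ne']
    have hm : (k + (L b (n + 1) : ℤ)) % B = k % B := by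
      rw [hL, Int.add_mul_emod_self_right]
    show P ((k + (L b (n + 1) : ℤ)) / B) ((k + (L b (n + 1) : ℤ)) % B).toNat =
      P (k / B) (k % B).toNat
    rw [hd, hm]
    have hPper : ∀ (j : ℤ) (i : ℕ), P (j + (L b n : ℤ)) i = P j i := by
      intro j i
      have hs : ∀ x : ℤ, f (n + 1) ((j + (L b n : ℤ)) * B + x) = f (n + 1) (j * B + x) := by
        intro x
        have h1 : (j + (L b n : ℤ)) * B + x = j * B + x + (L b (n + 1) : ℤ) := by
          rw [hL]; ring
        rw [h1, hf]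
      have hs0 : f (n + 1) ((j + (L b n : ℤ)) * B) = f (n + 1) (j * B) := by
        have := hs 0
        simpa using this
      have hr1 : f n (j + (L b n : ℤ) - 1) = f n (j - 1) := by
        rw [show j + (L b n : ℤ) - 1 = j - 1 + (L b n : ℤ) by ring, hf]
      have hpp : p (j + (L b n : ℤ) - 1) = p (j - 1) := by
        rw [show j + (L b n : ℤ) - 1 = j - 1 + (L b n : ℤ) by ring, hper]
      have h1 := hP1 (j + (L b n : ℤ)) i
      rw [hs, hf n j, hper] at h1
      refine G.uniq (hok _ _) (hok _ _) h1 (hP1 j i) ?_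
      have h2 := hP2 (j + (L b n : ℤ)) i
      rw [hper] at h2
      rw [h2, hP2]
      show ex (S (j + (L b n : ℤ)) i) * G.dir (p (j + (L b n : ℤ))) (p (j + (L b n : ℤ) - 1)) =
        ex (S j i) * G.dir (p j) (p (j - 1))
      rw [hper, hpp]
      congr 2
      simp only [S]
      rw [hf n j, hr1, hs0]
      congr 1
      refine Finset.sum_congr rfl fun l _ => ?_
      rw [hs]
      have := hs ((l : ℤ) + 1)
      rw [← add_assoc, ← add_assoc] at this
      rw [this]
    exact hPper _ _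
  · intro k
    show G.dir (p' k) (p' (k - 1)) = ex (used b G.α f (n + 1) k) * G.dir (p' k) (p' (k + 1))
    have hFk := hface k
    have hFk1 := hface (k - 1)
    rw [sub_add_cancel] at hFk1
    have d2 : G.dir (p' k) (p (k / B)) =
        ex (G.α (f (n + 1) k) (f (n + 1) (k + 1)) (f n (k / B))) * G.dir (p' k) (p' (k + 1)) :=
      hFk.d2
    have d3 : G.dir (p' k) (p' (k - 1)) =
        ex (G.α (f (n + 1) k) (f n ((k - 1) / B)) (f (n + 1) (k - 1))) *
          G.dir (p' k) (p ((k - 1) / B)) := hFk1.d3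
    by_cases hdiv : B ∣ k
    · obtain ⟨q, hq⟩ := hdiv
      have hk : k = q * B := by rw [hq]; ring
      have hkB : k / B = q := by rw [hk]; exact Int.mul_ediv_cancel q hB0.ne'
      have hk1B : (k - 1) / B = q - 1 := by
        have hbn1 : b n - 1 < b n := by omega
        have := (hdm (q - 1) (b n - 1) hbn1).1
        have e : (q - 1) * B + ((b n - 1 : ℕ) : ℤ) = k - 1 := by
          rw [Nat.cast_sub (by omega : 1 ≤ b n), ← hB, hk]
          push_cast
          ring
        rwa [e] at this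
      have hF2 := hface2 (q - 1)
      rw [sub_add_cancel, ← hk] at hF2
      have d2' : G.dir (p' k) (p (q - 1)) =
          ex (G.α (f (n + 1) k) (f n q) (f n (q - 1))) * G.dir (p' k) (p q) := hF2.d2
      rw [hkB] at d2
      rw [hk1B] at d3
      have hused : used b G.α f (n + 1) k =
          G.α (f (n + 1) k) (f (n + 1) (k + 1)) (f n q)
            + G.α (f (n + 1) k) (f n q) (f n (q - 1))
            + G.α (f (n + 1) k) (f n (q - 1)) (f (n + 1) (k - 1)) := by
        have hc : 1 ≤ n ∧ (b n : ℤ) ∣ k := ⟨hn, ⟨q, by rw [← hB]; exact hq⟩⟩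
        simp only [used, if_pos hc]
        rw [← hB, hkB]
      rw [hused, d3, d2', d2, ex_add, ex_add]
      ring
    · have hkB : (k - 1) / B = k / B := by
        obtain ⟨j, i, hi, hk, hkj⟩ := hrep k
        have hi0 : i ≠ 0 := by
          rintro rfl
          apply hdiv
          rw [hk]
          simp
        have hi1 : i - 1 < b n := by omega
        have := (hdm j (i - 1) hi1).1
        have e : j * B + ((i - 1 : ℕ) : ℤ) = k - 1 := by
          rw [Nat.cast_sub (by omega : 1 ≤ i), hk]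
          push_cast
          ring
        rw [e] at this
        rw [this, hkj]
      rw [hkB] at d3
      have hused : used b G.α f (n + 1) k =
          G.α (f (n + 1) k) (f (n + 1) (k + 1)) (f n (k / B))
            + G.α (f (n + 1) k) (f n (k / B)) (f (n + 1) (k - 1)) := by
        have hc : ¬ (1 ≤ n ∧ (b n : ℤ) ∣ k) := fun h => hdiv (by rw [hB]; exact h.2)
        simp only [used, if_neg hc]
        rfl
      rw [hused, d3, d2, ex_add]
      ring


end Pool.Agent.Helper11.Fatou
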