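import Mathlib
import Pool.Agent.Helper11.Fatou.Defs
import Pool.Agent.Helper11.Fatou.DevBase
import Pool.Agent.Helper11.Fatou.DevStep

namespace Pool.Agent.Helper11.Fatou

theorem develop (G : Geom) (b : ℕ → ℕ) (hb : ∀ n, 4 ≤ b n) (f : ℕ → ℤ → ℝ) (hf : Per b f)
    (hok : ∀ n j, G.ok (f n j)) (hclose : ∀ n j, ∃ k : ℤ, total b G.α f n j = 2 * Real.pi * k)
    (x0 : ℂ) (hx0 : G.ins x0) :
    ∃ p : ℕ → ℤ → ℂ, Per b p ∧ p 0 0 = x0 ∧ Dev G b f p := by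
  obtain ⟨p1, h1per, h1face, h1Tg, h1dir⟩ := dev_base G b hb f hf hok (hclose 0 0) x0 hx0
  let Good : ℕ → (ℤ → ℂ) → Prop := fun n p => (∀ j, p (j + (L b n : ℤ)) = p j) ∧
    (∀ j, G.Tg (f n j) (f n (j + 1)) (p j) (p (j + 1))) ∧
    (∀ j, G.dir (p j) (p (j - 1)) =
        Complex.exp ((used b G.α f n j : ℝ) * Complex.I) * G.dir (p j) (p (j + 1)))
  have step : ∀ (n : ℕ) (s : {p : ℤ → ℂ // Good (n + 1) p}), ∃ s' : {p : ℤ → ℂ // Good (n + 2) p},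
      (∀ k : ℤ, FaceOK G (f (n + 1) (k / (b (n + 1) : ℤ))) (f (n + 1 + 1) k) (f (n + 1 + 1) (k + 1))
        (s.1 (k / (b (n + 1) : ℤ))) (s'.1 k) (s'.1 (k + 1))) ∧
      (∀ j : ℤ, FaceOK G (f (n + 1) j) (f (n + 1 + 1) ((j + 1) * (b (n + 1) : ℤ)))
        (f (n + 1) (j + 1)) (s.1 j) (s'.1 ((j + 1) * (b (n + 1) : ℤ))) (s.1 (j + 1))) := by
    rintro n ⟨p, hp1, hp2, hp3⟩
    obtain ⟨p', h1, h2, h3, h4, h5⟩ := dev_step G b hb f hf hok (n + 1) (Nat.le_add_left 1 n)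
      (hclose (n + 1)) p hp1 hp2 hp3
    exact ⟨⟨p', h1, h4, h5⟩, h2, h3⟩
  choose g hg1 hg2 using step
  let st : ∀ n : ℕ, {p : ℤ → ℂ // Good (n + 1) p} := fun n =>
    Nat.rec (motive := fun n => {p : ℤ → ℂ // Good (n + 1) p}) ⟨p1, h1per, h1Tg, h1dir⟩
      (fun n s => g n s) n
  let p : ℕ → ℤ → ℂ := fun n => match n with
    | 0 => fun _ => x0
    | m + 1 => (st m).1
  refine ⟨p, ?_, rfl, ?_, ?_⟩
  · intro n
    cases n with
    | zero => intro j; rfl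
    | succ m => exact (st m).2.1
  · intro n
    cases n with
    | zero => exact h1face
    | succ m => exact hg1 m (st m)
  · intro n hn
    cases n with
    | zero => omega
    | succ m => exact hg2 m (st m)

end Pool.Agent.Helper11.Fatou
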