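import Mathlib
import Pool.Agent.Helper11.Fatou.Defs

namespace Pool.Agent.Helper11.Fatou

theorem exp_two_arctan (u : ℝ) :
    Complex.exp ((2 * Real.arctan u : ℝ) * Complex.I) =
      (1 + (u : ℂ) * Complex.I) / (1 - (u : ℂ) * Complex.I) := by
  have hpos : (0 : ℝ) < 1 + u ^ 2 := by positivity
  have hsq : Real.sqrt (1 + u ^ 2) ^ 2 = 1 + u ^ 2 := Real.sq_sqrt hpos.le
  have hs0 : (Real.sqrt (1 + u ^ 2) : ℝ) ≠ 0 := (Real.sqrt_pos.mpr hpos).ne'
  have hcos : Real.cos (2 * Real.arctan u) = (1 - u ^ 2) / (1 + u ^ 2) := by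
    rw [Real.cos_two_mul, Real.cos_sq_arctan]
    field_simp
    ring
  have hsin : Real.sin (2 * Real.arctan u) = 2 * u / (1 + u ^ 2) := by
    rw [Real.sin_two_mul, Real.sin_arctan, Real.cos_arctan]
    have : u / Real.sqrt (1 + u ^ 2) * (1 / Real.sqrt (1 + u ^ 2)) = u / (1 + u ^ 2) := by
      rw [div_mul_div_comm, mul_one, ← sq, hsq]
    calc 2 * (u / Real.sqrt (1 + u ^ 2)) * (1 / Real.sqrt (1 + u ^ 2))
        = 2 * (u / Real.sqrt (1 + u ^ 2) * (1 / Real.sqrt (1 + u ^ 2))) := by ring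
      _ = 2 * u / (1 + u ^ 2) := by rw [this]; ring
  have hne : (1 : ℂ) - (u : ℂ) * Complex.I ≠ 0 := by
    intro h
    have := congrArg Complex.re h
    simp at this
  have hne2 : (1 : ℂ) + (u : ℂ) ^ 2 ≠ 0 := by
    exact_mod_cast hpos.ne'
  rw [Complex.exp_mul_I, ← Complex.ofReal_cos, ← Complex.ofReal_sin, hcos, hsin]
  push_cast
  rw [eq_div_iff hne]
  field_simp
  have hI : Complex.I ^ 2 = -1 := Complex.I_sq
  linear_combination (-2 * (u : ℂ) ^ 2) * hI

/-- the common square root of the three half angles -/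
theorem ae_exp {r s t : ℝ} (hr : 0 < r) (hs : 0 < s) (ht : 0 < t) {k : ℝ} (hk : 0 < k)
    (hk2 : k ^ 2 = r * s * t * (r + s + t)) :
    Complex.exp ((ae r s t : ℝ) * Complex.I) =
      ((r * (r + s + t) : ℝ) + (k : ℂ) * Complex.I) /
        ((r * (r + s + t) : ℝ) - (k : ℂ) * Complex.I) := by
  have hp : 0 < r * (r + s + t) := by positivity
  have hrt : Real.sqrt (s * t / (r * (r + s + t))) = k / (r * (r + s + t)) := by
    have : s * t / (r * (r + s + t)) = (k / (r * (r + s + t))) ^ 2 := by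
      rw [div_pow, hk2]
      field_simp
    rw [this, Real.sqrt_sq (by positivity)]
  rw [ae, hrt, exp_two_arctan]
  have hne : ((r * (r + s + t) : ℝ) : ℂ) - (k : ℂ) * Complex.I ≠ 0 := by
    intro h
    have := congrArg Complex.im h
    simp at this
    exact hk.ne' this
  have hpc : ((r * (r + s + t) : ℝ) : ℂ) ≠ 0 := by exact_mod_cast hp.ne'
  have h1 : (1 : ℂ) + ((k / (r * (r + s + t)) : ℝ) : ℂ) * Complex.I =
      (((r * (r + s + t) : ℝ) : ℂ) + (k : ℂ) * Complex.I) / ((r * (r + s + t) : ℝ) : ℂ) := by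
    rw [Complex.ofReal_div]
    field_simp
  have h2 : (1 : ℂ) - ((k / (r * (r + s + t)) : ℝ) : ℂ) * Complex.I =
      (((r * (r + s + t) : ℝ) : ℂ) - (k : ℂ) * Complex.I) / ((r * (r + s + t) : ℝ) : ℂ) := by
    rw [Complex.ofReal_div]
    field_simp
  rw [h1, h2, div_div_div_cancel_right₀ hpc]

theorem eu_un_mul {c : ℝ} (hc : 0 < c) {e : ℂ} (he : ‖e‖ = 1) : un ((c : ℂ) * e) = e := by
  have : ((c : ℝ) : ℂ) ≠ 0 := by exact_mod_cast hc.ne'
  rw [un, norm_mul, he, Complex.norm_real, Real.norm_of_nonneg hc.le, mul_one]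
  field_simp

theorem eq_norm_mul_un {z : ℂ} {c : ℝ} (hc : 0 < c) (hz : ‖z‖ = c) : z = (c : ℂ) * un z := by
  have : ((c : ℝ) : ℂ) ≠ 0 := by exact_mod_cast hc.ne'
  rw [un, hz]
  field_simp

theorem norm_un {z : ℂ} {c : ℝ} (hc : 0 < c) (hz : ‖z‖ = c) : ‖un z‖ = 1 := by
  rw [un, norm_div, hz, Complex.norm_real, Real.norm_of_nonneg hc.le, div_self hc.ne']

theorem ae_tri {r s t : ℝ} {x y z : ℂ} (hr : 0 < r) (hs : 0 < s) (ht : 0 < t)
    (hxy : ‖y - x‖ = r + s) (hxz : ‖z - x‖ = r + t)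
    (h : un (z - x) = Complex.exp ((ae r s t : ℝ) * Complex.I) * un (y - x)) :
    ‖z - y‖ = s + t ∧ un (x - y) = Complex.exp ((ae s t r : ℝ) * Complex.I) * un (z - y) ∧
      un (y - z) = Complex.exp ((ae t r s : ℝ) * Complex.I) * un (x - z) := by
  obtain ⟨k, hk, hk2⟩ : ∃ k : ℝ, 0 < k ∧ k ^ 2 = r * s * t * (r + s + t) :=
    ⟨Real.sqrt (r * s * t * (r + s + t)), Real.sqrt_pos.mpr (by positivity),
      Real.sq_sqrt (by positivity)⟩
  have hE1 := ae_exp hr hs ht hk hk2
  have hE2 := ae_exp hs ht hr hk (by rw [hk2]; ring)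
  have hE3 := ae_exp ht hr hs hk (by rw [hk2]; ring)
  set e := un (y - x) with hedef
  have he : ‖e‖ = 1 := norm_un (by positivity) hxy
  have hyx : y - x = ((r + s : ℝ) : ℂ) * e := eq_norm_mul_un (by positivity) hxy
  have hzx : z - x = ((r + t : ℝ) : ℂ) * (Complex.exp ((ae r s t : ℝ) * Complex.I) * e) := by
    rw [← h]; exact eq_norm_mul_un (by positivity) hxz
  set E1 := Complex.exp ((ae r s t : ℝ) * Complex.I) with hE1def
  set E2 := Complex.exp ((ae s t r : ℝ) * Complex.I) with hE2def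
  set E3 := Complex.exp ((ae t r s : ℝ) * Complex.I) with hE3def
  have hn1 : ‖E1‖ = 1 := Complex.norm_exp_ofReal_mul_I _
  have hn2 : ‖E2‖ = 1 := Complex.norm_exp_ofReal_mul_I _
  have hn3 : ‖E3‖ = 1 := Complex.norm_exp_ofReal_mul_I _
  have hE20 : E2 ≠ 0 := Complex.exp_ne_zero _
  have hkc : (k : ℂ) ^ 2 = (r : ℂ) * s * t * (r + s + t) := by exact_mod_cast hk2
  have hI : Complex.I ^ 2 = -1 := Complex.I_sq
  have hne : ∀ a : ℝ, ((a : ℝ) : ℂ) - (k : ℂ) * Complex.I ≠ 0 := by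
    intro a h
    have := congrArg Complex.im h
    simp at this
    exact hk.ne' this
  have hne' : ∀ a : ℝ, ((a : ℝ) : ℂ) + (k : ℂ) * Complex.I ≠ 0 := by
    intro a h
    have := congrArg Complex.im h
    simp at this
    exact hk.ne' this
  have hd1 := hne (r * (r + s + t))
  have hd2 := hne (s * (s + t + r))
  have hd3 := hne (t * (t + r + s))
  -- the two identities
  have hJ : ((k : ℂ) * Complex.I) ^ 2 = -((r : ℂ) * s * t * (r + s + t)) := by
    rw [mul_pow, hkc, hI]; ring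
  have key : (((r + t : ℝ) : ℂ) * E1 - ((r + s : ℝ) : ℂ)) * E2 = -((s + t : ℝ) : ℂ) := by
    rw [hE1, hE2]
    generalize hJdef : (k : ℂ) * Complex.I = J at hJ hd1 hd2 hd3 ⊢
    have : (((r + t : ℝ) : ℂ) * ((((r * (r + s + t) : ℝ) : ℂ) + J) /
        (((r * (r + s + t) : ℝ) : ℂ) - J)) - ((r + s : ℝ) : ℂ)) =
        (((r + t : ℝ) : ℂ) * (((r * (r + s + t) : ℝ) : ℂ) + J) -
          ((r + s : ℝ) : ℂ) * (((r * (r + s + t) : ℝ) : ℂ) - J)) /
          (((r * (r + s + t) : ℝ) : ℂ) - J) := by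
      rw [sub_div, mul_div_assoc, mul_div_assoc, div_self hd1, mul_one]
    rw [this, div_mul_div_comm, div_eq_iff (mul_ne_zero hd1 hd2)]
    push_cast
    linear_combination 2 * ((r : ℂ) + s + t) * hJ
  have key2 : E1 * E2 * E3 = -1 := by
    rw [hE1, hE2, hE3]
    generalize hJdef : (k : ℂ) * Complex.I = J at hJ hd1 hd2 hd3 ⊢
    rw [div_mul_div_comm, div_mul_div_comm,
      div_eq_iff (mul_ne_zero (mul_ne_zero hd1 hd2) hd3)]
    push_cast
    linear_combination 2 * ((r : ℂ) + s + t) ^ 2 * hJ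
  have hzy : z - y = ((s + t : ℝ) : ℂ) * (-(e / E2)) := by
    have : z - y = (((r + t : ℝ) : ℂ) * E1 - ((r + s : ℝ) : ℂ)) * e := by
      have : z - y = (z - x) - (y - x) := by ring
      rw [this, hzx, hyx]; ring
    rw [this]
    have h3 : (((r + t : ℝ) : ℂ) * E1 - ((r + s : ℝ) : ℂ)) = -((s + t : ℝ) : ℂ) / E2 := by
      rw [← key]; field_simp
    rw [h3]; ring
  have hne2 : ‖-(e / E2)‖ = 1 := by rw [norm_neg, norm_div, he, hn2, div_one]
  have hst : 0 < s + t := by positivity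
  have hrs : 0 < r + s := by positivity
  have hrt : 0 < r + t := by positivity
  have hunzy : un (z - y) = -(e / E2) := by rw [hzy]; exact eu_un_mul hst hne2
  have hunxy : un (x - y) = -e := by
    have : x - y = ((r + s : ℝ) : ℂ) * (-e) := by
      have h4 : x - y = -(y - x) := by ring
      rw [h4, hyx]; ring
    rw [this]; exact eu_un_mul hrs (by rw [norm_neg, he])
  have hunyz : un (y - z) = e / E2 := by
    have : y - z = ((s + t : ℝ) : ℂ) * (e / E2) := by
      have h4 : y - z = -(z - y) := by ring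
      rw [h4, hzy]; ring
    rw [this]; exact eu_un_mul hst (by rw [norm_div, he, hn2, div_one])
  have hunxz : un (x - z) = -(E1 * e) := by
    have : x - z = ((r + t : ℝ) : ℂ) * (-(E1 * e)) := by
      have h4 : x - z = -(z - x) := by ring
      rw [h4, hzx]; ring
    rw [this]; exact eu_un_mul hrt (by rw [norm_neg, norm_mul, hn1, he, one_mul])
  refine ⟨?_, ?_, ?_⟩
  · rw [hzy, norm_mul, hne2, Complex.norm_real, Real.norm_of_nonneg hst.le, mul_one]
  · rw [hunxy, hunzy]; field_simp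
  · rw [hunyz, hunxz]
    rw [div_eq_iff hE20]
    linear_combination e * key2

theorem ae_pos {x y z : ℝ} (hx : 0 < x) (hy : 0 < y) (hz : 0 < z) : 0 < ae x y z := by
  rw [ae]
  have : 0 < Real.sqrt (y * z / (x * (x + y + z))) := Real.sqrt_pos.mpr (by positivity)
  have := Real.arctan_pos.mpr this
  linarith

theorem ae_lt_pi {x y z : ℝ} : ae x y z < Real.pi := by
  rw [ae]
  have := Real.arctan_lt_pi_div_two (Real.sqrt (y * z / (x * (x + y + z))))
  linarith

/-- the euclidean geometry of tangent circles -/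
noncomputable def GE : Geom where
  ok r := 0 < r
  ins _ := True
  α := ae
  Tg r s x y := ‖y - x‖ = r + s
  dir x y := un (y - x)
  tg_ins := fun _ => ⟨trivial, trivial⟩
  tg_symm := fun {r s x y} h => by rw [norm_sub_rev, h, add_comm]
  place := fun {r s x} {d} hr hs _ hd => by
    have hrs : 0 < r + s := add_pos hr hs
    refine ⟨x + ((r + s : ℝ) : ℂ) * d, ?_, ?_⟩
    · rw [add_sub_cancel_left, norm_mul, hd, Complex.norm_real, Real.norm_of_nonneg hrs.le, mul_one]
    · rw [add_sub_cancel_left]; exact eu_un_mul hrs hd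
  uniq := fun {r s x y y'} hr hs h1 h2 h3 => by
    have hrs : 0 < r + s := add_pos hr hs
    have e1 := eq_norm_mul_un hrs h1
    have e2 := eq_norm_mul_un hrs h2
    rw [h3, ← e2] at e1
    exact sub_left_injective e1
  dir_norm := fun {r s x y} hr hs h => norm_un (add_pos hr hs) h
  tri := fun {r s t x y z} hr hs ht h1 h2 h3 => ae_tri hr hs ht h1 h2 h3

/-- a developed face is positively oriented -/
theorem ae_orient {r s t : ℝ} {x y z : ℂ} (hr : 0 < r) (hs : 0 < s) (ht : 0 < t)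
    (h : FaceOK GE r s t x y z) : 0 < ((starRingEnd ℂ) (y - x) * (z - x)).im := by
  have h1 : ‖y - x‖ = r + s := h.t1
  have h3 : ‖z - x‖ = r + t := h.t3
  have hd : un (z - x) = Complex.exp ((ae r s t : ℝ) * Complex.I) * un (y - x) := h.d1
  have hrs : 0 < r + s := add_pos hr hs
  have hrt : 0 < r + t := add_pos hr ht
  have he : ‖un (y - x)‖ = 1 := norm_un hrs h1
  have e1 := eq_norm_mul_un hrs h1
  have e2 := eq_norm_mul_un hrt h3
  rw [hd] at e2
  rw [e2]
  have hc : (starRingEnd ℂ) (y - x) = ((r + s : ℝ) : ℂ) * (starRingEnd ℂ) (un (y - x)) := by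
    conv_lhs => rw [e1]
    rw [map_mul, Complex.conj_ofReal]
  rw [hc]
  have hee : (starRingEnd ℂ) (un (y - x)) * un (y - x) = 1 := by
    rw [mul_comm, Complex.mul_conj, Complex.normSq_eq_norm_sq, he]; norm_num
  have : ((r + s : ℝ) : ℂ) * (starRingEnd ℂ) (un (y - x)) *
      (((r + t : ℝ) : ℂ) * (Complex.exp ((ae r s t : ℝ) * Complex.I) * un (y - x))) =
      (((r + s) * (r + t) : ℝ) : ℂ) * Complex.exp ((ae r s t : ℝ) * Complex.I) := by
    push_cast
    linear_combination ((r : ℂ) + s) * ((r : ℂ) + t) *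
      Complex.exp ((ae r s t : ℝ) * Complex.I) * hee
  rw [this, Complex.im_ofReal_mul, Complex.exp_ofReal_mul_I_im]
  exact mul_pos (mul_pos hrs hrt) (Real.sin_pos_of_pos_of_lt_pi (ae_pos hr hs ht) ae_lt_pi)

end Pool.Agent.Helper11.Fatou
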