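import Mathlib
import Pool.Agent.Helper11.Fatou.Defs

namespace Pool.Agent.Helper11.Fatou

theorem inner_tele {X : Type} (w : X → X → ℝ) (o : X) (d : ℤ → X) (m : ℤ) (r : ℕ)
    (h : ∀ i : ℕ, i < r → w (d (m + (i : ℤ) + 1)) o = -w o (d (m + (i : ℤ) + 1))) :
    ∑ i ∈ Finset.range r, (w o (d (m + (i : ℤ))) + w (d (m + (i : ℤ))) (d (m + (i : ℤ) + 1))
      + w (d (m + (i : ℤ) + 1)) o) =
    ∑ i ∈ Finset.range r, w (d (m + (i : ℤ))) (d (m + (i : ℤ) + 1))
      + (w o (d m) - w o (d (m + (r : ℤ)))) := by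
  induction r with
  | zero => simp
  | succ r ih =>
    rw [Finset.sum_range_succ, Finset.sum_range_succ, ih (fun i hi => h i (by omega)), h r (by omega)]
    have e : m + ((r + 1 : ℕ) : ℤ) = m + (r : ℤ) + 1 := by push_cast; ring
    rw [e]; ring

theorem layer_aux {X : Type} (w : X → X → ℝ) (c c' : ℤ → X) (b : ℕ) (hb : 0 < b)
    (h1 : ∀ k, w (c' k) (c (k / (b : ℤ))) = -w (c (k / (b : ℤ))) (c' k))
    (h2 : ∀ k, w (c' (k + 1)) (c (k / (b : ℤ))) = -w (c (k / (b : ℤ))) (c' (k + 1)))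
    (h3 : ∀ j, w (c (j + 1)) (c j) = -w (c j) (c (j + 1))) (N : ℕ) :
    ∑ k ∈ Finset.range (N * b), (w (c ((k : ℤ) / (b : ℤ))) (c' (k : ℤ))
        + w (c' (k : ℤ)) (c' ((k : ℤ) + 1)) + w (c' ((k : ℤ) + 1)) (c ((k : ℤ) / (b : ℤ))))
      + ∑ j ∈ Finset.range N, (w (c (j : ℤ)) (c' (((j : ℤ) + 1) * (b : ℤ)))
        + w (c' (((j : ℤ) + 1) * (b : ℤ))) (c ((j : ℤ) + 1)) + w (c ((j : ℤ) + 1)) (c (j : ℤ))) =
    ∑ k ∈ Finset.range (N * b), w (c' (k : ℤ)) (c' ((k : ℤ) + 1))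
      - ∑ j ∈ Finset.range N, w (c (j : ℤ)) (c ((j : ℤ) + 1))
      + (w (c 0) (c' 0) - w (c (N : ℤ)) (c' ((N : ℤ) * (b : ℤ)))) := by
  have hbz : (0 : ℤ) < (b : ℤ) := by exact_mod_cast hb
  induction N with
  | zero => simp
  | succ N ih =>
    rw [Nat.succ_mul, Finset.sum_range_succ _ N, Finset.sum_range_succ _ N,
      Finset.sum_range_add _ (N * b) b, Finset.sum_range_add _ (N * b) b]
    have hd : ∀ i : ℕ, i < b → (((N * b + i : ℕ) : ℤ)) / (b : ℤ) = (N : ℤ) := by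
      intro i hi
      rw [← Int.natCast_ediv, Nat.add_comm, Nat.add_mul_div_right _ _ hb, Nat.div_eq_of_lt hi, Nat.zero_add]
    have e1 : ∑ x ∈ Finset.range b, (w (c (((N * b + x : ℕ) : ℤ) / (b : ℤ))) (c' ((N * b + x : ℕ) : ℤ))
        + w (c' ((N * b + x : ℕ) : ℤ)) (c' (((N * b + x : ℕ) : ℤ) + 1))
        + w (c' (((N * b + x : ℕ) : ℤ) + 1)) (c (((N * b + x : ℕ) : ℤ) / (b : ℤ)))) =
        ∑ x ∈ Finset.range b, w (c' ((N * b + x : ℕ) : ℤ)) (c' (((N * b + x : ℕ) : ℤ) + 1))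
        + (w (c (N : ℤ)) (c' ((N : ℤ) * (b : ℤ))) - w (c (N : ℤ)) (c' (((N : ℤ) + 1) * (b : ℤ)))) := by
      have key := inner_tele w (c (N : ℤ)) c' ((N : ℤ) * (b : ℤ)) b (by
        intro i hi
        have := h2 ((N : ℤ) * (b : ℤ) + (i : ℤ))
        have e : ((N : ℤ) * (b : ℤ) + (i : ℤ)) / (b : ℤ) = (N : ℤ) := by
          have := hd i hi
          push_cast at this
          exact this
        rwa [e] at this)
      have e2 : (N : ℤ) * (b : ℤ) + (b : ℤ) = ((N : ℤ) + 1) * (b : ℤ) := by ring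
      rw [e2] at key
      have l1 : ∑ x ∈ Finset.range b, (w (c (((N * b + x : ℕ) : ℤ) / (b : ℤ))) (c' ((N * b + x : ℕ) : ℤ))
        + w (c' ((N * b + x : ℕ) : ℤ)) (c' (((N * b + x : ℕ) : ℤ) + 1))
        + w (c' (((N * b + x : ℕ) : ℤ) + 1)) (c (((N * b + x : ℕ) : ℤ) / (b : ℤ)))) =
          ∑ i ∈ Finset.range b, (w (c (N : ℤ)) (c' ((N : ℤ) * (b : ℤ) + (i : ℤ)))
            + w (c' ((N : ℤ) * (b : ℤ) + (i : ℤ))) (c' ((N : ℤ) * (b : ℤ) + (i : ℤ) + 1))
            + w (c' ((N : ℤ) * (b : ℤ) + (i : ℤ) + 1)) (c (N : ℤ))) := by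
        apply Finset.sum_congr rfl
        intro x hx
        rw [hd x (Finset.mem_range.1 hx)]
        push_cast
        rfl
      rw [l1, key]
      congr 1
    rw [e1]
    have h1' := h1 (((N : ℤ) + 1) * (b : ℤ))
    rw [Int.mul_ediv_cancel _ hbz.ne'] at h1'
    rw [h1', h3 (N : ℤ)]
    have e3 : ((N + 1 : ℕ) : ℤ) = (N : ℤ) + 1 := by push_cast; rfl
    rw [e3]
    linarith [ih]

/-- cancellation of the inner edges of a layer -/
theorem layer_sum {X : Type} (w : X → X → ℝ) (c c' : ℤ → X) (b N : ℕ) (hb : 0 < b)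
    (hc : ∀ j, c (j + (N : ℤ)) = c j) (hc' : ∀ k, c' (k + ((N * b : ℕ) : ℤ)) = c' k)
    (h1 : ∀ k, w (c' k) (c (k / (b : ℤ))) = -w (c (k / (b : ℤ))) (c' k))
    (h2 : ∀ k, w (c' (k + 1)) (c (k / (b : ℤ))) = -w (c (k / (b : ℤ))) (c' (k + 1)))
    (h3 : ∀ j, w (c (j + 1)) (c j) = -w (c j) (c (j + 1))) :
    ∑ k ∈ Finset.range (N * b), (w (c ((k : ℤ) / (b : ℤ))) (c' (k : ℤ))
        + w (c' (k : ℤ)) (c' ((k : ℤ) + 1)) + w (c' ((k : ℤ) + 1)) (c ((k : ℤ) / (b : ℤ))))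
      + ∑ j ∈ Finset.range N, (w (c (j : ℤ)) (c' (((j : ℤ) + 1) * (b : ℤ)))
        + w (c' (((j : ℤ) + 1) * (b : ℤ))) (c ((j : ℤ) + 1)) + w (c ((j : ℤ) + 1)) (c (j : ℤ))) =
    ∑ k ∈ Finset.range (N * b), w (c' (k : ℤ)) (c' ((k : ℤ) + 1))
      - ∑ j ∈ Finset.range N, w (c (j : ℤ)) (c ((j : ℤ) + 1)) := by
  rw [layer_aux w c c' b hb h1 h2 h3 N]
  have a1 := hc 0
  have a2 := hc' 0
  rw [zero_add] at a1 a2
  push_cast at a2
  rw [a1, a2]; ring

/-- the root layer (`b` vertices around the root `o`) -/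
theorem root_sum {X : Type} (w : X → X → ℝ) (o : X) (c' : ℤ → X) (b : ℕ)
    (hc' : ∀ k, c' (k + (b : ℤ)) = c' k) (h1 : ∀ k, w (c' k) o = -w o (c' k)) :
    ∑ k ∈ Finset.range b, (w o (c' (k : ℤ)) + w (c' (k : ℤ)) (c' ((k : ℤ) + 1))
        + w (c' ((k : ℤ) + 1)) o) =
    ∑ k ∈ Finset.range b, w (c' (k : ℤ)) (c' ((k : ℤ) + 1)) := by
  have key := inner_tele w o c' 0 b (fun i _ => h1 _)
  simp only [zero_add] at key
  rw [key]
  have a1 := hc' 0
  rw [zero_add] at a1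
  rw [a1]; ring

theorem arg_one_add_lt {u : ℂ} (hu : 0 < u.im) :
    0 < Complex.arg (1 + u) ∧ Complex.arg (1 + u) < Complex.arg u ∧ Complex.arg u < Real.pi := by
  have hp : ∀ v : ℂ, 0 < v.im → 0 < Complex.arg v ∧ Complex.arg v < Real.pi := by
    intro v hv
    have h0 : 0 ≤ Complex.arg v := Complex.arg_nonneg_iff.2 hv.le
    refine ⟨lt_of_le_of_ne h0 ?_, lt_of_le_of_ne (Complex.arg_le_pi v) ?_⟩
    · intro h
      have := (Complex.arg_eq_zero_iff.1 h.symm).2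
      linarith
    · intro h
      have := (Complex.arg_eq_pi_iff.1 h).2
      linarith
  have hv : 0 < (1 + u).im := by simpa using hu
  obtain ⟨a1, a2⟩ := hp _ hv
  obtain ⟨b1, b2⟩ := hp _ hu
  refine ⟨a1, ?_, b2⟩
  set α := Complex.arg (1 + u) with hα
  set β := Complex.arg u with hβ
  have r1 : (1 + u).re = ‖1 + u‖ * Real.cos α := (Complex.norm_mul_cos_arg _).symm
  have r2 : (1 + u).im = ‖1 + u‖ * Real.sin α := (Complex.norm_mul_sin_arg _).symm
  have r3 : u.re = ‖u‖ * Real.cos β := (Complex.norm_mul_cos_arg _).symm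
  have r4 : u.im = ‖u‖ * Real.sin β := (Complex.norm_mul_sin_arg _).symm
  have hn : 0 < ‖u‖ := norm_pos_iff.2 (fun h => by rw [h] at hu; simp at hu)
  have hn1 : 0 < ‖1 + u‖ := norm_pos_iff.2 (fun h => by rw [h] at hv; simp at hv)
  by_contra hlt
  push Not at hlt
  have hs : 0 ≤ Real.sin (α - β) := Real.sin_nonneg_of_nonneg_of_le_pi (by linarith) (by linarith)
  have e : ‖1 + u‖ * ‖u‖ * Real.sin (α - β) = - u.im := by
    rw [Real.sin_sub]
    have : ‖1 + u‖ * ‖u‖ * (Real.sin α * Real.cos β - Real.cos α * Real.sin β)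
        = (‖1 + u‖ * Real.sin α) * (‖u‖ * Real.cos β) - (‖1 + u‖ * Real.cos α) * (‖u‖ * Real.sin β) := by
      ring
    rw [this, ← r1, ← r2, ← r3, ← r4]
    simp only [Complex.add_re, Complex.add_im, Complex.one_re, Complex.one_im]
    ring
  have : 0 ≤ ‖1 + u‖ * ‖u‖ * Real.sin (α - β) := by positivity
  linarith

theorem arg_one_add_gt {u : ℂ} (hu : u.im < 0) :
    Complex.arg u < Complex.arg (1 + u) ∧ -Real.pi < Complex.arg u ∧ Complex.arg u < 0 := by
  have h := arg_one_add_lt (u := (starRingEnd ℂ) u) (by simpa using hu)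
  have e : 1 + (starRingEnd ℂ) u = (starRingEnd ℂ) (1 + u) := by simp
  have hne : ∀ v : ℂ, v.im < 0 → Complex.arg v ≠ Real.pi := by
    intro v hv h
    have := (Complex.arg_eq_pi_iff.1 h).2
    linarith
  rw [e, Complex.arg_conj, Complex.arg_conj, if_neg (hne _ hu), if_neg (hne _ (by simpa using hu))] at h
  obtain ⟨h1, h2, h3⟩ := h
  exact ⟨by linarith, by linarith, by linarith⟩

/-- a star-shaped closed polygon winds at most once around a point -/
theorem wind_le {N : ℕ} {c : ℤ → ℂ} {Θ : ℤ → ℝ} (hc0 : ∀ j, c j ≠ 0)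
    (hc : ∀ j, c j = (‖c j‖ : ℂ) * Complex.exp ((Θ j : ℝ) * Complex.I))
    (hΘ : ∀ j, 0 < Θ (j + 1) - Θ j ∧ Θ (j + 1) - Θ j < Real.pi)
    (hper : ∀ j, Θ (j + (N : ℤ)) = Θ j + 2 * Real.pi) (hcper : ∀ j, c (j + (N : ℤ)) = c j)
    {z : ℂ} (hz : ∀ j, ((starRingEnd ℂ) (c j) * z).im ≠ 0)
    (hz' : ∀ j, ((starRingEnd ℂ) (c (j + 1) - c j) * (z - c j)).im ≠ 0) :
    ∑ j ∈ Finset.range N, Complex.arg ((c ((j : ℤ) + 1) - z) / (c (j : ℤ) - z)) ≤
      2 * Real.pi := by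
  have hcz : ∀ j, c j - z ≠ 0 := by
    intro j h
    apply hz' j
    have : z - c j = 0 := by rw [← neg_sub, h, neg_zero]
    rw [this]; simp
  set u : ℤ → ℂ := fun j => -z / c j with hu
  have hz0 : z ≠ 0 := by
    intro h
    apply hz 0
    rw [h]; simp
  have hu0 : ∀ j, u j ≠ 0 := fun j => div_ne_zero (neg_ne_zero.2 hz0) (hc0 j)
  set g : ℤ → ℝ := fun j => Complex.arg (1 + u j) with hg
  have hP : ∀ j, 1 + u j = (c j - z) / c j := by
    intro j
    simp only [hu]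
    field_simp [hc0 j]
    ring
  have hP0 : ∀ j, 1 + u j ≠ 0 := fun j => by rw [hP]; exact div_ne_zero (hcz j) (hc0 j)
  have huim : ∀ j, (u j).im ≠ 0 := by
    intro j h
    apply hz j
    have e : (starRingEnd ℂ) (c j) * z = -(((‖c j‖ ^ 2 : ℝ) : ℂ) * u j) := by
      simp only [hu]
      have : (starRingEnd ℂ) (c j) * c j = ((‖c j‖ ^ 2 : ℝ) : ℂ) := by
        rw [mul_comm, Complex.mul_conj, Complex.normSq_eq_norm_sq]
      rw [← this]
      field_simp [hc0 j]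
    rw [e]
    simp only [Complex.neg_im, Complex.re_ofReal_mul, Complex.im_ofReal_mul, h]
    simp
  -- arguments of quotients of the `c j`
  have hratio : ∀ j, ((Complex.arg (c (j + 1) / c j) : ℝ) : Real.Angle) = ((Θ (j + 1) - Θ j : ℝ) : Real.Angle) := by
    intro j
    rw [Complex.arg_div_coe_angle (hc0 _) (hc0 _)]
    have : ∀ i, ((Complex.arg (c i) : ℝ) : Real.Angle) = ((Θ i : ℝ) : Real.Angle) := by
      intro i
      have e := Complex.arg_mul_cos_add_sin_mul_I_coe_angle (norm_pos_iff.2 (hc0 i)) ((Θ i : ℝ) : Real.Angle)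
      rw [Real.Angle.cos_coe, Real.Angle.sin_coe, Complex.ofReal_cos, Complex.ofReal_sin, ← Complex.exp_mul_I,
        ← hc i] at e
      exact e
    rw [this, this, Real.Angle.coe_sub]
  have hang : ∀ j, ((Complex.arg ((c (j + 1) - z) / (c j - z)) : ℝ) : Real.Angle) =
      ((Θ (j + 1) - Θ j + g (j + 1) - g j : ℝ) : Real.Angle) := by
    intro j
    have e : (c (j + 1) - z) / (c j - z) = (c (j + 1) / c j) * ((1 + u (j + 1)) / (1 + u j)) := by
      rw [hP, hP]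
      field_simp [hc0 j, hc0 (j + 1), hcz j]
    rw [e, Complex.arg_mul_coe_angle (div_ne_zero (hc0 _) (hc0 _)) (div_ne_zero (hP0 _) (hP0 _)),
      Complex.arg_div_coe_angle (hP0 _) (hP0 _), hratio]
    simp only [hg, Real.Angle.coe_sub, Real.Angle.coe_add]
    abel
  have hangu : ∀ j, ((Complex.arg (u (j + 1)) : ℝ) : Real.Angle) =
      ((Complex.arg (u j) - (Θ (j + 1) - Θ j) : ℝ) : Real.Angle) := by
    intro j
    have e : u (j + 1) = u j / (c (j + 1) / c j) := by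
      simp only [hu]
      field_simp [hc0 j, hc0 (j + 1)]
    rw [e, Complex.arg_div_coe_angle (hu0 _) (div_ne_zero (hc0 _) (hc0 _)), hratio]
    rw [← Real.Angle.coe_sub]
  have hS : ∀ j, -Real.pi < Θ (j + 1) - Θ j + g (j + 1) - g j := by
    intro j
    obtain ⟨d1, d2⟩ := hΘ j
    rcases le_or_gt (g j) 0 with h | h
    · have := Complex.neg_pi_lt_arg (1 + u (j + 1))
      simp only [hg] at *
      linarith
    rcases le_or_gt 0 (g (j + 1)) with h' | h'
    · have := Complex.arg_le_pi (1 + u j)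
      simp only [hg] at *
      linarith
    -- remaining case
    have i1 : 0 < (u j).im := by
      by_contra hn
      have hneg : (u j).im < 0 := lt_of_le_of_ne (not_lt.1 hn) (huim j)
      have : Complex.arg (1 + u j) < 0 := Complex.arg_neg_iff.2 (by simpa using hneg)
      simp only [hg] at h
      linarith
    have i2 : (u (j + 1)).im < 0 := by
      have := Complex.arg_neg_iff.1 h'
      simpa using this
    obtain ⟨p1, p2, p3⟩ := arg_one_add_lt i1
    obtain ⟨q1, q2, q3⟩ := arg_one_add_gt i2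
    have heq := hangu j
    rw [Real.Angle.angle_eq_iff_two_pi_dvd_sub] at heq
    obtain ⟨k, hk⟩ := heq
    have hpi := Real.pi_pos
    have k0 : k = 0 := by
      have l1 : (k : ℝ) < 1 := by
        by_contra hc1
        push Not at hc1
        nlinarith
      have l2 : (-1 : ℝ) < (k : ℝ) := by
        by_contra hc1
        push Not at hc1
        nlinarith
      have l1' : k < 1 := by exact_mod_cast l1
      have l2' : -1 < k := by exact_mod_cast l2
      omega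
    rw [k0] at hk
    simp only [Int.cast_zero, mul_zero] at hk
    simp only [hg]
    linarith
  have hle : ∀ j, Complex.arg ((c (j + 1) - z) / (c j - z)) ≤ Θ (j + 1) - Θ j + g (j + 1) - g j := by
    intro j
    have heq := hang j
    rw [Real.Angle.angle_eq_iff_two_pi_dvd_sub] at heq
    obtain ⟨k, hk⟩ := heq
    have hpi := Real.pi_pos
    have h1 := Complex.arg_le_pi ((c (j + 1) - z) / (c j - z))
    have h2 := hS j
    have l1 : (k : ℝ) < 1 := by
      by_contra hc1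
      push Not at hc1
      nlinarith
    have l1' : k < 1 := by exact_mod_cast l1
    have l2 : (k : ℝ) ≤ 0 := by exact_mod_cast (by omega : k ≤ 0)
    nlinarith
  calc ∑ j ∈ Finset.range N, Complex.arg ((c ((j : ℤ) + 1) - z) / (c (j : ℤ) - z))
      ≤ ∑ j ∈ Finset.range N, ((Θ (((j + 1 : ℕ) : ℤ)) + g ((j + 1 : ℕ) : ℤ)) - (Θ ((j : ℕ) : ℤ) + g ((j : ℕ) : ℤ))) := by
        apply Finset.sum_le_sum
        intro j _
        have := hle (j : ℤ)
        push_cast
        linarith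
    _ = (Θ (N : ℤ) + g (N : ℤ)) - (Θ ((0 : ℕ) : ℤ) + g ((0 : ℕ) : ℤ)) :=
        Finset.sum_range_sub (fun j : ℕ => Θ (j : ℤ) + g (j : ℤ)) N
    _ = 2 * Real.pi := by
        have a1 := hper 0
        have a2 := hcper 0
        rw [zero_add] at a1 a2
        have a3 : g (N : ℤ) = g 0 := by simp only [hg, hu, a2]
        simp only [Nat.cast_zero]
        rw [a1, a3]; ring
    _ ≤ 2 * Real.pi := le_refl _

end Pool.Agent.Helper11.Fatou
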