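import Mathlib
import Pool.Agent.Helper11.Koebe.Defs
import Pool.Agent.Helper11.Fatou.Defs

namespace Pool.Agent.Helper11.Fatou

open Pool.Agent.Helper11.Koebe (orient)


/-- the angle under which the segment from `p` to `q` is seen from `z` -/
noncomputable def aw (z p q : ℂ) : ℝ := Complex.arg ((q - z) / (p - z))


theorem orient_eq (p q z : ℂ) : orient p q z = (p.re - z.re) * (q.im - z.im) - (p.im - z.im) * (q.re - z.re) := by
  unfold orient
  simp only [Complex.mul_im, Complex.conj_re, Complex.conj_im, Complex.sub_re, Complex.sub_im]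
  ring

theorem quot_im (p q z : ℂ) : ((q - z) / (p - z)).im = orient p q z / Complex.normSq (p - z) := by
  rw [Complex.div_im, orient_eq]
  simp only [Complex.sub_re, Complex.sub_im]
  ring

theorem ne_of_orient {p q z : ℂ} (h : orient p q z ≠ 0) : p - z ≠ 0 ∧ q - z ≠ 0 := by
  constructor
  · intro h0
    apply h
    rw [sub_eq_zero] at h0
    rw [orient_eq, h0]
    ring
  · intro h0
    apply h
    rw [sub_eq_zero] at h0
    rw [orient_eq, h0]
    ring

theorem normSq_pos_of {p q z : ℂ} (h : orient p q z ≠ 0) : 0 < Complex.normSq (p - z) :=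
  Complex.normSq_pos.mpr (ne_of_orient h).1

theorem quot_im_ne {p q z : ℂ} (h : orient p q z ≠ 0) : ((q - z) / (p - z)).im ≠ 0 := by
  rw [quot_im]
  exact div_ne_zero h (normSq_pos_of h).ne'

theorem aw_lt_pi {p q z : ℂ} (h : orient p q z ≠ 0) : aw z p q < Real.pi := by
  refine lt_of_le_of_ne (Complex.arg_le_pi _) ?_
  intro h1
  unfold aw at h1
  rw [Complex.arg_eq_pi_iff] at h1
  exact quot_im_ne h h1.2

theorem aw_gt (z p q : ℂ) : -Real.pi < aw z p q := Complex.neg_pi_lt_arg _

theorem aw_neg {p q z : ℂ} (h : orient p q z < 0) : aw z p q < 0 := by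
  unfold aw
  rw [Complex.arg_neg_iff, quot_im]
  exact div_neg_of_neg_of_pos h (normSq_pos_of h.ne)

theorem aw_pos {p q z : ℂ} (h : 0 < orient p q z) : 0 < aw z p q := by
  have h1 : 0 ≤ aw z p q := by
    unfold aw
    rw [Complex.arg_nonneg_iff, quot_im]
    exact (div_pos h (normSq_pos_of h.ne')).le
  refine lt_of_le_of_ne h1 ?_
  intro h2
  unfold aw at h2
  have := (Complex.arg_eq_zero_iff.mp h2.symm).2
  exact quot_im_ne h.ne' this

theorem aw_antisymm {z p q : ℂ} (h : orient p q z ≠ 0) : aw z q p = -aw z p q := by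
  have h1 : (p - z) / (q - z) = ((q - z) / (p - z))⁻¹ := by rw [inv_div]
  unfold aw
  rw [h1, Complex.arg_inv, if_neg]
  exact (aw_lt_pi h).ne

theorem hull_side {p q r x : ℂ} (h : 0 ≤ orient p q r) (hx : x ∈ convexHull ℝ {p, q, r}) :
    0 ≤ orient p q x := by
  have hlin : IsLinearMap ℝ (fun x : ℂ => ((starRingEnd ℂ) (q - p) * x).im) := by
    constructor
    · intro x y
      rw [mul_add, Complex.add_im]
    · intro c x
      simp [Complex.mul_im]
      ring
  have hc := convex_halfSpace_ge hlin (((starRingEnd ℂ) (q - p) * p).im)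
  have he : ∀ y, y ∈ {w : ℂ | ((starRingEnd ℂ) (q - p) * p).im ≤ ((starRingEnd ℂ) (q - p) * w).im} ↔
      0 ≤ orient p q y := by
    intro y
    unfold orient
    rw [Set.mem_ofPred_eq, mul_sub, Complex.sub_im]
    constructor <;> intro h <;> linarith
  have hs : ({p, q, r} : Set ℂ) ⊆
      {w : ℂ | ((starRingEnd ℂ) (q - p) * p).im ≤ ((starRingEnd ℂ) (q - p) * w).im} := by
    intro y hy
    rw [he]
    rcases hy with hy | hy | hy
    · rw [hy, orient_eq]; apply le_of_eq; ring
    · rw [hy, orient_eq]; apply le_of_eq; ring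
    · rw [hy]; exact h
  exact (he x).1 (convexHull_min hs hc hx)

theorem tw_orient_rot (p q r : ℂ) : orient q r p = orient p q r := by
  rw [orient_eq, orient_eq]; ring

theorem orient_sum (p q r z : ℂ) :
    orient p q z + orient q r z + orient r p z = orient p q r := by
  simp only [orient_eq]; ring

theorem hull_mem {p q r z : ℂ} (h1 : 0 < orient p q z) (h2 : 0 < orient q r z)
    (h3 : 0 < orient r p z) : z ∈ convexHull ℝ {p, q, r} := by
  have hs : 0 < orient p q z + orient q r z + orient r p z := by linarith
  set S := orient p q z + orient q r z + orient r p z with hS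
  have hz : z = (orient q r z / S) • p + (orient r p z / S) • q + (orient p q z / S) • r := by
    have hS0 : S ≠ 0 := hs.ne'
    have e1 : S • z = (orient q r z) • p + (orient r p z) • q + (orient p q z) • r := by
      rw [hS]
      apply Complex.ext
      · simp only [Complex.add_re, Complex.real_smul, Complex.mul_re, Complex.ofReal_re,
          Complex.ofReal_im, orient_eq]
        ring
      · simp only [Complex.add_im, Complex.real_smul, Complex.mul_im, Complex.ofReal_re,
          Complex.ofReal_im, orient_eq]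
        ring
    have e2 : z = S⁻¹ • (S • z) := by rw [smul_smul, inv_mul_cancel₀ hS0, one_smul]
    rw [e1] at e2
    rw [smul_add, smul_add, smul_smul, smul_smul, smul_smul] at e2
    have e3 : ∀ x : ℝ, S⁻¹ * x = x / S := fun x => by rw [mul_comm, div_eq_mul_inv]
    rw [e3, e3, e3] at e2
    exact e2
  have hp : p ∈ convexHull ℝ ({p, q, r} : Set ℂ) := subset_convexHull ℝ _ (by simp)
  have hq : q ∈ convexHull ℝ ({p, q, r} : Set ℂ) := subset_convexHull ℝ _ (by simp)
  have hr : r ∈ convexHull ℝ ({p, q, r} : Set ℂ) := subset_convexHull ℝ _ (by simp)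
  have hc := convex_convexHull ℝ ({p, q, r} : Set ℂ)
  have := hc.sum_mem (t := Finset.univ) (w := ![orient q r z / S, orient r p z / S, orient p q z / S])
    (z := ![p, q, r]) (by
      intro i _
      fin_cases i
      · exact (div_pos h2 hs).le
      · exact (div_pos h3 hs).le
      · exact (div_pos h1 hs).le) (by
      rw [Fin.sum_univ_three]
      simp only [Matrix.cons_val_zero, Matrix.cons_val_one, Matrix.cons_val]
      rw [← add_div, ← add_div, div_eq_one_iff_eq hs.ne', hS]
      ring) (by
      intro i _
      fin_cases i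
      · exact hp
      · exact hq
      · exact hr)
  rw [Fin.sum_univ_three] at this
  simp only [Matrix.cons_val_zero, Matrix.cons_val_one, Matrix.cons_val] at this
  rw [hz]
  exact this

theorem sum_mul {p q r z : ℂ} (h1 : orient p q z ≠ 0)
    (h2 : orient q r z ≠ 0) :
    ∃ n : ℤ, aw z p q + aw z q r + aw z r p = 2 * Real.pi * n := by
  have ha := (ne_of_orient h1).1
  have hb := (ne_of_orient h1).2
  have hc := (ne_of_orient h2).2
  have e1 := Complex.norm_mul_exp_arg_mul_I ((q - z) / (p - z))
  have e2 := Complex.norm_mul_exp_arg_mul_I ((r - z) / (q - z))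
  have e3 := Complex.norm_mul_exp_arg_mul_I ((p - z) / (r - z))
  have hprod : ((q - z) / (p - z)) * ((r - z) / (q - z)) * ((p - z) / (r - z)) = 1 := by
    field_simp
  have hnorm : ‖(q - z) / (p - z)‖ * ‖(r - z) / (q - z)‖ * ‖(p - z) / (r - z)‖ = 1 := by
    rw [← norm_mul, ← norm_mul, hprod, norm_one]
  have h : Complex.exp (((aw z p q + aw z q r + aw z r p : ℝ) : ℂ) * Complex.I) = 1 := by
    have : Complex.exp (((aw z p q + aw z q r + aw z r p : ℝ) : ℂ) * Complex.I) =
        ((‖(q - z) / (p - z)‖ * ‖(r - z) / (q - z)‖ * ‖(p - z) / (r - z)‖ : ℝ) : ℂ) *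
        (Complex.exp (aw z p q * Complex.I) * Complex.exp (aw z q r * Complex.I) *
          Complex.exp (aw z r p * Complex.I)) := by
      rw [hnorm, ← Complex.exp_add, ← Complex.exp_add]
      push_cast
      rw [one_mul]
      congr 1
      ring
    rw [this]
    unfold aw
    push_cast
    calc _ = ((‖(q - z) / (p - z)‖ : ℂ) * Complex.exp (Complex.arg ((q - z) / (p - z)) * Complex.I)) *
        ((‖(r - z) / (q - z)‖ : ℂ) * Complex.exp (Complex.arg ((r - z) / (q - z)) * Complex.I)) *
        ((‖(p - z) / (r - z)‖ : ℂ) * Complex.exp (Complex.arg ((p - z) / (r - z)) * Complex.I)) := by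
          push_cast
          ring
      _ = 1 := by rw [e1, e2, e3, hprod]
  rw [Complex.exp_eq_one_iff] at h
  obtain ⟨n, hn⟩ := h
  refine ⟨n, ?_⟩
  have h1 : ((aw z p q + aw z q r + aw z r p : ℝ) : ℂ) * Complex.I =
      ((2 * Real.pi * n : ℝ) : ℂ) * Complex.I := by
    rw [hn]; push_cast; ring
  have h2 := mul_right_cancel₀ Complex.I_ne_zero h1
  exact_mod_cast h2

/-- winding number of a triangle -/
theorem aw_tri {p q r z : ℂ} (ho : 0 < orient p q r) (h1 : orient p q z ≠ 0)
    (h2 : orient q r z ≠ 0) (h3 : orient r p z ≠ 0) :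
    (z ∈ convexHull ℝ {p, q, r} ∧ aw z p q + aw z q r + aw z r p = 2 * Real.pi) ∨
      (z ∉ convexHull ℝ {p, q, r} ∧ aw z p q + aw z q r + aw z r p = 0) := by
  have hsum := orient_sum p q r z
  obtain ⟨n, hn⟩ := sum_mul h1 h2
  have u1 := aw_lt_pi h1
  have u2 := aw_lt_pi h2
  have u3 := aw_lt_pi h3
  have l1 := aw_gt z p q
  have l2 := aw_gt z q r
  have l3 := aw_gt z r p
  have hpi := Real.pi_pos
  have hset2 : ({p, q, r} : Set ℂ) = {q, r, p} := by
    ext x; simp only [Set.mem_insert_iff, Set.mem_singleton_iff]; tauto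
  have hset3 : ({p, q, r} : Set ℂ) = {r, p, q} := by
    ext x; simp only [Set.mem_insert_iff, Set.mem_singleton_iff]; tauto
  have zero_of : -(2 * Real.pi) < aw z p q + aw z q r + aw z r p →
      aw z p q + aw z q r + aw z r p < 2 * Real.pi →
      aw z p q + aw z q r + aw z r p = 0 := by
    intro ha hb
    rw [hn] at ha hb ⊢
    have hn1 : (n : ℝ) < 1 := by nlinarith
    have hn2 : (-1 : ℝ) < n := by nlinarith
    have hn1' : n < 1 := by exact_mod_cast hn1
    have hn2' : -1 < n := by exact_mod_cast hn2
    have : n = 0 := by omega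
    rw [this]; simp
  rcases lt_or_gt_of_ne h1 with c1 | c1
  · right
    refine ⟨fun hz => ?_, ?_⟩
    · have := hull_side ho.le hz
      linarith
    · have m1 := aw_neg c1
      rcases lt_or_gt_of_ne h2 with c2 | c2
      · have m2 := aw_neg c2
        have c3 : 0 < orient r p z := by linarith
        have m3 := aw_pos c3
        exact zero_of (by linarith) (by linarith)
      · have m2 := aw_pos c2
        exact zero_of (by linarith) (by linarith)
  · have m1 := aw_pos c1
    rcases lt_or_gt_of_ne h2 with c2 | c2
    · right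
      refine ⟨fun hz => ?_, ?_⟩
      · rw [hset2] at hz
        have := hull_side (by rw [tw_orient_rot]; exact ho.le) hz
        linarith
      · have m2 := aw_neg c2
        exact zero_of (by linarith) (by linarith)
    · have m2 := aw_pos c2
      rcases lt_or_gt_of_ne h3 with c3 | c3
      · right
        refine ⟨fun hz => ?_, ?_⟩
        · rw [hset3] at hz
          have := hull_side (by rw [← tw_orient_rot, ← tw_orient_rot] at ho; exact ho.le) hz
          linarith
        · have m3 := aw_neg c3
          exact zero_of (by linarith) (by linarith)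
      · left
        have m3 := aw_pos c3
        refine ⟨hull_mem c1 c2 c3, ?_⟩
        have ha : 0 < 2 * Real.pi * n := by rw [← hn]; linarith
        have hb : 2 * Real.pi * n < 3 * Real.pi := by rw [← hn]; linarith
        have hn1 : (n : ℝ) < 2 := by nlinarith
        have hn2 : (0 : ℝ) < n := by nlinarith
        have hn1' : n < 2 := by exact_mod_cast hn1
        have hn2' : 0 < n := by exact_mod_cast hn2
        have : n = 1 := by omega
        rw [hn, this]
        simp

end Pool.Agent.Helper11.Fatou
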