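import Mathlib
import Pool.Agent.Helper11.Koebe.Defs
import Pool.Agent.Helper11.Fatou.Defs
import Pool.Agent.Helper11.Fatou.TriWind
import Pool.Agent.Helper11.Fatou.Layer

namespace Pool.Agent.Helper11.Fatou

open Pool.Agent.Helper11.Koebe (orient)


/-- `z` is on no line through an edge and on no line through `0` and a centre -/
def Gen (b : ℕ → ℕ) (c : ℕ → ℤ → ℂ) (z : ℂ) : Prop :=
  (∀ (n : ℕ) (k : ℤ), orient (c n (k / (b n : ℤ))) (c (n + 1) k) z ≠ 0 ∧
    orient (c (n + 1) k) (c (n + 1) (k + 1)) z ≠ 0 ∧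
    orient (c (n + 1) (k + 1)) (c n (k / (b n : ℤ))) z ≠ 0) ∧
  (∀ (n : ℕ), 1 ≤ n → ∀ j : ℤ, orient (c n j) (c (n + 1) ((j + 1) * (b n : ℤ))) z ≠ 0 ∧
    orient (c (n + 1) ((j + 1) * (b n : ℤ))) (c n (j + 1)) z ≠ 0 ∧
    orient (c n (j + 1)) (c n j) z ≠ 0) ∧
  (∀ (n : ℕ), 1 ≤ n → ∀ j : ℤ, ((starRingEnd ℂ) (c n j) * z).im ≠ 0)

/-- the triangle of a face; `(n, k, false)`: third kind `down`, `(n, j, true)`: kind `up` -/
def trf (b : ℕ → ℕ) (c : ℕ → ℤ → ℂ) (F : ℕ × ℕ × Bool) : Set ℂ :=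
  if F.2.2 then convexHull ℝ {c F.1 (F.2.1 : ℤ), c (F.1 + 1) (((F.2.1 : ℤ) + 1) * (b F.1 : ℤ)),
    c F.1 ((F.2.1 : ℤ) + 1)}
  else convexHull ℝ {c F.1 ((F.2.1 : ℤ) / (b F.1 : ℤ)), c (F.1 + 1) (F.2.1 : ℤ),
    c (F.1 + 1) ((F.2.1 : ℤ) + 1)}

/-- admissible indices of faces -/
def okf (b : ℕ → ℕ) (F : ℕ × ℕ × Bool) : Prop :=
  if F.2.2 then 1 ≤ F.1 ∧ F.2.1 < L b F.1 else F.2.1 < L b (F.1 + 1)

theorem F4_null_line (v u : ℂ) (hv : v ≠ 0) :
    MeasureTheory.volume {z : ℂ | ((starRingEnd ℂ) v * (z - u)).im = 0} = 0 := by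
  let φ : ℂ →ₗ[ℝ] ℝ :=
    { toFun := fun z => ((starRingEnd ℂ) v * z).im
      map_add' := fun x y => by rw [mul_add, Complex.add_im]
      map_smul' := fun r x => by
        rw [Complex.real_smul, RingHom.id_apply, smul_eq_mul, mul_left_comm, Complex.im_ofReal_mul] }
  have hker : LinearMap.ker φ ≠ ⊤ := by
    intro h
    have h1 : φ (Complex.I * v) = 0 := by
      have hm : Complex.I * v ∈ LinearMap.ker φ := by rw [h]; trivial
      exact hm
    have e : φ (Complex.I * v) = Complex.normSq v := by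
      show ((starRingEnd ℂ) v * (Complex.I * v)).im = _
      simp [Complex.normSq_apply]
    rw [e] at h1
    exact hv (Complex.normSq_eq_zero.1 h1)
  have h1 : MeasureTheory.volume (LinearMap.ker φ : Set ℂ) = 0 :=
    MeasureTheory.Measure.addHaar_submodule _ _ hker
  have h2 : {z : ℂ | ((starRingEnd ℂ) v * (z - u)).im = 0} =
      (fun z => z + (-u)) ⁻¹' (LinearMap.ker φ : Set ℂ) := by
    ext z
    rw [Set.mem_preimage, SetLike.mem_coe, LinearMap.mem_ker, ← sub_eq_add_neg]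
    rfl
  rw [h2, MeasureTheory.measure_preimage_add_right, h1]

theorem F4_ae_line (v u : ℂ) (hv : v ≠ 0) :
    ∀ᵐ z : ℂ, ((starRingEnd ℂ) v * (z - u)).im ≠ 0 := by
  rw [MeasureTheory.ae_iff]
  simpa using F4_null_line v u hv

theorem F4_orient_ne {p q r : ℂ} (h : 0 < orient p q r) : p ≠ q ∧ q ≠ r ∧ r ≠ p := by
  refine ⟨?_, ?_, ?_⟩
  · rintro rfl
    simp [orient] at h
  · rintro rfl
    have : orient p q q = 0 := by
      simp [orient]
      ring
    rw [this] at h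
    exact lt_irrefl _ h
  · rintro rfl
    simp [orient] at h

theorem F4_ae_orient {p q : ℂ} (h : p ≠ q) : ∀ᵐ z : ℂ, orient p q z ≠ 0 :=
  F4_ae_line (q - p) p (sub_ne_zero.2 (Ne.symm h))

/-- value of a face -/
noncomputable def F4_V (b : ℕ → ℕ) (c : ℕ → ℤ → ℂ) (z : ℂ) (F : ℕ × ℕ × Bool) : ℝ :=
  if F.2.2 = true then
    (if 1 ≤ F.1 ∧ F.2.1 < L b F.1 then
      aw z (c F.1 (F.2.1 : ℤ)) (c (F.1 + 1) (((F.2.1 : ℤ) + 1) * (b F.1 : ℤ))) +
      aw z (c (F.1 + 1) (((F.2.1 : ℤ) + 1) * (b F.1 : ℤ))) (c F.1 ((F.2.1 : ℤ) + 1)) +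
      aw z (c F.1 ((F.2.1 : ℤ) + 1)) (c F.1 (F.2.1 : ℤ)) else 0)
  else
    (if F.2.1 < L b (F.1 + 1) then
      aw z (c F.1 ((F.2.1 : ℤ) / (b F.1 : ℤ))) (c (F.1 + 1) (F.2.1 : ℤ)) +
      aw z (c (F.1 + 1) (F.2.1 : ℤ)) (c (F.1 + 1) ((F.2.1 : ℤ) + 1)) +
      aw z (c (F.1 + 1) ((F.2.1 : ℤ) + 1)) (c F.1 ((F.2.1 : ℤ) / (b F.1 : ℤ))) else 0)

theorem F4_V_val {b : ℕ → ℕ} {c : ℕ → ℤ → ℂ}
    (hdown : ∀ (n : ℕ) (k : ℤ), 0 < orient (c n (k / (b n : ℤ))) (c (n + 1) k) (c (n + 1) (k + 1)))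
    (hup : ∀ (n : ℕ), 1 ≤ n → ∀ j : ℤ,
      0 < orient (c n j) (c (n + 1) ((j + 1) * (b n : ℤ))) (c n (j + 1)))
    {z : ℂ} (hz : Gen b c z) (F : ℕ × ℕ × Bool) :
    0 ≤ F4_V b c z F ∧ (okf b F → z ∈ trf b c F → F4_V b c z F = 2 * Real.pi) := by
  have hpi := Real.pi_pos
  obtain ⟨n, k, s⟩ := F
  cases s with
  | false =>
    have h1 := aw_tri (hdown n k) (hz.1 n k).1 (hz.1 n k).2.1 (hz.1 n k).2.2
    have e : F4_V b c z (n, k, false) = if k < L b (n + 1) then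
      aw z (c n ((k : ℤ) / (b n : ℤ))) (c (n + 1) (k : ℤ)) +
      aw z (c (n + 1) (k : ℤ)) (c (n + 1) ((k : ℤ) + 1)) +
      aw z (c (n + 1) ((k : ℤ) + 1)) (c n ((k : ℤ) / (b n : ℤ))) else 0 := by
      simp [F4_V]
    rw [e]
    constructor
    · split_ifs
      · rcases h1 with h1 | h1 <;> rw [h1.2]
        positivity
      · exact le_rfl
    · intro hok hmem
      have hok' : k < L b (n + 1) := by simpa [okf] using hok
      have hmem' : z ∈ convexHull ℝ {c n ((k : ℤ) / (b n : ℤ)), c (n + 1) (k : ℤ),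
        c (n + 1) ((k : ℤ) + 1)} := by simpa [trf] using hmem
      rw [if_pos hok']
      rcases h1 with h1 | h1
      · exact h1.2
      · exact absurd hmem' h1.1
  | true =>
    have e : F4_V b c z (n, k, true) = if 1 ≤ n ∧ k < L b n then
      aw z (c n (k : ℤ)) (c (n + 1) (((k : ℤ) + 1) * (b n : ℤ))) +
      aw z (c (n + 1) (((k : ℤ) + 1) * (b n : ℤ))) (c n ((k : ℤ) + 1)) +
      aw z (c n ((k : ℤ) + 1)) (c n (k : ℤ)) else 0 := by
      simp [F4_V]
    rw [e]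
    by_cases hn : 1 ≤ n
    · have h1 := aw_tri (hup n hn k) (hz.2.1 n hn k).1 (hz.2.1 n hn k).2.1 (hz.2.1 n hn k).2.2
      constructor
      · split_ifs
        · rcases h1 with h1 | h1 <;> rw [h1.2]
          positivity
        · exact le_rfl
      · intro hok hmem
        have hok' : 1 ≤ n ∧ k < L b n := by simpa [okf] using hok
        have hmem' : z ∈ convexHull ℝ {c n (k : ℤ), c (n + 1) (((k : ℤ) + 1) * (b n : ℤ)),
          c n ((k : ℤ) + 1)} := by simpa [trf] using hmem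
        rw [if_pos hok']
        rcases h1 with h1 | h1
        · exact h1.2
        · exact absurd hmem' h1.1
    · constructor
      · rw [if_neg (fun h => hn h.1)]
      · intro hok _
        have hok' : 1 ≤ n ∧ k < L b n := by simpa [okf] using hok
        exact absurd hok'.1 hn

theorem F4_L_mono {b : ℕ → ℕ} (hb : ∀ n, 4 ≤ b n) : Monotone (L b) := by
  apply monotone_nat_of_le_succ
  intro n
  show L b n ≤ L b n * b n
  exact Nat.le_mul_of_pos_right _ (by have := hb n; omega)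

theorem F4_filter_sum (f : ℕ → ℝ) (N K : ℕ) (h : N ≤ K) :
    ∑ k ∈ Finset.range K, (if k < N then f k else 0) = ∑ k ∈ Finset.range N, f k := by
  rw [← Finset.sum_filter]
  apply Finset.sum_congr _ (fun _ _ => rfl)
  ext k
  rw [Finset.mem_filter, Finset.mem_range, Finset.mem_range]
  omega

theorem face_unique {b : ℕ → ℕ} (hb : ∀ n, 4 ≤ b n) {c : ℕ → ℤ → ℂ} (hc : Per b c)
    (hdown : ∀ (n : ℕ) (k : ℤ), 0 < orient (c n (k / (b n : ℤ))) (c (n + 1) k) (c (n + 1) (k + 1)))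
    (hup : ∀ (n : ℕ), 1 ≤ n → ∀ j : ℤ,
      0 < orient (c n j) (c (n + 1) ((j + 1) * (b n : ℤ))) (c n (j + 1)))
    {Θ : ℕ → ℤ → ℝ}
    (hΘ : ∀ n, 1 ≤ n →
      (∀ j, c n j ≠ 0 ∧ c n j = (‖c n j‖ : ℂ) * Complex.exp ((Θ n j : ℝ) * Complex.I)) ∧
      (∀ j, 0 < Θ n (j + 1) - Θ n j ∧ Θ n (j + 1) - Θ n j < Real.pi) ∧
      (∀ j, Θ n (j + (L b n : ℤ)) = Θ n j + 2 * Real.pi))
    {z : ℂ} (hz : Gen b c z) {F F' : ℕ × ℕ × Bool} (hF : okf b F) (hF' : okf b F')
    (h : z ∈ trf b c F) (h' : z ∈ trf b c F') : F = F' := by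
  classical
  have hpi := Real.pi_pos
  -- antisymmetry facts
  obtain ⟨W, hW⟩ : ∃ W : ℕ → ℝ, W = fun n => ∑ j ∈ Finset.range (L b n),
      aw z (c n (j : ℤ)) (c n ((j : ℤ) + 1)) := ⟨_, rfl⟩
  have hconst : ∀ j : ℤ, c 0 j = c 0 0 := by
    have h1 : ∀ j : ℤ, c 0 (j + 1) = c 0 j := by
      intro j
      have := hc 0 j
      simpa [L] using this
    intro j
    induction j using Int.induction_on with
    | zero => rfl
    | succ i ih => rw [h1]; exact ih
    | pred i ih =>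
      have := h1 (-(i : ℤ) - 1)
      rw [sub_add_cancel] at this
      rw [← this]; exact ih
  have hlayer : ∀ n, 1 ≤ n →
      ∑ k ∈ Finset.range (L b (n + 1)), (aw z (c n ((k : ℤ) / (b n : ℤ))) (c (n + 1) (k : ℤ))
        + aw z (c (n + 1) (k : ℤ)) (c (n + 1) ((k : ℤ) + 1))
        + aw z (c (n + 1) ((k : ℤ) + 1)) (c n ((k : ℤ) / (b n : ℤ))))
      + ∑ j ∈ Finset.range (L b n), (aw z (c n (j : ℤ)) (c (n + 1) (((j : ℤ) + 1) * (b n : ℤ)))
        + aw z (c (n + 1) (((j : ℤ) + 1) * (b n : ℤ))) (c n ((j : ℤ) + 1))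
        + aw z (c n ((j : ℤ) + 1)) (c n (j : ℤ))) = W (n + 1) - W n := by
    intro n hn
    rw [hW]
    have hbn := hb n
    refine layer_sum (aw z) (c n) (c (n + 1)) (b n) (L b n) (by omega) (hc n) (hc (n + 1)) ?_ ?_ ?_
    · intro k
      exact aw_antisymm (hz.1 n k).1
    · intro k
      rw [aw_antisymm (hz.1 n k).2.2, neg_neg]
    · intro j
      obtain ⟨m, rfl⟩ : ∃ m, n = m + 1 := ⟨n - 1, by omega⟩
      exact aw_antisymm (hz.1 m j).2.1
  have hroot : ∑ k ∈ Finset.range (L b (0 + 1)), (aw z (c 0 ((k : ℤ) / (b 0 : ℤ))) (c (0 + 1) (k : ℤ))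
        + aw z (c (0 + 1) (k : ℤ)) (c (0 + 1) ((k : ℤ) + 1))
        + aw z (c (0 + 1) ((k : ℤ) + 1)) (c 0 ((k : ℤ) / (b 0 : ℤ)))) = W 1 := by
    have hL1 : L b 1 = b 0 := by
      show 1 * b 0 = b 0
      rw [one_mul]
    have h1 := root_sum (aw z) (c 0 0) (c 1) (b 0) (fun k => by
      have := hc 1 k
      rwa [hL1] at this) (fun k => by
      have h2 := (hz.1 0 k).1
      rw [hconst] at h2
      exact aw_antisymm h2)
    rw [hW]
    simp only [hconst, zero_add, hL1]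
    exact h1
  have hwind : ∀ n, 1 ≤ n → W n ≤ 2 * Real.pi := by
    intro n hn
    rw [hW]
    obtain ⟨hΘ1, hΘ2, hΘ3⟩ := hΘ n hn
    refine wind_le (N := L b n) (c := c n) (Θ := Θ n) (fun j => (hΘ1 j).1) (fun j => (hΘ1 j).2)
      hΘ2 hΘ3 (hc n) (hz.2.2 n hn) ?_
    intro j
    obtain ⟨m, rfl⟩ : ∃ m, n = m + 1 := ⟨n - 1, by omega⟩
    exact (hz.1 m j).2.1
  have hval := F4_V_val hdown hup hz
  -- the sum over all faces
  have hsum : ∀ M K, L b M ≤ K → 1 ≤ M →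
      ∑ F ∈ Finset.range M ×ˢ (Finset.range K ×ˢ (Finset.univ : Finset Bool)), F4_V b c z F = W M := by
    intro M K hK hM
    rw [Finset.sum_product]
    have hin : ∀ n ∈ Finset.range M, ∑ G ∈ Finset.range K ×ˢ (Finset.univ : Finset Bool),
        F4_V b c z (n, G) = if n = 0 then W 1 else W (n + 1) - W n := by
      intro n hn
      rw [Finset.mem_range] at hn
      have hL1 : L b (n + 1) ≤ K := (F4_L_mono hb (by omega)).trans hK
      have hL0 : L b n ≤ K := (F4_L_mono hb (by omega)).trans hK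
      rw [Finset.sum_product]
      have e1 : ∀ k ∈ Finset.range K, ∑ s : Bool, F4_V b c z (n, k, s) =
          (if k < L b (n + 1) then aw z (c n ((k : ℤ) / (b n : ℤ))) (c (n + 1) (k : ℤ)) +
            aw z (c (n + 1) (k : ℤ)) (c (n + 1) ((k : ℤ) + 1)) +
            aw z (c (n + 1) ((k : ℤ) + 1)) (c n ((k : ℤ) / (b n : ℤ))) else 0) +
          (if k < L b n then (if 1 ≤ n then
            aw z (c n (k : ℤ)) (c (n + 1) (((k : ℤ) + 1) * (b n : ℤ))) +
            aw z (c (n + 1) (((k : ℤ) + 1) * (b n : ℤ))) (c n ((k : ℤ) + 1)) +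
            aw z (c n ((k : ℤ) + 1)) (c n (k : ℤ)) else 0) else 0) := by
        intro k _
        rw [Fintype.sum_bool, add_comm]
        by_cases h1 : 1 ≤ n <;> by_cases h2 : k < L b n <;> by_cases h3 : k < L b (n + 1) <;>
          simp [F4_V, h1, h2, h3]
      rw [Finset.sum_congr rfl e1, Finset.sum_add_distrib, F4_filter_sum _ _ _ hL1,
        F4_filter_sum _ _ _ hL0]
      rcases Nat.eq_zero_or_pos n with h0 | h0
      · subst h0
        rw [hroot]
        simp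
      · rw [if_neg (by omega), ← hlayer n h0]
        congr 1
        apply Finset.sum_congr rfl
        intro j _
        rw [if_pos (by omega)]
    rw [Finset.sum_congr rfl hin]
    clear hK hin
    induction M, hM using Nat.le_induction with
    | base => simp
    | succ M hM ih =>
      rw [Finset.sum_range_succ, ih, if_neg (by omega)]
      ring
  by_contra hne
  obtain ⟨M, hM⟩ : ∃ M, M = F.1 + F'.1 + 1 := ⟨_, rfl⟩
  obtain ⟨K, hK⟩ : ∃ K, K = L b M + F.2.1 + F'.2.1 + 1 := ⟨_, rfl⟩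
  have h1 := hsum M K (by omega) (by omega)
  have h2 := hwind M (by omega)
  have h3 : ∑ G ∈ ({F, F'} : Finset (ℕ × ℕ × Bool)), F4_V b c z G ≤
      ∑ F ∈ Finset.range M ×ˢ (Finset.range K ×ˢ (Finset.univ : Finset Bool)), F4_V b c z F := by
    apply Finset.sum_le_sum_of_subset_of_nonneg
    · intro G hG
      rw [Finset.mem_insert, Finset.mem_singleton] at hG
      rw [Finset.mem_product, Finset.mem_product, Finset.mem_range, Finset.mem_range]
      rcases hG with rfl | rfl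
      · exact ⟨by omega, by omega, Finset.mem_univ _⟩
      · exact ⟨by omega, by omega, Finset.mem_univ _⟩
    · intro G _ _
      exact (hval G).1
  rw [Finset.sum_pair hne, (hval F).2 hF h, (hval F').2 hF' h'] at h3
  linarith

/-- generic points are dense -/
theorem exists_generic {b : ℕ → ℕ} {c : ℕ → ℤ → ℂ}
    (hdown : ∀ (n : ℕ) (k : ℤ), 0 < orient (c n (k / (b n : ℤ))) (c (n + 1) k) (c (n + 1) (k + 1)))
    (hup : ∀ (n : ℕ), 1 ≤ n → ∀ j : ℤ,
      0 < orient (c n j) (c (n + 1) ((j + 1) * (b n : ℤ))) (c n (j + 1)))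
    (h0 : ∀ n, 1 ≤ n → ∀ j, c n j ≠ 0) {U : Set ℂ} (hU : IsOpen U) (hne : U.Nonempty) :
    ∃ z ∈ U, Gen b c z := by
  have hae : ∀ᵐ z : ℂ, Gen b c z := by
    refine (MeasureTheory.ae_all_iff.2 fun n => MeasureTheory.ae_all_iff.2 fun k => ?_).and
      ((MeasureTheory.ae_all_iff.2 fun n => MeasureTheory.ae_all_iff.2 fun hn =>
        MeasureTheory.ae_all_iff.2 fun j => ?_).and
      (MeasureTheory.ae_all_iff.2 fun n => MeasureTheory.ae_all_iff.2 fun hn =>
        MeasureTheory.ae_all_iff.2 fun j => ?_))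
    · obtain ⟨h1, h2, h3⟩ := F4_orient_ne (hdown n k)
      exact (F4_ae_orient h1).and ((F4_ae_orient h2).and (F4_ae_orient h3))
    · obtain ⟨h1, h2, h3⟩ := F4_orient_ne (hup n hn j)
      exact (F4_ae_orient h1).and ((F4_ae_orient h2).and (F4_ae_orient h3))
    · have := F4_ae_line (c n j) 0 (h0 n hn j)
      simpa using this
  by_contra hcon
  push Not at hcon
  have h1 : MeasureTheory.volume U ≤ 0 := by
    rw [MeasureTheory.ae_iff] at hae
    rw [← hae]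
    exact MeasureTheory.measure_mono fun z hz => hcon z hz
  have h2 := hU.measure_pos MeasureTheory.volume hne
  exact absurd h1 (not_le.2 h2)

end Pool.Agent.Helper11.Fatou
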