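import Mathlib
import Pool.Agent.Helper11.Fatou.Defs
import Pool.Agent.Helper11.Fatou.Blocks
import Pool.Agent.Helper11.Fatou.BlockChoice
import Pool.Agent.Helper11.Fatou.AliveOf

namespace Pool.Agent.Helper11.Fatou














/-- volume of the dead set -/
theorem mm_dead {b : ℕ → ℕ} (B : ℕ → ℕ) {Θ : ℕ → ℤ → ℝ} {s : ℕ → ℤ → ℤ}
    (hmono : ∀ n j, Θ (n + 1) j < Θ (n + 1) (j + 1))
    (hper : ∀ n j, Θ (n + 1) (j + (L b (n + 1) : ℤ)) = Θ (n + 1) j + 2 * Real.pi)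
    (hs1 : ∀ n j, s n (j + (L b n : ℤ)) = s n j + (L b (n + 1) : ℤ))
    (hs4 : ∀ n j, Θ (n + 1) (s n j + (B n : ℤ)) - Θ (n + 1) (s n j - 1) ≤
        (Θ (n + 1) ((j + 1) * (b n : ℤ)) - Θ (n + 1) (j * (b n : ℤ))) / ((2 ^ (n + 3) : ℕ) : ℝ)) :
    MeasureTheory.volume ((⋃ n, ⋃ j, Set.Icc (Θ (n + 1) (s n j - 1)) (Θ (n + 1) (s n j + (B n : ℤ))))
      ∩ Set.Ico 0 (2 * Real.pi)) ≤ ENNReal.ofReal (Real.pi / 2) := by
  have hpi := Real.pi_pos
  have hstep : ∀ n, MeasureTheory.volume ((⋃ j, Set.Icc (Θ (n + 1) (s n j - 1))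
      (Θ (n + 1) (s n j + (B n : ℤ)))) ∩ Set.Ico 0 (2 * Real.pi)) ≤
      ENNReal.ofReal (Real.pi / 4 * (1 / 2) ^ n) := by
    intro n
    have hsm : StrictMono (Θ (n + 1)) := strictMono_int_of_lt_succ (hmono n)
    refine (dead_measure (N := L b n) (a := fun j => Θ (n + 1) (s n j - 1))
      (c := fun j => Θ (n + 1) (s n j + (B n : ℤ))) ?_ ?_ ?_).trans ?_
    · intro j
      show Θ (n + 1) (s n (j + (L b n : ℤ)) - 1) = Θ (n + 1) (s n j - 1) + 2 * Real.pi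
      rw [hs1, ← hper]
      congr 1
      ring
    · intro j
      show Θ (n + 1) (s n (j + (L b n : ℤ)) + (B n : ℤ)) =
        Θ (n + 1) (s n j + (B n : ℤ)) + 2 * Real.pi
      rw [hs1, ← hper]
      congr 1
      ring
    · intro j
      apply hsm.monotone
      omega
    · apply ENNReal.ofReal_le_ofReal
      calc ∑ j ∈ Finset.range (L b n), (Θ (n + 1) (s n (j : ℤ) + (B n : ℤ)) -
            Θ (n + 1) (s n (j : ℤ) - 1))
          ≤ ∑ j ∈ Finset.range (L b n), (Θ (n + 1) ((((j + 1 : ℕ) : ℤ)) * (b n : ℤ)) -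
            Θ (n + 1) ((j : ℤ) * (b n : ℤ))) / ((2 ^ (n + 3) : ℕ) : ℝ) := by
            apply Finset.sum_le_sum
            intro j _
            have h1 := hs4 n (j : ℤ)
            have h2 : (((j + 1 : ℕ) : ℤ)) = (j : ℤ) + 1 := by push_cast; ring
            rw [h2]
            exact h1
        _ = (Θ (n + 1) (((L b n : ℕ) : ℤ) * (b n : ℤ)) - Θ (n + 1) (((0 : ℕ) : ℤ) * (b n : ℤ))) /
            ((2 ^ (n + 3) : ℕ) : ℝ) := by
            rw [← Finset.sum_div, Finset.sum_range_sub (fun j : ℕ => Θ (n + 1) ((j : ℤ) * (b n : ℤ)))]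
        _ = (2 * Real.pi) / ((2 ^ (n + 3) : ℕ) : ℝ) := by
            have h3 := hper n 0
            have h4 : (0 : ℤ) + (L b (n + 1) : ℤ) = ((L b n : ℕ) : ℤ) * (b n : ℤ) := by
              rw [zero_add]
              show ((L b n * b n : ℕ) : ℤ) = _
              push_cast
              rfl
            rw [h4] at h3
            have h5 : ((0 : ℕ) : ℤ) * (b n : ℤ) = 0 := by simp
            rw [h3, h5, add_sub_cancel_left]
        _ = Real.pi / 4 * (1 / 2) ^ n := by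
            push_cast
            rw [pow_add, div_pow, one_pow]
            field_simp
            norm_num
        _ ≤ Real.pi / 4 * (1 / 2) ^ n := le_refl _
  have hsumm : Summable (fun n : ℕ => Real.pi / 4 * (1 / 2 : ℝ) ^ n) :=
    (summable_geometric_of_lt_one (by norm_num) (by norm_num)).mul_left _
  calc MeasureTheory.volume ((⋃ n, ⋃ j, Set.Icc (Θ (n + 1) (s n j - 1))
        (Θ (n + 1) (s n j + (B n : ℤ)))) ∩ Set.Ico 0 (2 * Real.pi))
      = MeasureTheory.volume (⋃ n, ((⋃ j, Set.Icc (Θ (n + 1) (s n j - 1))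
        (Θ (n + 1) (s n j + (B n : ℤ)))) ∩ Set.Ico 0 (2 * Real.pi))) := by
        rw [Set.iUnion_inter]
    _ ≤ ∑' n, MeasureTheory.volume ((⋃ j, Set.Icc (Θ (n + 1) (s n j - 1))
        (Θ (n + 1) (s n j + (B n : ℤ)))) ∩ Set.Ico 0 (2 * Real.pi)) :=
        MeasureTheory.measure_iUnion_le _
    _ ≤ ∑' n : ℕ, ENNReal.ofReal (Real.pi / 4 * (1 / 2) ^ n) := ENNReal.tsum_le_tsum hstep
    _ = ENNReal.ofReal (∑' n : ℕ, Real.pi / 4 * (1 / 2) ^ n) :=
        (ENNReal.ofReal_tsum_of_nonneg (fun n => by positivity) hsumm).symm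
    _ = ENNReal.ofReal (Real.pi / 2) := by
        rw [tsum_mul_left, tsum_geometric_two]
        congr 1
        ring

/-- position of a ray -/
theorem mm_pos {t : ℤ → ℝ} (hsm : StrictMono t) {N : ℕ} (hper : ∀ k, t (k + (N : ℤ)) = t k + 2 * Real.pi)
    (θ : ℝ) : ∃ k : ℤ, t (k - 1) ≤ θ ∧ θ < t k := by
  have hpi := Real.pi_pos
  have h1 : ∀ M : ℕ, ∀ k, t (k + (M : ℤ) * (N : ℤ)) = t k + (M : ℝ) * (2 * Real.pi) := by
    intro M
    induction M with
    | zero => intro k; simp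
    | succ M ih =>
      intro k
      have e : k + ((M + 1 : ℕ) : ℤ) * (N : ℤ) = (k + (M : ℤ) * (N : ℤ)) + (N : ℤ) := by
        push_cast; ring
      rw [e, hper, ih]
      push_cast
      ring
  obtain ⟨M1, hM1⟩ := exists_nat_gt ((θ - t 0) / (2 * Real.pi))
  obtain ⟨M2, hM2⟩ := exists_nat_gt ((t 0 - θ) / (2 * Real.pi))
  rw [div_lt_iff₀ (by positivity)] at hM1 hM2
  have hinh : ∃ z : ℤ, θ < t z := by
    refine ⟨0 + (M1 : ℤ) * (N : ℤ), ?_⟩
    rw [h1]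
    linarith
  have hlow : t (-((M2 : ℤ) * (N : ℤ))) < θ := by
    have h2 := h1 M2 (-((M2 : ℤ) * (N : ℤ)))
    rw [neg_add_cancel] at h2
    linarith
  have hbdd : ∃ c : ℤ, ∀ z : ℤ, θ < t z → c ≤ z := by
    refine ⟨-((M2 : ℤ) * (N : ℤ)), fun z hz => ?_⟩
    by_contra hcon
    push Not at hcon
    have := hsm hcon
    linarith
  obtain ⟨k, hk1, hk2⟩ := Int.exists_least_of_bdd hbdd hinh
  refine ⟨k, ?_, hk1⟩
  by_contra hcon
  push Not at hcon
  have := hk2 (k - 1) hcon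
  omega

theorem mm_uniq {t : ℤ → ℝ} (hsm : StrictMono t) {θ : ℝ} {k k' : ℤ} (h1 : t (k - 1) ≤ θ)
    (h2 : θ < t k) (h1' : t (k' - 1) ≤ θ) (h2' : θ < t k') : k = k' := by
  rcases lt_trichotomy k k' with h | h | h
  · have := hsm.monotone (show k ≤ k' - 1 by omega)
    linarith
  · exact h
  · have := hsm.monotone (show k' ≤ k - 1 by omega)
    linarith

theorem measure_main {b : ℕ → ℕ} (hb : ∀ n, 4 ≤ b n) (B : ℕ → ℕ)
    (hbT : ∀ n, 1 + 2 ^ (n + 3) * (B n + 1) ≤ b n) {Θ t : ℕ → ℤ → ℝ}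
    (hmono : ∀ n j, Θ (n + 1) j < Θ (n + 1) (j + 1))
    (hper : ∀ n j, Θ (n + 1) (j + (L b (n + 1) : ℤ)) = Θ (n + 1) j + 2 * Real.pi)
    (hnest : ∀ n j, Θ (n + 2) (j * (b (n + 1) : ℤ)) < Θ (n + 1) j ∧
      Θ (n + 1) j < Θ (n + 2) ((j + 1) * (b (n + 1) : ℤ) - 1))
    (ht : ∀ n k, Θ (n + 1) k < t (n + 1) k ∧ t (n + 1) k < Θ (n + 1) (k + 1))
    (htper : ∀ n k, t (n + 1) (k + (L b (n + 1) : ℤ)) = t (n + 1) k + 2 * Real.pi) :
    ∃ D : Blk b, (∀ n, D.B n = B n) ∧ ∃ E : Set ℝ, MeasurableSet E ∧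
      E ⊆ Set.Ico 0 (2 * Real.pi) ∧ 0 < MeasureTheory.volume E ∧
      ∀ θ ∈ E, ∃ x : ℕ → ℤ,
        (∀ n, t (n + 1) (x (n + 1) - 1) ≤ θ ∧ θ < t (n + 1) (x (n + 1))) ∧
        ∃ᶠ m in Filter.atTop, D.giant m (x m) := by
  classical
  have hpi := Real.pi_pos
  obtain ⟨s, hs1, hs2, hs3, hs4⟩ := exists_blocks hb B (fun n => 2 ^ (n + 3))
    (fun n => Nat.one_le_two_pow) hbT hmono hper
  obtain ⟨Dead, hDead⟩ : ∃ Dead : Set ℝ, Dead = ⋃ n, ⋃ j,
    Set.Icc (Θ (n + 1) (s n j - 1)) (Θ (n + 1) (s n j + (B n : ℤ))) := ⟨_, rfl⟩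
  have hDm : MeasurableSet Dead := by
    rw [hDead]
    exact MeasurableSet.iUnion fun n => MeasurableSet.iUnion fun j => measurableSet_Icc
  have hDv : MeasureTheory.volume (Dead ∩ Set.Ico 0 (2 * Real.pi)) ≤ ENNReal.ofReal (Real.pi / 2) := by
    rw [hDead]
    exact mm_dead B hmono hper hs1 hs4
  obtain ⟨A, hA⟩ : ∃ A : Set ℝ, A = Set.Ico 0 (2 * Real.pi) \ Dead := ⟨_, rfl⟩
  have hAm : MeasurableSet A := by rw [hA]; exact measurableSet_Ico.diff hDm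
  have hAv : ENNReal.ofReal (3 * Real.pi / 2) ≤ MeasureTheory.volume A := by
    have h1 : MeasureTheory.volume (Set.Ico (0 : ℝ) (2 * Real.pi)) -
        MeasureTheory.volume (Dead ∩ Set.Ico 0 (2 * Real.pi)) ≤
        MeasureTheory.volume (Set.Ico 0 (2 * Real.pi) \ (Dead ∩ Set.Ico 0 (2 * Real.pi))) :=
      MeasureTheory.le_measure_diff
    have h2 : Set.Ico 0 (2 * Real.pi) \ (Dead ∩ Set.Ico 0 (2 * Real.pi)) = A := by
      rw [hA]
      ext z
      simp only [Set.mem_diff, Set.mem_inter_iff]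
      tauto
    rw [h2, Real.volume_Ico, sub_zero] at h1
    calc ENNReal.ofReal (3 * Real.pi / 2)
        = ENNReal.ofReal (2 * Real.pi) - ENNReal.ofReal (Real.pi / 2) := by
          rw [← ENNReal.ofReal_sub _ (by positivity)]
          congr 1
          ring
      _ ≤ ENNReal.ofReal (2 * Real.pi) - MeasureTheory.volume (Dead ∩ Set.Ico 0 (2 * Real.pi)) :=
          tsub_le_tsub_left hDv _
      _ ≤ _ := h1
  have htsm : ∀ n, StrictMono (t (n + 1)) := fun n =>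
    strictMono_int_of_lt_succ fun k => (ht n k).2.trans (ht n (k + 1)).1
  have htpos : ∀ n θ, ∃ k : ℤ, t (n + 1) (k - 1) ≤ θ ∧ θ < t (n + 1) k := fun n θ =>
    mm_pos (htsm n) (htper n) θ
  let X : ℕ → ℤ → Set ℝ := fun m e => A ∩ ⋃ k : ℤ, ⋃ (_ : k % 2 = e), Set.Ico (t m (k - 1)) (t m k)
  have hXm : ∀ m e, MeasurableSet (X m e) := fun m e =>
    hAm.inter (MeasurableSet.iUnion fun k => MeasurableSet.iUnion fun _ => measurableSet_Ico)
  have hXmem : ∀ m e θ, θ ∈ X m e ↔ θ ∈ A ∧ ∃ k : ℤ, k % 2 = e ∧ t m (k - 1) ≤ θ ∧ θ < t m k := by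
    intro m e θ
    show θ ∈ A ∩ _ ↔ _
    rw [Set.mem_inter_iff, Set.mem_iUnion]
    constructor
    · rintro ⟨h1, k, hk⟩
      rw [Set.mem_iUnion] at hk
      obtain ⟨hk1, hk2⟩ := hk
      exact ⟨h1, k, hk1, hk2.1, hk2.2⟩
    · rintro ⟨h1, k, hk1, hk2, hk3⟩
      exact ⟨h1, k, Set.mem_iUnion.2 ⟨hk1, hk2, hk3⟩⟩
  have hXone : ∀ n, ∃ e : ℤ, ENNReal.ofReal (3 * Real.pi / 4) ≤
      MeasureTheory.volume (X (n + 1) e) := by
    intro n
    by_contra hcon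
    push Not at hcon
    have hcov : A ⊆ X (n + 1) 0 ∪ X (n + 1) 1 := by
      intro θ hθ
      obtain ⟨k, hk1, hk2⟩ := htpos n θ
      rcases Int.emod_two_eq_zero_or_one k with h | h
      · left; rw [hXmem]; exact ⟨hθ, k, h, hk1, hk2⟩
      · right; rw [hXmem]; exact ⟨hθ, k, h, hk1, hk2⟩
    have h1 : ENNReal.ofReal (3 * Real.pi / 2) <
        ENNReal.ofReal (3 * Real.pi / 4) + ENNReal.ofReal (3 * Real.pi / 4) :=
      calc ENNReal.ofReal (3 * Real.pi / 2) ≤ MeasureTheory.volume A := hAv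
        _ ≤ MeasureTheory.volume (X (n + 1) 0 ∪ X (n + 1) 1) := MeasureTheory.measure_mono hcov
        _ ≤ MeasureTheory.volume (X (n + 1) 0) + MeasureTheory.volume (X (n + 1) 1) :=
          MeasureTheory.measure_union_le _ _
        _ < _ := ENNReal.add_lt_add (hcon 0) (hcon 1)
    rw [← ENNReal.ofReal_add (by positivity) (by positivity)] at h1
    have h2 : 3 * Real.pi / 4 + 3 * Real.pi / 4 = 3 * Real.pi / 2 := by ring
    rw [h2] at h1
    exact lt_irrefl _ h1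
  choose e he using hXone
  let eps : ℕ → ℤ := fun m => e (m - 1)
  let D : Blk b := { B := B, s := s, eps := eps, s_per := hs1, s_lo := hs2, s_hi := hs3 }
  have hlim := limsup_large (X := fun m => X m (eps m)) (fun m => hXm m _)
    (fun m θ hθ => by
      have h1 : θ ∈ A := ((hXmem m _ θ).1 hθ).1
      rw [hA] at h1
      exact h1.1) (c := ENNReal.ofReal (3 * Real.pi / 4)) (by
        rw [ENNReal.ofReal_pos]; positivity)
    (fun m hm => by
      obtain ⟨n, rfl⟩ : ∃ n, m = n + 1 := ⟨m - 1, by rcases hm with ⟨r, hr⟩; omega⟩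
      exact he n)
  refine ⟨D, fun n => rfl, {θ | ∃ᶠ m in Filter.atTop, Odd m ∧ θ ∈ X m (eps m)}, hlim.1, ?_,
    hlim.2, ?_⟩
  · intro θ hθ
    obtain ⟨m, -, hm⟩ := hθ.exists
    have h1 : θ ∈ A := ((hXmem m _ θ).1 hm).1
    rw [hA] at h1
    exact h1.1
  · intro θ hθ
    have hθA : θ ∈ A := by
      obtain ⟨m, -, hm⟩ := hθ.exists
      exact ((hXmem m _ θ).1 hm).1
    have hθD : θ ∉ Dead := by rw [hA] at hθA; exact hθA.2
    choose x hx1 hx2 using fun n => htpos n θ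
    refine ⟨fun m => x (m - 1), fun n => ⟨hx1 n, hx2 n⟩, ?_⟩
    refine hθ.mono ?_
    rintro m ⟨hm, hmX⟩
    obtain ⟨n, rfl⟩ : ∃ n, m = n + 1 := ⟨m - 1, by rcases hm with ⟨r, hr⟩; omega⟩
    obtain ⟨-, k, hk1, hk2, hk3⟩ := (hXmem (n + 1) _ θ).1 hmX
    have hkx : k = x n := mm_uniq (htsm n) hk2 hk3 (hx1 n) (hx2 n)
    subst hkx
    refine ⟨hm, hk1, ?_⟩
    apply alive_of hb D hmono hnest (θ := θ)
    · intro n' j' hcon
      apply hθD
      rw [hDead, Set.mem_iUnion]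
      refine ⟨n', Set.mem_iUnion.2 ⟨j', hcon⟩⟩
    · exact lt_of_lt_of_le (ht n _).1 hk2
    · exact hk3.trans (ht n _).2

end Pool.Agent.Helper11.Fatou
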