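import Mathlib
import Pool.Agent.Helper11.Fatou.Defs
import Pool.Agent.Helper11.Fatou.Blocks
import Pool.Agent.Helper11.Fatou.Euc
import Pool.Agent.Helper11.Fatou.Closing

namespace Pool.Agent.Helper11.Fatou














theorem nr_msz_pos (n : ℕ) : 0 < msz n := by unfold msz; positivity

theorem nr_msz_le (n m : ℕ) (h : n ≤ m) : msz m ≤ msz n := by
  unfold msz
  exact pow_le_pow_of_le_one (by norm_num) (by norm_num) (by omega)

theorem norm_un_le (z : ℂ) : ‖un z‖ ≤ 1 := by
  unfold un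
  rw [norm_div, Complex.norm_real, norm_norm]
  exact div_self_le_one _

theorem nr_un_spec (z : ℂ) : z = (‖z‖ : ℂ) * un z := by
  unfold un
  by_cases h : z = 0
  · simp [h]
  · have : (‖z‖ : ℂ) ≠ 0 := by exact_mod_cast norm_ne_zero_iff.2 h
    field_simp

theorem rot_step {a c : ℂ} {θ : ℝ} (hθ : 0 ≤ θ) (h : un a = Complex.exp ((θ : ℝ) * Complex.I) * un c) :
    ‖un a - un c‖ ≤ θ := by
  have h1 : un a - un c = (Complex.exp ((θ : ℝ) * Complex.I) - 1) * un c := by rw [h]; ring
  have h2 : ‖Complex.exp ((θ : ℝ) * Complex.I) - 1‖ ≤ θ := by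
    have := Real.norm_exp_I_mul_ofReal_sub_one_le (x := θ)
    rw [mul_comm] at this
    rwa [Real.norm_of_nonneg hθ] at this
  rw [h1, norm_mul]
  calc ‖Complex.exp ((θ : ℝ) * Complex.I) - 1‖ * ‖un c‖ ≤ θ * 1 :=
        mul_le_mul h2 (norm_un_le c) (norm_nonneg _) hθ
    _ = θ := mul_one θ

theorem face_GE {r s t : ℝ} {x y z : ℂ} (h : FaceOK GE r s t x y z) :
    ‖y - x‖ = r + s ∧ ‖un (z - x) - un (y - x)‖ ≤ ae r s t ∧
      ‖un (x - y) - un (z - y)‖ ≤ ae s t r ∧ ‖un (y - z) - un (x - z)‖ ≤ ae t r s := by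
  have e1 : ‖y - x‖ = r + s := h.t1
  have e2 : un (z - x) = Complex.exp ((ae r s t : ℝ) * Complex.I) * un (y - x) := h.d1
  have e3 : un (x - y) = Complex.exp ((ae s t r : ℝ) * Complex.I) * un (z - y) := h.d2
  have e4 : un (y - z) = Complex.exp ((ae t r s : ℝ) * Complex.I) * un (x - z) := h.d3
  exact ⟨e1, rot_step ae_nonneg e2, rot_step ae_nonneg e3, rot_step ae_nonneg e4⟩

/-- the radii outside of the giants are small -/
theorem rad_le {b : ℕ → ℕ} (hb : ∀ n, 4 ≤ b n) (D : Blk b) {r : ℕ → ℤ → ℝ}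
    (h0 : ∀ k, r 0 k = msz 0) (h1 : ∀ n k, D.inb n k → r (n + 1) k ≤ msz (n + 1))
    (h2 : ∀ n k, ¬ D.inb n k → r (n + 1) k = D.pre n k) {n : ℕ} {k : ℤ}
    (h : ¬ D.giant n k) : r n k ≤ msz n := by
  cases n with
  | zero => rw [h0 k]
  | succ n =>
    by_cases hk : D.inb n k
    · exact h1 n k hk
    · rw [h2 n k hk]
      unfold Blk.pre
      rw [if_neg h]
      have hb1 : (1 : ℝ) ≤ (b n : ℝ) := by
        have := hb n
        exact_mod_cast (by omega : 1 ≤ b n)
      exact div_le_self (nr_msz_pos _).le hb1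

/-- the children of a giant `(n+1, i)` outside of the block are near the parent of the giant -/
theorem near {b : ℕ → ℕ} (hb : ∀ n, 4 ≤ b n) (D : Blk b) {r : ℕ → ℤ → ℝ}
    (hpos : ∀ n k, 0 < r n k)
    (h0 : ∀ k, r 0 k = msz 0) (h1 : ∀ n k, D.inb n k → r (n + 1) k ≤ msz (n + 1))
    (h2 : ∀ n k, ¬ D.inb n k → r (n + 1) k = D.pre n k)
    {p : ℕ → ℤ → ℂ} (hp : Per b p) (hdev : Dev GE b r p) {n : ℕ} {i k : ℤ}
    (hg : D.giant (n + 1) i) (hk : k / (b (n + 1) : ℤ) = i) (hkb : ¬ D.inb (n + 1) k) :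
    ‖p (n + 2) k - p n (i / (b n : ℤ))‖ ≤ 20 * msz n := by
  classical
  have hodd : Odd (n + 1) := hg.1
  have hnotodd : ∀ m, (m = n ∨ m = n + 2) → ¬ Odd m := by
    intro m hm h
    obtain ⟨a, ha⟩ := hodd
    obtain ⟨c, hc⟩ := h
    rcases hm with rfl | rfl <;> omega
  have hru : r (n + 1) i = 1 / 2 := by
    rw [h2 n i hg.2.2.2]
    unfold Blk.pre
    rw [if_pos hg]
  have hNpos : (0 : ℤ) < (b (n + 1) : ℤ) := by
    have := hb (n + 1)
    exact_mod_cast (by omega : 0 < b (n + 1))
  have hbpos : (0 : ℤ) < (b n : ℤ) := by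
    have := hb n
    exact_mod_cast (by omega : 0 < b n)
  set N : ℤ := (b (n + 1) : ℤ) with hN
  set q : ℤ := i / (b n : ℤ) with hq
  have hNR : (1 : ℝ) ≤ (b (n + 1) : ℝ) := by
    have := hb (n + 1)
    exact_mod_cast (by omega : 1 ≤ b (n + 1))
  have hNR0 : (0 : ℝ) < (b (n + 1) : ℝ) := by linarith
  set R2 : ℝ := msz (n + 2) / (b (n + 1) : ℝ) with hR2
  have hR2pos : 0 < R2 := div_pos (nr_msz_pos _) hNR0
  have hR2le : R2 ≤ msz (n + 2) := div_le_self (nr_msz_pos _).le hNR
  have hm1 : msz (n + 1) ≤ msz n := nr_msz_le _ _ (by omega)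
  have hm2 : msz (n + 2) ≤ msz n := nr_msz_le _ _ (by omega)
  have hm21 : msz (n + 2) ≤ msz (n + 1) := nr_msz_le _ _ (by omega)
  have hrad2 : ∀ l, ¬ D.inb (n + 1) l → r (n + 2) l = R2 := by
    intro l hl
    rw [h2 (n + 1) l hl]
    unfold Blk.pre
    rw [if_neg (fun hh => hnotodd (n + 2) (Or.inr rfl) hh.1)]
  have hradn : ∀ l, r n l ≤ msz n := fun l =>
    rad_le hb D h0 h1 h2 (fun hh => hnotodd n (Or.inl rfl) hh.1)
  have hradn1 : ∀ l, l % 2 ≠ i % 2 → r (n + 1) l ≤ msz (n + 1) := by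
    intro l hl
    apply rad_le hb D h0 h1 h2
    intro hh
    apply hl
    rw [hh.2.1, hg.2.1]
  -- the directions
  set u : ℂ := p (n + 1) i with hu
  set w : ℂ := p n q with hw
  have hslo := D.s_lo (n + 1) i
  have hshi := D.s_hi (n + 1) i
  have hnb1 : ∀ l, i * N ≤ l → l < D.s (n + 1) i → ¬ D.inb (n + 1) l := by
    intro l hl1 hl2 hh
    have : l / N = i := by
      rw [Int.ediv_eq_iff_of_pos hNpos]
      constructor
      · linarith
      · have h5 : (0 : ℤ) ≤ (D.B (n + 1) : ℤ) := Int.natCast_nonneg _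
        nlinarith
    unfold Blk.inb at hh
    rw [← hN, this] at hh
    omega
  have hnb2 : ∀ l, D.s (n + 1) i + (D.B (n + 1) : ℤ) ≤ l → l ≤ (i + 1) * N → ¬ D.inb (n + 1) l := by
    intro l hl1 hl2 hh
    have h5 : (0 : ℤ) ≤ (D.B (n + 1) : ℤ) := Int.natCast_nonneg _
    rcases lt_or_eq_of_le hl2 with hl3 | hl3
    · have : l / N = i := by
        rw [Int.ediv_eq_iff_of_pos hNpos]
        constructor
        · linarith
        · linarith
      unfold Blk.inb at hh
      rw [← hN, this] at hh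
      omega
    · have : l / N = i + 1 := by
        rw [hl3]; exact Int.mul_ediv_cancel _ hNpos.ne'
      unfold Blk.inb at hh
      rw [← hN, this] at hh
      have := D.s_lo (n + 1) (i + 1)
      rw [← hN] at this
      omega
  have hdown : ∀ l, l / N = i → ‖un (p (n + 2) (l + 1) - u) - un (p (n + 2) l - u)‖ ≤
      ae (1 / 2) (r (n + 2) l) (r (n + 2) (l + 1)) := by
    intro l hl
    have := (face_GE (hdev.1 (n + 1) l)).2.1
    rw [← hN, hl, hru] at this
    exact this
  have hstep : ∀ l, l / N = i → ¬ D.inb (n + 1) l → ¬ D.inb (n + 1) (l + 1) →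
      ‖un (p (n + 2) (l + 1) - u) - un (p (n + 2) l - u)‖ ≤ 4 * R2 := by
    intro l hl hl1 hl2
    refine (hdown l hl).trans ?_
    rw [hrad2 l hl1, hrad2 _ hl2]
    exact ae_half_le hR2pos.le hR2pos.le le_rfl le_rfl
  -- the final estimate from the estimate of the directions
  have hk1 : ‖p (n + 2) k - u‖ = 1 / 2 + R2 := by
    have := (face_GE (hdev.1 (n + 1) k)).1
    rw [← hN, hk, hru, hrad2 k hkb] at this
    exact this
  have hw1 : ‖w - u‖ = r n q + 1 / 2 := by
    have := (face_GE (hdev.1 n i)).1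
    rw [hru] at this
    rw [norm_sub_rev]
    exact this
  have hR1 : R2 ≤ 1 / 2 := by
    have h5 : msz (n + 2) ≤ 1 / 2 := by
      unfold msz
      calc (1 / 2 : ℝ) ^ (n + 2 + 10) ≤ (1 / 2) ^ 1 := pow_le_pow_of_le_one (by norm_num) (by norm_num) (by omega)
        _ = 1 / 2 := pow_one _
    linarith
  have final : ‖un (p (n + 2) k - u) - un (w - u)‖ ≤ 16 * msz n → ‖p (n + 2) k - w‖ ≤ 20 * msz n := by
    intro hfin
    have e1 : p (n + 2) k - w = (p (n + 2) k - u) - (w - u) := by ring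
    have e2 := nr_un_spec (p (n + 2) k - u)
    have e3 := nr_un_spec (w - u)
    rw [hk1] at e2
    rw [hw1] at e3
    have e4 : p (n + 2) k - w = ((1 / 2 + R2 : ℝ) : ℂ) * (un (p (n + 2) k - u) - un (w - u)) +
        ((R2 - r n q : ℝ) : ℂ) * un (w - u) := by
      rw [e1]
      conv_lhs => rw [e2, e3]
      push_cast
      ring
    rw [e4]
    refine (norm_add_le _ _).trans ?_
    rw [norm_mul, norm_mul, Complex.norm_real, Complex.norm_real, Real.norm_of_nonneg (by positivity)]
    have h5 : ‖R2 - r n q‖ ≤ msz n := by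
      rw [Real.norm_eq_abs, abs_le]
      have := hpos n q
      have := hradn q
      constructor <;> linarith
    have h6 : (1 / 2 + R2) * ‖un (p (n + 2) k - u) - un (w - u)‖ ≤ 1 * (16 * msz n) :=
      mul_le_mul (by linarith) hfin (norm_nonneg _) (by norm_num)
    have h7 : ‖R2 - r n q‖ * ‖un (w - u)‖ ≤ msz n * 1 :=
      mul_le_mul h5 (norm_un_le _) (norm_nonneg _) (nr_msz_pos n).le
    have := nr_msz_pos n
    linarith
  apply final
  have hkN1 : i * N ≤ k := by
    have := Int.ediv_mul_le k hNpos.ne'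
    rw [hk] at this; exact this
  have hkN2 : k < (i + 1) * N := by
    have := Int.lt_ediv_add_one_mul_self k hNpos
    rw [hk] at this; exact this
  have hcase : k < D.s (n + 1) i ∨ D.s (n + 1) i + (D.B (n + 1) : ℤ) ≤ k := by
    by_contra hcon
    push Not at hcon
    apply hkb
    unfold Blk.inb
    rw [← hN, hk]
    exact hcon
  have hNR2 : (b (n + 1) : ℝ) * R2 = msz (n + 2) := by
    rw [hR2]; field_simp
  have hmp := nr_msz_pos n
  rcases hcase with hleft | hright
  · -- left part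
    have c1 : ∀ m : ℕ, i * N + m < D.s (n + 1) i →
        ‖un (p (n + 2) (i * N + m) - u) - un (p (n + 2) (i * N) - u)‖ ≤ m * (4 * R2) := by
      intro m
      induction m with
      | zero => intro _; simp
      | succ m ih =>
        intro hm
        push_cast at hm
        have h5 := ih (by omega)
        have h50 : (0 : ℤ) ≤ (D.B (n + 1) : ℤ) := Int.natCast_nonneg _
        have h6 := hstep (i * N + m) (by
          rw [Int.ediv_eq_iff_of_pos hNpos]
          constructor
          · omega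
          · linarith) (hnb1 _ (by omega) (by omega)) (hnb1 _ (by omega) (by omega))
        push_cast
        rw [← add_assoc]
        calc ‖un (p (n + 2) (i * N + m + 1) - u) - un (p (n + 2) (i * N) - u)‖
            ≤ ‖un (p (n + 2) (i * N + m + 1) - u) - un (p (n + 2) (i * N + m) - u)‖ +
              ‖un (p (n + 2) (i * N + m) - u) - un (p (n + 2) (i * N) - u)‖ := norm_sub_le_norm_sub_add_norm_sub _ _ _
          _ ≤ 4 * R2 + m * (4 * R2) := add_le_add h6 h5
          _ = (m + 1) * (4 * R2) := by ring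
    obtain ⟨m, hm⟩ : ∃ m : ℕ, k = i * N + m := ⟨(k - i * N).toNat, by omega⟩
    have c2 := c1 m (by omega)
    rw [← hm] at c2
    have hmN : (m : ℝ) ≤ (b (n + 1) : ℝ) := by
      have : (m : ℤ) ≤ (b (n + 1) : ℤ) := by
        have : (i + 1) * N = i * N + N := by ring
        omega
      exact_mod_cast this
    have c3 : ‖un (p (n + 2) k - u) - un (p (n + 2) (i * N) - u)‖ ≤ 4 * msz (n + 2) := by
      refine c2.trans ?_
      have : (m : ℝ) * (4 * R2) ≤ (b (n + 1) : ℝ) * (4 * R2) := mul_le_mul_of_nonneg_right hmN (by positivity)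
      linarith
    have hri : r (n + 1) (i - 1) ≤ msz (n + 1) := hradn1 _ (by omega)
    have c4 : ‖un (p (n + 2) (i * N) - u) - un (p (n + 1) (i - 1) - u)‖ ≤ 4 * msz (n + 1) := by
      have h5 := (face_GE (hdev.2 (n + 1) (by omega) (i - 1))).2.2.2
      rw [sub_add_cancel, ← hN, hru] at h5
      refine h5.trans (ae_half_le (hpos _ _).le (hpos _ _).le hri ?_)
      rw [hrad2 _ (hnb1 _ le_rfl (by linarith))]
      linarith
    have c5 : ‖un (p (n + 1) (i - 1) - u) - un (p n ((i - 1) / (b n : ℤ)) - u)‖ ≤ 4 * msz n := by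
      have h5 := (face_GE (hdev.1 n (i - 1))).2.2.2
      rw [sub_add_cancel, hru] at h5
      exact h5.trans (ae_half_le (hpos _ _).le (hpos _ _).le (hradn _) (by linarith))
    have c6 : ‖un (p n ((i - 1) / (b n : ℤ)) - u) - un (w - u)‖ ≤ 4 * msz n := by
      by_cases hdvd : (b n : ℤ) ∣ i
      · obtain ⟨c, hc⟩ := hdvd
        have hqc : q = c := by
          rw [hq, hc]; exact Int.mul_ediv_cancel_left _ hbpos.ne'
        have hpar : (i - 1) / (b n : ℤ) = q - 1 := by
          rw [Int.ediv_eq_iff_of_pos hbpos, hqc, hc]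
          constructor
          · nlinarith [hb n]
          · nlinarith
        rw [hpar]
        rcases Nat.eq_zero_or_pos n with hn0 | hn0
        · subst hn0
          have h5 := hp 0 (q - 1)
          have h6 : q - 1 + (L b 0 : ℤ) = q := by simp [L]
          rw [h6] at h5
          rw [← h5, ← hw, sub_self, norm_zero]
          linarith
        · have h5 := (face_GE (hdev.2 n hn0 (q - 1))).2.2.1
          have h6 : q * (b n : ℤ) = i := by rw [hqc, hc]; ring
          rw [sub_add_cancel, h6, hru] at h5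
          exact h5.trans (ae_half_le (hpos _ _).le (hpos _ _).le (hradn _) (hradn _))
      · have hpar : (i - 1) / (b n : ℤ) = q := by
          rw [Int.ediv_eq_iff_of_pos hbpos]
          have h5 := Int.ediv_mul_le i hbpos.ne'
          have h6 := Int.lt_ediv_add_one_mul_self i hbpos
          rw [← hq] at h5 h6
          constructor
          · rcases lt_or_eq_of_le h5 with h7 | h7
            · omega
            · exact absurd ⟨q, by rw [mul_comm]; exact h7.symm⟩ hdvd
          · linarith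
        rw [hpar, ← hw, sub_self, norm_zero]
        linarith
    calc ‖un (p (n + 2) k - u) - un (w - u)‖
        ≤ ‖un (p (n + 2) k - u) - un (p (n + 2) (i * N) - u)‖ +
          ‖un (p (n + 2) (i * N) - u) - un (w - u)‖ := norm_sub_le_norm_sub_add_norm_sub _ _ _
      _ ≤ 4 * msz (n + 2) + (‖un (p (n + 2) (i * N) - u) - un (p (n + 1) (i - 1) - u)‖ +
          ‖un (p (n + 1) (i - 1) - u) - un (w - u)‖) :=
          add_le_add c3 (norm_sub_le_norm_sub_add_norm_sub _ _ _)
      _ ≤ 4 * msz (n + 2) + (4 * msz (n + 1) + (‖un (p (n + 1) (i - 1) - u) - un (p n ((i - 1) / (b n : ℤ)) - u)‖ +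
          ‖un (p n ((i - 1) / (b n : ℤ)) - u) - un (w - u)‖)) :=
          add_le_add le_rfl (add_le_add c4 (norm_sub_le_norm_sub_add_norm_sub _ _ _))
      _ ≤ 4 * msz (n + 2) + (4 * msz (n + 1) + (4 * msz n + 4 * msz n)) := by linarith
      _ ≤ 16 * msz n := by linarith
  · -- right part
    have h50 : (0 : ℤ) ≤ (D.B (n + 1) : ℤ) := Int.natCast_nonneg _
    have c1 : ∀ m : ℕ, D.s (n + 1) i + (D.B (n + 1) : ℤ) ≤ (i + 1) * N - m →
        ‖un (p (n + 2) ((i + 1) * N - m) - u) - un (p (n + 2) ((i + 1) * N) - u)‖ ≤ m * (4 * R2) := by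
      intro m
      induction m with
      | zero => intro _; simp
      | succ m ih =>
        intro hm
        push_cast at hm
        have h5 := ih (by omega)
        have h6 := hstep ((i + 1) * N - (m + 1)) (by
          rw [Int.ediv_eq_iff_of_pos hNpos]
          constructor
          · linarith
          · linarith) (hnb2 _ (by omega) (by omega)) (hnb2 _ (by omega) (by omega))
        have e5 : (i + 1) * N - ((m : ℤ) + 1) + 1 = (i + 1) * N - m := by ring
        rw [e5, norm_sub_rev] at h6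
        push_cast
        calc ‖un (p (n + 2) ((i + 1) * N - (m + 1)) - u) - un (p (n + 2) ((i + 1) * N) - u)‖
            ≤ ‖un (p (n + 2) ((i + 1) * N - (m + 1)) - u) - un (p (n + 2) ((i + 1) * N - m) - u)‖ +
              ‖un (p (n + 2) ((i + 1) * N - m) - u) - un (p (n + 2) ((i + 1) * N) - u)‖ :=
                norm_sub_le_norm_sub_add_norm_sub _ _ _
          _ ≤ 4 * R2 + m * (4 * R2) := add_le_add h6 h5
          _ = (m + 1) * (4 * R2) := by ring
    obtain ⟨m, hm⟩ : ∃ m : ℕ, k = (i + 1) * N - m := ⟨((i + 1) * N - k).toNat, by omega⟩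
    have c2 := c1 m (by omega)
    rw [← hm] at c2
    have hmN : (m : ℝ) ≤ (b (n + 1) : ℝ) := by
      have : (m : ℤ) ≤ (b (n + 1) : ℤ) := by
        have : (i + 1) * N = i * N + N := by ring
        omega
      exact_mod_cast this
    have c3 : ‖un (p (n + 2) k - u) - un (p (n + 2) ((i + 1) * N) - u)‖ ≤ 4 * msz (n + 2) := by
      refine c2.trans ?_
      have : (m : ℝ) * (4 * R2) ≤ (b (n + 1) : ℝ) * (4 * R2) := mul_le_mul_of_nonneg_right hmN (by positivity)
      linarith
    have hri : r (n + 1) (i + 1) ≤ msz (n + 1) := hradn1 _ (by omega)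
    have c4 : ‖un (p (n + 2) ((i + 1) * N) - u) - un (p (n + 1) (i + 1) - u)‖ ≤ 4 * msz (n + 1) := by
      have h5 := (face_GE (hdev.2 (n + 1) (by omega) i)).2.1
      rw [← hN, hru, norm_sub_rev] at h5
      refine h5.trans (ae_half_le (hpos _ _).le (hpos _ _).le ?_ hri)
      rw [hrad2 _ (hnb2 _ hshi le_rfl)]
      linarith
    have c5 : ‖un (p (n + 1) (i + 1) - u) - un (w - u)‖ ≤ 4 * msz n := by
      have h5 := (face_GE (hdev.1 n i)).2.2.1
      rw [hru, norm_sub_rev] at h5
      exact h5.trans (ae_half_le (hpos _ _).le (hpos _ _).le (by linarith) (hradn _))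
    calc ‖un (p (n + 2) k - u) - un (w - u)‖
        ≤ ‖un (p (n + 2) k - u) - un (p (n + 2) ((i + 1) * N) - u)‖ +
          ‖un (p (n + 2) ((i + 1) * N) - u) - un (w - u)‖ := norm_sub_le_norm_sub_add_norm_sub _ _ _
      _ ≤ 4 * msz (n + 2) + (‖un (p (n + 2) ((i + 1) * N) - u) - un (p (n + 1) (i + 1) - u)‖ +
          ‖un (p (n + 1) (i + 1) - u) - un (w - u)‖) :=
          add_le_add c3 (norm_sub_le_norm_sub_add_norm_sub _ _ _)
      _ ≤ 4 * msz (n + 2) + (4 * msz (n + 1) + 4 * msz n) := by linarith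
      _ ≤ 16 * msz n := by linarith

end Pool.Agent.Helper11.Fatou
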