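import Mathlib
import Pool.Agent.Helper11.Fatou.Defs
import Pool.Agent.Helper11.Fatou.Blocks
import Pool.Agent.Helper11.Fatou.Near

namespace Pool.Agent.Helper11.Fatou














theorem giant_rad {b : ℕ → ℕ} (D : Blk b) {r : ℕ → ℤ → ℝ}
    (h2 : ∀ n k, ¬ D.inb n k → r (n + 1) k = D.pre n k) {n : ℕ} {k : ℤ}
    (h : D.giant n k) : r n k = 1 / 2 := by
  obtain ⟨h3, _, h4⟩ := id h
  cases n with
  | zero => exact absurd h3 (by decide)
  | succ m =>
    have h5 : D.alive (m + 1) k := h4
    rw [Blk.alive] at h5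
    rw [h2 m k h5.2, Blk.pre, if_pos h]

theorem pb_up {b : ℕ → ℕ} {r : ℕ → ℤ → ℝ} {p : ℕ → ℤ → ℂ} (hdev : Dev GE b r p) (n : ℕ) (k : ℤ) :
    ‖p (n + 1) k - p n (k / (b n : ℤ))‖ = r n (k / (b n : ℤ)) + r (n + 1) k := (hdev.1 n k).t1

theorem pb_side {b : ℕ → ℕ} {r : ℕ → ℤ → ℝ} {p : ℕ → ℤ → ℂ} (hdev : Dev GE b r p) (n : ℕ) (k : ℤ) :
    ‖p (n + 1) (k + 1) - p (n + 1) k‖ = r (n + 1) k + r (n + 1) (k + 1) := (hdev.1 n k).t2

theorem pb_zero {b : ℕ → ℕ} {p : ℕ → ℤ → ℂ} (hp : Per b p) (k : ℤ) : p 0 k = p 0 0 := by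
  have h : ∀ j : ℤ, p 0 (j + 1) = p 0 j := by
    intro j
    have := hp 0 j
    simpa [L] using this
  induction k using Int.induction_on with
  | zero => rfl
  | succ i ih => rw [h, ih]
  | pred i ih =>
    rw [← ih, ← h (-(i : ℤ) - 1)]
    congr 1
    ring

theorem pb_norm {b : ℕ → ℕ} {r : ℕ → ℤ → ℝ} {p : ℕ → ℤ → ℂ} (hdev : Dev GE b r p) (n : ℕ) (k : ℤ) :
    ‖p (n + 1) k‖ ≤ ‖p n (k / (b n : ℤ))‖ + (r n (k / (b n : ℤ)) + r (n + 1) k) := by
  rw [← pb_up hdev n k]
  calc ‖p (n + 1) k‖ = ‖p n (k / (b n : ℤ)) + (p (n + 1) k - p n (k / (b n : ℤ)))‖ := by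
        rw [add_sub_cancel]
    _ ≤ _ := norm_add_le _ _

/-- the bound -/
noncomputable def pbK (n : ℕ) : ℝ := 40 * ((1 / 2) ^ 9 - (1 / 2) ^ (n + 9))

theorem pbK_succ (n : ℕ) : pbK (n + 1) = pbK n + 40 * msz n := by
  unfold pbK msz
  ring

theorem pb_msz_pos (n : ℕ) : 0 < msz n := by
  unfold msz
  positivity

theorem pb_msz_succ (n : ℕ) : msz (n + 1) = msz n / 2 := by
  unfold msz
  ring

theorem pb_msz_le (n : ℕ) : msz n ≤ 1 / 1024 := by
  induction n with
  | zero => unfold msz; norm_num
  | succ n ih => rw [pb_msz_succ]; have := pb_msz_pos n; linarith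

theorem pbK_le (n : ℕ) : pbK n ≤ 1 := by
  unfold pbK
  have h : (0 : ℝ) < (1 / 2) ^ (n + 9) := by positivity
  have h2 : ((1 : ℝ) / 2) ^ 9 = 1 / 512 := by norm_num
  rw [h2]
  linarith

/-- boundedness -/
theorem pos_bounded {b : ℕ → ℕ} (hb : ∀ n, 4 ≤ b n) (D : Blk b) {r : ℕ → ℤ → ℝ}
    (hpos : ∀ n k, 0 < r n k)
    (h0 : ∀ k, r 0 k = msz 0) (h1 : ∀ n k, D.inb n k → r (n + 1) k ≤ msz (n + 1))
    (h2 : ∀ n k, ¬ D.inb n k → r (n + 1) k = D.pre n k)
    {p : ℕ → ℤ → ℂ} (hp : Per b p) (hp0 : p 0 0 = 0) (hdev : Dev GE b r p) (n : ℕ) (k : ℤ) :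
    ‖p n k‖ ≤ 4 := by
  have claim : ∀ n : ℕ, ∀ k : ℤ, (D.alive n k → ¬ D.giant n k → ‖p n k‖ ≤ pbK n) ∧
      (D.giant n k → ‖p n k‖ ≤ pbK n + 1) ∧ (¬ D.alive n k → ‖p n k‖ ≤ pbK n + 2) := by
    intro n
    induction n using Nat.strong_induction_on with
    | _ n ih =>
      cases n with
      | zero =>
        intro k
        have h3 : p 0 k = 0 := by rw [pb_zero hp k, hp0]
        have h4 : pbK 0 = 0 := by unfold pbK; norm_num
        rw [h3, norm_zero, h4]
        refine ⟨fun _ _ => le_rfl, fun _ => by norm_num, fun _ => by norm_num⟩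
      | succ n =>
        intro k
        have ihn := ih n (Nat.lt_succ_self n) (k / (b n : ℤ))
        have hup := pb_norm hdev n k
        have hK := pbK_succ n
        have hm := pb_msz_pos n
        have hms := pb_msz_succ n
        have hml := pb_msz_le n
        by_cases hal : D.alive (n + 1) k
        · have hal' : D.alive n (k / (b n : ℤ)) ∧ ¬ D.inb n k := hal
          by_cases hu : D.giant n (k / (b n : ℤ))
          · -- the parent is a giant
            have hodd : Odd n := hu.1
            cases n with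
            | zero => exact absurd hodd (by decide)
            | succ m =>
              have hnk : ¬ D.giant (m + 1 + 1) k := by
                intro h
                have h5 : Odd (m + 1 + 1) := h.1
                rw [Nat.odd_add_one] at h5
                exact h5 hodd
              have hg := near hb D hpos h0 h1 h2 hp hdev hu rfl hal'.2
              have hgr : D.alive m (k / (b (m + 1) : ℤ) / (b m : ℤ)) := by
                have h6 : D.alive (m + 1) (k / (b (m + 1) : ℤ)) := hu.2.2
                rw [Blk.alive] at h6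
                exact h6.1
              have hgn : ¬ D.giant m (k / (b (m + 1) : ℤ) / (b m : ℤ)) := by
                intro h
                rw [Nat.odd_add_one] at hodd
                exact hodd h.1
              have h7 := (ih m (by omega) (k / (b (m + 1) : ℤ) / (b m : ℤ))).1 hgr hgn
              have h8 : ‖p (m + 2) k‖ ≤ pbK m + 20 * msz m := by
                calc ‖p (m + 2) k‖ = ‖p m (k / (b (m + 1) : ℤ) / (b m : ℤ))
                      + (p (m + 2) k - p m (k / (b (m + 1) : ℤ) / (b m : ℤ)))‖ := by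
                      rw [add_sub_cancel]
                  _ ≤ _ := (norm_add_le _ _).trans (add_le_add h7 hg)
              have h9 := pbK_succ m
              have h10 := pb_msz_pos m
              refine ⟨fun _ _ => ?_, fun h => absurd h hnk, fun h => absurd hal h⟩
              have h11 : p (m + 1 + 1) k = p (m + 2) k := rfl
              rw [h11]
              linarith
          · have hru := rad_le hb D h0 h1 h2 hu
            have hpu := ihn.1 hal'.1 hu
            refine ⟨fun _ hk => ?_, fun hk => ?_, fun h => absurd hal h⟩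
            · have hrk := rad_le hb D h0 h1 h2 hk
              linarith
            · have hrk := giant_rad D h2 hk
              linarith
        · have hnk : ¬ D.giant (n + 1) k := fun h => hal h.2.2
          have hrk := rad_le hb D h0 h1 h2 hnk
          refine ⟨fun h => absurd h hal, fun h => absurd h hnk, fun _ => ?_⟩
          by_cases hau : D.alive n (k / (b n : ℤ))
          · by_cases hu : D.giant n (k / (b n : ℤ))
            · have hru := giant_rad D h2 hu
              have hpu := ihn.2.1 hu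
              linarith
            · have hru := rad_le hb D h0 h1 h2 hu
              have hpu := ihn.1 hau hu
              linarith
          · have hu : ¬ D.giant n (k / (b n : ℤ)) := fun h => hau h.2.2
            have hru := rad_le hb D h0 h1 h2 hu
            have hpu := ihn.2.2 hau
            linarith
  have hc := claim n k
  have hK := pbK_le n
  by_cases hal : D.alive n k
  · by_cases hg : D.giant n k
    · linarith [hc.2.1 hg]
    · linarith [hc.1 hal hg]
  · linarith [hc.2.2 hal]

/-- a giant is far from its parent -/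
theorem giant_far {b : ℕ → ℕ} (D : Blk b) {r : ℕ → ℤ → ℝ}
    (hpos : ∀ n k, 0 < r n k)
    (h2 : ∀ n k, ¬ D.inb n k → r (n + 1) k = D.pre n k)
    {p : ℕ → ℤ → ℂ} (hdev : Dev GE b r p) (n : ℕ) (k : ℤ) (h : D.giant (n + 1) k) :
    1 / 2 ≤ ‖p (n + 1) k - p n (k / (b n : ℤ))‖ := by
  rw [pb_up hdev n k, giant_rad D h2 h]
  linarith [hpos n (k / (b n : ℤ))]

/-- neighbours in even levels are close -/
theorem even_close {b : ℕ → ℕ} (hb : ∀ n, 4 ≤ b n) (D : Blk b) {r : ℕ → ℤ → ℝ}
    (h0 : ∀ k, r 0 k = msz 0) (h1 : ∀ n k, D.inb n k → r (n + 1) k ≤ msz (n + 1))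
    (h2 : ∀ n k, ¬ D.inb n k → r (n + 1) k = D.pre n k)
    {p : ℕ → ℤ → ℂ} (hp : Per b p) (hdev : Dev GE b r p) {n : ℕ} (hn : Even n) (j : ℤ) :
    ‖p n (j + 1) - p n j‖ ≤ 1 / 100 := by
  cases n with
  | zero =>
    rw [pb_zero hp (j + 1), pb_zero hp j, sub_self, norm_zero]
    norm_num
  | succ m =>
    rw [pb_side hdev m j]
    have hng : ∀ i : ℤ, ¬ D.giant (m + 1) i := by
      intro i h
      have h5 : Odd (m + 1) := h.1
      exact (Nat.not_odd_iff_even.mpr hn) h5
    have e1 := rad_le hb D h0 h1 h2 (hng j)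
    have e2 := rad_le hb D h0 h1 h2 (hng (j + 1))
    have e3 := pb_msz_le (m + 1)
    linarith

end Pool.Agent.Helper11.Fatou
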