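import Pool.Agent.Helper11.Fatou.Labels
import Pool.Agent.Helper11.Fatou.Develop
import Pool.Agent.Helper11.Fatou.PosBound
import Pool.Agent.Helper11.Fatou.Complex

namespace Pool.Agent.Helper11.Fatou

open Pool.Agent.Helper11.Koebe

theorem to_of_face_e {r s t : ℝ} {x y z : ℂ} (hr : 0 < r) (hs : 0 < s) (ht : 0 < t)
    (h : FaceOK GE r s t x y z) : TO x y z r s t := by
  have t1 : ‖y - x‖ = r + s := h.t1
  have t2 : ‖z - y‖ = s + t := h.t2
  have t3 : ‖z - x‖ = r + t := h.t3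
  refine ⟨?_, ?_, ?_, ?_⟩
  · rw [dist_comm, dist_eq_norm]
    exact t1
  · rw [dist_comm, dist_eq_norm]
    exact t2
  · rw [dist_comm, dist_eq_norm]
    exact t3
  · exact ae_orient hr hs ht h

/-- The bounded packing of the layered complex. -/
theorem exists_P {b : ℕ → ℕ} (hb4 : ∀ n, 4 ≤ b n) (hev : ∀ n, 2 ∣ b n) (D : Blk b)
    (hB : ∀ n, 2 * Real.pi ≤ ((D.B n : ℝ) - 1) * (msz (n + 1) / 2)) :
    ∃ P : Packing (KK b hb4), (∀ v, ‖P.c v‖ ≤ 4) ∧ (∀ v, P.r v ≤ 1) ∧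
      (∀ n k, D.giant (n + 1) k →
        1 / 2 ≤ ‖P.c (mk b (n + 1) k) - P.c (mk b n (k / (b n : ℤ)))‖) ∧
      (∀ n j, Even n → ‖P.c (mk b n (j + 1)) - P.c (mk b n j)‖ ≤ 1 / 100) := by
  obtain ⟨r, hper, hpos, h0, h1, h2, hcl⟩ := exists_labels hb4 hev D hB
  obtain ⟨p, hp, hp0, hdev⟩ := develop GE b hb4 r hper hpos hcl 0 trivial
  obtain ⟨P, hPc, hPr⟩ := exists_packing hb4 hp hper hpos
    (fun n k => to_of_face_e (hpos _ _) (hpos _ _) (hpos _ _) (hdev.1 n k))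
    (fun n hn j => to_of_face_e (hpos _ _) (hpos _ _) (hpos _ _) (hdev.2 n hn j))
  refine ⟨P, ?_, ?_, ?_, ?_⟩
  · intro v
    obtain ⟨n, j, rfl⟩ := exists_rep v
    rw [hPc]
    exact pos_bounded hb4 D hpos h0 h1 h2 hp hp0 hdev n j
  · intro v
    obtain ⟨n, j, rfl⟩ := exists_rep v
    rw [hPr]
    by_cases hg : D.giant n j
    · rw [giant_rad D h2 hg]
      norm_num
    · refine (rad_le hb4 D h0 h1 h2 hg).trans ?_
      exact msz_le_one n
  · intro n k hg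
    rw [hPc, hPc]
    exact giant_far D hpos h2 hdev n k hg
  · intro n j hn
    rw [hPc, hPc]
    exact even_close hb4 D h0 h1 h2 hp hdev hn j

end Pool.Agent.Helper11.Fatou
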