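import Mathlib
import Pool.Agent.Helper11.Fatou.Defs

namespace Pool.Agent.Helper11.Fatou

theorem I4_cos (T ρ ψ Θ : ℝ) :
    ‖(T : ℂ) * Complex.exp ((ψ : ℝ) * Complex.I) - (ρ : ℂ) * Complex.exp ((Θ : ℝ) * Complex.I)‖ ^ 2 =
      T ^ 2 + ρ ^ 2 - 2 * T * ρ * Real.cos (ψ - Θ) := by
  rw [Complex.sq_norm, Complex.normSq_apply]
  simp only [Complex.sub_re, Complex.sub_im, Complex.re_ofReal_mul, Complex.im_ofReal_mul,
    Complex.exp_ofReal_mul_I_re, Complex.exp_ofReal_mul_I_im]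
  rw [Real.cos_sub]
  linear_combination T ^ 2 * Real.sin_sq_add_cos_sq ψ + ρ ^ 2 * Real.sin_sq_add_cos_sq Θ

theorem I4_est {T r Θ ψ θ : ℝ} {c : ℂ} (hT : 0 ≤ T) (hr : 0 < r)
    (hc : c = (‖c‖ : ℂ) * Complex.exp ((Θ : ℝ) * Complex.I)) (hin : ‖c‖ + r < 1)
    (hψ : ‖(T : ℂ) * Complex.exp ((ψ : ℝ) * Complex.I) - c‖ ≤ r)
    (h1 : |θ - Θ| ≤ |ψ - Θ|) (h2 : |ψ - Θ| ≤ Real.pi) :
    ‖Complex.exp ((θ : ℝ) * Complex.I) - c‖ ≤ 3 * (1 - ‖c‖) := by
  have hρ : 0 ≤ ‖c‖ := norm_nonneg c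
  obtain ⟨ρ, hρe⟩ : ∃ ρ, ρ = ‖c‖ := ⟨_, rfl⟩
  rw [← hρe] at hc hin hρ ⊢
  have h3 : Real.cos (ψ - Θ) ≤ Real.cos (θ - Θ) := by
    rw [← Real.cos_abs (ψ - Θ), ← Real.cos_abs (θ - Θ)]
    exact Real.cos_le_cos_of_nonneg_of_le_pi (abs_nonneg _) h2 h1
  have h4 : ‖(T : ℂ) * Complex.exp ((θ : ℝ) * Complex.I) - c‖ ≤ r := by
    have e1 := I4_cos T ρ θ Θ
    have e2 := I4_cos T ρ ψ Θ
    rw [← hc] at e1 e2
    have h5 : ‖(T : ℂ) * Complex.exp ((θ : ℝ) * Complex.I) - c‖ ^ 2 ≤ r ^ 2 := by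
      have h6 : ‖(T : ℂ) * Complex.exp ((ψ : ℝ) * Complex.I) - c‖ ^ 2 ≤ r ^ 2 :=
        pow_le_pow_left₀ (norm_nonneg _) hψ 2
      rw [e2] at h6
      rw [e1]
      have h7 : 2 * T * ρ * Real.cos (ψ - Θ) ≤ 2 * T * ρ * Real.cos (θ - Θ) :=
        mul_le_mul_of_nonneg_left h3 (by positivity)
      linarith
    exact le_of_sq_le_sq h5 hr.le
  have hTn : ‖(T : ℂ) * Complex.exp ((ψ : ℝ) * Complex.I)‖ = T := by
    rw [norm_mul, Complex.norm_exp_ofReal_mul_I, mul_one, Complex.norm_real,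
      Real.norm_of_nonneg hT]
  have h5 : T ≤ ρ + r := by
    have := norm_le_norm_add_norm_sub' ((T : ℂ) * Complex.exp ((ψ : ℝ) * Complex.I)) c
    rw [hTn, ← hρe] at this
    linarith
  have h6 : ρ - r ≤ T := by
    have := norm_le_norm_add_norm_sub ((T : ℂ) * Complex.exp ((ψ : ℝ) * Complex.I)) c
    rw [hTn, ← hρe] at this
    linarith
  have h7 : ‖Complex.exp ((θ : ℝ) * Complex.I) - (T : ℂ) * Complex.exp ((θ : ℝ) * Complex.I)‖ = 1 - T := by
    have : Complex.exp ((θ : ℝ) * Complex.I) - (T : ℂ) * Complex.exp ((θ : ℝ) * Complex.I) =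
        ((1 - T : ℝ) : ℂ) * Complex.exp ((θ : ℝ) * Complex.I) := by
      push_cast
      ring
    rw [this, norm_mul, Complex.norm_exp_ofReal_mul_I, mul_one, Complex.norm_real,
      Real.norm_of_nonneg (by linarith)]
  have h8 := norm_sub_le_norm_sub_add_norm_sub (Complex.exp ((θ : ℝ) * Complex.I))
    ((T : ℂ) * Complex.exp ((θ : ℝ) * Complex.I)) c
  rw [h7] at h8
  linarith

theorem I4_arg {A B δ : ℝ} (hA : 0 < A) (hB : 0 < B) (hδ : 0 < δ) (hδ' : δ < Real.pi) :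
    0 < Complex.arg ((A : ℂ) + (B : ℂ) * Complex.exp ((δ : ℝ) * Complex.I)) ∧
      Complex.arg ((A : ℂ) + (B : ℂ) * Complex.exp ((δ : ℝ) * Complex.I)) < δ := by
  have hs : 0 < Real.sin δ := Real.sin_pos_of_pos_of_lt_pi hδ hδ'
  obtain ⟨w, hw⟩ : ∃ w : ℂ, w = (A : ℂ) + (B : ℂ) * Complex.exp ((δ : ℝ) * Complex.I) := ⟨_, rfl⟩
  rw [← hw]
  have him : w.im = B * Real.sin δ := by
    rw [hw, Complex.add_im, Complex.ofReal_im, Complex.im_ofReal_mul, Complex.exp_ofReal_mul_I_im,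
      zero_add]
  have hre : w.re = A + B * Real.cos δ := by
    rw [hw, Complex.add_re, Complex.ofReal_re, Complex.re_ofReal_mul, Complex.exp_ofReal_mul_I_re]
  have him0 : 0 < w.im := by rw [him]; positivity
  have e1 : ‖w‖ * Real.cos (Complex.arg w) = w.re := Complex.norm_mul_cos_arg w
  have e2 : ‖w‖ * Real.sin (Complex.arg w) = w.im := Complex.norm_mul_sin_arg w
  have h0 : 0 ≤ Complex.arg w := Complex.arg_nonneg_iff.2 him0.le
  have hpi : Complex.arg w ≤ Real.pi := Complex.arg_le_pi w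
  constructor
  · rcases h0.lt_or_eq with h | h
    · exact h
    · rw [← h, Real.sin_zero, mul_zero] at e2
      linarith
  · by_contra hcon
    push Not at hcon
    have h1 : 0 ≤ Real.sin (Complex.arg w - δ) :=
      Real.sin_nonneg_of_nonneg_of_le_pi (by linarith) (by linarith)
    have h2 : ‖w‖ * Real.sin (Complex.arg w - δ) = -(A * Real.sin δ) := by
      rw [Real.sin_sub]
      calc ‖w‖ * (Real.sin (Complex.arg w) * Real.cos δ - Real.cos (Complex.arg w) * Real.sin δ) =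
          (‖w‖ * Real.sin (Complex.arg w)) * Real.cos δ - (‖w‖ * Real.cos (Complex.arg w)) * Real.sin δ := by
            ring
        _ = _ := by
            rw [e1, e2, him, hre]
            ring
    have h3 : 0 ≤ ‖w‖ * Real.sin (Complex.arg w - δ) := mul_nonneg (norm_nonneg _) h1
    have h4 : 0 < A * Real.sin δ := by positivity
    linarith

/-- directions of the tangency points of one level, and the nontangential estimate -/
theorem exists_tang {N : ℕ} {c : ℤ → ℂ} {r : ℤ → ℝ} {Θ : ℤ → ℝ} (hr : ∀ j, 0 < r j)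
    (hc : ∀ j, c j ≠ 0 ∧ c j = (‖c j‖ : ℂ) * Complex.exp ((Θ j : ℝ) * Complex.I))
    (hΘ : ∀ j, 0 < Θ (j + 1) - Θ j ∧ Θ (j + 1) - Θ j < Real.pi)
    (hper : ∀ j, Θ (j + (N : ℤ)) = Θ j + 2 * Real.pi) (hcper : ∀ j, c (j + (N : ℤ)) = c j)
    (hrper : ∀ j, r (j + (N : ℤ)) = r j)
    (htan : ∀ j, dist (c j) (c (j + 1)) = r j + r (j + 1)) (hin : ∀ j, ‖c j‖ + r j < 1) :
    ∃ t : ℤ → ℝ, (∀ k, Θ k < t k ∧ t k < Θ (k + 1)) ∧ (∀ k, t (k + (N : ℤ)) = t k + 2 * Real.pi) ∧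
      ∀ k θ, t (k - 1) ≤ θ → θ ≤ t k →
        ‖Complex.exp ((θ : ℝ) * Complex.I) - c k‖ ≤ 3 * (1 - ‖c k‖) := by
  obtain ⟨lam, hlam⟩ : ∃ lam : ℤ → ℝ, ∀ k, lam k = r k / (r k + r (k + 1)) := ⟨_, fun k => rfl⟩
  have hl0 : ∀ k, 0 < lam k := by
    intro k
    rw [hlam]
    have h1 := hr k
    have h2 := hr (k + 1)
    positivity
  have hl1 : ∀ k, 1 - lam k = r (k + 1) / (r k + r (k + 1)) := by
    intro k
    rw [hlam]
    have h1 := hr k
    have h2 := hr (k + 1)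
    field_simp
    ring
  have hl1' : ∀ k, 0 < 1 - lam k := by
    intro k
    rw [hl1]
    have h1 := hr k
    have h2 := hr (k + 1)
    positivity
  obtain ⟨w, hw⟩ : ∃ w : ℤ → ℂ, ∀ k, w k = (((1 - lam k) * ‖c k‖ : ℝ) : ℂ) +
      ((lam k * ‖c (k + 1)‖ : ℝ) : ℂ) * Complex.exp ((Θ (k + 1) - Θ k : ℝ) * Complex.I) :=
    ⟨_, fun k => rfl⟩
  have hcn : ∀ k, 0 < ‖c k‖ := fun k => norm_pos_iff.2 (hc k).1
  have hwarg : ∀ k, 0 < Complex.arg (w k) ∧ Complex.arg (w k) < Θ (k + 1) - Θ k := by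
    intro k
    rw [hw]
    exact I4_arg (mul_pos (hl1' k) (hcn k)) (mul_pos (hl0 k) (hcn (k + 1))) (hΘ k).1 (hΘ k).2
  -- the tangency point
  have hτ : ∀ k, (‖w k‖ : ℂ) * Complex.exp ((Θ k + Complex.arg (w k) : ℝ) * Complex.I) =
      ((1 - lam k : ℝ) : ℂ) * c k + ((lam k : ℝ) : ℂ) * c (k + 1) := by
    intro k
    have h1 : (‖w k‖ : ℂ) * Complex.exp ((Θ k + Complex.arg (w k) : ℝ) * Complex.I) =
        Complex.exp ((Θ k : ℝ) * Complex.I) * w k := by
      conv_rhs => rw [← Complex.norm_mul_exp_arg_mul_I (w k)]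
      rw [Complex.ofReal_add, add_mul, Complex.exp_add]
      ring
    rw [h1, hw]
    have h2 : Complex.exp ((Θ (k + 1) : ℝ) * Complex.I) =
        Complex.exp ((Θ k : ℝ) * Complex.I) * Complex.exp ((Θ (k + 1) - Θ k : ℝ) * Complex.I) := by
      rw [← Complex.exp_add]
      congr 1
      push_cast
      ring
    conv_rhs => rw [(hc k).2, (hc (k + 1)).2, h2]
    push_cast
    ring
  have hd1 : ∀ k, ‖(‖w k‖ : ℂ) * Complex.exp ((Θ k + Complex.arg (w k) : ℝ) * Complex.I) - c k‖ = r k := by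
    intro k
    have h1 : ((1 - lam k : ℝ) : ℂ) * c k + ((lam k : ℝ) : ℂ) * c (k + 1) - c k =
        ((lam k : ℝ) : ℂ) * (c (k + 1) - c k) := by
      push_cast
      ring
    rw [hτ, h1, norm_mul, Complex.norm_real, Real.norm_of_nonneg (hl0 k).le, ← dist_eq_norm,
      dist_comm, htan, hlam]
    have h2 := hr k
    have h3 := hr (k + 1)
    field_simp
  have hd2 : ∀ k, ‖(‖w k‖ : ℂ) * Complex.exp ((Θ k + Complex.arg (w k) : ℝ) * Complex.I) - c (k + 1)‖ =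
      r (k + 1) := by
    intro k
    have h1 : ((1 - lam k : ℝ) : ℂ) * c k + ((lam k : ℝ) : ℂ) * c (k + 1) - c (k + 1) =
        ((1 - lam k : ℝ) : ℂ) * (c k - c (k + 1)) := by
      push_cast
      ring
    rw [hτ, h1, norm_mul, Complex.norm_real, Real.norm_of_nonneg (hl1' k).le, ← dist_eq_norm,
      htan, hl1]
    have h2 := hr k
    have h3 := hr (k + 1)
    field_simp
  refine ⟨fun k => Θ k + Complex.arg (w k), ?_, ?_, ?_⟩
  · intro k
    have := hwarg k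
    constructor <;> simp only [] <;> linarith
  · intro k
    have h1 : w (k + (N : ℤ)) = w k := by
      rw [hw, hw, hlam, hlam, add_right_comm k (N : ℤ) 1, hper, hper, hcper, hcper, hrper, hrper]
      congr 3
      congr 1
      congr 1
      ring
    simp only []
    rw [h1, hper]
    ring
  · intro k θ h1 h2
    simp only [] at h1 h2
    rcases le_or_gt (Θ k) θ with h | h
    · refine I4_est (T := ‖w k‖) (r := r k) (Θ := Θ k) (ψ := Θ k + Complex.arg (w k)) (norm_nonneg _)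
        (hr k) (hc k).2 (hin k) (hd1 k).le ?_ ?_
      · rw [add_sub_cancel_left, abs_of_nonneg (by linarith), abs_of_pos (hwarg k).1]
        linarith
      · rw [add_sub_cancel_left, abs_of_pos (hwarg k).1]
        exact ((hwarg k).2.trans (hΘ k).2).le
    · have e := hd2 (k - 1)
      have ha := hwarg (k - 1)
      have hb := hΘ (k - 1)
      rw [sub_add_cancel] at e ha hb
      refine I4_est (T := ‖w (k - 1)‖) (r := r k) (Θ := Θ k)
        (ψ := Θ (k - 1) + Complex.arg (w (k - 1))) (norm_nonneg _)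
        (hr k) (hc k).2 (hin k) e.le ?_ ?_
      · rw [abs_of_neg (by linarith), abs_of_neg (by linarith)]
        linarith
      · rw [abs_of_neg (by linarith)]
        linarith

end Pool.Agent.Helper11.Fatou
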