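import Pool.Agent.Helper11.Fatou.QMain
import Pool.Agent.Helper11.Fatou.PMain
import Pool.Agent.Helper11.Fatou.MeasMain
import Pool.Agent.Helper11.Fatou.Tang
import Pool.Agent.Helper11.Fatou.Statement

namespace Pool.Agent.Helper11.Fatou

open Pool.Agent.Helper11.Koebe Filter Topology

/-- the numbers of children -/
def bb (n : ℕ) : ℕ := 2 ^ (2 * n + 20)

theorem bb_ge (n : ℕ) : 10000 ≤ bb n := by
  unfold bb
  calc 10000 ≤ 2 ^ 20 := by norm_num
    _ ≤ 2 ^ (2 * n + 20) := Nat.pow_le_pow_right (by norm_num) (by omega)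

theorem bb_ge4 (n : ℕ) : 4 ≤ bb n := le_trans (by norm_num) (bb_ge n)

theorem bb_even (n : ℕ) : 2 ∣ bb n := by
  unfold bb
  exact dvd_pow_self 2 (by omega)

theorem bb_T (n : ℕ) : 1 + 2 ^ (n + 3) * (2 ^ (n + 16) + 1) ≤ bb n := by
  unfold bb
  have h1 : 2 ^ (n + 3) * 2 ^ (n + 16) = 2 ^ (2 * n + 19) := by
    rw [← pow_add]; congr 1; ring
  have h2 : 2 ^ (2 * n + 20) = 2 * 2 ^ (2 * n + 19) := by
    rw [pow_succ]; ring
  have h3 : 2 ^ (n + 3) ≤ 2 ^ (2 * n + 18) := Nat.pow_le_pow_right (by norm_num) (by omega)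
  have h4 : 2 ^ (2 * n + 19) = 2 * 2 ^ (2 * n + 18) := by
    rw [pow_succ]; ring
  have h5 : 1 ≤ 2 ^ (2 * n + 18) := Nat.one_le_two_pow
  rw [mul_add, h1, h2]
  omega

theorem bb_B (n : ℕ) : 2 * Real.pi ≤ (((2 ^ (n + 16) : ℕ) : ℝ) - 1) * (msz (n + 1) / 2) := by
  have hpi := Real.pi_lt_d2
  unfold msz
  have h1 : ((2 ^ (n + 16) : ℕ) : ℝ) * ((1 / 2 : ℝ) ^ (n + 1 + 10) / 2) = 16 := by
    push_cast
    rw [show n + 16 = n + 11 + 5 by ring, show n + 1 + 10 = n + 11 by ring, pow_add, div_pow,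
      one_pow]
    field_simp
    norm_num
  have h2 : (1 / 2 : ℝ) ^ (n + 1 + 10) ≤ 1 := pow_le_one₀ (by norm_num) (by norm_num)
  rw [sub_mul, h1, one_mul]
  linarith

/-- The counterexample. -/
theorem counterexample :
    ∃ (V : Type) (K : Tri V) (Q P : Packing K), IsOpenDisc K ∧ IsMaximalPacking Q ∧
      IsBoundedPacking P ∧
      ∃ E : Set ℝ, MeasurableSet E ∧ E ⊆ Set.Ico 0 (2 * Real.pi) ∧
        0 < MeasureTheory.volume E ∧
        ∀ θ ∈ E, ∃ Z : ℕ → V,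
          Nontangential (fun j => Q.c (Z j)) (Complex.exp ((θ : ℝ) * Complex.I)) ∧
          ¬ ∃ w : ℂ, Tendsto (fun j => P.c (Z j)) atTop (𝓝 w) := by
  obtain ⟨Q, c, r, Θ, hQc, hQr, hc, hr, huni, hcar, hin, hfin, hhomeo, hΘ⟩ := exists_Q bb_ge4 bb_ge
  have htan : ∀ n j, dist (c (n + 1) j) (c (n + 1) (j + 1)) = r (n + 1) j + r (n + 1) (j + 1) := by
    intro n j
    rw [← hQc, ← hQc, ← hQr, ← hQr]
    exact Q.tangent _ _ (adj_sibling bb_ge4 n j)
  have hrpos : ∀ n j, 0 < r n j := fun n j => by rw [← hQr]; exact Q.r_pos _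
  have hex : ∀ n : ℕ, ∃ t : ℤ → ℝ, (∀ k, Θ (n + 1) k < t k ∧ t k < Θ (n + 1) (k + 1)) ∧
      (∀ k, t (k + (L bb (n + 1) : ℤ)) = t k + 2 * Real.pi) ∧
      ∀ k θ, t (k - 1) ≤ θ → θ ≤ t k →
        ‖Complex.exp ((θ : ℝ) * Complex.I) - c (n + 1) k‖ ≤ 3 * (1 - ‖c (n + 1) k‖) := by
    intro n
    have h := hΘ (n + 1) (by omega)
    exact exists_tang (fun j => hrpos (n + 1) j) h.1 h.2.1 h.2.2.1 (fun j => hc (n + 1) j)
      (fun j => hr (n + 1) j) (htan n) (fun j => by rw [← hQc, ← hQr]; exact hin _)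
  choose t' ht1 ht2 ht3 using hex
  set t : ℕ → ℤ → ℝ := fun n => t' (n - 1) with htdef
  have htt : ∀ n, t (n + 1) = t' n := fun n => by simp [htdef]
  have hmono : ∀ n j, Θ (n + 1) j < Θ (n + 1) (j + 1) := fun n j => by
    have := ((hΘ (n + 1) (by omega)).2.1 j).1
    linarith
  have hnest : ∀ n j, Θ (n + 2) (j * (bb (n + 1) : ℤ)) < Θ (n + 1) j ∧
      Θ (n + 1) j < Θ (n + 2) ((j + 1) * (bb (n + 1) : ℤ) - 1) :=
    fun n j => (hΘ (n + 1) (by omega)).2.2.2 j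
  obtain ⟨D, hDB, E, hEm, hEsub, hEpos, hE⟩ := measure_main bb_ge4 (fun n => 2 ^ (n + 16)) bb_T
    (Θ := Θ) (t := t) hmono (fun n j => (hΘ (n + 1) (by omega)).2.2.1 j) hnest
    (fun n k => by rw [htt]; exact ht1 n k) (fun n k => by rw [htt]; exact ht2 n k)
  obtain ⟨P, hP1, hP2, hP3, hP4⟩ := exists_P bb_ge4 bb_even D
    (fun n => by rw [hDB]; exact bb_B n)
  have hfull : fullCarrier Q = Metric.ball 0 1 := by
    apply Set.Subset.antisymm
    · rintro z (⟨v, hv⟩ | ⟨u, v, w, hf, hz⟩)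
      · rw [Metric.mem_closedBall, dist_eq_norm] at hv
        rw [mem_ball_zero_iff]
        have h1 := hin v
        have h2 : ‖z‖ ≤ ‖z - Q.c v‖ + ‖Q.c v‖ := by
          calc ‖z‖ = ‖(z - Q.c v) + Q.c v‖ := by rw [sub_add_cancel]
            _ ≤ _ := norm_add_le _ _
        linarith
      · rw [← hcar]
        exact ⟨u, v, w, hf, hz⟩
    · rw [← hcar]
      rintro z ⟨u, v, w, hf, hz⟩
      exact Or.inr ⟨u, v, w, hf, hz⟩
  have hbd : IsBoundedPacking P := by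
    refine ⟨5, fun v z hz => ?_⟩
    rw [Metric.mem_closedBall, dist_eq_norm] at hz
    rw [mem_closedBall_zero_iff]
    have h1 := hP1 v
    have h3 := hP2 v
    have h2 : ‖z‖ ≤ ‖z - P.c v‖ + ‖P.c v‖ := by
      calc ‖z‖ = ‖(z - P.c v) + P.c v‖ := by rw [sub_add_cancel]
        _ ≤ _ := norm_add_le _ _
    linarith
  refine ⟨Vtx bb, KK bb bb_ge4, Q, P,
    ⟨KK_infinite, KK_connected bb_ge4, KK_interior bb_ge4, hhomeo⟩, ⟨huni, hfull⟩, hbd,
    E, hEm, hEsub, hEpos, ?_⟩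
  intro θ hθ
  obtain ⟨x, hx, hg⟩ := hE θ hθ
  have hnt : ∀ n, ‖Complex.exp ((θ : ℝ) * Complex.I) - Q.c (mk bb (n + 1) (x (n + 1)))‖ ≤
      3 * (1 - ‖Q.c (mk bb (n + 1) (x (n + 1)))‖) := by
    intro n
    rw [hQc]
    have h := hx n
    rw [htt] at h
    exact ht3 n (x (n + 1)) θ h.1 h.2.le
  have hinj : Function.Injective (fun n : ℕ => mk bb (n + 1) (x (n + 1))) := by
    intro n m h
    have := (mk_eq_iff.1 h).1
    omega
  have hnorm : ∀ ρ : ℝ, 0 ≤ ρ → ρ < 1 →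
      ∀ᶠ n in atTop, ρ < ‖Q.c (mk bb (n + 1) (x (n + 1)))‖ := by
    intro ρ h0 h1
    have hf := hfin ρ h0 h1
    have hf2 : {n : ℕ | mk bb (n + 1) (x (n + 1)) ∈ {v | ‖Q.c v‖ - Q.r v ≤ ρ}}.Finite :=
      hf.preimage hinj.injOn
    have h3 := hf2.eventually_cofinite_notMem
    rw [Nat.cofinite_eq_atTop] at h3
    filter_upwards [h3] with n hn
    by_contra hcon
    push Not at hcon
    apply hn
    have := Q.r_pos (mk bb (n + 1) (x (n + 1)))
    show ‖Q.c (mk bb (n + 1) (x (n + 1)))‖ - Q.r (mk bb (n + 1) (x (n + 1))) ≤ ρ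
    linarith
  refine ⟨fun n => mk bb (n + 1) (x (n + 1)), ⟨?_, 3, hnt⟩, ?_⟩
  · rw [Metric.tendsto_atTop']
    intro ε hε
    have h1 := hnorm (max 0 (1 - ε / 6)) (le_max_left _ _) (by
      apply max_lt <;> linarith)
    obtain ⟨n0, hn0⟩ := eventually_atTop.1 h1
    refine ⟨n0, fun n hn => ?_⟩
    have h2 := hn0 n hn.le
    have h3 := hnt n
    have h4 : 1 - ε / 6 < ‖Q.c (mk bb (n + 1) (x (n + 1)))‖ := lt_of_le_of_lt (le_max_right _ _) h2
    rw [dist_comm, dist_eq_norm]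
    linarith
  · rintro ⟨w, hw⟩
    have h1 : ∀ᶠ n in atTop, dist (P.c (mk bb (n + 1) (x (n + 1)))) w < 1 / 8 :=
      hw.eventually (Metric.ball_mem_nhds w (by norm_num))
    obtain ⟨n0, hn0⟩ := eventually_atTop.1 h1
    obtain ⟨m, hm, hgm⟩ := (frequently_atTop.1 hg) (n0 + 3)
    obtain ⟨n, rfl⟩ : ∃ n, m = n + 2 := ⟨m - 2, by omega⟩
    have hodd : Odd (n + 2) := hgm.1
    have hev : Even (n + 1) := by
      rcases Nat.even_or_odd (n + 1) with h | h
      · exact h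
      · exfalso
        have h5 : Even (n + 2) := h.add_one
        exact (Nat.not_even_iff_odd.2 hodd) h5
    have hbar := hP3 (n + 1) (x (n + 2)) hgm
    -- positions near the ray
    have ha := hx (n + 1)
    have hb' := hx n
    rw [htt] at ha hb'
    have hclose := parent_close bb_ge4 hmono hnest (θ := θ) (m := n) (x := x (n + 2))
      (y := x (n + 1))
      (lt_of_lt_of_le (ht1 (n + 1) (x (n + 2) - 1)).1 ha.1)
      (lt_trans ha.2 (ht1 (n + 1) (x (n + 2))).2)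
      (lt_of_lt_of_le (ht1 n (x (n + 1) - 1)).1 hb'.1)
      (lt_trans hb'.2 (ht1 n (x (n + 1))).2)
    set u : ℤ := x (n + 2) / (bb (n + 1) : ℤ) with hu
    have hd : ‖P.c (mk bb (n + 1) u) - P.c (mk bb (n + 1) (x (n + 1)))‖ ≤ 1 / 100 := by
      have h6 : u = x (n + 1) ∨ u = x (n + 1) + 1 ∨ x (n + 1) = u + 1 := by
        rw [abs_le] at hclose
        omega
      rcases h6 with h | h | h
      · rw [h]; simp
      · rw [h]; exact hP4 (n + 1) _ hev
      · rw [h, norm_sub_rev]; exact hP4 (n + 1) _ hev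
    have h7 := hn0 (n + 1) (by omega)
    have h8 := hn0 n (by omega)
    rw [dist_eq_norm] at h7 h8
    have h9 : ‖P.c (mk bb (n + 2) (x (n + 2))) - P.c (mk bb (n + 1) u)‖ ≤
        ‖P.c (mk bb (n + 2) (x (n + 2))) - w‖ + ‖P.c (mk bb (n + 1) (x (n + 1))) - w‖ +
        ‖P.c (mk bb (n + 1) u) - P.c (mk bb (n + 1) (x (n + 1)))‖ := by
      have e : P.c (mk bb (n + 2) (x (n + 2))) - P.c (mk bb (n + 1) u) =
          (P.c (mk bb (n + 2) (x (n + 2))) - w) - (P.c (mk bb (n + 1) (x (n + 1))) - w) -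
          (P.c (mk bb (n + 1) u) - P.c (mk bb (n + 1) (x (n + 1)))) := by ring
      rw [e]
      exact (norm_sub_le _ _).trans (by gcongr; exact norm_sub_le _ _)
    linarith

/-- The discrete Fatou theorem fails. -/
theorem not_discreteFatou : ¬ DiscreteFatou := by
  obtain ⟨V, K, Q, P, hK, hQ, hP, E, hE1, hE2, hE3, hE4⟩ := counterexample
  intro h
  have h1 := h V K hK Q hQ P hP
  have h2 : MeasureTheory.volume E = 0 := by
    refine MeasureTheory.measure_mono_null ?_ (MeasureTheory.ae_iff.1 h1)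
    intro θ hθ
    obtain ⟨Z, hZ1, hZ2⟩ := hE4 θ hθ
    exact fun hcon => hZ2 (hcon Z hZ1)
  exact hE3.ne' h2

end Pool.Agent.Helper11.Fatou
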