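import Mathlib
import Pool.Agent.Helper11.Fatou.Defs

namespace Pool.Agent.Helper11.Fatou

theorem frame_core {v d a : ℂ} {γ ω T : ℝ} (hv : ‖v‖ < 1) (hv0 : v ≠ 0)
    (h0 : -v = (‖v‖ : ℂ) * (Complex.exp (-((γ : ℝ) * Complex.I)) * d)) (ha1 : ‖a‖ < 1)
    (ha : ph v a = (T : ℂ) * (Complex.exp ((ω : ℝ) * Complex.I) * d)) :
    (starRingEnd ℂ) (v / (‖v‖ : ℂ)) * (v / (‖v‖ : ℂ)) = 1 ∧ v = (‖v‖ : ℂ) * (v / (‖v‖ : ℂ)) ∧
    1 + (starRingEnd ℂ) v * ph v a =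
      1 - (‖v‖ : ℂ) * T * ((Real.cos (γ + ω) : ℝ) + (Real.sin (γ + ω) : ℝ) * Complex.I) ∧
    a * (1 + (starRingEnd ℂ) v * ph v a) = (v / (‖v‖ : ℂ)) *
      ((‖v‖ : ℂ) - T * ((Real.cos (γ + ω) : ℝ) + (Real.sin (γ + ω) : ℝ) * Complex.I)) := by
  have hm : (‖v‖ : ℂ) ≠ 0 := by
    have : ‖v‖ ≠ 0 := norm_ne_zero_iff.mpr hv0
    exact_mod_cast this
  obtain ⟨e, he⟩ : ∃ e : ℂ, e = v / (‖v‖ : ℂ) := ⟨_, rfl⟩
  rw [← he]
  have hve : v = (‖v‖ : ℂ) * e := by rw [he]; field_simp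
  have hee : (starRingEnd ℂ) e * e = 1 := by
    rw [← Complex.normSq_eq_conj_mul_self]
    rw [he]
    rw [Complex.normSq_div, Complex.normSq_ofReal, Complex.normSq_eq_norm_sq]
    have : ‖v‖ ≠ 0 := norm_ne_zero_iff.mpr hv0
    have h2 : ‖v‖ ^ 2 / (‖v‖ * ‖v‖) = 1 := by field_simp
    rw [h2]
    simp
  have hd : d = -(Complex.exp ((γ : ℝ) * Complex.I)) * e := by
    have h1 : -e = Complex.exp (-((γ : ℝ) * Complex.I)) * d := by
      have : (‖v‖ : ℂ) * (-e) = (‖v‖ : ℂ) * (Complex.exp (-((γ : ℝ) * Complex.I)) * d) := by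
        rw [← h0]
        nth_rewrite 2 [hve]
        ring
      exact mul_left_cancel₀ hm this
    have h2 : Complex.exp ((γ : ℝ) * Complex.I) * Complex.exp (-((γ : ℝ) * Complex.I)) = 1 := by
      rw [← Complex.exp_add]
      simp
    calc d = (Complex.exp ((γ : ℝ) * Complex.I) * Complex.exp (-((γ : ℝ) * Complex.I))) * d := by
          rw [h2, one_mul]
      _ = Complex.exp ((γ : ℝ) * Complex.I) * (Complex.exp (-((γ : ℝ) * Complex.I)) * d) := by ring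
      _ = -(Complex.exp ((γ : ℝ) * Complex.I)) * e := by rw [← h1]; ring
  have hu : Complex.exp ((ω : ℝ) * Complex.I) * Complex.exp ((γ : ℝ) * Complex.I) =
      (Real.cos (γ + ω) : ℝ) + (Real.sin (γ + ω) : ℝ) * Complex.I := by
    rw [← Complex.exp_add]
    have : ((ω : ℝ) : ℂ) * Complex.I + ((γ : ℝ) : ℂ) * Complex.I = ((γ + ω : ℝ) : ℂ) * Complex.I := by
      push_cast
      ring
    rw [this, Complex.exp_mul_I]
    push_cast
    rfl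
  obtain ⟨u, hu'⟩ : ∃ u : ℂ, u = (Real.cos (γ + ω) : ℝ) + (Real.sin (γ + ω) : ℝ) * Complex.I := ⟨_, rfl⟩
  rw [← hu'] at hu ⊢
  have hX : ph v a = -(T * u * e) := by
    rw [ha, hd, ← hu]
    ring
  have hcv : (starRingEnd ℂ) v = (‖v‖ : ℂ) * (starRingEnd ℂ) e := by
    nth_rewrite 1 [hve]
    rw [map_mul, Complex.conj_ofReal]
  have hcX : (starRingEnd ℂ) v * ph v a = -((‖v‖ : ℂ) * T * u) := by
    rw [hcv, hX]
    linear_combination (-(‖v‖ : ℂ) * T * u) * hee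
  refine ⟨hee, hve, ?_, ?_⟩
  · rw [hcX]
    ring
  · have hden : 1 - (starRingEnd ℂ) v * a ≠ 0 := by
      intro h
      have h1 : (starRingEnd ℂ) v * a = 1 := by linear_combination -h
      have h2 : ‖(starRingEnd ℂ) v * a‖ = 1 := by rw [h1]; simp
      rw [norm_mul, RCLike.norm_conj] at h2
      have h3 := norm_nonneg v
      have h4 := norm_nonneg a
      nlinarith
    have hph : ph v a * (1 - (starRingEnd ℂ) v * a) = a - v := by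
      unfold ph
      exact div_mul_cancel₀ _ hden
    have : a * (1 + (starRingEnd ℂ) v * ph v a) = ph v a + v := by
      linear_combination (-1 : ℂ) * hph
    rw [this, hX]
    linear_combination hve

/-- positions in the frame of `v`: `ph v a = T e^{iω} d` with `-v = ‖v‖ e^{-iγ} d` -/
theorem frame_im {v d a : ℂ} {γ ω T : ℝ} (hv : ‖v‖ < 1) (hv0 : v ≠ 0) (hd : ‖d‖ = 1)
    (h0 : -v = (‖v‖ : ℂ) * (Complex.exp (-((γ : ℝ) * Complex.I)) * d))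
    (hT0 : 0 < T) (hT1 : T < 1) (ha1 : ‖a‖ < 1)
    (ha : ph v a = (T : ℂ) * (Complex.exp ((ω : ℝ) * Complex.I) * d)) :
    ((starRingEnd ℂ) v * a).im * Complex.normSq (1 + (starRingEnd ℂ) v * ph v a) =
      -(‖v‖ * (1 - ‖v‖ ^ 2) * T * Real.sin (γ + ω)) := by
  obtain ⟨h1, h2, h3, h4⟩ := frame_core hv hv0 h0 ha1 ha
  obtain ⟨D, hD⟩ : ∃ D : ℂ, D = 1 + (starRingEnd ℂ) v * ph v a := ⟨_, rfl⟩
  obtain ⟨e, he⟩ : ∃ e : ℂ, e = v / (‖v‖ : ℂ) := ⟨_, rfl⟩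
  rw [← he] at h1 h2 h4
  rw [← hD] at h3 h4 ⊢
  set c := Real.cos (γ + ω) with hc
  set s := Real.sin (γ + ω) with hs
  have hcv : (starRingEnd ℂ) v = (‖v‖ : ℂ) * (starRingEnd ℂ) e := by
    nth_rewrite 1 [h2]
    rw [map_mul, Complex.conj_ofReal]
  have hcD : (starRingEnd ℂ) D = 1 - (‖v‖ : ℂ) * T * ((c : ℝ) - (s : ℝ) * Complex.I) := by
    rw [h3]
    simp only [map_sub, map_mul, map_add, map_one, Complex.conj_ofReal, Complex.conj_I]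
    ring
  have key : (starRingEnd ℂ) v * a * ((Complex.normSq D : ℝ) : ℂ) =
      (‖v‖ : ℂ) * ((‖v‖ : ℂ) - T * ((c : ℝ) + (s : ℝ) * Complex.I)) *
        (1 - (‖v‖ : ℂ) * T * ((c : ℝ) - (s : ℝ) * Complex.I)) := by
    rw [← Complex.mul_conj, ← hcD]
    calc (starRingEnd ℂ) v * a * (D * (starRingEnd ℂ) D) =
        (starRingEnd ℂ) v * (a * D) * (starRingEnd ℂ) D := by ring
      _ = _ := by
        rw [h4, hcv]
        linear_combination ((‖v‖ : ℂ) * ((‖v‖ : ℂ) - T * ((c : ℝ) + (s : ℝ) * Complex.I)) * (starRingEnd ℂ) D) * h1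
  have key2 := congrArg Complex.im key
  rw [Complex.im_mul_ofReal] at key2
  rw [key2]
  simp [Complex.mul_im, Complex.mul_re]
  ring

theorem frame_im2 {v d a a' : ℂ} {γ ω ω' T T' : ℝ} (hv : ‖v‖ < 1) (hv0 : v ≠ 0) (hd : ‖d‖ = 1)
    (h0 : -v = (‖v‖ : ℂ) * (Complex.exp (-((γ : ℝ) * Complex.I)) * d))
    (hT0 : 0 < T) (hT1 : T < 1) (ha1 : ‖a‖ < 1)
    (ha : ph v a = (T : ℂ) * (Complex.exp ((ω : ℝ) * Complex.I) * d))
    (hT0' : 0 < T') (hT1' : T' < 1) (ha1' : ‖a'‖ < 1)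
    (ha' : ph v a' = (T' : ℂ) * (Complex.exp ((ω' : ℝ) * Complex.I) * d)) :
    ((starRingEnd ℂ) a * a').im * (Complex.normSq (1 + (starRingEnd ℂ) v * ph v a) *
      Complex.normSq (1 + (starRingEnd ℂ) v * ph v a')) =
      (1 - ‖v‖ ^ 2) * ((1 + ‖v‖ ^ 2) * (T * T' * Real.sin (ω' - ω))
        + ‖v‖ * ((1 + T' ^ 2) * T * Real.sin (γ + ω) - (1 + T ^ 2) * T' * Real.sin (γ + ω'))) := by
  obtain ⟨h1, h2, h3, h4⟩ := frame_core hv hv0 h0 ha1 ha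
  obtain ⟨-, -, h3', h4'⟩ := frame_core hv hv0 h0 ha1' ha'
  obtain ⟨D, hD⟩ : ∃ D : ℂ, D = 1 + (starRingEnd ℂ) v * ph v a := ⟨_, rfl⟩
  obtain ⟨D', hD'⟩ : ∃ D' : ℂ, D' = 1 + (starRingEnd ℂ) v * ph v a' := ⟨_, rfl⟩
  obtain ⟨e, he⟩ : ∃ e : ℂ, e = v / (‖v‖ : ℂ) := ⟨_, rfl⟩
  rw [← he] at h1 h2 h4 h4'
  rw [← hD] at h3 h4 ⊢
  rw [← hD'] at h3' h4' ⊢
  have hsin : Real.sin (ω' - ω) = Real.sin (γ + ω') * Real.cos (γ + ω) - Real.cos (γ + ω') * Real.sin (γ + ω) := by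
    rw [← Real.sin_sub]
    congr 1
    ring
  have hcs := Real.sin_sq_add_cos_sq (γ + ω)
  have hcs' := Real.sin_sq_add_cos_sq (γ + ω')
  rw [hsin]
  set c := Real.cos (γ + ω) with hc
  set s := Real.sin (γ + ω) with hs
  set c' := Real.cos (γ + ω') with hc'
  set s' := Real.sin (γ + ω') with hs'
  have hcD' : (starRingEnd ℂ) D' = 1 - (‖v‖ : ℂ) * T' * ((c' : ℝ) - (s' : ℝ) * Complex.I) := by
    rw [h3']
    simp only [map_sub, map_mul, map_add, map_one, Complex.conj_ofReal, Complex.conj_I]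
    ring
  have hcaD : (starRingEnd ℂ) a * (starRingEnd ℂ) D = (starRingEnd ℂ) e *
      ((‖v‖ : ℂ) - T * ((c : ℝ) - (s : ℝ) * Complex.I)) := by
    rw [← map_mul, h4]
    simp only [map_sub, map_mul, map_add, Complex.conj_ofReal, Complex.conj_I]
    ring
  have key : (starRingEnd ℂ) a * a' * (((Complex.normSq D * Complex.normSq D' : ℝ)) : ℂ) =
      (((‖v‖ : ℂ) - T * ((c : ℝ) - (s : ℝ) * Complex.I)) *
        (1 - (‖v‖ : ℂ) * T * ((c : ℝ) + (s : ℝ) * Complex.I))) *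
      (((‖v‖ : ℂ) - T' * ((c' : ℝ) + (s' : ℝ) * Complex.I)) *
        (1 - (‖v‖ : ℂ) * T' * ((c' : ℝ) - (s' : ℝ) * Complex.I))) := by
    rw [Complex.ofReal_mul, ← Complex.mul_conj, ← Complex.mul_conj, ← hcD', ← h3]
    calc (starRingEnd ℂ) a * a' * (D * (starRingEnd ℂ) D * (D' * (starRingEnd ℂ) D')) =
        ((starRingEnd ℂ) a * (starRingEnd ℂ) D) * D * (a' * D') * (starRingEnd ℂ) D' := by ring
      _ = _ := by
        rw [h4', hcaD]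
        linear_combination (((‖v‖ : ℂ) - T * ((c : ℝ) - (s : ℝ) * Complex.I)) * D *
          ((‖v‖ : ℂ) - T' * ((c' : ℝ) + (s' : ℝ) * Complex.I)) * (starRingEnd ℂ) D') * h1
  have key2 := congrArg Complex.im key
  rw [Complex.im_mul_ofReal] at key2
  rw [key2]
  have eP1 : (((‖v‖ : ℂ) - T * ((c : ℝ) - (s : ℝ) * Complex.I)) *
        (1 - (‖v‖ : ℂ) * T * ((c : ℝ) + (s : ℝ) * Complex.I))).re =
        ‖v‖ * (1 + T ^ 2) - (1 + ‖v‖ ^ 2) * T * c := by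
    simp [Complex.mul_im, Complex.mul_re]
    linear_combination (‖v‖ * T ^ 2) * hcs
  have eP2 : (((‖v‖ : ℂ) - T * ((c : ℝ) - (s : ℝ) * Complex.I)) *
        (1 - (‖v‖ : ℂ) * T * ((c : ℝ) + (s : ℝ) * Complex.I))).im = T * s * (1 - ‖v‖ ^ 2) := by
    simp [Complex.mul_im, Complex.mul_re]
    ring
  have eQ1 : (((‖v‖ : ℂ) - T' * ((c' : ℝ) + (s' : ℝ) * Complex.I)) *
        (1 - (‖v‖ : ℂ) * T' * ((c' : ℝ) - (s' : ℝ) * Complex.I))).re =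
        ‖v‖ * (1 + T' ^ 2) - (1 + ‖v‖ ^ 2) * T' * c' := by
    simp [Complex.mul_im, Complex.mul_re]
    linear_combination (‖v‖ * T' ^ 2) * hcs'
  have eQ2 : (((‖v‖ : ℂ) - T' * ((c' : ℝ) + (s' : ℝ) * Complex.I)) *
        (1 - (‖v‖ : ℂ) * T' * ((c' : ℝ) - (s' : ℝ) * Complex.I))).im = -(T' * s' * (1 - ‖v‖ ^ 2)) := by
    simp [Complex.mul_im, Complex.mul_re]
    ring
  rw [Complex.mul_im, eP1, eP2, eQ1, eQ2]
  ring

theorem normSq_pos' {v w : ℂ} (hv : ‖v‖ < 1) (hw : ‖w‖ < 1) :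
    0 < Complex.normSq (1 + (starRingEnd ℂ) v * w) := by
  rw [Complex.normSq_pos]
  intro h
  have h1 : (starRingEnd ℂ) v * w = -1 := by linear_combination h
  have h2 : ‖(starRingEnd ℂ) v * w‖ = 1 := by rw [h1]; simp
  rw [norm_mul, RCLike.norm_conj] at h2
  have h3 := norm_nonneg v
  have h4 := norm_nonneg w
  nlinarith

/-- collinear case -/
theorem frame_collinear {v d a : ℂ} {γ ω T : ℝ} (hv : ‖v‖ < 1) (hv0 : v ≠ 0) (hd : ‖d‖ = 1)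
    (h0 : -v = (‖v‖ : ℂ) * (Complex.exp (-((γ : ℝ) * Complex.I)) * d))
    (hT0 : 0 < T) (hT1 : T < 1) (ha1 : ‖a‖ < 1)
    (ha : ph v a = (T : ℂ) * (Complex.exp ((ω : ℝ) * Complex.I) * d))
    (h : γ + ω = Real.pi) : ∃ s : ℝ, 0 < s ∧ a = (s : ℂ) * v := by
  obtain ⟨h1, h2, h3, h4⟩ := frame_core hv hv0 h0 ha1 ha
  rw [h3, h, Real.cos_pi, Real.sin_pi] at h4
  have hm0 : 0 < ‖v‖ := norm_pos_iff.mpr hv0
  have hden : (0:ℝ) < 1 + ‖v‖ * T := by positivity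
  refine ⟨(‖v‖ + T) / ((1 + ‖v‖ * T) * ‖v‖), by positivity, ?_⟩
  have hdC : (1 + (‖v‖ : ℂ) * T) ≠ 0 := by exact_mod_cast hden.ne'
  have hmC : (‖v‖ : ℂ) ≠ 0 := by exact_mod_cast hm0.ne'
  have h5 : a * (1 + (‖v‖ : ℂ) * T) = (v / (‖v‖ : ℂ)) * ((‖v‖ : ℂ) + T) := by
    have e1 : a * (1 + (‖v‖ : ℂ) * T) =
      a * (1 - (‖v‖ : ℂ) * T * (((-1 : ℝ) : ℂ) + ((0 : ℝ) : ℂ) * Complex.I)) := by
      push_cast
      ring
    rw [e1, h4]
    push_cast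
    ring
  push_cast
  rw [eq_comm]
  field_simp
  field_simp at h5
  linear_combination -h5

end Pool.Agent.Helper11.Fatou
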