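import Mathlib
import Pool.Agent.Helper11.Fatou.Defs

namespace Pool.Agent.Helper11.Fatou

/-- double angle of arctan -/
theorem t0_exp_two_arctan (τ : ℝ) :
    (1 - (τ : ℂ) * Complex.I) * Complex.exp (((2 * Real.arctan τ : ℝ) : ℂ) * Complex.I) =
      1 + (τ : ℂ) * Complex.I := by
  have hc : 0 < Real.cos (Real.arctan τ) := Real.cos_arctan_pos τ
  have hs : Real.sin (Real.arctan τ) = τ * Real.cos (Real.arctan τ) := by
    have h := Real.tan_arctan τ
    rw [Real.tan_eq_sin_div_cos, div_eq_iff hc.ne'] at h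
    exact h
  have h1 : Complex.exp (((Real.arctan τ : ℝ) : ℂ) * Complex.I) =
      (Real.cos (Real.arctan τ) : ℂ) * (1 + (τ : ℂ) * Complex.I) := by
    rw [Complex.exp_mul_I, ← Complex.ofReal_cos, ← Complex.ofReal_sin, hs]
    push_cast
    ring
  have h2 : Complex.exp (-(((Real.arctan τ : ℝ) : ℂ) * Complex.I)) =
      (Real.cos (Real.arctan τ) : ℂ) * (1 - (τ : ℂ) * Complex.I) := by
    have h3 : -(((Real.arctan τ : ℝ) : ℂ) * Complex.I) = ((-Real.arctan τ : ℝ) : ℂ) * Complex.I := by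
      push_cast; ring
    rw [h3, Complex.exp_mul_I, ← Complex.ofReal_cos, ← Complex.ofReal_sin, Real.cos_neg,
      Real.sin_neg, hs]
    push_cast
    ring
  have hc' : (Real.cos (Real.arctan τ) : ℂ) ≠ 0 := by exact_mod_cast hc.ne'
  have h4 : Complex.exp (((2 * Real.arctan τ : ℝ) : ℂ) * Complex.I) =
      Complex.exp (((Real.arctan τ : ℝ) : ℂ) * Complex.I) *
        Complex.exp (((Real.arctan τ : ℝ) : ℂ) * Complex.I) := by
    rw [← Complex.exp_add]
    congr 1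
    push_cast
    ring
  have h5 : Complex.exp (-(((Real.arctan τ : ℝ) : ℂ) * Complex.I)) *
      Complex.exp (((Real.arctan τ : ℝ) : ℂ) * Complex.I) = 1 := by
    rw [← Complex.exp_add]; simp
  rw [h2] at h5
  apply mul_left_cancel₀ hc'
  rw [h4, ← mul_assoc, ← mul_assoc, h5, one_mul, h1]

theorem exp_ah {x y z : ℝ} (hx : 1 < x) (hy : 1 < y) (hz : 1 < z) :
    ((Real.sqrt (x ^ 2 - 1) : ℂ) * (Real.sqrt (x ^ 2 * y ^ 2 * z ^ 2 - 1) : ℂ) -
        (x : ℂ) * (Real.sqrt (y ^ 2 - 1) : ℂ) * (Real.sqrt (z ^ 2 - 1) : ℂ) * Complex.I) *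
      Complex.exp (((ah x y z : ℝ) : ℂ) * Complex.I) =
      ((Real.sqrt (x ^ 2 - 1) : ℂ) * (Real.sqrt (x ^ 2 * y ^ 2 * z ^ 2 - 1) : ℂ) +
        (x : ℂ) * (Real.sqrt (y ^ 2 - 1) : ℂ) * (Real.sqrt (z ^ 2 - 1) : ℂ) * Complex.I) := by
  have hx2 : 0 < x ^ 2 - 1 := by nlinarith
  have hy2 : 0 < y ^ 2 - 1 := by nlinarith
  have hz2 : 0 < z ^ 2 - 1 := by nlinarith
  have hxyz : 1 < x ^ 2 * y ^ 2 * z ^ 2 := by
    have h1 : 1 < x ^ 2 := by linarith
    have h2 : 1 < y ^ 2 := by linarith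
    have h3 : 1 < z ^ 2 := by linarith
    nlinarith [mul_pos (sub_pos.2 h1) (sub_pos.2 h2),
      mul_pos (mul_pos (by linarith : 0 < x ^ 2) (by linarith : 0 < y ^ 2)) (sub_pos.2 h3)]
  have hk2 : 0 < x ^ 2 * y ^ 2 * z ^ 2 - 1 := by linarith
  set A := Real.sqrt (x ^ 2 - 1) with hA
  set K := Real.sqrt (x ^ 2 * y ^ 2 * z ^ 2 - 1) with hK
  set B := Real.sqrt (y ^ 2 - 1) with hB
  set D := Real.sqrt (z ^ 2 - 1) with hD
  have hApos : 0 < A := Real.sqrt_pos.2 hx2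
  have hKpos : 0 < K := Real.sqrt_pos.2 hk2
  have hBpos : 0 < B := Real.sqrt_pos.2 hy2
  have hDpos : 0 < D := Real.sqrt_pos.2 hz2
  have hτ : Real.sqrt (x ^ 2 * (y ^ 2 - 1) * (z ^ 2 - 1) /
      ((x ^ 2 - 1) * (x ^ 2 * y ^ 2 * z ^ 2 - 1))) = x * B * D / (A * K) := by
    have h1 : x ^ 2 * (y ^ 2 - 1) * (z ^ 2 - 1) /
      ((x ^ 2 - 1) * (x ^ 2 * y ^ 2 * z ^ 2 - 1)) = (x * B * D / (A * K)) ^ 2 := by
      rw [div_pow, mul_pow, mul_pow, mul_pow, hA, hK, hB, hD, Real.sq_sqrt hx2.le,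
        Real.sq_sqrt hy2.le, Real.sq_sqrt hz2.le, Real.sq_sqrt hk2.le]
    rw [h1, Real.sqrt_sq (by positivity)]
  unfold ah
  rw [hτ]
  have h2 := t0_exp_two_arctan (x * B * D / (A * K))
  have hAc : (A : ℂ) ≠ 0 := by exact_mod_cast hApos.ne'
  have hKc : (K : ℂ) ≠ 0 := by exact_mod_cast hKpos.ne'
  have h3 : ((A : ℂ) * K - (x : ℂ) * B * D * Complex.I) =
      (A : ℂ) * K * (1 - ((x * B * D / (A * K) : ℝ) : ℂ) * Complex.I) := by
    push_cast
    field_simp
  have h4 : ((A : ℂ) * K + (x : ℂ) * B * D * Complex.I) =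
      (A : ℂ) * K * (1 + ((x * B * D / (A * K) : ℝ) : ℂ) * Complex.I) := by
    push_cast
    field_simp
  rw [h3, h4, mul_assoc ((A : ℂ) * K), h2]

theorem t0_ah_symm (x y z : ℝ) : ah x y z = ah x z y := by
  unfold ah
  congr 3
  ring_nf

theorem Th_bounds {x : ℝ} (hx : 1 < x) : 0 < Th x ∧ Th x < 1 := by
  unfold Th
  constructor
  · apply div_pos <;> linarith
  · rw [div_lt_one (by linarith)]; linarith

/-- first half of the triangle statement -/
theorem ah_tri0_aux {r s t : ℝ} (hr : 1 < r) (hs : 1 < s) (ht : 1 < t) {X Y : ℂ} {e : ℂ}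
    (he : ‖e‖ = 1) (hX : X = (Th (r * s) : ℂ) * e)
    (hY : Y = (Th (r * t) : ℂ) * (Complex.exp ((ah r s t : ℝ) * Complex.I) * e)) :
    ph X Y = -((Th (s * t) : ℂ) * (Complex.exp (-((ah s t r : ℝ) * Complex.I)) * e)) := by
  have hrs : 1 < r * s := by nlinarith
  have hrt : 1 < r * t := by nlinarith
  have hst : 1 < s * t := by nlinarith
  set w := Complex.exp ((ah r s t : ℝ) * Complex.I) with hw
  set u := Complex.exp ((ah s t r : ℝ) * Complex.I) with hu
  set u' := Complex.exp (-((ah s t r : ℝ) * Complex.I)) with hu'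
  have huu : u * u' = 1 := by
    rw [hu, hu', ← Complex.exp_add]; simp
  have hwn : ‖w‖ = 1 := by rw [hw, Complex.norm_exp_ofReal_mul_I]
  set x := Th (r * s) with hx
  set y := Th (r * t) with hy
  set z := Th (s * t) with hz
  have e1 := exp_ah hr hs ht
  have e2 := exp_ah hs ht hr
  have hr2 : 0 < r ^ 2 - 1 := by nlinarith
  have hs2 : 0 < s ^ 2 - 1 := by nlinarith
  have ht2 : 0 < t ^ 2 - 1 := by nlinarith
  have hkeq : s ^ 2 * t ^ 2 * r ^ 2 - 1 = r ^ 2 * s ^ 2 * t ^ 2 - 1 := by ring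
  have hk2 : 0 < r ^ 2 * s ^ 2 * t ^ 2 - 1 := by
    have h1 : 1 < r ^ 2 := by linarith
    have h2 : 1 < s ^ 2 := by linarith
    have h3 : 1 < t ^ 2 := by linarith
    nlinarith [mul_pos (sub_pos.2 h1) (sub_pos.2 h2),
      mul_pos (mul_pos (by linarith : 0 < r ^ 2) (by linarith : 0 < s ^ 2)) (sub_pos.2 h3)]
  rw [hkeq] at e2
  rw [← hw] at e1
  rw [← hu] at e2
  set a := Real.sqrt (r ^ 2 - 1) with ha
  set b := Real.sqrt (s ^ 2 - 1) with hb
  set c := Real.sqrt (t ^ 2 - 1) with hc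
  set k := Real.sqrt (r ^ 2 * s ^ 2 * t ^ 2 - 1) with hk
  have hapos : 0 < a := Real.sqrt_pos.2 hr2
  have hbpos : 0 < b := Real.sqrt_pos.2 hs2
  have hkpos : 0 < k := Real.sqrt_pos.2 hk2
  have ha2 : a ^ 2 = r ^ 2 - 1 := Real.sq_sqrt hr2.le
  have hb2 : b ^ 2 = s ^ 2 - 1 := Real.sq_sqrt hs2.le
  have hc2 : c ^ 2 = t ^ 2 - 1 := Real.sq_sqrt ht2.le
  have hkk : k ^ 2 = r ^ 2 * s ^ 2 * t ^ 2 - 1 := Real.sq_sqrt hk2.le
  have hR : (y - x) * k ^ 2 - (x + y) * (r * s * c ^ 2) +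
      z * ((1 - x * y) * k ^ 2 - (1 + x * y) * (r * s * c ^ 2)) = 0 := by
    rw [hkk, hc2, hx, hy, hz]
    unfold Th
    have h1 : r * s + 1 ≠ 0 := by positivity
    have h2 : r * t + 1 ≠ 0 := by positivity
    have h3 : s * t + 1 ≠ 0 := by positivity
    field_simp
    ring
  have hI : (y - x) * (s * a ^ 2) + (x + y) * (r * b ^ 2) -
      z * ((1 - x * y) * (s * a ^ 2) + (1 + x * y) * (r * b ^ 2)) = 0 := by
    rw [ha2, hb2, hx, hy, hz]
    unfold Th
    have h1 : r * s + 1 ≠ 0 := by positivity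
    have h2 : r * t + 1 ≠ 0 := by positivity
    have h3 : s * t + 1 ≠ 0 := by positivity
    field_simp
    ring
  have hRc : ((y : ℂ) - x) * (k : ℂ) ^ 2 - (x + y) * (r * s * (c : ℂ) ^ 2) +
      z * ((1 - x * y) * (k : ℂ) ^ 2 - (1 + x * y) * (r * s * (c : ℂ) ^ 2)) = 0 := by
    exact_mod_cast congrArg (Complex.ofReal) hR
  have hIc : ((y : ℂ) - x) * (s * (a : ℂ) ^ 2) + (x + y) * (r * (b : ℂ) ^ 2) -
      z * ((1 - x * y) * (s * (a : ℂ) ^ 2) + (1 + x * y) * (r * (b : ℂ) ^ 2)) = 0 := by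
    exact_mod_cast congrArg (Complex.ofReal) hI
  have hI2 : Complex.I ^ 2 + 1 = 0 := by rw [Complex.I_sq]; ring
  have e2' : ((b : ℂ) * k + (s : ℂ) * c * a * Complex.I) * u' =
      ((b : ℂ) * k - (s : ℂ) * c * a * Complex.I) := by
    rw [← e2, mul_assoc, huu, mul_one]
  -- nonvanishing
  have hne1 : ((a : ℂ) * k - (r : ℂ) * b * c * Complex.I) ≠ 0 := by
    intro h
    have := congrArg Complex.re h
    simp at this
    rcases this with h | h
    · exact hapos.ne' h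
    · exact hkpos.ne' h
  have hne2 : ((b : ℂ) * k + (s : ℂ) * c * a * Complex.I) ≠ 0 := by
    intro h
    have := congrArg Complex.re h
    simp at this
    rcases this with h | h
    · exact hbpos.ne' h
    · exact hkpos.ne' h
  have key : ((y : ℂ) * w - x) + (1 - x * y * w) * (z * u') = 0 := by
    have h1 : (((a : ℂ) * k - (r : ℂ) * b * c * Complex.I) *
        ((b : ℂ) * k + (s : ℂ) * c * a * Complex.I)) *
        (((y : ℂ) * w - x) + (1 - x * y * w) * (z * u')) = 0 := by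
      have h2 : (((a : ℂ) * k - (r : ℂ) * b * c * Complex.I) *
        ((b : ℂ) * k + (s : ℂ) * c * a * Complex.I)) *
        (((y : ℂ) * w - x) + (1 - x * y * w) * (z * u')) =
        ((y : ℂ) * (((a : ℂ) * k - (r : ℂ) * b * c * Complex.I) * w) -
          x * ((a : ℂ) * k - (r : ℂ) * b * c * Complex.I)) *
          ((b : ℂ) * k + (s : ℂ) * c * a * Complex.I) +
        (((a : ℂ) * k - (r : ℂ) * b * c * Complex.I) -
          x * y * (((a : ℂ) * k - (r : ℂ) * b * c * Complex.I) * w)) *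
          (z * (((b : ℂ) * k + (s : ℂ) * c * a * Complex.I) * u')) := by ring
      rw [h2, e1, e2']
      linear_combination (a : ℂ) * b * hRc + Complex.I * c * k * hIc +
        ((a : ℂ) * b * r * s * c ^ 2 * ((x + y) + z * (1 + x * y))) * hI2
    rcases mul_eq_zero.1 h1 with h | h
    · rcases mul_eq_zero.1 h with h | h
      · exact absurd h hne1
      · exact absurd h hne2
    · exact h
  have hxb := Th_bounds hrs
  have hyb := Th_bounds hrt
  have hden : (1 : ℂ) - x * y * w ≠ 0 := by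
    intro h
    have h1 : (x : ℂ) * y * w = 1 := (sub_eq_zero.1 h).symm
    have h2 := congrArg norm h1
    rw [norm_mul, hwn, mul_one, norm_mul, Complex.norm_real, Complex.norm_real, norm_one,
      Real.norm_of_nonneg hxb.1.le, Real.norm_of_nonneg hyb.1.le] at h2
    nlinarith [hxb.1, hxb.2, hyb.1, hyb.2]
  have hee : (starRingEnd ℂ) e * e = 1 := by
    rw [← Complex.normSq_eq_conj_mul_self, Complex.normSq_eq_norm_sq, he]
    simp
  unfold ph
  have hconj : 1 - (starRingEnd ℂ) X * Y = 1 - x * y * w := by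
    rw [hX, hY, map_mul, Complex.conj_ofReal]
    linear_combination (-(x : ℂ) * y * w) * hee
  rw [hconj, div_eq_iff hden, hX, hY]
  linear_combination e * key

/-- the triangle with one vertex at the origin -/
theorem ah_tri0 {r s t : ℝ} (hr : 1 < r) (hs : 1 < s) (ht : 1 < t) {X Y : ℂ} {e : ℂ} (he : ‖e‖ = 1)
    (hX : X = (Th (r * s) : ℂ) * e)
    (hY : Y = (Th (r * t) : ℂ) * (Complex.exp ((ah r s t : ℝ) * Complex.I) * e)) :
    ph X Y = -((Th (s * t) : ℂ) * (Complex.exp (-((ah s t r : ℝ) * Complex.I)) * e)) ∧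
      ph Y X = -((Th (s * t) : ℂ) * (Complex.exp ((ah t r s : ℝ) * Complex.I) *
        (Complex.exp ((ah r s t : ℝ) * Complex.I) * e))) := by
  refine ⟨ah_tri0_aux hr hs ht he hX hY, ?_⟩
  set w := Complex.exp ((ah r s t : ℝ) * Complex.I) with hw
  have hwn : ‖w‖ = 1 := by rw [hw, Complex.norm_exp_ofReal_mul_I]
  have hww : (starRingEnd ℂ) w * w = 1 := by
    rw [← Complex.normSq_eq_conj_mul_self, Complex.normSq_eq_norm_sq, hwn]
    simp
  have he2 : ‖(starRingEnd ℂ) (w * e)‖ = 1 := by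
    rw [RCLike.norm_conj, norm_mul, hwn, he, one_mul]
  have h1 := ah_tri0_aux (X := (starRingEnd ℂ) Y) (Y := (starRingEnd ℂ) X) hr ht hs he2 (by
    rw [hY, map_mul, Complex.conj_ofReal]) (by
    rw [hX, map_mul, Complex.conj_ofReal, t0_ah_symm r t s, ← hw, map_mul]
    linear_combination (-(Th (r * s) : ℂ) * (starRingEnd ℂ) e) * hww)
  have h2 : ph ((starRingEnd ℂ) Y) ((starRingEnd ℂ) X) = (starRingEnd ℂ) (ph Y X) := by
    unfold ph
    rw [map_div₀, map_sub, map_sub, map_one, map_mul]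
  rw [h2] at h1
  have h3 := congrArg (starRingEnd ℂ) h1
  rw [Complex.conj_conj] at h3
  rw [h3, map_neg, map_mul, Complex.conj_ofReal, map_mul, Complex.conj_conj,
    ← Complex.exp_conj, map_neg, map_mul, Complex.conj_ofReal, Complex.conj_I, mul_neg, neg_neg,
    t0_ah_symm t s r, mul_comm t s]

end Pool.Agent.Helper11.Fatou
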