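import Mathlib
import Pool.Agent.Helper11.Fatou.Defs
import Pool.Agent.Helper11.Fatou.Tri0

namespace Pool.Agent.Helper11.Fatou

theorem one_sub_ne {a b : ℂ} (ha : ‖a‖ < 1) (hb : ‖b‖ < 1) : 1 - (starRingEnd ℂ) a * b ≠ 0 := by
  intro h
  have h1 : (starRingEnd ℂ) a * b = 1 := (sub_eq_zero.mp h).symm
  have h2 : ‖(starRingEnd ℂ) a * b‖ < 1 := by
    rw [norm_mul, RCLike.norm_conj]
    nlinarith [norm_nonneg a, norm_nonneg b]
  rw [h1, norm_one] at h2
  exact lt_irrefl _ h2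

theorem one_sub_ne' {a b : ℂ} (ha : ‖a‖ < 1) (hb : ‖b‖ < 1) : 1 - a * (starRingEnd ℂ) b ≠ 0 := by
  have := one_sub_ne hb ha
  rwa [mul_comm] at this

/-- invariance of directions -/
theorem ph_ph {v x y : ℂ} (hv : ‖v‖ < 1) (hx : ‖x‖ < 1) (hy : ‖y‖ < 1) :
    ph (ph v x) (ph v y) =
      ((1 - v * (starRingEnd ℂ) x) / (1 - (starRingEnd ℂ) v * x)) * ph x y := by
  have h1 := one_sub_ne hv hx
  have h2 := one_sub_ne hv hy
  have h3 := one_sub_ne' hv hx
  have h4 := one_sub_ne hx hy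
  have h5 := one_sub_ne hv hv
  have e1 : ph v y - ph v x = ((1 - (starRingEnd ℂ) v * v) * (y - x)) /
      ((1 - (starRingEnd ℂ) v * x) * (1 - (starRingEnd ℂ) v * y)) := by
    unfold ph
    rw [div_sub_div _ _ h2 h1, div_eq_div_iff (mul_ne_zero h2 h1) (mul_ne_zero h1 h2)]
    ring
  have e2 : 1 - (starRingEnd ℂ) (ph v x) * ph v y = ((1 - (starRingEnd ℂ) v * v) * (1 - (starRingEnd ℂ) x * y)) /
      ((1 - v * (starRingEnd ℂ) x) * (1 - (starRingEnd ℂ) v * y)) := by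
    unfold ph
    rw [map_div₀, map_sub, map_sub, map_one, map_mul, Complex.conj_conj]
    rw [div_mul_div_comm, eq_div_iff (mul_ne_zero h3 h2), sub_mul,
      div_mul_cancel₀ _ (mul_ne_zero h3 h2)]
    ring
  have e0 : ph (ph v x) (ph v y) = (ph v y - ph v x) / (1 - (starRingEnd ℂ) (ph v x) * ph v y) := rfl
  rw [e0, e1, e2]
  unfold ph
  field_simp

theorem norm_id (v x : ℂ) : ‖1 - (starRingEnd ℂ) v * x‖ ^ 2 - ‖x - v‖ ^ 2 =
    (1 - ‖v‖ ^ 2) * (1 - ‖x‖ ^ 2) := by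
  rw [Complex.sq_norm, Complex.sq_norm, Complex.sq_norm, Complex.sq_norm, Complex.normSq_apply,
    Complex.normSq_apply, Complex.normSq_apply, Complex.normSq_apply]
  simp
  ring

theorem ph_norm_lt {v x : ℂ} (hv : ‖v‖ < 1) (hx : ‖x‖ < 1) : ‖ph v x‖ < 1 := by
  have h1 := norm_id v x
  have h2 : 0 < 1 - ‖v‖ ^ 2 := by nlinarith [norm_nonneg v]
  have h3 : 0 < 1 - ‖x‖ ^ 2 := by nlinarith [norm_nonneg x]
  have h4 := mul_pos h2 h3
  have h5 : 0 < ‖1 - (starRingEnd ℂ) v * x‖ := norm_pos_iff.mpr (one_sub_ne hv hx)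
  unfold ph
  rw [norm_div, div_lt_one h5]
  apply lt_of_pow_lt_pow_left₀ 2 h5.le
  linarith

theorem ph_self_zero {v : ℂ} : ph v v = 0 := by
  unfold ph; rw [sub_self, zero_div]

theorem ph_norm_symm {v x : ℂ} : ‖ph v x‖ = ‖ph x v‖ := by
  unfold ph
  rw [norm_div, norm_div, norm_sub_rev x v]
  congr 1
  rw [← RCLike.norm_conj (1 - (starRingEnd ℂ) v * x)]
  congr 1
  rw [map_sub, map_one, map_mul, Complex.conj_conj, mul_comm]

/-- the inverse of `ph v` is `ph (-v)` -/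
theorem ph_inv {v w : ℂ} (hv : ‖v‖ < 1) (hw : ‖w‖ < 1) : ph v (ph (-v) w) = w := by
  have h1 : 1 + (starRingEnd ℂ) v * w ≠ 0 := by
    have := one_sub_ne (a := -v) (b := w) (by rwa [norm_neg]) hw
    rw [map_neg] at this
    intro h
    apply this
    rw [← h]; ring
  have h5 := one_sub_ne hv hv
  have e1 : ph (-v) w = (w + v) / (1 + (starRingEnd ℂ) v * w) := by
    unfold ph
    rw [map_neg]
    congr 1 <;> ring
  rw [e1]
  unfold ph
  have e2 : (w + v) / (1 + (starRingEnd ℂ) v * w) - v = (w * (1 - (starRingEnd ℂ) v * v)) / (1 + (starRingEnd ℂ) v * w) := by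
    rw [eq_div_iff h1, sub_mul, div_mul_cancel₀ _ h1]; ring
  have e3 : 1 - (starRingEnd ℂ) v * ((w + v) / (1 + (starRingEnd ℂ) v * w)) =
      (1 - (starRingEnd ℂ) v * v) / (1 + (starRingEnd ℂ) v * w) := by
    rw [eq_div_iff h1, sub_mul, mul_assoc, div_mul_cancel₀ _ h1]; ring
  rw [e2, e3, div_div_div_cancel_right₀ h1, mul_div_assoc, div_self h5, mul_one]

theorem ph_inv' {v w : ℂ} (hv : ‖v‖ < 1) (hw : ‖w‖ < 1) : ph (-v) (ph v w) = w := by
  have := ph_inv (v := -v) (w := w) (by rwa [norm_neg]) hw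
  rwa [neg_neg] at this

theorem Th_pos {x : ℝ} (hx : 1 < x) : 0 < Th x := by
  unfold Th
  exact div_pos (by linarith) (by linarith)

theorem Th_lt_one {x : ℝ} (hx : 1 < x) : Th x < 1 := by
  unfold Th
  rw [div_lt_one (by linarith)]; linarith

theorem un_spec (z : ℂ) : (‖z‖ : ℂ) * un z = z := by
  unfold un
  by_cases h : z = 0
  · rw [h]; simp
  · have : (‖z‖ : ℂ) ≠ 0 := by exact_mod_cast (norm_ne_zero_iff.mpr h)
    field_simp

theorem un_norm {z : ℂ} (h : 0 < ‖z‖) : ‖un z‖ = 1 := by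
  unfold un
  rw [norm_div, Complex.norm_real, norm_norm, div_self h.ne']

theorem un_smul {t : ℝ} (ht : 0 < t) {e : ℂ} (he : ‖e‖ = 1) : un ((t : ℂ) * e) = e := by
  unfold un
  rw [norm_mul, he, mul_one, Complex.norm_real, Real.norm_of_nonneg ht.le]
  have : (t : ℂ) ≠ 0 := by exact_mod_cast ht.ne'
  field_simp

theorem un_neg (z : ℂ) : un (-z) = - un z := by
  unfold un
  rw [norm_neg, neg_div]

theorem un_mul {w : ℂ} (hw : ‖w‖ = 1) (z : ℂ) : un (w * z) = w * un z := by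
  unfold un
  rw [norm_mul, hw, one_mul, mul_div_assoc]

theorem wfac_norm {v x : ℂ} (hv : ‖v‖ < 1) (hx : ‖x‖ < 1) :
    ‖(1 - v * (starRingEnd ℂ) x) / (1 - (starRingEnd ℂ) v * x)‖ = 1 := by
  have h1 := one_sub_ne hv hx
  rw [norm_div]
  have h2 : ‖1 - v * (starRingEnd ℂ) x‖ = ‖1 - (starRingEnd ℂ) v * x‖ := by
    rw [← RCLike.norm_conj (1 - v * (starRingEnd ℂ) x)]
    congr 1
    rw [map_sub, map_one, map_mul, Complex.conj_conj]
  rw [h2, div_self (norm_ne_zero_iff.mpr h1)]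

theorem ph_zero (X : ℂ) : ph X 0 = -X := by
  unfold ph; simp

theorem exp_norm (a : ℝ) : ‖Complex.exp ((a : ℝ) * Complex.I)‖ = 1 := Complex.norm_exp_ofReal_mul_I a

theorem exp_neg_norm (a : ℝ) : ‖Complex.exp (-((a : ℝ) * Complex.I))‖ = 1 := by
  have := Complex.norm_exp_ofReal_mul_I (-a)
  rwa [Complex.ofReal_neg, neg_mul] at this

theorem GH_tri {r s t : ℝ} {x y z : ℂ} (hr : 1 < r) (hs : 1 < s) (ht : 1 < t)
    (h1 : TgH r s x y) (h2 : TgH r t x z)
    (hd : un (ph x z) = Complex.exp ((ah r s t : ℝ) * Complex.I) * un (ph x y)) :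
    TgH s t y z ∧ un (ph y x) = Complex.exp ((ah s t r : ℝ) * Complex.I) * un (ph y z) ∧
      un (ph z y) = Complex.exp ((ah t r s : ℝ) * Complex.I) * un (ph z x) := by
  obtain ⟨hx, hy, hxy⟩ := h1
  obtain ⟨_, hz, hxz⟩ := h2
  have hrs : 1 < r * s := by nlinarith
  have hrt : 1 < r * t := by nlinarith
  have hst : 1 < s * t := by nlinarith
  have hprs := Th_pos hrs
  have hprt := Th_pos hrt
  have hpst := Th_pos hst
  set e : ℂ := un (ph x y) with he
  have hen : ‖e‖ = 1 := un_norm (by rw [hxy]; exact hprs)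
  have hX : ph x y = (Th (r * s) : ℂ) * e := by
    rw [he, ← hxy, un_spec]
  have hY : ph x z = (Th (r * t) : ℂ) * (Complex.exp ((ah r s t : ℝ) * Complex.I) * e) := by
    rw [← hd, ← hxz, un_spec]
  obtain ⟨t1, t2⟩ := ah_tri0 hr hs ht hen hX hY
  have p1 := ph_ph hx hy hz
  have p2 := ph_ph hx hz hy
  have p3 := ph_ph hx hy hx
  have p4 := ph_ph hx hz hx
  rw [ph_self_zero, ph_zero] at p3 p4
  have w1 := wfac_norm hx hy
  have w2 := wfac_norm hx hz
  set w : ℂ := (1 - x * (starRingEnd ℂ) y) / (1 - (starRingEnd ℂ) x * y) with hw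
  set w' : ℂ := (1 - x * (starRingEnd ℂ) z) / (1 - (starRingEnd ℂ) x * z) with hw'
  have hw0 : w ≠ 0 := by intro h; rw [h, norm_zero] at w1; exact zero_ne_one w1
  have hw0' : w' ≠ 0 := by intro h; rw [h, norm_zero] at w2; exact zero_ne_one w2
  have q1 : w * un (ph y z) = -(Complex.exp (-((ah s t r : ℝ) * Complex.I)) * e) := by
    rw [← un_mul w1, ← p1, t1, un_neg, un_smul hpst]
    rw [norm_mul, exp_neg_norm, hen, one_mul]
  have q3 : w * un (ph y x) = -e := by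
    rw [← un_mul w1, ← p3, hX, un_neg, un_smul hprs hen]
  have q2 : w' * un (ph z y) = -(Complex.exp ((ah t r s : ℝ) * Complex.I) *
        (Complex.exp ((ah r s t : ℝ) * Complex.I) * e)) := by
    rw [← un_mul w2, ← p2, t2, un_neg, un_smul hpst]
    rw [norm_mul, norm_mul, exp_norm, exp_norm, hen, one_mul, one_mul]
  have q4 : w' * un (ph z x) = -(Complex.exp ((ah r s t : ℝ) * Complex.I) * e) := by
    rw [← un_mul w2, ← p4, hY, un_neg, un_smul hprt]
    rw [norm_mul, exp_norm, hen, one_mul]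
  refine ⟨⟨hy, hz, ?_⟩, ?_, ?_⟩
  · have h3 : ‖ph (ph x y) (ph x z)‖ = Th (s * t) := by
      rw [t1, norm_neg, norm_mul, norm_mul, exp_neg_norm, hen, one_mul, mul_one, Complex.norm_real,
        Real.norm_of_nonneg hpst.le]
    rw [p1, norm_mul, w1, one_mul] at h3
    exact h3
  · apply mul_left_cancel₀ hw0
    rw [q3]
    have : w * (Complex.exp ((ah s t r : ℝ) * Complex.I) * un (ph y z)) =
        Complex.exp ((ah s t r : ℝ) * Complex.I) * (w * un (ph y z)) := by ring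
    rw [this, q1]
    have h4 : Complex.exp ((ah s t r : ℝ) * Complex.I) * Complex.exp (-((ah s t r : ℝ) * Complex.I)) = 1 := by
      rw [← Complex.exp_add, add_neg_cancel, Complex.exp_zero]
    calc -e = -((Complex.exp ((ah s t r : ℝ) * Complex.I) * Complex.exp (-((ah s t r : ℝ) * Complex.I))) * e) := by
          rw [h4, one_mul]
      _ = _ := by ring
  · apply mul_left_cancel₀ hw0'
    rw [q2]
    have : w' * (Complex.exp ((ah t r s : ℝ) * Complex.I) * un (ph z x)) =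
        Complex.exp ((ah t r s : ℝ) * Complex.I) * (w' * un (ph z x)) := by ring
    rw [this, q4]
    ring

/-- the hyperbolic geometry of tangent circles -/
noncomputable def GH : Geom where
  ok r := 1 < r
  ins x := ‖x‖ < 1
  α := ah
  Tg := TgH
  dir x y := un (ph x y)
  tg_ins := fun h => ⟨h.1, h.2.1⟩
  tg_symm := fun {r s x y} h => ⟨h.2.1, h.1, by rw [ph_norm_symm, h.2.2, mul_comm]⟩
  place := by
    intro r s x d hr hs hx hd
    have hrs : 1 < r * s := by nlinarith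
    have hprs := Th_pos hrs
    have hn : ‖(Th (r * s) : ℂ) * d‖ = Th (r * s) := by
      rw [norm_mul, hd, mul_one, Complex.norm_real, Real.norm_of_nonneg hprs.le]
    have hlt : ‖(Th (r * s) : ℂ) * d‖ < 1 := by rw [hn]; exact Th_lt_one hrs
    have hinv := ph_inv hx hlt
    refine ⟨ph (-x) ((Th (r * s) : ℂ) * d), ⟨hx, ph_norm_lt (by rwa [norm_neg]) hlt, ?_⟩, ?_⟩
    · rw [hinv, hn]
    · rw [hinv, un_smul hprs hd]
  uniq := by
    intro r s x y y' _ _ h1 h2 hd
    have e1 : ph x y = ph x y' := by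
      rw [← un_spec (ph x y), ← un_spec (ph x y'), h1.2.2, h2.2.2, hd]
    rw [← ph_inv' h1.1 h1.2.1, e1, ph_inv' h2.1 h2.2.1]
  dir_norm := by
    intro r s x y hr hs h
    apply un_norm
    rw [h.2.2]
    exact Th_pos (by nlinarith)
  tri := fun hr hs ht h1 h2 hd => GH_tri hr hs ht h1 h2 hd

end Pool.Agent.Helper11.Fatou
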