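import Mathlib
import Pool.Agent.Helper11.Fatou.Defs

namespace Pool.Agent.Helper11.Fatou

theorem perron {V : Type} (Θ : V → (V → ℝ) → ℝ) (lo : ℝ) (B : V → ℝ) (c : ℝ)
    (hmono : ∀ v f g, (∀ w, lo ≤ f w) → (∀ w, f w ≤ g w) → f v = g v → Θ v f ≤ Θ v g)
    (hcont : ∀ v, ContinuousOn (Θ v) {f | ∀ w, lo ≤ f w})
    (hlow : ∀ v, c ≤ Θ v (fun _ => lo))
    (hup : ∀ v f, (∀ w, lo ≤ f w) → c ≤ Θ v f → f v ≤ B v) :
    ∃ f : V → ℝ, (∀ w, lo ≤ f w) ∧ ∀ v, Θ v f = c := by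
  classical
  let S : Set (V → ℝ) := {f | (∀ w, lo ≤ f w) ∧ ∀ v, c ≤ Θ v f}
  have hlo : (fun _ => lo) ∈ S := ⟨fun _ => le_rfl, hlow⟩
  have hsup : ∀ f ∈ S, ∀ g ∈ S, f ⊔ g ∈ S := by
    intro f hf g hg
    refine ⟨fun w => (hf.1 w).trans le_sup_left, fun v => ?_⟩
    rcases le_total (g v) (f v) with h | h
    · refine (hf.2 v).trans (hmono v f (f ⊔ g) hf.1 (fun w => le_sup_left) ?_)
      exact (sup_eq_left.2 h).symm
    · refine (hg.2 v).trans (hmono v g (f ⊔ g) hg.1 (fun w => le_sup_right) ?_)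
      exact (sup_eq_right.2 h).symm
  have : Nonempty S := ⟨⟨_, hlo⟩⟩
  have : IsDirectedOrder S := ⟨fun f g => ⟨⟨f.1 ⊔ g.1, hsup _ f.2 _ g.2⟩,
    (le_sup_left : f.1 ≤ f.1 ⊔ g.1), (le_sup_right : g.1 ≤ f.1 ⊔ g.1)⟩⟩
  have hbdd : ∀ v, BddAbove (Set.range fun f : S => f.1 v) := by
    intro v
    refine ⟨B v, ?_⟩
    rintro _ ⟨f, rfl⟩
    exact hup v f.1 f.2.1 (f.2.2 v)
  let R : V → ℝ := fun v => ⨆ f : S, f.1 v
  have hle : ∀ f ∈ S, ∀ v, f v ≤ R v := fun f hf v => le_ciSup (hbdd v) (⟨f, hf⟩ : S)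
  have hRlo : ∀ w, lo ≤ R w := fun w => hle _ hlo w
  have htend : Filter.Tendsto (fun f : S => f.1) Filter.atTop (nhds R) := by
    rw [tendsto_pi_nhds]
    intro v
    refine tendsto_atTop_ciSup ?_ (hbdd v)
    intro f g hfg
    exact hfg v
  have hRS : R ∈ S := by
    refine ⟨hRlo, fun v => ?_⟩
    have h1 : Filter.Tendsto (Θ v) (nhdsWithin R {f | ∀ w, lo ≤ f w}) (nhds (Θ v R)) :=
      hcont v R hRlo
    have h2 : Filter.Tendsto (fun f : S => f.1) Filter.atTop (nhdsWithin R {f | ∀ w, lo ≤ f w}) :=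
      tendsto_nhdsWithin_iff.2 ⟨htend, Filter.Eventually.of_forall fun f => f.2.1⟩
    exact ge_of_tendsto (h1.comp h2) (Filter.Eventually.of_forall fun f => f.2.2 v)
  refine ⟨R, hRlo, fun v => ?_⟩
  by_contra hne
  have hlt : c < Θ v R := lt_of_le_of_ne (hRS.2 v) (Ne.symm hne)
  let g : ℝ → V → ℝ := fun t => Function.update R v (R v + t)
  have hgcont : Continuous g := by
    apply Continuous.update continuous_const
    fun_prop
  have hg0 : g 0 = R := by
    show Function.update R v (R v + 0) = R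
    rw [add_zero, Function.update_eq_self]
  have hglo : ∀ t : ℝ, 0 < t → ∀ w, R w ≤ g t w := by
    intro t ht w
    show R w ≤ Function.update R v (R v + t) w
    by_cases hw : w = v
    · subst hw
      rw [Function.update_self]
      linarith
    · rw [Function.update_of_ne hw]
  have hgt : Filter.Tendsto g (nhdsWithin 0 (Set.Ioi 0)) (nhdsWithin R {f | ∀ w, lo ≤ f w}) := by
    refine tendsto_nhdsWithin_iff.2 ⟨?_, ?_⟩
    · have := hgcont.tendsto 0
      rw [hg0] at this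
      exact this.mono_left nhdsWithin_le_nhds
    · filter_upwards [self_mem_nhdsWithin] with t ht
      intro w
      exact (hRlo w).trans (hglo t ht w)
  have h1 : Filter.Tendsto (Θ v) (nhdsWithin R {f | ∀ w, lo ≤ f w}) (nhds (Θ v R)) :=
    hcont v R hRlo
  have h2 : ∀ᶠ t in nhdsWithin (0 : ℝ) (Set.Ioi 0), c < Θ v (g t) :=
    (h1.comp hgt).eventually_const_lt hlt
  obtain ⟨t, ht, ht0⟩ := (h2.and self_mem_nhdsWithin).exists
  have ht0 : 0 < t := ht0
  have hgS : g t ∈ S := by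
    refine ⟨fun w => (hRlo w).trans (hglo t ht0 w), fun w => ?_⟩
    by_cases hw : w = v
    · rw [hw]; exact ht.le
    · refine (hRS.2 w).trans (hmono w R (g t) hRlo (hglo t ht0) ?_)
      show R w = Function.update R v (R v + t) w
      rw [Function.update_of_ne hw]
  have h3 := hle _ hgS v
  have h4 : g t v = R v + t := Function.update_self _ _ _
  rw [h4] at h3
  linarith

end Pool.Agent.Helper11.Fatou
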