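import Mathlib
import Pool.Agent.Helper11.Fatou.Defs
import Pool.Agent.Helper11.Fatou.Perron
import Pool.Agent.Helper11.Fatou.Ah
import Pool.Agent.Helper11.Fatou.Faces

namespace Pool.Agent.Helper11.Fatou

theorem per1 {b : ℕ → ℕ} {f : ℕ → ℤ → ℝ} (hf : Per b f) (n : ℕ) (x : ℤ) :
    f (n + 1) (x + (L b n : ℤ) * (b n : ℤ)) = f (n + 1) x := by
  have := hf (n + 1) x
  have e : ((L b (n + 1) : ℕ) : ℤ) = (L b n : ℤ) * (b n : ℤ) := by
    show ((L b n * b n : ℕ) : ℤ) = _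
    push_cast
    ring
  rw [e] at this
  exact this

theorem kids_per {b : ℕ → ℕ} (α : ℝ → ℝ → ℝ → ℝ) {f : ℕ → ℤ → ℝ}
    (hf : Per b f) (n : ℕ) (j : ℤ) : kids b α f n (j + (L b n : ℤ)) = kids b α f n j := by
  unfold kids
  apply Finset.sum_congr rfl
  intro i _
  have e1 : (j + (L b n : ℤ)) * (b n : ℤ) + (i : ℤ) =
      (j * (b n : ℤ) + (i : ℤ)) + (L b n : ℤ) * (b n : ℤ) := by ring
  have e2 : (j + (L b n : ℤ)) * (b n : ℤ) + (i : ℤ) + 1 =
      (j * (b n : ℤ) + (i : ℤ) + 1) + (L b n : ℤ) * (b n : ℤ) := by ring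
  rw [e2, e1, per1 hf, per1 hf, hf n j]

theorem used_succ (b : ℕ → ℕ) (α : ℝ → ℝ → ℝ → ℝ) (f : ℕ → ℤ → ℝ) (m : ℕ) (j : ℤ) :
    used b α f (m + 1) j = if 1 ≤ m ∧ (b m : ℤ) ∣ j then
      α (f (m + 1) j) (f (m + 1) (j + 1)) (f m (j / (b m : ℤ)))
        + α (f (m + 1) j) (f m (j / (b m : ℤ))) (f m (j / (b m : ℤ) - 1))
        + α (f (m + 1) j) (f m (j / (b m : ℤ) - 1)) (f (m + 1) (j - 1))
    else
      α (f (m + 1) j) (f (m + 1) (j + 1)) (f m (j / (b m : ℤ)))
        + α (f (m + 1) j) (f m (j / (b m : ℤ))) (f (m + 1) (j - 1)) := rfl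

theorem used_per {b : ℕ → ℕ} (hb : ∀ n, 1 ≤ b n) (α : ℝ → ℝ → ℝ → ℝ) {f : ℕ → ℤ → ℝ}
    (hf : Per b f) (n : ℕ) (j : ℤ) : used b α f n (j + (L b n : ℤ)) = used b α f n j := by
  cases n with
  | zero => rfl
  | succ m =>
    have hbm : (b m : ℤ) ≠ 0 := by
      have := hb m
      positivity
    have e : ((L b (m + 1) : ℕ) : ℤ) = (L b m : ℤ) * (b m : ℤ) := by
      show ((L b m * b m : ℕ) : ℤ) = _
      push_cast
      ring
    have hdiv : (j + (L b m : ℤ) * (b m : ℤ)) / (b m : ℤ) = j / (b m : ℤ) + (L b m : ℤ) :=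
      Int.add_mul_ediv_right _ _ hbm
    have hdvd : (b m : ℤ) ∣ j + (L b m : ℤ) * (b m : ℤ) ↔ (b m : ℤ) ∣ j :=
      dvd_add_left (Dvd.intro_left _ rfl)
    have e1 : j + (L b m : ℤ) * (b m : ℤ) + 1 = (j + 1) + (L b m : ℤ) * (b m : ℤ) := by ring
    have e2 : j + (L b m : ℤ) * (b m : ℤ) - 1 = (j - 1) + (L b m : ℤ) * (b m : ℤ) := by ring
    have e3 : j / (b m : ℤ) + (L b m : ℤ) - 1 = (j / (b m : ℤ) - 1) + (L b m : ℤ) := by ring
    rw [e, used_succ, used_succ]
    rw [hdiv, e1, e2, e3, per1 hf, per1 hf, per1 hf, hf m, hf m]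
    simp only [hdvd]

/-- the total angle is periodic -/
theorem total_per {b : ℕ → ℕ} (hb : ∀ n, 1 ≤ b n) (α : ℝ → ℝ → ℝ → ℝ) {f : ℕ → ℤ → ℝ}
    (hf : Per b f) (n : ℕ) (j : ℤ) : total b α f n (j + (L b n : ℤ)) = total b α f n j := by
  unfold total
  have e1 : (j + (L b n : ℤ)) * (b n : ℤ) = j * (b n : ℤ) + (L b n : ℤ) * (b n : ℤ) := by ring
  have e2 : (j + (L b n : ℤ) + 1) * (b n : ℤ) = (j + 1) * (b n : ℤ) + (L b n : ℤ) * (b n : ℤ) := by
    ring
  have e3 : j + (L b n : ℤ) - 1 = (j - 1) + (L b n : ℤ) := by ring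
  have e4 : j + (L b n : ℤ) + 1 = (j + 1) + (L b n : ℤ) := by ring
  rw [kids_per α hf, used_per hb α hf, e2, e1, e3, e4, per1 hf, per1 hf, hf n, hf n, hf n]

theorem kids_mono {b : ℕ → ℕ} {f g : ℕ → ℤ → ℝ} (hf : ∀ n j, 1000 ≤ f n j)
    (hfg : ∀ n j, f n j ≤ g n j) (n : ℕ) (j : ℤ) (he : f n j = g n j) :
    kids b ah f n j ≤ kids b ah g n j := by
  unfold kids
  apply Finset.sum_le_sum
  intro i _
  rw [← he]
  have h1 := hf n j
  have h2 := hf (n + 1) (j * (b n : ℤ) + (i : ℤ))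
  have h3 := hf (n + 1) (j * (b n : ℤ) + (i : ℤ) + 1)
  exact ah_mono (by linarith) (by linarith) (by linarith) (hfg _ _) (hfg _ _)

theorem term_mono {f g : ℕ → ℤ → ℝ} (hf : ∀ n j, 1000 ≤ f n j)
    (hfg : ∀ n j, f n j ≤ g n j) (n n1 n2 : ℕ) (j j1 j2 : ℤ) (he : f n j = g n j) :
    ah (f n j) (f n1 j1) (f n2 j2) ≤ ah (g n j) (g n1 j1) (g n2 j2) := by
  rw [← he]
  have h1 := hf n j
  have h2 := hf n1 j1
  have h3 := hf n2 j2
  exact ah_mono (by linarith) (by linarith) (by linarith) (hfg _ _) (hfg _ _)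

theorem used_mono {b : ℕ → ℕ} {f g : ℕ → ℤ → ℝ} (hf : ∀ n j, 1000 ≤ f n j)
    (hfg : ∀ n j, f n j ≤ g n j) (n : ℕ) (j : ℤ) (he : f n j = g n j) :
    used b ah f n j ≤ used b ah g n j := by
  cases n with
  | zero => exact le_refl _
  | succ m =>
    rw [used_succ, used_succ]
    split_ifs
    · exact add_le_add (add_le_add (term_mono hf hfg _ _ _ _ _ _ he)
        (term_mono hf hfg _ _ _ _ _ _ he)) (term_mono hf hfg _ _ _ _ _ _ he)
    · exact add_le_add (term_mono hf hfg _ _ _ _ _ _ he) (term_mono hf hfg _ _ _ _ _ _ he)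

theorem total_mono {b : ℕ → ℕ} {f g : ℕ → ℤ → ℝ} (hf : ∀ n j, 1000 ≤ f n j)
    (hfg : ∀ n j, f n j ≤ g n j) (n : ℕ) (j : ℤ) (he : f n j = g n j) :
    total b ah f n j ≤ total b ah g n j := by
  unfold total
  split_ifs
  · exact kids_mono hf hfg n j he
  · exact add_le_add (add_le_add (add_le_add (term_mono hf hfg _ _ _ _ _ _ he)
      (kids_mono hf hfg n j he)) (term_mono hf hfg _ _ _ _ _ _ he)) (used_mono hf hfg n j he)

theorem term_le {f : ℕ → ℤ → ℝ} (hf : ∀ n j, 1000 ≤ f n j)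
    (n n1 n2 : ℕ) (j j1 j2 : ℤ) : ah (f n j) (f n1 j1) (f n2 j2) ≤ 3 / f n j := by
  have h1 := hf n j
  have h2 := hf n1 j1
  have h3 := hf n2 j2
  exact ah_le (by linarith) (by linarith) (by linarith)

theorem term_pos {f : ℕ → ℤ → ℝ} (hf : ∀ n j, 1000 ≤ f n j)
    (n n1 n2 : ℕ) (j j1 j2 : ℤ) : 0 ≤ ah (f n j) (f n1 j1) (f n2 j2) := by
  have h1 := hf n j
  have h2 := hf n1 j1
  have h3 := hf n2 j2
  exact (ah_pos (by linarith) (by linarith) (by linarith)).le

theorem kids_le {b : ℕ → ℕ} {f : ℕ → ℤ → ℝ} (hf : ∀ n j, 1000 ≤ f n j) (n : ℕ) (j : ℤ) :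
    kids b ah f n j ≤ b n * (3 / f n j) := by
  unfold kids
  calc _ ≤ ∑ i ∈ Finset.range (b n), 3 / f n j :=
        Finset.sum_le_sum (fun i _ => term_le hf _ _ _ _ _ _)
    _ = b n * (3 / f n j) := by simp

theorem used_le {b : ℕ → ℕ} {f : ℕ → ℤ → ℝ} (hf : ∀ n j, 1000 ≤ f n j) (n : ℕ) (j : ℤ) :
    0 ≤ used b ah f n j ∧ used b ah f n j ≤ 3 * (3 / f n j) := by
  have h0 : 0 ≤ 3 / f n j := by
    have := hf n j
    positivity
  cases n with
  | zero =>
    refine ⟨le_refl _, ?_⟩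
    show (0 : ℝ) ≤ _
    positivity
  | succ m =>
    rw [used_succ]
    split_ifs
    · have t1 := term_le hf (m + 1) (m + 1) m j (j + 1) (j / (b m : ℤ))
      have t2 := term_le hf (m + 1) m m j (j / (b m : ℤ)) (j / (b m : ℤ) - 1)
      have t3 := term_le hf (m + 1) m (m + 1) j (j / (b m : ℤ) - 1) (j - 1)
      have p1 := term_pos hf (m + 1) (m + 1) m j (j + 1) (j / (b m : ℤ))
      have p2 := term_pos hf (m + 1) m m j (j / (b m : ℤ)) (j / (b m : ℤ) - 1)
      have p3 := term_pos hf (m + 1) m (m + 1) j (j / (b m : ℤ) - 1) (j - 1)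
      constructor <;> linarith
    · have t1 := term_le hf (m + 1) (m + 1) m j (j + 1) (j / (b m : ℤ))
      have t2 := term_le hf (m + 1) m (m + 1) j (j / (b m : ℤ)) (j - 1)
      have p1 := term_pos hf (m + 1) (m + 1) m j (j + 1) (j / (b m : ℤ))
      have p2 := term_pos hf (m + 1) m (m + 1) j (j / (b m : ℤ)) (j - 1)
      constructor <;> linarith

theorem total_le {b : ℕ → ℕ} {f : ℕ → ℤ → ℝ} (hf : ∀ n j, 1000 ≤ f n j) (n : ℕ) (j : ℤ) :
    total b ah f n j ≤ (b n + 5) * (3 / f n j) := by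
  have h0 : 0 ≤ 3 / f n j := by
    have := hf n j
    positivity
  have hk := kids_le (b := b) hf n j
  have hu := (used_le (b := b) hf n j).2
  unfold total
  split_ifs
  · linarith
  · have t1 := term_le hf n n (n + 1) j (j - 1) (j * (b n : ℤ))
    have t2 := term_le hf n (n + 1) n j ((j + 1) * (b n : ℤ)) (j + 1)
    linarith

theorem kids_ge {b : ℕ → ℕ} (hb : ∀ n, 10000 ≤ b n) (n : ℕ) (j : ℤ) :
    19 ≤ kids b ah (fun _ _ => 1000) n j := by
  unfold kids
  have h1 : ∀ i ∈ Finset.range (b n), (19 / 10 / 1000 : ℝ) ≤ ah 1000 1000 1000 :=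
    fun i _ => ah_ge le_rfl le_rfl le_rfl
  have h2 := Finset.sum_le_sum h1
  rw [Finset.sum_const, Finset.card_range, nsmul_eq_mul] at h2
  have h3 : (10000 : ℝ) ≤ b n := by exact_mod_cast hb n
  have h4 : (19 : ℝ) ≤ b n * (19 / 10 / 1000) := by nlinarith
  exact h4.trans h2

theorem total_ge {b : ℕ → ℕ} (hb : ∀ n, 10000 ≤ b n) (n : ℕ) (j : ℤ) :
    2 * Real.pi ≤ total b ah (fun _ _ => 1000) n j := by
  have hk := kids_ge hb n j
  have hpi := Real.pi_lt_four
  have hf : ∀ (n : ℕ) (j : ℤ), (1000 : ℝ) ≤ (fun (_ : ℕ) (_ : ℤ) => (1000 : ℝ)) n j :=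
    fun _ _ => le_rfl
  have hu := (used_le (b := b) hf n j).1
  have p : 0 ≤ ah 1000 1000 1000 := (ah_pos (by norm_num) (by norm_num) (by norm_num)).le
  unfold total
  split_ifs
  · linarith
  · show 2 * Real.pi ≤ ah 1000 1000 1000 + kids b ah (fun _ _ => 1000) n j
      + ah 1000 1000 1000 + used b ah (fun _ _ => 1000) n j
    linarith

theorem term_cont {V : Type} (u v w : V) :
    ContinuousOn (fun g : V → ℝ => ah (g u) (g v) (g w)) {f | ∀ w, (1000 : ℝ) ≤ f w} := by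
  have hc : Continuous (fun g : V → ℝ => (g u, g v, g w)) := by fun_prop
  refine ah_cont.comp (f := fun g : V → ℝ => (g u, g v, g w)) hc.continuousOn ?_
  intro g hg
  have h1 := hg u
  have h2 := hg v
  have h3 := hg w
  exact ⟨by show 1 < g u; linarith, by show 1 < g v; linarith, by show 1 < g w; linarith⟩

theorem total_cont {b : ℕ → ℕ} (n : ℕ) (j : ℤ) :
    ContinuousOn (fun g : Vtx b → ℝ => total b ah (fun n j => g (mk b n j)) n j)
      {f | ∀ w, (1000 : ℝ) ≤ f w} := by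
  have hk : ContinuousOn (fun g : Vtx b → ℝ => kids b ah (fun n j => g (mk b n j)) n j)
      {f | ∀ w, (1000 : ℝ) ≤ f w} := by
    unfold kids
    exact continuousOn_finsetSum _ (fun i _ => term_cont _ _ _)
  have hu : ContinuousOn (fun g : Vtx b → ℝ => used b ah (fun n j => g (mk b n j)) n j)
      {f | ∀ w, (1000 : ℝ) ≤ f w} := by
    cases n with
    | zero =>
      show ContinuousOn (fun _ : Vtx b → ℝ => (0 : ℝ)) _
      exact continuousOn_const
    | succ m =>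
      simp only [used_succ]
      split_ifs
      · exact ((term_cont _ _ _).add (term_cont _ _ _)).add (term_cont _ _ _)
      · exact (term_cont _ _ _).add (term_cont _ _ _)
  unfold total
  split_ifs
  · exact hk
  · exact (((term_cont _ _ _).add hk).add (term_cont _ _ _)).add hu

/-- hyperbolic labels with total angle `2π` everywhere -/
theorem hyp_label {b : ℕ → ℕ} (hb : ∀ n, 10000 ≤ b n) :
    ∃ f : ℕ → ℤ → ℝ, Per b f ∧ (∀ n j, 1000 ≤ f n j) ∧
      ∀ n j, total b ah f n j = 2 * Real.pi := by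
  have hb1 : ∀ n, 1 ≤ b n := fun n => le_trans (by norm_num) (hb n)
  have hrep : ∀ v : Vtx b, ∃ q : ℕ × ℤ, v = mk b q.1 q.2 := by
    intro v
    obtain ⟨n, j, h⟩ := exists_rep v
    exact ⟨(n, j), h⟩
  choose q hq using hrep
  have hper : ∀ g : Vtx b → ℝ, Per b (fun n j => g (mk b n j)) := by
    intro g n j
    show g (mk b n (j + (L b n : ℤ))) = g (mk b n j)
    rw [mk_eq_iff.2 ⟨rfl, by rw [add_sub_cancel_left]⟩]
  obtain ⟨f, hf1, hf2⟩ := perron
    (fun v g => total b ah (fun n j => g (mk b n j)) (q v).1 (q v).2) 1000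
    (fun v => (b (q v).1 : ℝ) + 5) (2 * Real.pi)
    (by
      intro v f g hf hfg hv
      apply total_mono
      · intro n j; exact hf _
      · intro n j; exact hfg _
      · show f (mk b (q v).1 (q v).2) = g (mk b (q v).1 (q v).2)
        rw [← hq v]
        exact hv)
    (fun v => total_cont _ _)
    (fun v => total_ge hb _ _)
    (by
      intro v f hf hc
      have h1 := total_le (b := b) (f := fun n j => f (mk b n j)) (fun n j => hf _) (q v).1 (q v).2
      have h2 : f (mk b (q v).1 (q v).2) = f v := by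
        rw [← hq v]
      rw [h2] at h1
      have h3 : 2 * Real.pi ≤ ((b (q v).1 : ℝ) + 5) * (3 / f v) := hc.trans h1
      have hv : 0 < f v := by
        have := hf v
        linarith
      rw [mul_div_assoc', le_div_iff₀ hv] at h3
      have hpi := Real.pi_gt_three
      have h4 : 3 * f v ≤ 2 * Real.pi * f v := by nlinarith
      show f v ≤ (b (q v).1 : ℝ) + 5
      linarith)
  refine ⟨fun n j => f (mk b n j), hper f, fun n j => hf1 _, ?_⟩
  intro n j
  have h := hf2 (mk b n j)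
  have hm := mk_eq_iff.1 (hq (mk b n j))
  obtain ⟨h1, k, hk⟩ := hm
  have hP : Function.Periodic (total b ah (fun n j => f (mk b n j)) n) (L b n : ℤ) :=
    fun x => total_per hb1 ah (hper f) n x
  have hP2 := hP.int_mul k (q (mk b n j)).2
  have e : (q (mk b n j)).2 + (k : ℤ) * (L b n : ℤ) = j := by
    rw [mul_comm]
    linarith
  have hP3 : total b ah (fun n j => f (mk b n j)) n j
      = total b ah (fun n j => f (mk b n j)) n (q (mk b n j)).2 := by
    rw [← hP2, Int.cast_id, e]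
  rw [hP3]
  have h' : total b ah (fun n j => f (mk b n j)) (q (mk b n j)).1 (q (mk b n j)).2
      = 2 * Real.pi := h
  rw [← h1] at h'
  exact h'

end Pool.Agent.Helper11.Fatou
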