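import Mathlib
import Pool.Agent.Helper11.Fatou.Defs
import Pool.Agent.Helper11.Fatou.Blocks
import Pool.Agent.Helper11.Fatou.Closing

namespace Pool.Agent.Helper11.Fatou














/-- closing lemma -/
theorem div_add_per {b : ℕ → ℕ} (hb : ∀ n, 4 ≤ b n) (n : ℕ) (k : ℤ) :
    (k + (L b (n + 1) : ℤ)) / (b n : ℤ) = k / (b n : ℤ) + (L b n : ℤ) := by
  have h1 : (L b (n + 1) : ℤ) = (L b n : ℤ) * (b n : ℤ) := by
    show ((L b n * b n : ℕ) : ℤ) = _
    push_cast
    rfl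
  have h2 : (b n : ℤ) ≠ 0 := by have := hb n; omega
  rw [h1, Int.add_mul_ediv_right _ _ h2]

theorem inb_per {b : ℕ → ℕ} (hb : ∀ n, 4 ≤ b n) (D : Blk b) (n : ℕ) (k : ℤ) :
    D.inb n (k + (L b (n + 1) : ℤ)) ↔ D.inb n k := by
  unfold Blk.inb
  rw [div_add_per hb, D.s_per]
  constructor
  · rintro ⟨h1, h2⟩
    exact ⟨by linarith, by linarith⟩
  · rintro ⟨h1, h2⟩
    exact ⟨by linarith, by linarith⟩

theorem alive_per {b : ℕ → ℕ} (hb : ∀ n, 4 ≤ b n) (D : Blk b) (n : ℕ) (k : ℤ) :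
    D.alive n (k + (L b n : ℤ)) ↔ D.alive n k := by
  induction n generalizing k with
  | zero => exact Iff.rfl
  | succ n ih =>
    show D.alive n ((k + (L b (n + 1) : ℤ)) / (b n : ℤ)) ∧ ¬ D.inb n (k + (L b (n + 1) : ℤ)) ↔
      D.alive n (k / (b n : ℤ)) ∧ ¬ D.inb n k
    rw [div_add_per hb, ih, inb_per hb]

theorem giant_per {b : ℕ → ℕ} (hb : ∀ n, 4 ≤ b n) (hev : ∀ n, 2 ∣ b n) (D : Blk b) (n : ℕ)
    (k : ℤ) : D.giant n (k + (L b n : ℤ)) ↔ D.giant n k := by
  unfold Blk.giant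
  rw [alive_per hb]
  cases n with
  | zero =>
    constructor
    · rintro ⟨h, -⟩; exact absurd h (by decide)
    · rintro ⟨h, -⟩; exact absurd h (by decide)
  | succ m =>
    have h1 : (k + (L b (m + 1) : ℤ)) % 2 = k % 2 := by
      obtain ⟨c, hc⟩ := hev m
      have h2 : (L b (m + 1) : ℤ) = 2 * ((L b m : ℤ) * c) := by
        show ((L b m * b m : ℕ) : ℤ) = _
        rw [hc]
        push_cast
        ring
      rw [h2]
      omega
    rw [h1]

theorem pre_per {b : ℕ → ℕ} (hb : ∀ n, 4 ≤ b n) (hev : ∀ n, 2 ∣ b n) (D : Blk b) (n : ℕ) (k : ℤ) :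
    D.pre n (k + (L b (n + 1) : ℤ)) = D.pre n k := by
  unfold Blk.pre
  have h := giant_per hb hev D (n + 1) k
  by_cases hg : D.giant (n + 1) k
  · rw [if_pos hg, if_pos (h.mpr hg)]
  · rw [if_neg hg, if_neg (fun h' => hg (h.mp h'))]

theorem msz_pos (n : ℕ) : 0 < msz n := by unfold msz; positivity

theorem msz_le_one (n : ℕ) : msz n ≤ 1 := by
  unfold msz
  exact pow_le_one₀ (by norm_num) (by norm_num)

theorem pre_pos {b : ℕ → ℕ} (hb : ∀ n, 4 ≤ b n) (D : Blk b) (n : ℕ) (k : ℤ) : 0 < D.pre n k := by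
  unfold Blk.pre
  have h1 : (0 : ℝ) < b n := by
    have := hb n
    exact_mod_cast (by omega : 0 < b n)
  have := msz_pos (n + 1)
  split_ifs
  · norm_num
  · positivity

theorem pre_le_one {b : ℕ → ℕ} (hb : ∀ n, 4 ≤ b n) (D : Blk b) (n : ℕ) (k : ℤ) : D.pre n k ≤ 1 := by
  unfold Blk.pre
  have h1 : (1 : ℝ) ≤ b n := by
    have := hb n
    exact_mod_cast (by omega : 1 ≤ b n)
  split_ifs
  · norm_num
  · exact (div_le_self (msz_pos _).le h1).trans (msz_le_one _)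

open Classical in
/-- the size chosen by the closing lemma -/
noncomputable def tauOf (x m C : ℝ) (N B s : ℕ) (y : ℕ → ℝ) : ℝ :=
  if h : ∃ τ : ℝ, 0 < τ ∧ τ ≤ m ∧ ∃ k : ℤ,
      C + ∑ i ∈ Finset.range N, ae x (if s ≤ i ∧ i < s + B then τ else y i)
        (if s ≤ i + 1 ∧ i + 1 < s + B then τ else y (i + 1)) = 2 * Real.pi * k
  then h.choose else m

theorem tauOf_spec {x m C : ℝ} (hx : 0 < x) (hx1 : x ≤ 1) (hm : 0 < m) (hm1 : m ≤ 1) {N B s : ℕ}
    (hsN : s + B ≤ N) (hB : 2 * Real.pi ≤ ((B : ℝ) - 1) * (m / 2)) {y : ℕ → ℝ}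
    (hy : ∀ i, 0 ≤ y i) :
    0 < tauOf x m C N B s y ∧ tauOf x m C N B s y ≤ m ∧ ∃ k : ℤ,
      C + ∑ i ∈ Finset.range N, ae x (if s ≤ i ∧ i < s + B then tauOf x m C N B s y else y i)
        (if s ≤ i + 1 ∧ i + 1 < s + B then tauOf x m C N B s y else y (i + 1)) = 2 * Real.pi * k := by
  have h := closing (C := C) hx hx1 hm hm1 hsN hB hy
  have e : tauOf x m C N B s y = h.choose := dif_pos h
  rw [e]
  exact h.choose_spec

/-- the angle of the faces not among the children -/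
noncomputable def Cof {b : ℕ → ℕ} (D : Blk b) (n : ℕ) (f : ℕ → ℤ → ℝ) (j : ℤ) : ℝ :=
  if n = 0 then 0 else ae (f n j) (f n (j - 1)) (D.pre n (j * (b n : ℤ)))
    + ae (f n j) (D.pre n ((j + 1) * (b n : ℤ))) (f n (j + 1)) + used b ae f n j

/-- the size in the block of `j` -/
noncomputable def tt {b : ℕ → ℕ} (D : Blk b) (n : ℕ) (f : ℕ → ℤ → ℝ) (j : ℤ) : ℝ :=
  tauOf (f n j) (msz (n + 1)) (Cof D n f j) (b n) (D.B n) (D.s n j - j * (b n : ℤ)).toNat
    (fun i => D.pre n (j * (b n : ℤ) + (i : ℤ)))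

open Classical in
/-- the next level -/
noncomputable def nxt {b : ℕ → ℕ} (D : Blk b) (n : ℕ) (f : ℕ → ℤ → ℝ) (k : ℤ) : ℝ :=
  if D.inb n k then tt D n f (k / (b n : ℤ)) else D.pre n k

/-- the labelling up to level `n` -/
noncomputable def sq {b : ℕ → ℕ} (D : Blk b) : ℕ → (ℕ → ℤ → ℝ)
  | 0 => fun _ _ => msz 0
  | n + 1 => Function.update (sq D n) (n + 1) (nxt D n (sq D n))

theorem sq_le {b : ℕ → ℕ} (D : Blk b) (n l : ℕ) (h : l ≤ n) : sq D n l = sq D l l := by
  induction n with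
  | zero =>
    have : l = 0 := by omega
    subst this
    rfl
  | succ n ih =>
    rcases Nat.eq_or_lt_of_le h with he | hlt
    · subst he; rfl
    · rw [← ih (by omega)]
      show Function.update (sq D n) (n + 1) (nxt D n (sq D n)) l = sq D n l
      rw [Function.update_of_ne (by omega)]

theorem used_congr {b : ℕ → ℕ} (α : ℝ → ℝ → ℝ → ℝ) (f g : ℕ → ℤ → ℝ) (n : ℕ)
    (h : ∀ l ≤ n, f l = g l) (j : ℤ) : used b α f n j = used b α g n j := by
  cases n with
  | zero => rfl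
  | succ m =>
    simp only [used]
    rw [h (m + 1) le_rfl, h m (by omega)]

theorem nxt_congr {b : ℕ → ℕ} (D : Blk b) (n : ℕ) (f g : ℕ → ℤ → ℝ) (h : ∀ l ≤ n, f l = g l) :
    nxt D n f = nxt D n g := by
  funext k
  unfold nxt tt Cof
  rw [h n le_rfl, used_congr ae f g n h]

theorem val_child {b : ℕ → ℕ} (hb : ∀ n, 4 ≤ b n) (D : Blk b) (n : ℕ) (f : ℕ → ℤ → ℝ) (j : ℤ)
    (i : ℕ) (hi : i ≤ b n) :
    nxt D n f (j * (b n : ℤ) + (i : ℤ)) =
      if (D.s n j - j * (b n : ℤ)).toNat ≤ i ∧ i < (D.s n j - j * (b n : ℤ)).toNat + D.B n then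
        tt D n f j else D.pre n (j * (b n : ℤ) + (i : ℤ)) := by
  have hlo := D.s_lo n j
  have hhi := D.s_hi n j
  have hb0 : (0 : ℤ) < b n := by have := hb n; omega
  have hjb : (j + 1) * (b n : ℤ) = j * (b n : ℤ) + (b n : ℤ) := by ring
  rw [hjb] at hhi
  unfold nxt
  rcases Nat.lt_or_ge i (b n) with hlt | hge
  · have hdiv : (j * (b n : ℤ) + (i : ℤ)) / (b n : ℤ) = j := by
      rw [add_comm, Int.add_mul_ediv_right _ _ hb0.ne', Int.ediv_eq_zero_of_lt (by omega) (by omega),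
        zero_add]
    by_cases hin : D.inb n (j * (b n : ℤ) + (i : ℤ))
    · rw [if_pos hin, hdiv, if_pos]
      unfold Blk.inb at hin
      rw [hdiv] at hin
      omega
    · rw [if_neg hin, if_neg]
      intro h
      apply hin
      unfold Blk.inb
      rw [hdiv]
      omega
  · have he : i = b n := by omega
    subst he
    have hdiv : (j * (b n : ℤ) + (b n : ℤ)) / (b n : ℤ) = j + 1 := by
      rw [← hjb]
      exact Int.mul_ediv_cancel _ hb0.ne'
    rw [if_neg, if_neg]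
    · omega
    · unfold Blk.inb
      rw [hdiv]
      have h1 := D.s_lo n (j + 1)
      rw [hjb] at h1
      omega

theorem lb_used_per {b : ℕ → ℕ} (hb : ∀ n, 4 ≤ b n) (α : ℝ → ℝ → ℝ → ℝ) (f : ℕ → ℤ → ℝ) (n : ℕ)
    (h : ∀ l ≤ n, ∀ j, f l (j + (L b l : ℤ)) = f l j) (j : ℤ) :
    used b α f n (j + (L b n : ℤ)) = used b α f n j := by
  cases n with
  | zero => rfl
  | succ m =>
    simp only [used]
    have h1 := h (m + 1) le_rfl
    have h2 := h m (by omega)
    have e1 : j + (L b (m + 1) : ℤ) + 1 = (j + 1) + (L b (m + 1) : ℤ) := by ring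
    have e2 : j + (L b (m + 1) : ℤ) - 1 = (j - 1) + (L b (m + 1) : ℤ) := by ring
    have e3 : j / (b m : ℤ) + (L b m : ℤ) - 1 = (j / (b m : ℤ) - 1) + (L b m : ℤ) := by ring
    have e4 : ((b m : ℤ) ∣ j + (L b (m + 1) : ℤ)) ↔ ((b m : ℤ) ∣ j) := by
      apply dvd_add_left
      exact ⟨(L b m : ℤ), by
        show ((L b m * b m : ℕ) : ℤ) = _
        push_cast
        ring⟩
    rw [e1, e2, div_add_per hb, e3, h1, h1, h1, h2, h2]
    simp only [e4]

theorem tt_per {b : ℕ → ℕ} (hb : ∀ n, 4 ≤ b n) (hev : ∀ n, 2 ∣ b n) (D : Blk b) (f : ℕ → ℤ → ℝ)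
    (n : ℕ) (h : ∀ l ≤ n, ∀ j, f l (j + (L b l : ℤ)) = f l j) (j : ℤ) :
    tt D n f (j + (L b n : ℤ)) = tt D n f j := by
  have hn := h n le_rfl
  have hL : (L b (n + 1) : ℤ) = (L b n : ℤ) * (b n : ℤ) := by
    show ((L b n * b n : ℕ) : ℤ) = _
    push_cast
    rfl
  have e0 : (j + (L b n : ℤ)) * (b n : ℤ) = j * (b n : ℤ) + (L b (n + 1) : ℤ) := by rw [hL]; ring
  have e1 : (j + (L b n : ℤ) + 1) * (b n : ℤ) = (j + 1) * (b n : ℤ) + (L b (n + 1) : ℤ) := by
    rw [hL]; ring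
  have e2 : j + (L b n : ℤ) - 1 = (j - 1) + (L b n : ℤ) := by ring
  have e3 : j + (L b n : ℤ) + 1 = (j + 1) + (L b n : ℤ) := by ring
  have hC : Cof D n f (j + (L b n : ℤ)) = Cof D n f j := by
    unfold Cof
    rw [lb_used_per hb ae f n h, e1, e0, pre_per hb hev, pre_per hb hev, e2, e3, hn, hn, hn]
  have hs : D.s n (j + (L b n : ℤ)) - (j + (L b n : ℤ)) * (b n : ℤ) = D.s n j - j * (b n : ℤ) := by
    rw [D.s_per, e0]; ring
  have hy : (fun i : ℕ => D.pre n ((j + (L b n : ℤ)) * (b n : ℤ) + (i : ℤ)))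
      = fun i : ℕ => D.pre n (j * (b n : ℤ) + (i : ℤ)) := by
    funext i
    have : (j + (L b n : ℤ)) * (b n : ℤ) + (i : ℤ) = (j * (b n : ℤ) + (i : ℤ)) + (L b (n + 1) : ℤ) := by
      rw [e0]; ring
    rw [this, pre_per hb hev]
  unfold tt
  rw [hC, hs, hy, hn]

theorem exists_labels {b : ℕ → ℕ} (hb : ∀ n, 4 ≤ b n) (hev : ∀ n, 2 ∣ b n) (D : Blk b)
    (hB : ∀ n, 2 * Real.pi ≤ ((D.B n : ℝ) - 1) * (msz (n + 1) / 2)) :
    ∃ r : ℕ → ℤ → ℝ, Per b r ∧ (∀ n k, 0 < r n k) ∧ (∀ k, r 0 k = msz 0) ∧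
      (∀ n k, D.inb n k → r (n + 1) k ≤ msz (n + 1)) ∧
      (∀ n k, ¬ D.inb n k → r (n + 1) k = D.pre n k) ∧
      (∀ n j, ∃ k : ℤ, total b ae r n j = 2 * Real.pi * k) := by
  set r : ℕ → ℤ → ℝ := fun n => sq D n n with hr
  have hr0 : ∀ k, r 0 k = msz 0 := fun k => rfl
  have hrs : ∀ n, r (n + 1) = nxt D n r := by
    intro n
    have h1 : r (n + 1) = nxt D n (sq D n) := by
      show Function.update (sq D n) (n + 1) (nxt D n (sq D n)) (n + 1) = _
      rw [Function.update_self]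
    rw [h1]
    exact nxt_congr D n _ _ (fun l hl => sq_le D n l hl)
  -- spec of tt
  have hspec : ∀ n j, 0 < r n j → r n j ≤ 1 → 0 < tt D n r j ∧ tt D n r j ≤ msz (n + 1) ∧ ∃ k : ℤ,
      Cof D n r j + ∑ i ∈ Finset.range (b n), ae (r n j)
        (if (D.s n j - j * (b n : ℤ)).toNat ≤ i ∧ i < (D.s n j - j * (b n : ℤ)).toNat + D.B n then
          tt D n r j else D.pre n (j * (b n : ℤ) + (i : ℤ)))
        (if (D.s n j - j * (b n : ℤ)).toNat ≤ i + 1 ∧ i + 1 < (D.s n j - j * (b n : ℤ)).toNat + D.B n then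
          tt D n r j else D.pre n (j * (b n : ℤ) + ((i + 1 : ℕ) : ℤ))) = 2 * Real.pi * k := by
    intro n j h1 h2
    have hlo := D.s_lo n j
    have hhi := D.s_hi n j
    have hjb : (j + 1) * (b n : ℤ) = j * (b n : ℤ) + (b n : ℤ) := by ring
    rw [hjb] at hhi
    exact tauOf_spec (C := Cof D n r j) h1 h2 (msz_pos (n + 1)) (msz_le_one (n + 1))
      (N := b n) (B := D.B n) (s := (D.s n j - j * (b n : ℤ)).toNat) (by omega) (hB n)
      (y := fun i => D.pre n (j * (b n : ℤ) + (i : ℤ))) (fun i => (pre_pos hb D n _).le)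
  have hpos : ∀ n k, 0 < r n k ∧ r n k ≤ 1 := by
    intro n
    induction n with
    | zero => intro k; rw [hr0]; exact ⟨msz_pos 0, msz_le_one 0⟩
    | succ n ih =>
      intro k
      rw [hrs]
      unfold nxt
      split_ifs with h
      · have := hspec n (k / (b n : ℤ)) (ih _).1 (ih _).2
        exact ⟨this.1, this.2.1.trans (msz_le_one _)⟩
      · exact ⟨pre_pos hb D n k, pre_le_one hb D n k⟩
  have hper : ∀ n, ∀ l ≤ n, ∀ j, r l (j + (L b l : ℤ)) = r l j := by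
    intro n
    induction n with
    | zero =>
      intro l hl j
      have : l = 0 := by omega
      subst this
      rw [hr0, hr0]
    | succ n ih =>
      intro l hl j
      rcases Nat.eq_or_lt_of_le hl with he | hlt
      · subst he
        rw [hrs]
        unfold nxt
        rw [div_add_per hb, tt_per hb hev D r n ih, pre_per hb hev]
        by_cases h : D.inb n j
        · rw [if_pos h, if_pos ((inb_per hb D n j).mpr h)]
        · rw [if_neg h, if_neg (fun h' => h ((inb_per hb D n j).mp h'))]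
      · exact ih l (by omega) j
  refine ⟨r, fun n j => hper n n le_rfl j, fun n k => (hpos n k).1, hr0, ?_, ?_, ?_⟩
  · intro n k h
    rw [hrs]
    unfold nxt
    rw [if_pos h]
    exact (hspec n _ (hpos _ _).1 (hpos _ _).2).2.1
  · intro n k h
    rw [hrs]
    unfold nxt
    rw [if_neg h]
  · intro n j
    obtain ⟨-, -, k, hk⟩ := hspec n j (hpos n j).1 (hpos n j).2
    refine ⟨k, ?_⟩
    rw [← hk]
    have hkids : kids b ae r n j = ∑ i ∈ Finset.range (b n), ae (r n j)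
        (if (D.s n j - j * (b n : ℤ)).toNat ≤ i ∧ i < (D.s n j - j * (b n : ℤ)).toNat + D.B n then
          tt D n r j else D.pre n (j * (b n : ℤ) + (i : ℤ)))
        (if (D.s n j - j * (b n : ℤ)).toNat ≤ i + 1 ∧ i + 1 < (D.s n j - j * (b n : ℤ)).toNat + D.B n then
          tt D n r j else D.pre n (j * (b n : ℤ) + ((i + 1 : ℕ) : ℤ))) := by
      unfold kids
      refine Finset.sum_congr rfl ?_
      intro i hi
      rw [Finset.mem_range] at hi
      have e1 : j * (b n : ℤ) + (i : ℤ) + 1 = j * (b n : ℤ) + ((i + 1 : ℕ) : ℤ) := by push_cast; ring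
      rw [e1, hrs n, val_child hb D n r j i hi.le, val_child hb D n r j (i + 1) hi]
    unfold total
    rw [hkids]
    unfold Cof
    split_ifs with h0
    · rw [zero_add]
    · have f1 : r (n + 1) (j * (b n : ℤ)) = D.pre n (j * (b n : ℤ)) := by
        have h1 := val_child hb D n r j 0 (Nat.zero_le _)
        have hlo := D.s_lo n j
        rw [Nat.cast_zero, add_zero, if_neg (by omega)] at h1
        rw [hrs, h1]
      have f2 : r (n + 1) ((j + 1) * (b n : ℤ)) = D.pre n ((j + 1) * (b n : ℤ)) := by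
        have h1 := val_child hb D n r (j + 1) 0 (Nat.zero_le _)
        have hlo := D.s_lo n (j + 1)
        rw [Nat.cast_zero, add_zero, if_neg (by omega)] at h1
        rw [hrs, h1]
      rw [f1, f2]
      ring

end Pool.Agent.Helper11.Fatou
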