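import Mathlib
import Pool.Agent.Helper11.Fatou.Defs
import Pool.Agent.Helper11.Fatou.ChildArgs

namespace Pool.Agent.Helper11.Fatou

/-- argument of a quotient of two vectors given in polar form -/
theorem lift_arg {r r' t t' : ℝ} (hr : 0 < r) (hr' : 0 < r')
    (h1 : 0 < t' - t) (h2 : t' - t < Real.pi) :
    Complex.arg (((r' : ℂ) * Complex.exp ((t' : ℝ) * Complex.I)) /
      ((r : ℂ) * Complex.exp ((t : ℝ) * Complex.I))) = t' - t ∧
    0 < ((starRingEnd ℂ) ((r : ℂ) * Complex.exp ((t : ℝ) * Complex.I)) *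
      ((r' : ℂ) * Complex.exp ((t' : ℝ) * Complex.I))).im := by
  have hrc : (r : ℂ) ≠ 0 := by exact_mod_cast hr.ne'
  constructor
  · have e : ((r' : ℂ) * Complex.exp ((t' : ℝ) * Complex.I)) /
      ((r : ℂ) * Complex.exp ((t : ℝ) * Complex.I)) = ((r' / r : ℝ) : ℂ) *
        (Complex.cos ((t' - t : ℝ) : ℂ) + Complex.sin ((t' - t : ℝ) : ℂ) * Complex.I) := by
      rw [← Complex.exp_mul_I, mul_div_mul_comm, ← Complex.exp_sub]
      push_cast
      congr 2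
      ring
    rw [e]
    exact Complex.arg_mul_cos_add_sin_mul_I (by positivity) ⟨by linarith [Real.pi_pos], h2.le⟩
  · have e : (starRingEnd ℂ) ((r : ℂ) * Complex.exp ((t : ℝ) * Complex.I)) *
      ((r' : ℂ) * Complex.exp ((t' : ℝ) * Complex.I)) = ((r * r' : ℝ) : ℂ) *
        Complex.exp (((t' - t : ℝ) : ℂ) * Complex.I) := by
      rw [map_mul, Complex.conj_ofReal, ← Complex.exp_conj, map_mul, Complex.conj_ofReal,
        Complex.conj_I]
      have e1 : Complex.exp (((t' - t : ℝ) : ℂ) * Complex.I) =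
          Complex.exp ((t : ℂ) * -Complex.I) * Complex.exp ((t' : ℂ) * Complex.I) := by
        rw [← Complex.exp_add]
        congr 1
        push_cast
        ring
      rw [e1]
      push_cast
      ring
    rw [e, Complex.im_ofReal_mul, Complex.exp_ofReal_mul_I_im]
    have := Real.sin_pos_of_pos_of_lt_pi h1 h2
    positivity

/-- lifting the arguments from one level to the next; `q` is level `n`, `q'` is level `n+1`,
`N = b n`, `M = L b n` -/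
theorem lift_step {N M : ℕ} (hN : 2 ≤ N) {q q' : ℤ → ℂ} (hq : ∀ j, q (j + (M : ℤ)) = q j)
    (hq' : ∀ k, q' (k + ((M * N : ℕ) : ℤ)) = q' k)
    {Θ : ℤ → ℝ} (h1 : ∀ j, q j ≠ 0 ∧ q j = (‖q j‖ : ℂ) * Complex.exp ((Θ j : ℝ) * Complex.I))
    (h2 : ∀ j, 0 < Θ (j + 1) - Θ j ∧ Θ (j + 1) - Θ j < Real.pi)
    (h3 : ∀ j, Θ (j + (M : ℤ)) = Θ j + 2 * Real.pi)
    (hloc : ∀ j : ℤ,
      (∀ i : ℕ, i < N → 0 < ((starRingEnd ℂ) (q' (j * (N : ℤ) + i)) *
        q' (j * (N : ℤ) + i + 1)).im) ∧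
      ((starRingEnd ℂ) (q j) * q' (j * (N : ℤ))).im < 0 ∧
      0 < ((starRingEnd ℂ) (q j) * q' ((j + 1) * (N : ℤ) - 1)).im ∧
      0 < ((starRingEnd ℂ) (q j) * q' ((j + 1) * (N : ℤ))).im ∧
      (∀ i : ℕ, i < N → 0 ≤ ((starRingEnd ℂ) (q j) * q' (j * (N : ℤ) + i)).im →
        0 < ((starRingEnd ℂ) (q j) * q' (j * (N : ℤ) + i + 1)).im) ∧
      (∀ i : ℕ, i ≤ N → ((starRingEnd ℂ) (q j) * q' (j * (N : ℤ) + i)).im = 0 →
        ∃ s : ℝ, 0 < s ∧ q' (j * (N : ℤ) + i) = (s : ℂ) * q j)) :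
    ∃ Θ' : ℤ → ℝ,
      (∀ j, q' j ≠ 0 ∧ q' j = (‖q' j‖ : ℂ) * Complex.exp ((Θ' j : ℝ) * Complex.I)) ∧
      (∀ j, 0 < Θ' (j + 1) - Θ' j ∧ Θ' (j + 1) - Θ' j < Real.pi) ∧
      (∀ j, Θ' (j + ((M * N : ℕ) : ℤ)) = Θ' j + 2 * Real.pi) ∧
      (∀ j, Θ' (j * (N : ℤ)) < Θ j ∧ Θ j < Θ' ((j + 1) * (N : ℤ) - 1)) := by
  obtain ⟨Θ', hΘ'⟩ : ∃ Θ' : ℤ → ℝ, ∀ k, Θ' k = Θ (k / (N : ℤ)) +
      Complex.arg (q' k / q (k / (N : ℤ))) := ⟨_, fun _ => rfl⟩
  have hN0 : (0 : ℤ) < (N : ℤ) := by omega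
  -- children arguments
  have hch : ∀ j : ℤ,
      (∀ i ≤ N, -Real.pi < Complex.arg (q' (j * (N : ℤ) + (i : ℕ)) / q j) ∧
        Complex.arg (q' (j * (N : ℤ) + (i : ℕ)) / q j) < Real.pi) ∧
      (∀ i < N, 0 < Complex.arg (q' (j * (N : ℤ) + ((i + 1 : ℕ) : ℤ)) / q j) -
          Complex.arg (q' (j * (N : ℤ) + (i : ℕ)) / q j) ∧
        Complex.arg (q' (j * (N : ℤ) + ((i + 1 : ℕ) : ℤ)) / q j) -
          Complex.arg (q' (j * (N : ℤ) + (i : ℕ)) / q j) < Real.pi) ∧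
      Complex.arg (q' (j * (N : ℤ) + ((0 : ℕ) : ℤ)) / q j) < 0 ∧
      0 < Complex.arg (q' (j * (N : ℤ) + ((N - 1 : ℕ) : ℤ)) / q j) ∧
      0 < Complex.arg (q' (j * (N : ℤ) + (N : ℤ)) / q j) ∧
      (∀ i ≤ N, q' (j * (N : ℤ) + (i : ℕ)) ≠ 0 ∧
        q' (j * (N : ℤ) + (i : ℕ)) = (‖q' (j * (N : ℤ) + (i : ℕ))‖ : ℂ) *
          (Complex.exp ((Complex.arg (q' (j * (N : ℤ) + (i : ℕ)) / q j) : ℝ) * Complex.I) *
          (q j / (‖q j‖ : ℂ)))) := by
    intro j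
    obtain ⟨c1, c2, c3, c4, c5, c6⟩ := hloc j
    have eN1 : (j + 1) * (N : ℤ) - 1 = j * (N : ℤ) + ((N - 1 : ℕ) : ℤ) := by
      rw [Nat.cast_sub (by omega)]
      push_cast
      ring
    have eN : (j + 1) * (N : ℤ) = j * (N : ℤ) + (N : ℤ) := by ring
    rw [eN1] at c3
    rw [eN] at c4
    refine children_args hN (h1 j).1 (a := fun i : ℕ => q' (j * (N : ℤ) + (i : ℤ))) ?_ ?_ c3 c4 ?_ c6
    · intro i hi
      have := c1 i hi
      have e : j * (N : ℤ) + ((i + 1 : ℕ) : ℤ) = j * (N : ℤ) + i + 1 := by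
        push_cast
        ring
      rw [e]
      exact this
    · have e : j * (N : ℤ) + ((0 : ℕ) : ℤ) = j * (N : ℤ) := by simp
      rw [e]
      exact c2
    · intro i hi hi0
      have := c5 i hi hi0
      have e : j * (N : ℤ) + ((i + 1 : ℕ) : ℤ) = j * (N : ℤ) + i + 1 := by
        push_cast
        ring
      rw [e]
      exact this
  -- the key formula
  have hdiv : ∀ (j : ℤ) (i : ℕ), i < N → (j * (N : ℤ) + (i : ℤ)) / (N : ℤ) = j := by
    intro j i hi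
    rw [Int.add_comm, Int.add_mul_ediv_right _ _ hN0.ne', Int.ediv_eq_zero_of_lt (by omega)
      (by exact_mod_cast hi), zero_add]
  have hpol : ∀ j, q j = (‖q j‖ : ℂ) * Complex.exp ((Θ j : ℝ) * Complex.I) := fun j => (h1 j).2
  have hqn : ∀ j, 0 < ‖q j‖ := fun j => norm_pos_iff.2 (h1 j).1
  have hkey : ∀ (j : ℤ) (i : ℕ), i ≤ N → Θ' (j * (N : ℤ) + (i : ℤ)) =
      Θ j + Complex.arg (q' (j * (N : ℤ) + (i : ℤ)) / q j) := by
    intro j i hi
    rcases hi.lt_or_eq with h | h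
    · rw [hΘ', hdiv j i h]
    · rw [h]
      have eN : j * (N : ℤ) + (N : ℤ) = (j + 1) * (N : ℤ) := by ring
      rw [eN, hΘ', Int.mul_ediv_cancel _ hN0.ne']
      obtain ⟨a1, a2⟩ := lift_arg (hqn j) (hqn (j + 1)) (h2 j).1 (h2 j).2
      rw [← hpol j, ← hpol (j + 1)] at a1 a2
      have b1 := (hloc j).2.2.2.1
      have b2 : 0 < ((starRingEnd ℂ) (q' ((j + 1) * (N : ℤ))) * q (j + 1)).im := by
        have b3 := (hloc (j + 1)).2.1
        have e : (starRingEnd ℂ) (q' ((j + 1) * (N : ℤ))) * q (j + 1) =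
            (starRingEnd ℂ) ((starRingEnd ℂ) (q (j + 1)) * q' ((j + 1) * (N : ℤ))) := by
          rw [map_mul, Complex.conj_conj]
          ring
        rw [e, Complex.conj_im]
        linarith
      obtain ⟨d1, -⟩ := shared_arg a2 b1 b2
      rw [a1] at d1
      linarith
  have hrep : ∀ k : ℤ, ∃ (j : ℤ) (i : ℕ), i < N ∧ k = j * (N : ℤ) + (i : ℤ) := by
    intro k
    refine ⟨k / (N : ℤ), (k % (N : ℤ)).toNat, ?_, ?_⟩
    · have h1 := Int.emod_lt_of_pos k hN0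
      have h2 := Int.emod_nonneg k hN0.ne'
      omega
    · rw [Int.toNat_of_nonneg (Int.emod_nonneg k hN0.ne'), mul_comm]
      exact (Int.mul_ediv_add_emod k N).symm
  refine ⟨Θ', ?_, ?_, ?_, ?_⟩
  · intro k
    obtain ⟨j, i, hi, rfl⟩ := hrep k
    obtain ⟨c1, c2⟩ := (hch j).2.2.2.2.2 i hi.le
    refine ⟨c1, ?_⟩
    rw [hkey j i hi.le]
    have e1 : q j / (‖q j‖ : ℂ) = Complex.exp ((Θ j : ℝ) * Complex.I) := by
      have hne : (‖q j‖ : ℂ) ≠ 0 := by exact_mod_cast (hqn j).ne'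
      rw [div_eq_iff hne]
      rw [mul_comm]
      exact hpol j
    rw [e1, ← Complex.exp_add] at c2
    have e2 : ((Θ j + Complex.arg (q' (j * (N : ℤ) + (i : ℤ)) / q j) : ℝ) : ℂ) * Complex.I =
        ((Complex.arg (q' (j * (N : ℤ) + (i : ℤ)) / q j) : ℝ) : ℂ) * Complex.I +
          (Θ j : ℂ) * Complex.I := by
      push_cast
      ring
    rw [e2]
    exact c2
  · intro k
    obtain ⟨j, i, hi, rfl⟩ := hrep k
    have e : j * (N : ℤ) + (i : ℤ) + 1 = j * (N : ℤ) + ((i + 1 : ℕ) : ℤ) := by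
      push_cast
      ring
    rw [e, hkey j i hi.le, hkey j (i + 1) (by omega)]
    have := (hch j).2.1 i hi
    constructor <;> linarith [this.1, this.2]
  · intro k
    rw [hΘ', hΘ']
    have e : (k + ((M * N : ℕ) : ℤ)) / (N : ℤ) = k / (N : ℤ) + M := by
      push_cast
      rw [Int.add_mul_ediv_right _ _ hN0.ne']
    rw [e, hq', hq, h3]
    ring
  · intro j
    have e0 : j * (N : ℤ) = j * (N : ℤ) + ((0 : ℕ) : ℤ) := by simp
    have eN1 : (j + 1) * (N : ℤ) - 1 = j * (N : ℤ) + ((N - 1 : ℕ) : ℤ) := by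
      rw [Nat.cast_sub (by omega)]
      push_cast
      ring
    constructor
    · rw [e0, hkey j 0 (by omega)]
      have := (hch j).2.2.1
      linarith
    · rw [eN1, hkey j (N - 1) (by omega)]
      have := (hch j).2.2.2.1
      linarith

end Pool.Agent.Helper11.Fatou
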