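import Mathlib
import Pool.Agent.Helper11.Fatou.Defs

namespace Pool.Agent.Helper11.Fatou

theorem od_frame_im {v x : ℂ} (hw : 1 - (starRingEnd ℂ) v * x ≠ 0) :
    ((starRingEnd ℂ) (ph v x) * (-v)).im * Complex.normSq (1 - (starRingEnd ℂ) v * x) =
      (1 - Complex.normSq v) * ((starRingEnd ℂ) v * x).im := by
  have hn : Complex.normSq (1 - (starRingEnd ℂ) v * x) ≠ 0 := by
    rwa [Ne, Complex.normSq_eq_zero]
  set w := 1 - (starRingEnd ℂ) v * x with hwdef
  have hcw : (starRingEnd ℂ) w ≠ 0 := by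
    rwa [Ne, map_eq_zero]
  have e1 : (starRingEnd ℂ) (ph v x) * (-v) * ((Complex.normSq w : ℝ) : ℂ) =
      -((starRingEnd ℂ) (x - v) * v * w) := by
    unfold ph
    rw [map_div₀, ← hwdef, ← Complex.mul_conj w]
    field_simp
  have e2 : ((starRingEnd ℂ) (ph v x) * (-v)).im * Complex.normSq w =
      ((starRingEnd ℂ) (ph v x) * (-v) * ((Complex.normSq w : ℝ) : ℂ)).im := by
    rw [Complex.im_mul_ofReal]
  rw [e2, e1, hwdef]
  simp only [Complex.normSq_apply, map_sub, Complex.neg_im, Complex.mul_im, Complex.mul_re,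
    Complex.sub_re, Complex.sub_im, Complex.conj_re, Complex.conj_im, Complex.one_re, Complex.one_im]
  ring

theorem frame_ne {v x : ℂ} (hv : ‖v‖ < 1) (hx : ‖x‖ < 1) : 1 - (starRingEnd ℂ) v * x ≠ 0 := by
  intro h
  have h1 : (starRingEnd ℂ) v * x = 1 := by
    rw [sub_eq_zero] at h; exact h.symm
  have h2 : ‖(starRingEnd ℂ) v * x‖ = 1 := by rw [h1, norm_one]
  rw [norm_mul, RCLike.norm_conj] at h2
  have : ‖v‖ * ‖x‖ < 1 := by
    nlinarith [norm_nonneg v, norm_nonneg x]
  linarith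

theorem frame_im_pos {v x : ℂ} (hv : ‖v‖ < 1) (hx : ‖x‖ < 1) :
    0 < ((starRingEnd ℂ) (ph v x) * (-v)).im ↔ 0 < ((starRingEnd ℂ) v * x).im := by
  have hw := frame_ne hv hx
  have h1 := od_frame_im hw
  have h2 : 0 < Complex.normSq (1 - (starRingEnd ℂ) v * x) := by
    rwa [Complex.normSq_pos]
  have h3 : 0 < 1 - Complex.normSq v := by
    rw [Complex.normSq_eq_norm_sq]
    nlinarith [norm_nonneg v]
  constructor
  · intro h
    have : 0 < (1 - Complex.normSq v) * ((starRingEnd ℂ) v * x).im := by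
      rw [← h1]; exact mul_pos h h2
    exact (mul_pos_iff_of_pos_left h3).mp this
  · intro h
    have : 0 < ((starRingEnd ℂ) (ph v x) * (-v)).im * Complex.normSq (1 - (starRingEnd ℂ) v * x) := by
      rw [h1]; exact mul_pos h3 h
    exact (mul_pos_iff_of_pos_right h2).mp this

theorem frame_im_neg {v x : ℂ} (hv : ‖v‖ < 1) (hx : ‖x‖ < 1)
    (h : ((starRingEnd ℂ) v * x).im < 0) : ((starRingEnd ℂ) (ph v x) * (-v)).im < 0 := by
  have hw := frame_ne hv hx
  have h1 := od_frame_im hw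
  have h2 : 0 < Complex.normSq (1 - (starRingEnd ℂ) v * x) := by
    rwa [Complex.normSq_pos]
  have h3 : 0 < 1 - Complex.normSq v := by
    rw [Complex.normSq_eq_norm_sq]
    nlinarith [norm_nonneg v]
  by_contra hc
  push Not at hc
  have h4 := mul_nonneg hc h2.le
  rw [h1] at h4
  have h5 := mul_neg_of_pos_of_neg h3 h
  linarith

/-- the direction of the origin from `v` is between the directions of `s` and `q` -/
theorem origin_dir {v s q : ℂ} {U : ℝ} (hv : ‖v‖ < 1) (hs : ‖s‖ < 1) (hq : ‖q‖ < 1)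
    (hU0 : 0 < U) (hUpi : U < Real.pi)
    (hdir : un (ph v q) = Complex.exp ((U : ℝ) * Complex.I) * un (ph v s))
    (h1 : 0 < ((starRingEnd ℂ) v * s).im) (h2 : 0 < ((starRingEnd ℂ) q * v).im) :
    ∃ γ : ℝ, 0 < γ ∧ γ < U ∧
      -v = (‖v‖ : ℂ) * (Complex.exp (-((γ : ℝ) * Complex.I)) * un (ph v q)) := by
  have k1 : 0 < ((starRingEnd ℂ) (ph v s) * (-v)).im := (frame_im_pos hv hs).mpr h1
  have h2' : ((starRingEnd ℂ) v * q).im < 0 := by
    have : ((starRingEnd ℂ) v * q).im = -((starRingEnd ℂ) q * v).im := by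
      simp only [Complex.mul_im, Complex.conj_re, Complex.conj_im]; ring
    linarith
  have k2 := frame_im_neg hv hq h2'
  set A := ph v s with hA
  set B := ph v q with hB
  have hA0 : A ≠ 0 := by
    rintro h; rw [h] at k1; simp at k1
  have hB0 : B ≠ 0 := by
    rintro h; rw [h] at k2; simp at k2
  have hAn : 0 < ‖A‖ := norm_pos_iff.mpr hA0
  have hBn : 0 < ‖B‖ := norm_pos_iff.mpr hB0
  set S := un A with hS
  have hSn : ‖S‖ = 1 := by
    rw [hS]; unfold un
    rw [norm_div, Complex.norm_real, norm_norm, div_self hAn.ne']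
  have hSS : S * (starRingEnd ℂ) S = 1 := by
    rw [Complex.mul_conj, Complex.normSq_eq_norm_sq, hSn]; simp
  set w := (starRingEnd ℂ) S * (-v) with hw
  have hwn : ‖w‖ = ‖v‖ := by
    rw [hw, norm_mul, RCLike.norm_conj, hSn, one_mul, norm_neg]
  have cun : ∀ Z : ℂ, ((starRingEnd ℂ) (un Z) * (-v)).im = ((starRingEnd ℂ) Z * (-v)).im / ‖Z‖ := by
    intro Z
    unfold un
    rw [map_div₀, Complex.conj_ofReal, div_mul_eq_mul_div, Complex.div_ofReal_im]
  have hwim : 0 < w.im := by
    rw [hw, hS, cun]; exact div_pos k1 hAn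
  have hw0 : w ≠ 0 := by
    intro h; rw [h] at hwim; simp at hwim
  have hwn0 : 0 < ‖w‖ := norm_pos_iff.mpr hw0
  set η := Complex.arg w with hη
  have hwe : (‖w‖ : ℂ) * Complex.exp (η * Complex.I) = w := Complex.norm_mul_exp_arg_mul_I w
  have hη1 : -Real.pi < η := Complex.neg_pi_lt_arg w
  have hη2 : η ≤ Real.pi := Complex.arg_le_pi w
  have hsin : w.im = ‖w‖ * Real.sin η := by
    rw [← Complex.exp_ofReal_mul_I_im, ← Complex.im_ofReal_mul, hwe]
  have hsin0 : 0 < Real.sin η := by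
    rw [hsin] at hwim
    exact (mul_pos_iff_of_pos_left hwn0).mp hwim
  have hη0 : 0 < η := by
    by_contra hc
    push Not at hc
    have := Real.sin_nonpos_of_nonpos_of_neg_pi_le hc hη1.le
    linarith
  have hv' : -v = (‖v‖ : ℂ) * (Complex.exp (η * Complex.I) * S) := by
    have : -v = w * S := by
      rw [hw]; linear_combination (-(-v)) * hSS
    rw [this, ← hwe, hwn]; ring
  -- second
  have hQ : un B = Complex.exp ((U : ℝ) * Complex.I) * S := hdir
  have hQim : ((starRingEnd ℂ) (un B) * (-v)).im < 0 := by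
    rw [cun]; exact div_neg_of_neg_of_pos k2 hBn
  have hQe : (starRingEnd ℂ) (un B) * (-v) = (‖w‖ : ℂ) * Complex.exp (((η - U : ℝ) : ℂ) * Complex.I) := by
    have e1 : (starRingEnd ℂ) (Complex.exp ((U : ℝ) * Complex.I)) = Complex.exp (-((U : ℝ) * Complex.I)) := by
      rw [← Complex.exp_conj, map_mul, Complex.conj_ofReal, Complex.conj_I, mul_neg]
    have e2 : Complex.exp (((η - U : ℝ) : ℂ) * Complex.I) =
        Complex.exp (η * Complex.I) * Complex.exp (-((U : ℝ) * Complex.I)) := by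
      rw [← Complex.exp_add]; congr 1; push_cast; ring
    rw [hQ, map_mul, e1, e2]
    calc Complex.exp (-((U : ℝ) * Complex.I)) * (starRingEnd ℂ) S * (-v)
        = Complex.exp (-((U : ℝ) * Complex.I)) * w := by rw [hw]; ring
      _ = Complex.exp (-((U : ℝ) * Complex.I)) * ((‖w‖ : ℂ) * Complex.exp (η * Complex.I)) := by rw [hwe]
      _ = _ := by ring
  have hsin2 : Real.sin (η - U) < 0 := by
    rw [hQe, Complex.im_ofReal_mul, Complex.exp_ofReal_mul_I_im] at hQim
    by_contra hc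
    push Not at hc
    have := mul_nonneg hwn0.le hc
    linarith
  have hηU : η < U := by
    by_contra hc
    push Not at hc
    have := Real.sin_nonneg_of_nonneg_of_le_pi (x := η - U) (by linarith) (by linarith)
    linarith
  refine ⟨U - η, by linarith, by linarith, ?_⟩
  rw [hQ]
  have e3 : Complex.exp (-(((U - η : ℝ) : ℂ) * Complex.I)) * Complex.exp ((U : ℝ) * Complex.I) =
      Complex.exp (η * Complex.I) := by
    rw [← Complex.exp_add]; congr 1; push_cast; ring
  rw [← mul_assoc (Complex.exp (-(((U - η : ℝ) : ℂ) * Complex.I))), e3]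
  exact hv'

end Pool.Agent.Helper11.Fatou
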