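import Mathlib
import Pool.Agent.Helper11.Fatou.Defs

namespace Pool.Agent.Helper11.Fatou

theorem trig_sin_lower {x t : ℝ} (hx : 1000 ≤ x) (h1 : 19 / 20 / x ≤ t)
    (h2 : t ≤ Real.pi - 19 / 20 / x) : 9 / 10 / x ≤ Real.sin t := by
  have hx0 : 0 < x := by linarith
  have hpi := Real.pi_gt_three
  set u := 19 / 20 / x with hu
  have hu0 : 0 < u := by positivity
  have hu1 : u ≤ 1 / 1000 := by
    rw [hu, div_le_iff₀ hx0]; linarith
  have hsu : 9 / 10 / x ≤ Real.sin u := by
    have h3 := Real.sin_gt_sub_cube hu0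
    have h4 : 9 / 10 / x = u * (18 / 19) := by rw [hu]; field_simp; norm_num
    have h5 : u ^ 3 ≤ u * (1 / 1000) := by
      have : u ^ 2 ≤ 1 / 1000 := by nlinarith
      have := mul_le_mul_of_nonneg_left this hu0.le
      nlinarith
    rw [h4]; nlinarith
  rcases le_total t (Real.pi / 2) with h | h
  · exact hsu.trans (Real.sin_le_sin_of_le_of_le_pi_div_two (by linarith) h h1)
  · rw [← Real.sin_pi_sub]
    exact hsu.trans (Real.sin_le_sin_of_le_of_le_pi_div_two (by linarith) (by linarith) (by linarith))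

theorem abs_sin_le_two {t : ℝ} (h : 0 ≤ Real.sin (t / 2)) : |Real.sin t| ≤ 2 * Real.sin (t / 2) := by
  have e : Real.sin t = 2 * Real.sin (t / 2) * Real.cos (t / 2) := by
    rw [← Real.sin_two_mul]; congr 1; ring
  rw [e, abs_mul, abs_of_nonneg (by positivity : 0 ≤ 2 * Real.sin (t / 2))]
  have := Real.abs_cos_le_one (t / 2)
  nlinarith

theorem trig_ineq {x α η ρ ρ' τ : ℝ} (hx : 1000 ≤ x) (hα1 : 19 / 10 / x ≤ α) (hα2 : α ≤ 3 / x)
    (hη1 : 19 / 10 / x ≤ η) (hη2 : α + η ≤ 2 * Real.pi - 19 / 10 / x)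
    (hρ1 : 1 - 2 / (x ^ 2 * 1000000) ≤ ρ) (hρ2 : ρ ≤ 1)
    (hρ1' : 1 - 2 / (x ^ 2 * 1000000) ≤ ρ') (hρ2' : ρ' ≤ 1) (hτ0 : 0 ≤ τ) (hτ1 : τ ≤ 1) :
    0 < ρ * ρ' * Real.sin α - τ * (ρ * Real.sin (α + η) - ρ' * Real.sin η) := by
  have hx0 : 0 < x := by linarith
  have hpi := Real.pi_gt_three
  set w := 1 / x with hw
  have hw0 : 0 < w := by positivity
  have hw1 : w ≤ 1 / 1000 := by rw [hw]; exact one_div_le_one_div_of_le (by norm_num) hx
  have e19 : 19 / 10 / x = 19 / 10 * w := by rw [hw]; ring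
  have e20 : 19 / 20 / x = 19 / 20 * w := by rw [hw]; ring
  have e9 : 9 / 10 / x = 9 / 10 * w := by rw [hw]; ring
  have e3 : 3 / x = 3 * w := by rw [hw]; ring
  have eδ : 2 / (x ^ 2 * 1000000) = 2 / 1000000 * w ^ 2 := by rw [hw]; field_simp
  rw [e19] at hα1 hη1 hη2
  rw [e3] at hα2
  rw [eδ] at hρ1 hρ1'
  have hA : 9 / 10 * w ≤ Real.sin (α / 2) := by
    rw [← e9]; apply trig_sin_lower hx <;> rw [e20] <;> linarith
  have hE : 9 / 10 * w ≤ Real.sin (η / 2) := by
    rw [← e9]; apply trig_sin_lower hx <;> rw [e20] <;> linarith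
  have hF : 9 / 10 * w ≤ Real.sin ((α + η) / 2) := by
    rw [← e9]; apply trig_sin_lower hx <;> rw [e20] <;> linarith
  have sA : |Real.sin α| ≤ 2 * Real.sin (α / 2) := abs_sin_le_two (by linarith)
  have sE : |Real.sin η| ≤ 2 * Real.sin (η / 2) := abs_sin_le_two (by linarith)
  have sF : |Real.sin (α + η)| ≤ 2 * Real.sin ((α + η) / 2) := abs_sin_le_two (by linarith)
  have hid : Real.sin α + Real.sin η - Real.sin (α + η)
      = 4 * Real.sin (α / 2) * Real.sin (η / 2) * Real.sin ((α + η) / 2) := by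
    have a1 : α = 2 * (α / 2) := by ring
    have a2 : η = 2 * (η / 2) := by ring
    have a3 : (α + η) / 2 = α / 2 + η / 2 := by ring
    have a4 : α + η = 2 * (α / 2) + 2 * (η / 2) := by ring
    have s1 : Real.sin α = 2 * Real.sin (α / 2) * Real.cos (α / 2) := by
      rw [← Real.sin_two_mul]; congr 1
    have s2 : Real.sin η = 2 * Real.sin (η / 2) * Real.cos (η / 2) := by
      rw [← Real.sin_two_mul]; congr 1
    have c1 : Real.cos α = 1 - 2 * Real.sin (α / 2) ^ 2 := by
      have := Real.cos_two_mul (α / 2)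
      have h2 := Real.sin_sq_add_cos_sq (α / 2)
      rw [← a1] at this
      linarith
    have c2 : Real.cos η = 1 - 2 * Real.sin (η / 2) ^ 2 := by
      have := Real.cos_two_mul (η / 2)
      have h2 := Real.sin_sq_add_cos_sq (η / 2)
      rw [← a2] at this
      linarith
    rw [Real.sin_add α η, a3, Real.sin_add (α / 2) (η / 2), s1, s2, c1, c2]
    ring
  have hs0 : 0 < Real.sin α := Real.sin_pos_of_pos_of_lt_pi (by linarith) (by linarith)
  have hδ : 2 / 1000000 * w ^ 2 ≤ 1 / 1000000 := by nlinarith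
  have hρ0 : 0 < ρ := by linarith
  have hρ0' : 0 < ρ' := by linarith
  have g0 : 0 < ρ * ρ' * Real.sin α := by positivity
  have g1 : 0 < ρ * ρ' * Real.sin α - (ρ * Real.sin (α + η) - ρ' * Real.sin η) := by
    generalize Real.sin (α / 2) = A at *
    generalize Real.sin (η / 2) = E at *
    generalize Real.sin ((α + η) / 2) = F at *
    generalize Real.sin α = a at *
    generalize Real.sin η = e at *
    generalize Real.sin (α + η) = f at *
    obtain ⟨ε, hε⟩ : ∃ ε, ε = 1 - ρ := ⟨_, rfl⟩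
    obtain ⟨ε', hε'⟩ : ∃ ε', ε' = 1 - ρ' := ⟨_, rfl⟩
    have hρe : ρ = 1 - ε := by linarith
    have hρe' : ρ' = 1 - ε' := by linarith
    have hε0 : 0 ≤ ε := by linarith
    have hε0' : 0 ≤ ε' := by linarith
    obtain ⟨δ, hδd⟩ : ∃ δ, δ = 2 / 1000000 * w ^ 2 := ⟨_, rfl⟩
    have hε1 : ε ≤ δ := by linarith
    have hε1' : ε' ≤ δ := by linarith
    have hA0 : 0 < A := by linarith [hw0]
    have hE0 : 0 < E := by linarith [hw0]
    have hF0 : 0 < F := by linarith [hw0]
    have hEF : 81 / 100 * w ^ 2 ≤ E * F := by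
      have := mul_le_mul hE hF (by positivity) hE0.le
      nlinarith
    have hAE : 81 / 100 * w ^ 2 ≤ A * E := by
      have := mul_le_mul hA hE (by positivity) hA0.le
      nlinarith
    have hAF : 81 / 100 * w ^ 2 ≤ A * F := by
      have := mul_le_mul hA hF (by positivity) hA0.le
      nlinarith
    have hw2 : 0 < w ^ 2 := by positivity
    have d1 : δ ≤ 1 / 100000 * (E * F) := by rw [hδd]; linarith
    have d2 : δ ≤ 1 / 100000 * (A * E) := by rw [hδd]; linarith
    have d3 : δ ≤ 1 / 100000 * (A * F) := by rw [hδd]; linarith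
    have t1 : (ε + ε' - ε * ε') * a ≤ 2 * δ * (2 * A) := by
      have h1 : ε + ε' - ε * ε' ≤ 2 * δ := by nlinarith [mul_nonneg hε0 hε0']
      have h2 : a ≤ 2 * A := (le_abs_self a).trans sA
      have h3 : 0 ≤ ε + ε' - ε * ε' := by nlinarith
      exact mul_le_mul h1 h2 hs0.le (by linarith)
    have t2 : -(ε * f) ≤ δ * (2 * F) := by
      have h2 : -f ≤ 2 * F := (neg_le_abs f).trans sF
      have h3 : ε * (-f) ≤ ε * (2 * F) := mul_le_mul_of_nonneg_left h2 hε0
      have h4 : ε * (2 * F) ≤ δ * (2 * F) := mul_le_mul_of_nonneg_right hε1 (by linarith)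
      linarith
    have t3 : ε' * e ≤ δ * (2 * E) := by
      have h2 : e ≤ 2 * E := (le_abs_self e).trans sE
      have h3 : ε' * e ≤ ε' * (2 * E) := mul_le_mul_of_nonneg_left h2 hε0'
      have h4 : ε' * (2 * E) ≤ δ * (2 * E) := mul_le_mul_of_nonneg_right hε1' (by linarith)
      linarith
    have u1 : δ * A ≤ 1 / 100000 * (A * E * F) := by
      have := mul_le_mul_of_nonneg_right d1 hA0.le
      nlinarith
    have u2 : δ * F ≤ 1 / 100000 * (A * E * F) := by
      have := mul_le_mul_of_nonneg_right d2 hF0.le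
      nlinarith
    have u3 : δ * E ≤ 1 / 100000 * (A * E * F) := by
      have := mul_le_mul_of_nonneg_right d3 hE0.le
      nlinarith
    have hP : 0 < A * E * F := by positivity
    have key : ρ * ρ' * a - (ρ * f - ρ' * e)
        = (a + e - f) - (ε + ε' - ε * ε') * a + ε * f - ε' * e := by
      rw [hρe, hρe']; ring
    rw [key, hid]
    nlinarith
  have : ρ * ρ' * Real.sin α - τ * (ρ * Real.sin (α + η) - ρ' * Real.sin η)
      = (1 - τ) * (ρ * ρ' * Real.sin α)
        + τ * (ρ * ρ' * Real.sin α - (ρ * Real.sin (α + η) - ρ' * Real.sin η)) := by ring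
  rw [this]
  rcases hτ1.lt_or_eq with h | h
  · have h1 : 0 < (1 - τ) * (ρ * ρ' * Real.sin α) := mul_pos (by linarith) g0
    have h2 := mul_nonneg hτ0 g1.le
    linarith
  · rw [h]; linarith

end Pool.Agent.Helper11.Fatou
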