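import Mathlib
import Pool.Agent.Helper11.Fatou.Defs
import Pool.Agent.Helper11.Fatou.Trig
import Pool.Agent.Helper11.Fatou.Frame

namespace Pool.Agent.Helper11.Fatou

theorem aux105_Th {u : ℝ} (hu : 1000000 ≤ u) : 0 < Th u ∧ Th u < 1 := by
  unfold Th
  constructor
  · apply div_pos <;> linarith
  · rw [div_lt_one (by linarith)]
    linarith

theorem aux105_rho {x y : ℝ} (hx : 1000 ≤ x) (hy : 1000 ≤ y) :
    1 - 2 / (x ^ 2 * 1000000) ≤ 2 * Th (x * y) / (1 + Th (x * y) ^ 2) ∧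
      2 * Th (x * y) / (1 + Th (x * y) ^ 2) ≤ 1 := by
  have hx0 : 0 < x := by linarith
  have hy0 : 0 < y := by linarith
  have hu : 0 < x * y := by positivity
  have h1 : 2 * Th (x * y) / (1 + Th (x * y) ^ 2) = 1 - 2 / ((x * y) ^ 2 + 1) := by
    unfold Th
    have e1 : x * y + 1 ≠ 0 := by positivity
    have e2 : (x * y) ^ 2 + 1 ≠ 0 := by positivity
    have e3 : 1 + ((x * y - 1) / (x * y + 1)) ^ 2 ≠ 0 := by positivity
    field_simp
    ring
  rw [h1]
  constructor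
  · have h2 : x ^ 2 * 1000000 ≤ (x * y) ^ 2 + 1 := by
      have : (1000000 : ℝ) ≤ y ^ 2 := by nlinarith
      have h3 : x ^ 2 * 1000000 ≤ x ^ 2 * y ^ 2 := by gcongr
      rw [mul_pow]
      linarith
    have h3 : 2 / ((x * y) ^ 2 + 1) ≤ 2 / (x ^ 2 * 1000000) := by gcongr
    linarith
  · have : 0 ≤ 2 / ((x * y) ^ 2 + 1) := by positivity
    linarith

/-- the children of `v` seen from the origin -/
theorem children_signs {x γ U : ℝ} {N : ℕ} (hN : 2 ≤ N) (hx : 1000 ≤ x) {y ω : ℕ → ℝ}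
    (hy : ∀ i, 1000 ≤ y i) {v d : ℂ} (hv : ‖v‖ < 1) (hv0 : v ≠ 0) (hd : ‖d‖ = 1)
    (h0 : -v = (‖v‖ : ℂ) * (Complex.exp (-((γ : ℝ) * Complex.I)) * d))
    {a : ℕ → ℂ} (ha1 : ∀ i ≤ N, ‖a i‖ < 1)
    (ha : ∀ i ≤ N, ph v (a i) = (Th (x * y i) : ℂ) * (Complex.exp ((ω i : ℝ) * Complex.I) * d))
    (hγ : 0 < γ) (hγU : γ < U) (hω0 : 19 / 10 / x ≤ ω 0)
    (hω1 : ∀ i < N, 19 / 10 / x ≤ ω (i + 1) - ω i) (hω2 : ∀ i < N, ω (i + 1) - ω i ≤ 3 / x)
    (hωN : ω N + 19 / 10 / x ≤ 2 * Real.pi - U) (h4 : γ + ω 0 < Real.pi)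
    (h5 : Real.pi < γ + ω (N - 1)) :
    (∀ i < N, 0 < ((starRingEnd ℂ) (a i) * a (i + 1)).im) ∧
    ((starRingEnd ℂ) v * a 0).im < 0 ∧ 0 < ((starRingEnd ℂ) v * a (N - 1)).im ∧
    0 < ((starRingEnd ℂ) v * a N).im ∧
    (∀ i < N, 0 ≤ ((starRingEnd ℂ) v * a i).im → 0 < ((starRingEnd ℂ) v * a (i + 1)).im) ∧
    (∀ i ≤ N, ((starRingEnd ℂ) v * a i).im = 0 → ∃ s : ℝ, 0 < s ∧ a i = (s : ℂ) * v) := by
  have hx0 : 0 < x := by linarith
  have hc : 0 < 19 / 10 / x := by positivity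
  have hT : ∀ i, 0 < Th (x * y i) ∧ Th (x * y i) < 1 := fun i =>
    aux105_Th (by have := hy i; nlinarith)
  have hm0 : 0 < ‖v‖ := norm_pos_iff.mpr hv0
  have hm1 : 0 < 1 - ‖v‖ ^ 2 := by nlinarith
  have hnorm : ∀ i ≤ N, ‖ph v (a i)‖ < 1 := by
    intro i hi
    rw [ha i hi, norm_mul, norm_mul, Complex.norm_exp_ofReal_mul_I, hd, Complex.norm_real,
      Real.norm_eq_abs, abs_of_pos (hT i).1]
    simpa using (hT i).2
  have hA : ∀ i ≤ N, 0 < Complex.normSq (1 + (starRingEnd ℂ) v * ph v (a i)) := fun i hi =>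
    normSq_pos' hv (hnorm i hi)
  have hF : ∀ i ≤ N, ((starRingEnd ℂ) v * a i).im *
      Complex.normSq (1 + (starRingEnd ℂ) v * ph v (a i)) =
      -(‖v‖ * (1 - ‖v‖ ^ 2) * Th (x * y i) * Real.sin (γ + ω i)) := fun i hi =>
    frame_im hv hv0 hd h0 (hT i).1 (hT i).2 (ha1 i hi) (ha i hi)
  have hmono : ∀ j, ∀ i, i ≤ j → j ≤ N → ω i ≤ ω j := by
    intro j
    induction j with
    | zero =>
      intro i hi _
      have : i = 0 := by omega
      rw [this]
    | succ j ih =>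
      intro i hi hj
      rcases Nat.lt_or_ge i (j + 1) with h | h
      · have h1 := ih i (by omega) (by omega)
        have h2 := hω1 j (by omega)
        linarith
      · have : i = j + 1 := by omega
        rw [this]
  have hlo : ∀ i ≤ N, 0 < γ + ω i := by
    intro i hi
    have := hmono i 0 (by omega) hi
    linarith
  have hhi : ∀ i ≤ N, γ + ω i < 2 * Real.pi := by
    intro i hi
    have := hmono N i hi le_rfl
    linarith
  -- signs
  have hsp : ∀ i ≤ N, γ + ω i < Real.pi → ((starRingEnd ℂ) v * a i).im < 0 := by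
    intro i hi h
    have h1 := Real.sin_pos_of_pos_of_lt_pi (hlo i hi) h
    have h2 : ((starRingEnd ℂ) v * a i).im *
        Complex.normSq (1 + (starRingEnd ℂ) v * ph v (a i)) < 0 := by
      rw [hF i hi]
      have := (hT i).1
      have : 0 < ‖v‖ * (1 - ‖v‖ ^ 2) * Th (x * y i) * Real.sin (γ + ω i) := by positivity
      linarith
    exact neg_of_mul_neg_left h2 (hA i hi).le
  have hsn : ∀ i ≤ N, Real.pi < γ + ω i → 0 < ((starRingEnd ℂ) v * a i).im := by
    intro i hi h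
    have h1 : Real.sin (γ + ω i) < 0 := by
      have e1 : Real.sin (γ + ω i) = -Real.sin (γ + ω i - Real.pi) := by
        rw [Real.sin_sub_pi]; ring
      have e2 := Real.sin_pos_of_pos_of_lt_pi (by linarith : 0 < γ + ω i - Real.pi)
        (by have := hhi i hi; linarith)
      linarith
    have h2 : 0 < ((starRingEnd ℂ) v * a i).im *
        Complex.normSq (1 + (starRingEnd ℂ) v * ph v (a i)) := by
      rw [hF i hi]
      have h3 := (hT i).1
      have : 0 < ‖v‖ * (1 - ‖v‖ ^ 2) * Th (x * y i) * (-Real.sin (γ + ω i)) := by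
        have : 0 < -Real.sin (γ + ω i) := by linarith
        positivity
      linarith
    exact (pos_iff_pos_of_mul_pos h2).mpr (hA i hi)
  refine ⟨?_, ?_, ?_, ?_, ?_, ?_⟩
  · intro i hi
    have hi' : i ≤ N := by omega
    have hi1 : i + 1 ≤ N := by omega
    have h := frame_im2 hv hv0 hd h0 (hT i).1 (hT i).2 (ha1 i hi') (ha i hi')
      (hT (i+1)).1 (hT (i+1)).2 (ha1 (i+1) hi1) (ha (i+1) hi1)
    set T := Th (x * y i) with hTd
    set T' := Th (x * y (i+1)) with hTd'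
    set m := ‖v‖ with hmd
    have hr := aux105_rho hx (hy i)
    have hr' := aux105_rho hx (hy (i+1))
    rw [← hTd] at hr
    rw [← hTd'] at hr'
    have hT0 : 0 < T := (hT i).1
    have hT0' : 0 < T' := (hT (i+1)).1
    have hω01 := hmono i 0 (by omega) hi'
    have hωN1 := hmono N (i+1) hi1 le_rfl
    have htrig := trig_ineq (x := x) (α := ω (i+1) - ω i) (η := 2 * Real.pi - (γ + ω (i+1)))
      (ρ := 2 * T / (1 + T ^ 2)) (ρ' := 2 * T' / (1 + T' ^ 2)) (τ := 2 * m / (1 + m ^ 2)) hx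
      (hω1 i hi) (hω2 i hi) (by linarith) (by linarith) hr.1 hr.2 hr'.1 hr'.2 (by positivity)
      (by rw [div_le_one (by positivity)]; nlinarith [sq_nonneg (m - 1)])
    have e1 : Real.sin (ω (i+1) - ω i + (2 * Real.pi - (γ + ω (i+1)))) =
        -Real.sin (γ + ω i) := by
      have : ω (i+1) - ω i + (2 * Real.pi - (γ + ω (i+1))) = 2 * Real.pi - (γ + ω i) := by ring
      rw [this, Real.sin_two_pi_sub]
    have e2 : Real.sin (2 * Real.pi - (γ + ω (i+1))) = -Real.sin (γ + ω (i+1)) :=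
      Real.sin_two_pi_sub _
    rw [e1, e2] at htrig
    have e3 : (1 + m ^ 2) * (T * T' * Real.sin (ω (i+1) - ω i))
        + m * ((1 + T' ^ 2) * T * Real.sin (γ + ω i) - (1 + T ^ 2) * T' * Real.sin (γ + ω (i+1)))
        = (1 + m ^ 2) * (1 + T ^ 2) * (1 + T' ^ 2) / 4 *
          (2 * T / (1 + T ^ 2) * (2 * T' / (1 + T' ^ 2)) * Real.sin (ω (i+1) - ω i) -
            2 * m / (1 + m ^ 2) * (2 * T / (1 + T ^ 2) * -Real.sin (γ + ω i) -
              2 * T' / (1 + T' ^ 2) * -Real.sin (γ + ω (i+1)))) := by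
      field_simp
      ring
    have h2 : 0 < ((starRingEnd ℂ) (a i) * a (i+1)).im *
        (Complex.normSq (1 + (starRingEnd ℂ) v * ph v (a i)) *
          Complex.normSq (1 + (starRingEnd ℂ) v * ph v (a (i+1)))) := by
      rw [h, e3]
      positivity
    exact (pos_iff_pos_of_mul_pos h2).mpr (mul_pos (hA i hi') (hA (i+1) hi1))
  · exact hsp 0 (by omega) h4
  · exact hsn (N-1) (by omega) h5
  · apply hsn N le_rfl
    have := hmono N (N-1) (by omega) le_rfl
    linarith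
  · intro i hi h
    apply hsn (i+1) (by omega)
    have h1 : Real.pi ≤ γ + ω i := by
      by_contra hcon
      push Not at hcon
      have := hsp i (by omega) hcon
      linarith
    have h2 := hω1 i hi
    linarith
  · intro i hi h
    have h1 : γ + ω i = Real.pi := by
      rcases lt_trichotomy (γ + ω i) Real.pi with h1 | h1 | h1
      · have := hsp i hi h1
        linarith
      · exact h1
      · have := hsn i hi h1
        linarith
    exact frame_collinear hv hv0 hd h0 (hT i).1 (hT i).2 (ha1 i hi) (ha i hi) h1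

end Pool.Agent.Helper11.Fatou
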