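import Mathlib
import Pool.Agent.Helper11.Fatou.Defs
import Pool.Agent.Helper11.Fatou.Ah
import Pool.Agent.Helper11.Fatou.Hyp
import Pool.Agent.Helper11.Fatou.OriginDir
import Pool.Agent.Helper11.Fatou.Signs

namespace Pool.Agent.Helper11.Fatou

theorem local_children_used {b : ℕ → ℕ} {f : ℕ → ℤ → ℝ}
    (hf1 : ∀ n j, 1000 ≤ f n j) {n : ℕ} (hn : 1 ≤ n) (j : ℤ) :
    0 < used b ah f n j ∧ used b ah f n j ≤ 9 / f n j := by
  obtain ⟨m, rfl⟩ : ∃ m, n = m + 1 := ⟨n - 1, by omega⟩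
  have hx := hf1 (m + 1) j
  have hp : ∀ n' j' n'' j'', 0 < ah (f (m + 1) j) (f n' j') (f n'' j'') := fun n' j' n'' j'' =>
    ah_pos (by linarith) (by linarith [hf1 n' j']) (by linarith [hf1 n'' j''])
  have hl : ∀ n' j' n'' j'', ah (f (m + 1) j) (f n' j') (f n'' j'') ≤ 3 / f (m + 1) j :=
    fun n' j' n'' j'' =>
    ah_le (by linarith) (by linarith [hf1 n' j']) (by linarith [hf1 n'' j''])
  have h9 : 9 / f (m + 1) j = 3 / f (m + 1) j + 3 / f (m + 1) j + 3 / f (m + 1) j := by ring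
  have h3 : 0 < 3 / f (m + 1) j := by positivity
  simp only [used]
  split_ifs with h
  · refine ⟨add_pos (add_pos (hp _ _ _ _) (hp _ _ _ _)) (hp _ _ _ _), ?_⟩
    rw [h9]
    exact add_le_add (add_le_add (hl _ _ _ _) (hl _ _ _ _)) (hl _ _ _ _)
  · refine ⟨add_pos (hp _ _ _ _) (hp _ _ _ _), ?_⟩
    rw [h9]
    have := add_le_add (hl (m + 1) (j + 1) m (j / (b m : ℤ))) (hl m (j / (b m : ℤ)) (m + 1) (j - 1))
    linarith

theorem local_children_un (z : ℂ) : z = (‖z‖ : ℂ) * un z := by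
  unfold un
  by_cases h : z = 0
  · simp [h]
  · have : (‖z‖ : ℂ) ≠ 0 := by exact_mod_cast norm_ne_zero_iff.2 h
    field_simp

/-- the fan of the vertex `(n, j)`, `n ≥ 1` -/
theorem local_children {b : ℕ → ℕ} (hb : ∀ n, 10000 ≤ b n) {f : ℕ → ℤ → ℝ}
    (hf1 : ∀ n j, 1000 ≤ f n j) (htot : ∀ n j, total b ah f n j = 2 * Real.pi)
    {p : ℕ → ℤ → ℂ} (hdev : Dev GH b f p) {n : ℕ} (hn : 1 ≤ n) (j : ℤ)
    (hss : ∀ i, 0 < ((starRingEnd ℂ) (p n i) * p n (i + 1)).im) {v : ℂ} (hv : v = p n j)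
    {a : ℕ → ℂ} (ha : ∀ i : ℕ, a i = p (n + 1) (j * (b n : ℤ) + (i : ℤ))) {N : ℕ} (hN : N = b n) :
    (∀ i < N, 0 < ((starRingEnd ℂ) (a i) * a (i + 1)).im) ∧
    ((starRingEnd ℂ) v * a 0).im < 0 ∧ 0 < ((starRingEnd ℂ) v * a (N - 1)).im ∧
    0 < ((starRingEnd ℂ) v * a N).im ∧
    (∀ i < N, 0 ≤ ((starRingEnd ℂ) v * a i).im → 0 < ((starRingEnd ℂ) v * a (i + 1)).im) ∧
    (∀ i ≤ N, ((starRingEnd ℂ) v * a i).im = 0 → ∃ s : ℝ, 0 < s ∧ a i = (s : ℂ) * v) := by
  obtain ⟨hd1, hd2⟩ := hdev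
  have hbn := hb n
  have hN1 : 10000 ≤ N := by rw [hN]; exact hbn
  have hbz : (0 : ℤ) < (b n : ℤ) := by omega
  set x : ℝ := f n j with hxdef
  have hx : 1000 ≤ x := hf1 n j
  have hx0 : 0 < x := by linarith
  obtain ⟨y, hydef⟩ : ∃ y : ℕ → ℝ, ∀ i, y i = f (n + 1) (j * (b n : ℤ) + (i : ℤ)) := ⟨_, fun _ => rfl⟩
  have hy : ∀ i, 1000 ≤ y i := fun i => by rw [hydef]; exact hf1 _ _
  have hy' : ∀ i, 1 < y i := fun i => by linarith [hy i]
  -- faces of the children
  have hface : ∀ i < N, FaceOK GH x (y i) (y (i + 1)) v (a i) (a (i + 1)) := by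
    intro i hi
    have h := hd1 n (j * (b n : ℤ) + (i : ℤ))
    have hk : (j * (b n : ℤ) + (i : ℤ)) / (b n : ℤ) = j := by
      rw [add_comm, Int.add_mul_ediv_right _ _ hbz.ne', Int.ediv_eq_zero_of_lt (by positivity), zero_add]
      omega
    rw [hk] at h
    have e1 : j * (b n : ℤ) + (i : ℤ) + 1 = j * (b n : ℤ) + ((i + 1 : ℕ) : ℤ) := by push_cast; ring
    rw [e1, ← hv, ← ha, ← ha, ← hydef, ← hydef] at h
    exact h
  -- the face before
  have hfq : FaceOK GH (f n (j - 1)) (y 0) x (p n (j - 1)) (a 0) v := by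
    have h := hd2 n hn (j - 1)
    have e1 : j - 1 + 1 = j := by ring
    have e2 : j * (b n : ℤ) = j * (b n : ℤ) + ((0 : ℕ) : ℤ) := by push_cast; ring
    rw [e1] at h
    rw [e2, ← hv, ← ha, ← hydef] at h
    exact h
  -- the face after
  have hfs : FaceOK GH x (y N) (f n (j + 1)) v (a N) (p n (j + 1)) := by
    have h := hd2 n hn j
    have e2 : (j + 1) * (b n : ℤ) = j * (b n : ℤ) + (N : ℤ) := by rw [hN]; ring
    rw [e2, ← hv, ← ha, ← hydef] at h
    exact h
  have tgx : ∀ i ≤ N, TgH x (y i) v (a i) := by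
    intro i hi
    rcases Nat.lt_or_ge i N with h | h
    · exact (hface i h).t1
    · have : i = N := le_antisymm hi h
      subst this
      exact hfs.t1
  have hvn : ‖v‖ < 1 := (tgx 0 (by omega)).1
  have hqn : ‖p n (j - 1)‖ < 1 := by
    have h : TgH (f n (j - 1)) x (p n (j - 1)) v := hfq.t3
    exact h.1
  have hsn : ‖p n (j + 1)‖ < 1 := by
    have h : TgH x (f n (j + 1)) v (p n (j + 1)) := hfs.t3
    exact h.2.1
  set d : ℂ := un (ph v (p n (j - 1))) with hd
  have hdn : ‖d‖ = 1 := by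
    have h1 : (1:ℝ) < x := by linarith
    have h2 : (1:ℝ) < f n (j - 1) := by linarith [hf1 n (j - 1)]
    exact GH.dir_norm (r := x) (s := f n (j - 1)) h1 h2 (GH.tg_symm hfq.t3)
  -- the angles
  set ω : ℕ → ℝ := fun i => ah x (f n (j - 1)) (y 0) + ∑ l ∈ Finset.range i, ah x (y l) (y (l + 1))
    with hω
  have hωs : ∀ i, ω (i + 1) = ω i + ah x (y i) (y (i + 1)) := by
    intro i
    simp only [hω, Finset.sum_range_succ]
    ring
  have hω0' : ω 0 = ah x (f n (j - 1)) (y 0) := by simp [hω]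
  have hdir : ∀ i ≤ N, un (ph v (a i)) = Complex.exp ((ω i : ℝ) * Complex.I) * d := by
    intro i
    induction i with
    | zero =>
      intro _
      have h : un (ph v (a 0)) = Complex.exp ((ah x (f n (j - 1)) (y 0) : ℝ) * Complex.I) *
        un (ph v (p n (j - 1))) := hfq.d3
      rw [h, hω0']
    | succ i ih =>
      intro hi
      have h : un (ph v (a (i + 1))) = Complex.exp ((ah x (y i) (y (i + 1)) : ℝ) * Complex.I) *
        un (ph v (a i)) := (hface i (by omega)).d1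
      rw [h, ih (by omega), hωs, ← mul_assoc, ← Complex.exp_add]
      congr 2
      push_cast
      ring
  -- total angle
  set U : ℝ := used b ah f n j with hU
  set lst : ℝ := ah x (y N) (f n (j + 1)) with hlst
  obtain ⟨hU0, hU9⟩ := local_children_used (b := b) hf1 hn j
  have htotal : ω N + lst + U = 2 * Real.pi := by
    have h := htot n j
    unfold total at h
    rw [if_neg (by omega)] at h
    have e1 : kids b ah f n j = ∑ l ∈ Finset.range N, ah x (y l) (y (l + 1)) := by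
      unfold kids
      rw [hN]
      apply Finset.sum_congr rfl
      intro l _
      rw [hydef, hydef]
      congr 2
      push_cast
      ring
    have e2 : (j + 1) * (b n : ℤ) = j * (b n : ℤ) + (N : ℤ) := by rw [hN]; ring
    have e3 : j * (b n : ℤ) = j * (b n : ℤ) + ((0 : ℕ) : ℤ) := by push_cast; ring
    rw [e1, e2, ← hydef] at h
    rw [e3, ← hydef] at h
    simp only [hω]
    linarith
  have hUx : U ≤ 9 / x := hU9
  have h9 : 9 / x ≤ 9 / 1000 := div_le_div_of_nonneg_left (by norm_num) (by norm_num) hx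
  have h3 : 3 / x ≤ 3 / 1000 := div_le_div_of_nonneg_left (by norm_num) (by norm_num) hx
  have hpi := Real.pi_gt_three
  have hlst1 : 19 / 10 / x ≤ lst := ah_ge hx (hy N) (hf1 _ _)
  have hlst2 : lst ≤ 3 / x := ah_le (by linarith) (hy' N) (by linarith [hf1 n (j + 1)])
  have hds : d = Complex.exp ((U : ℝ) * Complex.I) * un (ph v (p n (j + 1))) := by
    have h : un (ph v (p n (j + 1))) = Complex.exp ((lst : ℝ) * Complex.I) *
      un (ph v (a N)) := hfs.d1
    rw [h, hdir N le_rfl, ← mul_assoc, ← mul_assoc, ← Complex.exp_add, ← Complex.exp_add]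
    have : ((U : ℝ) : ℂ) * Complex.I + (lst : ℝ) * Complex.I + (ω N : ℝ) * Complex.I =
        2 * Real.pi * Complex.I := by
      have h2 : ((ω N + lst + U : ℝ) : ℂ) = ((2 * Real.pi : ℝ) : ℂ) := by rw [htotal]
      push_cast at h2
      linear_combination Complex.I * h2
    rw [this, Complex.exp_two_pi_mul_I, one_mul]
  have hq2 : 0 < ((starRingEnd ℂ) (p n (j - 1)) * v).im := by
    have h := hss (j - 1)
    rw [sub_add_cancel, ← hv] at h
    exact h
  have hs2 : 0 < ((starRingEnd ℂ) v * p n (j + 1)).im := by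
    have h := hss j
    rw [← hv] at h
    exact h
  have hv0 : v ≠ 0 := by
    intro h
    rw [h] at hs2
    simp at hs2
  obtain ⟨γ, hγ0, hγU, hγ⟩ := origin_dir hvn hsn hqn hU0 (by linarith) hds hs2 hq2
  have hω01 : ω 0 ≤ 3 / x := by
    rw [hω0']
    exact ah_le (by linarith) (by linarith [hf1 n (j - 1)]) (hy' 0)
  refine children_signs (U := U) (ω := ω) (y := y) (by omega) hx hy hvn hv0 hdn hγ
    (fun i hi => (tgx i hi).2.1) ?_ hγ0 hγU ?_ ?_ ?_ ?_ ?_ ?_
  · intro i hi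
    rw [← hdir i hi, ← (tgx i hi).2.2]
    exact local_children_un _
  · rw [hω0']
    exact ah_ge hx (hf1 _ _) (hy 0)
  · intro i _
    rw [hωs, add_sub_cancel_left]
    exact ah_ge hx (hy _) (hy _)
  · intro i _
    rw [hωs, add_sub_cancel_left]
    exact ah_le (by linarith) (hy' _) (hy' _)
  · linarith
  · linarith
  · have e1 : ω N = ω (N - 1) + ah x (y (N - 1)) (y (N - 1 + 1)) := by
      have := hωs (N - 1)
      rwa [Nat.sub_add_cancel (by omega)] at this ⊢
    have e2 : ah x (y (N - 1)) (y (N - 1 + 1)) ≤ 3 / x := ah_le (by linarith) (hy' _) (hy' _)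
    linarith

end Pool.Agent.Helper11.Fatou
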