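import Mathlib
import Pool.Agent.Helper11.Fatou.Defs
import Pool.Agent.Helper11.Fatou.Ah
import Pool.Agent.Helper11.Fatou.Hyp
import Pool.Agent.Helper11.Fatou.LocalChildren
import Pool.Agent.Helper11.Fatou.LiftStep

namespace Pool.Agent.Helper11.Fatou

theorem ls3_sum (θ : ℤ → ℝ) (c : ℝ) : ∃ S : ℤ → ℝ, S 0 = c ∧ (∀ k, S (k + 1) = S k + θ k) ∧
    ∀ n : ℕ, S n = c + ∑ i ∈ Finset.range n, θ i := by
  let S : ℤ → ℝ := fun k => match k with
    | Int.ofNat n => c + ∑ i ∈ Finset.range n, θ i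
    | Int.negSucc n => c - ∑ i ∈ Finset.range (n + 1), θ (-(i : ℤ) - 1)
  refine ⟨S, ?_, ?_, ?_⟩
  · show c + ∑ i ∈ Finset.range 0, θ i = c
    simp
  · intro k
    rcases k with n | n
    · show c + ∑ i ∈ Finset.range (n + 1), θ i = c + ∑ i ∈ Finset.range n, θ i + θ n
      rw [Finset.sum_range_succ, add_assoc]
    · rcases n with _ | m
      · show c + ∑ i ∈ Finset.range 0, θ i
          = c - ∑ i ∈ Finset.range (0 + 1), θ (-(i : ℤ) - 1) + θ (Int.negSucc 0)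
        simp
      · show c - ∑ i ∈ Finset.range (m + 1), θ (-(i : ℤ) - 1)
          = c - ∑ i ∈ Finset.range (m + 1 + 1), θ (-(i : ℤ) - 1) + θ (Int.negSucc (m + 1))
        rw [Finset.sum_range_succ _ (m + 1)]
        have : (Int.negSucc (m + 1)) = -((m + 1 : ℕ) : ℤ) - 1 := by
          rw [Int.negSucc_eq]; push_cast; ring
        rw [this]; ring
  · intro n; rfl

theorem ls3_per {θ S : ℤ → ℝ} {N : ℤ} (hθ : ∀ k, θ (k + N) = θ k)
    (hS : ∀ k, S (k + 1) = S k + θ k) (k : ℤ) : S (k + N) = S k + (S N - S 0) := by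
  induction k using Int.induction_on with
  | zero => rw [zero_add]; ring
  | succ i ih =>
    have e : (i : ℤ) + 1 + N = (i + N) + 1 := by ring
    rw [e, hS, hθ, ih, hS]; ring
  | pred i ih =>
    have h1 := hS (-(i : ℤ) - 1 + N)
    have h2 := hS (-(i : ℤ) - 1)
    rw [hθ] at h1
    have e1 : -(i : ℤ) - 1 + N + 1 = -(i : ℤ) + N := by ring
    have e2 : -(i : ℤ) - 1 + 1 = -(i : ℤ) := by ring
    rw [e1] at h1
    rw [e2] at h2
    linarith

theorem ls3_ph0 (z : ℂ) : ph 0 z = z := by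
  unfold ph; simp

theorem ls3_un {z : ℂ} (hz : z ≠ 0) : z = (‖z‖ : ℂ) * un z := by
  unfold un
  have : (‖z‖ : ℂ) ≠ 0 := by exact_mod_cast norm_ne_zero_iff.2 hz
  field_simp

/-- level 1 -/
theorem lift_base {b : ℕ → ℕ} (hb : ∀ n, 10000 ≤ b n) {f : ℕ → ℤ → ℝ} (hf : Per b f)
    (hf1 : ∀ n j, 1000 ≤ f n j) (htot : ∀ n j, total b ah f n j = 2 * Real.pi)
    {p : ℕ → ℤ → ℂ} (hp : Per b p) (hp0 : p 0 0 = 0) (hdev : Dev GH b f p) :
    ∃ Θ : ℤ → ℝ,
      (∀ j, p 1 j ≠ 0 ∧ p 1 j = (‖p 1 j‖ : ℂ) * Complex.exp ((Θ j : ℝ) * Complex.I)) ∧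
      (∀ j, 0 < Θ (j + 1) - Θ j ∧ Θ (j + 1) - Θ j < Real.pi) ∧
      (∀ j, Θ (j + (L b 1 : ℤ)) = Θ j + 2 * Real.pi) := by
  have hL1 : L b 1 = b 0 := by simp [L]
  have hf0 : ∀ j, f 0 j = f 0 0 := by
    intro j
    have h : ∀ j, f 0 (j + 1) = f 0 j := fun j => by simpa [L] using hf 0 j
    induction j using Int.induction_on with
    | zero => rfl
    | succ i ih => rw [h, ih]
    | pred i ih =>
      have := h (-(i : ℤ) - 1)
      rw [sub_add_cancel] at this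
      rw [← this, ih]
  have hp00 : ∀ j, p 0 j = 0 := by
    intro j
    have h : ∀ j, p 0 (j + 1) = p 0 j := fun j => by simpa [L] using hp 0 j
    induction j using Int.induction_on with
    | zero => exact hp0
    | succ i ih => rw [h, ih]
    | pred i ih =>
      have := h (-(i : ℤ) - 1)
      rw [sub_add_cancel] at this
      rw [← this, ih]
  have hr := hf1 0 0
  have hface : ∀ k, ‖p 1 k‖ = Th (f 0 0 * f 1 k) ∧
      un (p 1 (k + 1)) = Complex.exp ((ah (f 0 0) (f 1 k) (f 1 (k + 1)) : ℝ) * Complex.I)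
        * un (p 1 k) := by
    intro k
    have h := hdev.1 0 k
    rw [hp00, hf0] at h
    have t1 : TgH (f 0 0) (f 1 k) 0 (p 1 k) := h.t1
    have d1 : un (ph 0 (p 1 (k + 1)))
        = Complex.exp ((ah (f 0 0) (f 1 k) (f 1 (k + 1)) : ℝ) * Complex.I)
          * un (ph 0 (p 1 k)) := h.d1
    rw [ls3_ph0, ls3_ph0] at d1
    have h3 := t1.2.2
    rw [ls3_ph0] at h3
    exact ⟨h3, d1⟩
  have hne : ∀ k, p 1 k ≠ 0 := by
    intro k hk
    have h1 := (hface k).1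
    rw [hk, norm_zero] at h1
    have h2 := hf1 1 k
    have h3 : 0 < Th (f 0 0 * f 1 k) := by
      unfold Th
      apply div_pos <;> nlinarith
    linarith
  obtain ⟨S, hS0, hS1, hSn⟩ := ls3_sum (fun k => ah (f 0 0) (f 1 k) (f 1 (k + 1)))
    (Complex.arg (p 1 0))
  have hexp : ∀ k, un (p 1 k) = Complex.exp ((S k : ℝ) * Complex.I) := by
    intro k
    induction k using Int.induction_on with
    | zero =>
      rw [hS0]
      have h1 := Complex.norm_mul_exp_arg_mul_I (p 1 0)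
      have h2 : (‖p 1 0‖ : ℂ) ≠ 0 := by exact_mod_cast norm_ne_zero_iff.2 (hne 0)
      unfold un
      rw [div_eq_iff h2, mul_comm]
      exact h1.symm
    | succ i ih =>
      rw [(hface i).2, ih, hS1, ← Complex.exp_add]
      congr 1; push_cast; ring
    | pred i ih =>
      have h1 := (hface (-(i : ℤ) - 1)).2
      have h2 := hS1 (-(i : ℤ) - 1)
      rw [sub_add_cancel] at h1 h2
      rw [ih, h2] at h1
      have h3 := Complex.exp_ne_zero
        ((ah (f 0 0) (f 1 (-(i : ℤ) - 1)) (f 1 (-(i : ℤ))) : ℝ) * Complex.I)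
      apply mul_left_cancel₀ h3
      rw [← h1, ← Complex.exp_add]
      congr 1; push_cast; ring
  refine ⟨S, fun j => ⟨hne j, ?_⟩, fun j => ?_, fun j => ?_⟩
  · rw [← hexp]; exact ls3_un (hne j)
  · have h1 : 0 < ah (f 0 0) (f 1 j) (f 1 (j + 1)) :=
      ah_pos (by linarith) (by linarith [hf1 1 j]) (by linarith [hf1 1 (j + 1)])
    have h2 : ah (f 0 0) (f 1 j) (f 1 (j + 1)) ≤ 3 / f 0 0 :=
      ah_le (by linarith) (by linarith [hf1 1 j]) (by linarith [hf1 1 (j + 1)])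
    have h3 : 3 / f 0 0 ≤ 1 := by rw [div_le_one (by linarith)]; linarith
    have h4 := hS1 j
    constructor
    · linarith
    · linarith [Real.pi_gt_three]
  · have hθ : ∀ k, (fun k => ah (f 0 0) (f 1 k) (f 1 (k + 1))) (k + (L b 1 : ℤ))
        = (fun k => ah (f 0 0) (f 1 k) (f 1 (k + 1))) k := by
      intro k
      have e1 := hf 1 k
      have e2 := hf 1 (k + 1)
      simp only
      rw [e1, show k + (L b 1 : ℤ) + 1 = k + 1 + (L b 1 : ℤ) by ring, e2]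
    rw [ls3_per hθ hS1 j, hS0, hSn (L b 1)]
    have htt := htot 0 0
    rw [total, if_pos rfl, kids] at htt
    rw [hL1]
    have : ∑ i ∈ Finset.range (b 0), ah (f 0 0) (f 1 (i : ℤ)) (f 1 ((i : ℤ) + 1))
        = 2 * Real.pi := by
      rw [← htt]
      apply Finset.sum_congr rfl
      intro i _
      simp
    rw [this]; ring

/-- the three properties of an argument function on level `n` -/
def ls3_good (b : ℕ → ℕ) (p : ℕ → ℤ → ℂ) (n : ℕ) (Θ : ℤ → ℝ) : Prop :=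
  (∀ j, p n j ≠ 0 ∧ p n j = (‖p n j‖ : ℂ) * Complex.exp ((Θ j : ℝ) * Complex.I)) ∧
  (∀ j, 0 < Θ (j + 1) - Θ j ∧ Θ (j + 1) - Θ j < Real.pi) ∧
  (∀ j, Θ (j + (L b n : ℤ)) = Θ j + 2 * Real.pi)

theorem ls3_hss {b : ℕ → ℕ} {p : ℕ → ℤ → ℂ} {n : ℕ} {Θ : ℤ → ℝ} (h : ls3_good b p n Θ) (i : ℤ) :
    0 < ((starRingEnd ℂ) (p n i) * p n (i + 1)).im := by
  obtain ⟨h1, h2, -⟩ := h
  obtain ⟨a1, a2⟩ := h1 i
  obtain ⟨b1, b2⟩ := h1 (i + 1)
  obtain ⟨c1, c2⟩ := h2 i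
  have ha : 0 < ‖p n i‖ := norm_pos_iff.2 a1
  have hb : 0 < ‖p n (i + 1)‖ := norm_pos_iff.2 b1
  have key : (starRingEnd ℂ) (p n i) * p n (i + 1)
      = ((‖p n i‖ * ‖p n (i + 1)‖ : ℝ) : ℂ)
        * Complex.exp (((Θ (i + 1) - Θ i : ℝ) : ℂ) * Complex.I) := by
    conv_lhs => rw [a2, b2]
    rw [map_mul, Complex.conj_ofReal, ← Complex.exp_conj, map_mul, Complex.conj_ofReal,
      Complex.conj_I]
    have : Complex.exp (((Θ (i + 1) - Θ i : ℝ) : ℂ) * Complex.I)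
        = Complex.exp ((Θ i : ℂ) * -Complex.I) * Complex.exp ((Θ (i + 1) : ℂ) * Complex.I) := by
      rw [← Complex.exp_add]; congr 1; push_cast; ring
    rw [this]; push_cast; ring
  rw [key, Complex.im_ofReal_mul, Complex.exp_ofReal_mul_I_im]
  exact mul_pos (mul_pos ha hb) (Real.sin_pos_of_pos_of_lt_pi c1 c2)

theorem lifts {b : ℕ → ℕ} (hb : ∀ n, 10000 ≤ b n) {f : ℕ → ℤ → ℝ} (hf : Per b f)
    (hf1 : ∀ n j, 1000 ≤ f n j) (htot : ∀ n j, total b ah f n j = 2 * Real.pi)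
    {p : ℕ → ℤ → ℂ} (hp : Per b p) (hp0 : p 0 0 = 0) (hdev : Dev GH b f p) :
    ∃ Θ : ℕ → ℤ → ℝ, ∀ n, 1 ≤ n →
      (∀ j, p n j ≠ 0 ∧ p n j = (‖p n j‖ : ℂ) * Complex.exp ((Θ n j : ℝ) * Complex.I)) ∧
      (∀ j, 0 < Θ n (j + 1) - Θ n j ∧ Θ n (j + 1) - Θ n j < Real.pi) ∧
      (∀ j, Θ n (j + (L b n : ℤ)) = Θ n j + 2 * Real.pi) ∧
      (∀ j, Θ (n + 1) (j * (b n : ℤ)) < Θ n j ∧
        Θ n j < Θ (n + 1) ((j + 1) * (b n : ℤ) - 1)) := by
  have step : ∀ n, 1 ≤ n → ∀ Θ : ℤ → ℝ, ls3_good b p n Θ → ∃ Θ' : ℤ → ℝ,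
      ls3_good b p (n + 1) Θ' ∧ ∀ j, Θ' (j * (b n : ℤ)) < Θ j ∧
        Θ j < Θ' ((j + 1) * (b n : ℤ) - 1) := by
    intro n hn Θ hg
    have hss := ls3_hss hg
    have hbn := hb n
    obtain ⟨Θ', g1, g2, g3, g4⟩ := lift_step (N := b n) (M := L b n) (by omega) (q := p n)
      (q' := p (n + 1)) (fun j => hp n j) (fun k => hp (n + 1) k) hg.1 hg.2.1 hg.2.2 (by
        intro j
        obtain ⟨c1, c2, c3, c4, c5, c6⟩ := local_children hb hf1 htot hdev hn j hss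
          (v := p n j) rfl (a := fun i : ℕ => p (n + 1) (j * (b n : ℤ) + (i : ℤ)))
          (fun i => rfl) (N := b n) rfl
        have e1 : ∀ i : ℕ, j * (b n : ℤ) + ((i + 1 : ℕ) : ℤ) = j * (b n : ℤ) + i + 1 := by
          intro i; push_cast; ring
        have e2 : j * (b n : ℤ) + ((b n - 1 : ℕ) : ℤ) = (j + 1) * (b n : ℤ) - 1 := by
          rw [Nat.cast_sub (by omega)]; push_cast; ring
        have e3 : j * (b n : ℤ) + (b n : ℤ) = (j + 1) * (b n : ℤ) := by ring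
        simp only [e1, e2, e3, Nat.cast_zero, add_zero] at c1 c2 c3 c4 c5 c6
        exact ⟨c1, c2, c3, c4, c5, c6⟩)
    exact ⟨Θ', ⟨g1, g2, g3⟩, g4⟩
  obtain ⟨Θ1, h1⟩ := lift_base hb hf hf1 htot hp hp0 hdev
  choose! nx hnx1 hnx2 using step
  let T : ℕ → ℤ → ℝ := fun m => Nat.rec Θ1 (fun m Θ => nx (m + 1) Θ) m
  have hT0 : T 0 = Θ1 := rfl
  have hT1 : ∀ m, T (m + 1) = nx (m + 1) (T m) := fun m => rfl
  have hT : ∀ m, ls3_good b p (m + 1) (T m) := by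
    intro m
    induction m with
    | zero => exact h1
    | succ m ih => rw [hT1]; exact hnx1 (m + 1) (by omega) _ ih
  refine ⟨fun n => T (n - 1), fun n hn => ?_⟩
  obtain ⟨m, rfl⟩ : ∃ m, n = m + 1 := ⟨n - 1, by omega⟩
  have hg := hT m
  simp only [Nat.add_sub_cancel]
  refine ⟨hg.1, hg.2.1, hg.2.2, ?_⟩
  have := hnx2 (m + 1) (by omega) _ hg
  rw [← hT1] at this
  exact this

end Pool.Agent.Helper11.Fatou
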