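import Mathlib
import Pool.Agent.Helper11.Koebe.Defs
import Pool.Agent.Helper11.Fatou.Defs
import Pool.Agent.Helper11.Fatou.Circ
import Pool.Agent.Helper11.Fatou.Hyp

namespace Pool.Agent.Helper11.Fatou

open Pool.Agent.Helper11.Koebe (orient)


/-- Heron: mutually tangent circles have non-collinear centres -/
theorem orient_ne_zero {p q r : ℂ} {x y z : ℝ} (hx : 0 < x) (hy : 0 < y) (hz : 0 < z)
    (h1 : ‖q - p‖ = x + y) (h2 : ‖r - q‖ = y + z) (h3 : ‖r - p‖ = x + z) :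
    orient p q r ≠ 0 := by
  intro h0
  unfold orient at h0
  have e1 : (q - p).re ^ 2 + (q - p).im ^ 2 = (x + y) ^ 2 := by
    rw [← h1, ← Complex.normSq_eq_norm_sq, Complex.normSq_apply]; ring
  have e2 : (r - q).re ^ 2 + (r - q).im ^ 2 = (y + z) ^ 2 := by
    rw [← h2, ← Complex.normSq_eq_norm_sq, Complex.normSq_apply]; ring
  have e3 : (r - p).re ^ 2 + (r - p).im ^ 2 = (x + z) ^ 2 := by
    rw [← h3, ← Complex.normSq_eq_norm_sq, Complex.normSq_apply]; ring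
  have e4 : r - q = (r - p) - (q - p) := by ring
  rw [e4] at e2
  generalize q - p = u at *
  generalize r - p = v at *
  rw [Complex.sub_re, Complex.sub_im] at e2
  rw [Complex.mul_im, Complex.conj_re, Complex.conj_im] at h0
  have e5 : u.re * v.im - u.im * v.re = 0 := by linarith
  have e6 : u.re * v.re + u.im * v.im = ((x + y) ^ 2 + (x + z) ^ 2 - (y + z) ^ 2) / 2 := by
    nlinarith
  have e7 : (u.re * v.im - u.im * v.re) ^ 2 =
      (u.re ^ 2 + u.im ^ 2) * (v.re ^ 2 + v.im ^ 2) - (u.re * v.re + u.im * v.im) ^ 2 := by ring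
  rw [e5, e1, e3, e6] at e7
  have e8 : (x + y) ^ 2 * (x + z) ^ 2 - (((x + y) ^ 2 + (x + z) ^ 2 - (y + z) ^ 2) / 2) ^ 2 =
      4 * x * y * z * (x + y + z) := by ring
  rw [e8] at e7
  have e9 : 0 < 4 * x * y * z * (x + y + z) := by positivity
  rw [← e7] at e9
  norm_num at e9

theorem aux_den_ne {v x : ℂ} (hv : ‖v‖ < 1) (hx : ‖x‖ < 1) : 1 - (starRingEnd ℂ) v * x ≠ 0 := by
  intro h
  have h1 : ‖(starRingEnd ℂ) v * x‖ < 1 := by
    rw [norm_mul, Complex.norm_conj]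
    nlinarith [norm_nonneg v, norm_nonneg x]
  rw [← sub_eq_zero.1 h, norm_one] at h1
  exact lt_irrefl _ h1

theorem aux_TgH {r s : ℝ} {x y v : ℂ} (hv : ‖v‖ < 1) (h : TgH r s x y) :
    TgH r s (ph v x) (ph v y) := by
  obtain ⟨hx, hy, hxy⟩ := h
  refine ⟨ph_norm_lt hv hx, ph_norm_lt hv hy, ?_⟩
  rw [ph_ph hv hx hy, norm_mul, norm_div]
  have e : 1 - v * (starRingEnd ℂ) x = (starRingEnd ℂ) (1 - (starRingEnd ℂ) v * x) := by
    rw [map_sub, map_mul, Complex.conj_conj, map_one]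
  rw [e, Complex.norm_conj, div_self (norm_ne_zero_iff.2 (aux_den_ne hv hx)), one_mul, hxy]

theorem aux_Th {r : ℝ} (hr : 1 < r) : 0 < Th r ∧ Th r < 1 := by
  unfold Th
  constructor
  · apply div_pos <;> linarith
  · rw [div_lt_one (by linarith)]
    linarith

theorem aux_cden {a : ℂ} {r : ℝ} (ha : ‖a‖ < 1) (hr : 1 < r) : 0 < 1 - ‖a‖ ^ 2 * Th r ^ 2 := by
  obtain ⟨h1, h2⟩ := aux_Th hr
  have h3 : ‖a‖ ^ 2 < 1 := by nlinarith [norm_nonneg a]
  have h4 : Th r ^ 2 < 1 := by nlinarith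
  have h5 : 0 ≤ ‖a‖ ^ 2 := by positivity
  have h6 : 0 ≤ Th r ^ 2 := by positivity
  nlinarith

theorem aux_coef {a : ℂ} {r : ℝ} (ha : ‖a‖ < 1) (hr : 1 < r) :
    0 < (1 - Th r ^ 2) / (1 - ‖a‖ ^ 2 * Th r ^ 2) := by
  obtain ⟨h1, h2⟩ := aux_Th hr
  apply div_pos _ (aux_cden ha hr)
  nlinarith

theorem aux_cont {x y : ℂ} (hx : ‖x‖ < 1) (hy : ‖y‖ < 1) {r : ℝ} (hr : 1 < r) :
    ContinuousOn (fun τ : ℝ => cc (ph ((τ : ℂ) * x) y) r) (Set.Icc 0 1) := by
  have hv : ∀ τ ∈ Set.Icc (0 : ℝ) 1, ‖(τ : ℂ) * x‖ < 1 := by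
    intro τ hτ
    rw [norm_mul, Complex.norm_real, Real.norm_of_nonneg hτ.1]
    nlinarith [hτ.2, norm_nonneg x]
  have h1 : ContinuousOn (fun τ : ℝ => ph ((τ : ℂ) * x) y) (Set.Icc 0 1) := by
    unfold ph
    apply ContinuousOn.div
    · apply Continuous.continuousOn
      fun_prop
    · apply Continuous.continuousOn
      have : Continuous (fun τ : ℝ => (starRingEnd ℂ) ((τ : ℂ) * x)) :=
        Complex.continuous_conj.comp (by fun_prop)
      exact continuous_const.sub (this.mul continuous_const)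
    · intro τ hτ
      exact aux_den_ne (hv τ hτ) hy
  unfold cc
  apply h1.mul
  apply Complex.continuous_ofReal.comp_continuousOn
  apply ContinuousOn.div continuousOn_const
  · exact continuousOn_const.sub ((h1.norm.pow 2).mul continuousOn_const)
  · intro τ hτ
    exact (aux_cden (ph_norm_lt (hv τ hτ) hy) hr).ne'

/-- orientation of the euclidean centres -/
theorem cc_orient {r s t : ℝ} {x y z : ℂ} (hr : 1 < r) (hs : 1 < s) (ht : 1 < t)
    (h1 : TgH r s x y) (h2 : TgH s t y z) (h3 : TgH r t x z)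
    (hdir : 0 < ((starRingEnd ℂ) (ph x y) * ph x z).im) :
    0 < orient (cc x r) (cc y s) (cc z t) := by
  have hx := h1.1
  have hy := h1.2.1
  have hz := h2.2.1
  have hv : ∀ τ ∈ Set.Icc (0 : ℝ) 1, ‖(τ : ℂ) * x‖ < 1 := by
    intro τ hτ
    rw [norm_mul, Complex.norm_real, Real.norm_of_nonneg hτ.1]
    nlinarith [hτ.2, norm_nonneg x]
  set g : ℝ → ℝ := fun τ => orient (cc (ph ((τ : ℂ) * x) x) r) (cc (ph ((τ : ℂ) * x) y) s)
    (cc (ph ((τ : ℂ) * x) z) t) with hg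
  have hgc : ContinuousOn g (Set.Icc 0 1) := by
    have c1 := aux_cont hx hx hr
    have c2 := aux_cont hx hy hs
    have c3 := aux_cont hx hz ht
    rw [hg]
    unfold orient
    apply Complex.continuous_im.comp_continuousOn
    exact (Complex.continuous_conj.comp_continuousOn (c2.sub c1)).mul (c3.sub c1)
  have hg0 : ∀ τ ∈ Set.Icc (0 : ℝ) 1, g τ ≠ 0 := by
    intro τ hτ
    have t1 := aux_TgH (hv τ hτ) h1
    have t2 := aux_TgH (hv τ hτ) h2
    have t3 := aux_TgH (hv τ hτ) h3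
    exact orient_ne_zero (cr_pos t1.1 hr) (cr_pos t1.2.1 hs) (cr_pos t2.2.1 ht)
      (cc_tangent hr hs t1) (cc_tangent hs ht t2) (cc_tangent hr ht t3)
  have hg1 : 0 < g 1 := by
    have e0 : ph ((1 : ℝ) * x) x = 0 := by
      unfold ph
      simp
    have e1 : ((1 : ℝ) : ℂ) * x = x := by simp
    rw [hg]
    simp only
    rw [e0, e1]
    have e2 : cc 0 r = 0 := by unfold cc; simp
    rw [e2]
    unfold orient cc
    rw [sub_zero, sub_zero, map_mul, Complex.conj_ofReal]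
    have k1 := aux_coef (ph_norm_lt hx hy) hs
    have k2 := aux_coef (ph_norm_lt hx hz) ht
    generalize (1 - Th s ^ 2) / (1 - ‖ph x y‖ ^ 2 * Th s ^ 2) = c1 at k1 ⊢
    generalize (1 - Th t ^ 2) / (1 - ‖ph x z‖ ^ 2 * Th t ^ 2) = c2 at k2 ⊢
    have e3 : (starRingEnd ℂ) (ph x y) * (c1 : ℂ) * (ph x z * (c2 : ℂ)) =
        ((c1 * c2 : ℝ) : ℂ) * ((starRingEnd ℂ) (ph x y) * ph x z) := by
      push_cast
      ring
    rw [e3, Complex.im_ofReal_mul]
    positivity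
  have hgz : g 0 = orient (cc x r) (cc y s) (cc z t) := by
    have e0 : ∀ w : ℂ, ph (((0 : ℝ) : ℂ) * x) w = w := by
      intro w
      unfold ph
      simp
    rw [hg]
    simp only
    rw [e0, e0, e0]
  rw [← hgz]
  by_contra hcon
  push Not at hcon
  have himg := intermediate_value_Icc zero_le_one hgc
  obtain ⟨τ, hτ, hτ0⟩ := himg ⟨hcon, hg1.le⟩
  exact hg0 τ hτ hτ0

end Pool.Agent.Helper11.Fatou
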