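import Mathlib
import Pool.Agent.Helper11.Koebe.Defs
import Pool.Agent.Helper11.Fatou.Defs
import Pool.Agent.Helper11.Fatou.CoordUniq

namespace Pool.Agent.Helper11.Fatou

open Pool.Agent.Helper11.Koebe

theorem adj_of_face {V : Type} {K : Tri V} {a b c : V} (h : K.face a b c) :
    (K.Adj a b ∧ K.Adj b a) ∧ (K.Adj b c ∧ K.Adj c b) ∧ (K.Adj c a ∧ K.Adj a c) := by
  have h2 := K.rot _ _ _ h
  have h3 := K.rot _ _ _ h2
  exact ⟨⟨⟨c, Or.inl h⟩, ⟨c, Or.inr h⟩⟩, ⟨⟨a, Or.inl h2⟩, ⟨a, Or.inr h2⟩⟩,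
    ⟨⟨b, Or.inl h3⟩, ⟨b, Or.inr h3⟩⟩⟩

theorem star_of_mem {V : Type} {K : Tri V} {x : V → ℝ} (hx : x ∈ realization K) {v w : V}
    (hv : x v ≠ 0) (hw : x w ≠ 0) : w = v ∨ K.Adj v w := by
  obtain ⟨-, a, b, c, hf, -, h0⟩ := hx
  obtain ⟨⟨ab, ba⟩, ⟨bc, cb⟩, ca, ac⟩ := adj_of_face hf
  have hv' : v = a ∨ v = b ∨ v = c := by
    by_contra h
    push Not at h
    exact hv (h0 v h.1 h.2.1 h.2.2)
  have hw' : w = a ∨ w = b ∨ w = c := by
    by_contra h
    push Not at h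
    exact hw (h0 w h.1 h.2.1 h.2.2)
  rcases hv' with h | h | h <;> rcases hw' with h' | h' | h' <;> subst h <;> subst h' <;> tauto

theorem exists_pos {V : Type} {K : Tri V} {x : V → ℝ} (hx : x ∈ realization K) : ∃ v, 0 < x v := by
  obtain ⟨h0, a, b, c, hf, hs, -⟩ := hx
  by_contra hcon
  push Not at hcon
  have := hcon a
  have := hcon b
  have := hcon c
  linarith

theorem phi_continuous {V : Type} {K : Tri V} (Q : Packing K) :
    Continuous (fun x : realization K => ∑ᶠ v, (x.1 v : ℂ) * Q.c v) := by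
  classical
  rw [continuous_iff_continuousAt]
  intro x0
  obtain ⟨v, hv⟩ := exists_pos x0.2
  have hNf : (insert v {w | K.Adj v w}).Finite := (nbrs_finite (K := K) v).insert v
  have hcv : ∀ w : V, Continuous (fun x : realization K => x.1 w) := fun w =>
    (continuous_apply w).comp continuous_subtype_val
  have hev : ∀ᶠ x : realization K in nhds x0, 0 < x.1 v :=
    (hcv v).continuousAt.eventually (lt_mem_nhds hv)
  have hc : Continuous (fun x : realization K => ∑ w ∈ hNf.toFinset, (x.1 w : ℂ) * Q.c w) := by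
    refine continuous_finsetSum _ fun w _ => ?_
    exact (Complex.continuous_ofReal.comp (hcv w)).mul continuous_const
  refine hc.continuousAt.congr ?_
  filter_upwards [hev] with x hx
  symm
  apply finsum_eq_sum_of_support_subset
  intro w hw
  rw [Set.Finite.coe_toFinset]
  have hw' : x.1 w ≠ 0 := by
    intro h
    rw [Function.mem_support, h] at hw
    simp at hw
  rcases star_of_mem x.2 hx.ne' hw' with h | h
  · exact Or.inl h
  · exact Or.inr h

theorem hull_of_real {V : Type} {K : Tri V} (Q : Packing K) {a b c : V} {x : V → ℝ}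
    (h0 : ∀ v, 0 ≤ x v) (hs : x a + x b + x c = 1) :
    (x a : ℂ) * Q.c a + x b * Q.c b + x c * Q.c c ∈ convexHull ℝ {Q.c a, Q.c b, Q.c c} := by
  have h := (convex_convexHull ℝ {Q.c a, Q.c b, Q.c c}).sum_mem (t := (Finset.univ : Finset (Fin 3)))
    (w := ![x a, x b, x c]) (z := ![Q.c a, Q.c b, Q.c c])
    (by
      intro i _
      fin_cases i
      · exact h0 a
      · exact h0 b
      · exact h0 c)
    (by
      rw [Fin.sum_univ_three]
      exact hs)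
    (by
      intro i _
      apply subset_convexHull
      fin_cases i <;> simp)
  rw [Fin.sum_univ_three] at h
  simpa using h

theorem mkpt {V : Type} {K : Tri V} (Q : Packing K) {a b c : V} (hf : K.face a b c) {α β γ : ℝ}
    (hα : 0 ≤ α) (hβ : 0 ≤ β) (hγ : 0 ≤ γ) (hs : α + β + γ = 1) :
    ∃ x ∈ realization K, x a = α ∧ (∀ v, v ≠ a → v ≠ b → v ≠ c → x v = 0) ∧
      ∑ᶠ v, (x v : ℂ) * Q.c v = (α : ℂ) * Q.c a + β * Q.c b + γ * Q.c c := by
  classical
  obtain ⟨hab, hbc, hac⟩ := face_ne hf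
  obtain ⟨x, hx⟩ : ∃ x : V → ℝ, x = fun v => if v = a then α else if v = b then β else
    if v = c then γ else 0 := ⟨_, rfl⟩
  have xa : x a = α := by rw [hx]; simp
  have xb : x b = β := by rw [hx]; simp [hab.symm]
  have xc : x c = γ := by rw [hx]; simp [hac.symm, hbc.symm]
  have x0 : ∀ v, v ≠ a → v ≠ b → v ≠ c → x v = 0 := by
    intro v h1 h2 h3
    rw [hx]
    simp [h1, h2, h3]
  refine ⟨x, ⟨?_, a, b, c, hf, ?_, x0⟩, xa, x0, ?_⟩
  · intro v
    rw [hx]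
    show 0 ≤ if v = a then α else if v = b then β else if v = c then γ else 0
    split_ifs
    · exact hα
    · exact hβ
    · exact hγ
    · exact le_rfl
  · rw [xa, xb, xc]
    exact hs
  · rw [finsum_face hf x0, xa, xb, xc]

theorem hull_pt {V : Type} {K : Tri V} (Q : Packing K) {a b c : V} (hf : K.face a b c) {z : ℂ}
    (hz : z ∈ convexHull ℝ {Q.c a, Q.c b, Q.c c}) :
    ∃ x ∈ realization K, (∀ v, v ≠ a → v ≠ b → v ≠ c → x v = 0) ∧
      ∑ᶠ v, (x v : ℂ) * Q.c v = z := by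
  rw [convexHull_insert (by simp), convexHull_pair, mem_convexJoin] at hz
  obtain ⟨p, hp, y, hy, hz⟩ := hz
  rw [Set.mem_singleton_iff] at hp
  subst hp
  obtain ⟨s, t, hs, ht, hst, rfl⟩ := hy
  obtain ⟨s', t', hs', ht', hst', rfl⟩ := hz
  obtain ⟨x, hx, -, h0, h1⟩ := mkpt Q hf (α := s') (β := t' * s) (γ := t' * t) hs'
    (mul_nonneg ht' hs) (mul_nonneg ht' ht) (by rw [add_assoc, ← mul_add, hst, mul_one, hst'])
  refine ⟨x, hx, h0, ?_⟩
  rw [h1]
  simp only [Complex.real_smul, Complex.ofReal_mul]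
  ring

theorem vertex_face {V : Type} {K : Tri V} (v : V) : ∃ a b, K.face v a b := by
  rcases K.link v with ⟨n, hn, b, -, -, h⟩ | ⟨n, hn, b, -, h⟩
  · exact ⟨b 0, b 1, (h _ _).2 ⟨0, rfl, rfl⟩⟩
  · exact ⟨b 0, b 1, (h _ _).2 ⟨0, by omega, rfl, rfl⟩⟩

theorem face_meets {V : Type} {K : Tri V} {Q : Packing K}
    (hface : ∀ a b c, K.face a b c → convexHull ℝ {Q.c a, Q.c b, Q.c c} ⊆
      Metric.closedBall (Q.c a) (Q.r a) ∪ Metric.closedBall (Q.c b) (Q.r b) ∪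
        Metric.closedBall (Q.c c) (Q.r c) ∪ interior (convexHull ℝ {Q.c a, Q.c b, Q.c c}))
    (huniq : ∀ x ∈ realization K, ∀ y ∈ realization K,
      ∑ᶠ v, (x v : ℂ) * Q.c v = ∑ᶠ v, (y v : ℂ) * Q.c v → x = y)
    (v0 : V) (ρ : ℝ) (hρ : ‖Q.c v0‖ ≤ ρ) {a b c : V} (hf : K.face a b c) {z : ℂ}
    (hz : z ∈ convexHull ℝ {Q.c a, Q.c b, Q.c c}) (hzρ : ‖z‖ ≤ ρ) :
    ‖Q.c a‖ - Q.r a ≤ ρ ∨ ‖Q.c b‖ - Q.r b ≤ ρ ∨ ‖Q.c c‖ - Q.r c ≤ ρ := by
  by_contra hcon
  push Not at hcon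
  obtain ⟨ha, hb, hc⟩ := hcon
  have hav : ∀ v : V, ρ < ‖Q.c v‖ - Q.r v → ∀ w : ℂ, ‖w‖ ≤ ρ →
      w ∉ Metric.closedBall (Q.c v) (Q.r v) := by
    intro v hv w hw hw'
    rw [Metric.mem_closedBall, dist_eq_norm] at hw'
    have h1 : ‖Q.c v‖ ≤ ‖w - Q.c v‖ + ‖w‖ := by
      have h2 : Q.c v = w - (w - Q.c v) := by ring
      calc ‖Q.c v‖ = ‖w - (w - Q.c v)‖ := by rw [← h2]
        _ ≤ ‖w‖ + ‖w - Q.c v‖ := norm_sub_le _ _
        _ = _ := add_comm _ _
    linarith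
  have hint : ∀ w : ℂ, ‖w‖ ≤ ρ → w ∈ convexHull ℝ {Q.c a, Q.c b, Q.c c} →
      w ∈ interior (convexHull ℝ {Q.c a, Q.c b, Q.c c}) := by
    intro w hw hw'
    rcases hface a b c hf hw' with ((h | h) | h) | h
    · exact absurd h (hav a ha w hw)
    · exact absurd h (hav b hb w hw)
    · exact absurd h (hav c hc w hw)
    · exact h
  have hcl : IsClosed (convexHull ℝ {Q.c a, Q.c b, Q.c c}) :=
    (Set.Finite.isCompact_convexHull (𝕜 := ℝ) (Set.toFinite {Q.c a, Q.c b, Q.c c})).isClosed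
  have hpre : IsPreconnected (Metric.closedBall (0 : ℂ) ρ) := (convex_closedBall 0 ρ).isPreconnected
  have hsub : Metric.closedBall (0 : ℂ) ρ ⊆ interior (convexHull ℝ {Q.c a, Q.c b, Q.c c}) := by
    refine IsPreconnected.subset_left_of_subset_union isOpen_interior hcl.isOpen_compl ?_ ?_ ?_ hpre
    · rw [Set.disjoint_left]
      intro w hw hw'
      exact hw' (interior_subset hw)
    · intro w hw
      rw [mem_closedBall_zero_iff] at hw
      by_cases h : w ∈ convexHull ℝ {Q.c a, Q.c b, Q.c c}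
      · exact Or.inl (hint w hw h)
      · exact Or.inr h
    · exact ⟨z, mem_closedBall_zero_iff.2 hzρ, hint z hzρ hz⟩
  have hv0 : Q.c v0 ∈ convexHull ℝ {Q.c a, Q.c b, Q.c c} :=
    interior_subset (hsub (mem_closedBall_zero_iff.2 hρ))
  obtain ⟨y, hy, hy0, hy1⟩ := hull_pt Q hf hv0
  obtain ⟨p, q, hpq⟩ := vertex_face (K := K) v0
  obtain ⟨x, hx, hx1, -, hx2⟩ := mkpt Q hpq (α := 1) (β := 0) (γ := 0) zero_le_one le_rfl le_rfl
    (by norm_num)
  have hxy : y = x := by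
    apply huniq y hy x hx
    rw [hy1, hx2]
    simp
  have hr := Q.r_pos v0
  have h5 : v0 ≠ a := by rintro rfl; linarith
  have h6 : v0 ≠ b := by rintro rfl; linarith
  have h7 : v0 ≠ c := by rintro rfl; linarith
  have h8 := hy0 v0 h5 h6 h7
  rw [hxy, hx1] at h8
  exact one_ne_zero h8

/-- the realization is homeomorphic to the carrier -/
theorem realization_homeo {V : Type} {K : Tri V} {Q : Packing K}
    (hcar : Q.carrier = Metric.ball 0 1) (hin : ∀ v, ‖Q.c v‖ + Q.r v < 1)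
    (hfin : ∀ ρ : ℝ, 0 ≤ ρ → ρ < 1 → {v | ‖Q.c v‖ - Q.r v ≤ ρ}.Finite)
    (hface : ∀ a b c, K.face a b c → convexHull ℝ {Q.c a, Q.c b, Q.c c} ⊆
      Metric.closedBall (Q.c a) (Q.r a) ∪ Metric.closedBall (Q.c b) (Q.r b) ∪
        Metric.closedBall (Q.c c) (Q.r c) ∪ interior (convexHull ℝ {Q.c a, Q.c b, Q.c c}))
    (huniq : ∀ x ∈ realization K, ∀ y ∈ realization K,
      ∑ᶠ v, (x v : ℂ) * Q.c v = ∑ᶠ v, (y v : ℂ) * Q.c v → x = y) :
    Nonempty (realization K ≃ₜ Metric.ball (0 : ℂ) 1) := by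
  classical
  have hφmem : ∀ x : realization K, ∑ᶠ v, (x.1 v : ℂ) * Q.c v ∈ Metric.ball (0 : ℂ) 1 := by
    rintro ⟨x, h0, a, b, c, hf, hs, hz⟩
    rw [← hcar]
    refine ⟨a, b, c, hf, ?_⟩
    show ∑ᶠ v, (x v : ℂ) * Q.c v ∈ _
    rw [finsum_face hf hz]
    exact hull_of_real Q h0 hs
  obtain ⟨φ, hφ⟩ : ∃ φ : realization K → Metric.ball (0 : ℂ) 1,
      ∀ x, (φ x : ℂ) = ∑ᶠ v, (x.1 v : ℂ) * Q.c v := ⟨fun x => ⟨_, hφmem x⟩, fun x => rfl⟩
  have hφc : Continuous φ := by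
    rw [continuous_induced_rng]
    exact (phi_continuous Q).congr fun x => (hφ x).symm
  have hinj : Function.Injective φ := by
    intro x y hxy
    apply Subtype.ext
    apply huniq x.1 x.2 y.1 y.2
    rw [← hφ x, ← hφ y, hxy]
  have hsurj : Function.Surjective φ := by
    intro z
    have hz : (z : ℂ) ∈ Q.carrier := by
      rw [hcar]
      exact z.2
    obtain ⟨a, b, c, hf, hz⟩ := hz
    obtain ⟨x, hx, -, h1⟩ := hull_pt Q hf hz
    refine ⟨⟨x, hx⟩, Subtype.ext ?_⟩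
    rw [hφ]
    exact h1
  have h00 : (0 : ℂ) ∈ Q.carrier := by
    rw [hcar]
    simp
  obtain ⟨v0, -⟩ := h00
  have hproper : IsProperMap φ := by
    haveI : LocallyCompactSpace (Metric.ball (0 : ℂ) 1) := Metric.isOpen_ball.locallyCompactSpace
    rw [isProperMap_iff_isCompact_preimage]
    refine ⟨hφc, ?_⟩
    intro C hC
    rcases C.eq_empty_or_nonempty with hne | hne
    · rw [hne, Set.preimage_empty]
      exact isCompact_empty
    obtain ⟨z1, hz1, hmax⟩ := hC.exists_isMaxOn (f := fun z : Metric.ball (0 : ℂ) 1 => ‖(z : ℂ)‖) hne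
      (continuous_norm.comp continuous_subtype_val).continuousOn
    obtain ⟨ρ, hρ⟩ : ∃ ρ : ℝ, ρ = max ‖(z1 : ℂ)‖ ‖Q.c v0‖ := ⟨_, rfl⟩
    have hρ1 : ρ < 1 := by
      rw [hρ]
      refine max_lt (mem_ball_zero_iff.1 z1.2) ?_
      have := hin v0
      have := Q.r_pos v0
      linarith
    have hρ0 : 0 ≤ ρ := by
      rw [hρ]
      exact le_max_of_le_left (norm_nonneg _)
    have hρv : ‖Q.c v0‖ ≤ ρ := by
      rw [hρ]
      exact le_max_right _ _
    have hCρ : ∀ z ∈ C, ‖(z : ℂ)‖ ≤ ρ := by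
      intro z hz
      rw [hρ]
      exact (hmax hz).trans (le_max_left _ _)
    have hWfin := hfin ρ hρ0 hρ1
    obtain ⟨W, hW⟩ : ∃ W : Set V, W = {v | ‖Q.c v‖ - Q.r v ≤ ρ} := ⟨_, rfl⟩
    rw [← hW] at hWfin
    obtain ⟨W', hW'⟩ : ∃ W' : Set V, W' = W ∪ ⋃ v ∈ W, {w | K.Adj v w} := ⟨_, rfl⟩
    have hW'fin : W'.Finite := by
      rw [hW']
      exact hWfin.union (hWfin.biUnion fun v _ => nbrs_finite (K := K) v)
    have hWW' : ∀ v ∈ W, v ∈ W' := fun v hv => by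
      rw [hW']
      exact Or.inl hv
    have hadjW' : ∀ v ∈ W, ∀ w, K.Adj v w → w ∈ W' := fun v hv w h => by
      rw [hW']
      exact Or.inr (Set.mem_biUnion hv h)
    obtain ⟨F, hF⟩ : ∃ F : V × V × V → Set (V → ℝ), ∀ p, F p = {x | (∀ v, 0 ≤ x v) ∧
        x p.1 + x p.2.1 + x p.2.2 = 1 ∧ ∀ v, v ≠ p.1 → v ≠ p.2.1 → v ≠ p.2.2 → x v = 0} :=
      ⟨fun p => _, fun p => rfl⟩
    have hFc : ∀ p, IsCompact (F p) := by
      intro p
      have h1 : IsCompact (Set.pi Set.univ (fun _ : V => Set.Icc (0 : ℝ) 1)) :=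
        isCompact_univ_pi fun _ => isCompact_Icc
      refine h1.of_isClosed_subset ?_ ?_
      · rw [hF]
        have e : {x : V → ℝ | (∀ v, 0 ≤ x v) ∧
            x p.1 + x p.2.1 + x p.2.2 = 1 ∧ ∀ v, v ≠ p.1 → v ≠ p.2.1 → v ≠ p.2.2 → x v = 0} =
            (⋂ v, {x | 0 ≤ x v}) ∩ ({x | x p.1 + x p.2.1 + x p.2.2 = 1} ∩
              ⋂ v, ⋂ (_ : v ≠ p.1 ∧ v ≠ p.2.1 ∧ v ≠ p.2.2), {x | x v = 0}) := by
          ext x
          simp only [Set.mem_inter_iff, Set.mem_iInter, Set.mem_ofPred_eq]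
          constructor
          · rintro ⟨h1, h2, h3⟩
            exact ⟨h1, h2, fun v hv => h3 v hv.1 hv.2.1 hv.2.2⟩
          · rintro ⟨h1, h2, h3⟩
            exact ⟨h1, h2, fun v h4 h5 h6 => h3 v ⟨h4, h5, h6⟩⟩
        rw [e]
        refine IsClosed.inter (isClosed_iInter fun v => ?_) (IsClosed.inter ?_
          (isClosed_iInter fun v => isClosed_iInter fun _ => ?_))
        · exact isClosed_le continuous_const (continuous_apply v)
        · exact isClosed_eq (by fun_prop) continuous_const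
        · exact isClosed_eq (continuous_apply v) continuous_const
      · rw [hF]
        rintro x ⟨h2, h3, h4⟩ v _
        refine ⟨h2 v, ?_⟩
        have g1 := h2 p.1
        have g2 := h2 p.2.1
        have g3 := h2 p.2.2
        by_cases c1 : v = p.1
        · rw [c1]; linarith
        by_cases c2 : v = p.2.1
        · rw [c2]; linarith
        by_cases c3 : v = p.2.2
        · rw [c3]; linarith
        rw [h4 v c1 c2 c3]
        exact zero_le_one
    obtain ⟨FF, hFF⟩ : ∃ FF : Set (V × V × V), FF = {p | (p.1 ∈ W' ∧ p.2.1 ∈ W' ∧ p.2.2 ∈ W') ∧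
      K.face p.1 p.2.1 p.2.2} := ⟨_, rfl⟩
    have hFFfin : FF.Finite := by
      refine (hW'fin.prod (hW'fin.prod hW'fin)).subset ?_
      rw [hFF]
      rintro p ⟨⟨h1, h2, h3⟩, -⟩
      exact ⟨h1, h2, h3⟩
    have hS : IsCompact (⋃ p ∈ FF, F p) := hFFfin.isCompact_biUnion fun p _ => hFc p
    have hSr : (⋃ p ∈ FF, F p) ⊆ Set.range (Subtype.val : realization K → (V → ℝ)) := by
      intro x hx
      rw [Set.mem_iUnion₂] at hx
      obtain ⟨p, hp, hx⟩ := hx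
      rw [hFF] at hp
      rw [hF] at hx
      exact ⟨⟨x, hx.1, p.1, p.2.1, p.2.2, hp.2, hx.2.1, hx.2.2⟩, rfl⟩
    have hS2 : IsCompact ((Subtype.val : realization K → (V → ℝ)) ⁻¹' (⋃ p ∈ FF, F p)) :=
      Topology.IsInducing.subtypeVal.isCompact_preimage' hS hSr
    refine hS2.of_isClosed_subset (hC.isClosed.preimage hφc) ?_
    intro x hx
    have hx' : ‖(φ x : ℂ)‖ ≤ ρ := hCρ _ hx
    obtain ⟨h0, a, b, c, hf, hs, hz⟩ := x.2
    have hzz : (φ x : ℂ) ∈ convexHull ℝ {Q.c a, Q.c b, Q.c c} := by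
      rw [hφ, finsum_face hf hz]
      exact hull_of_real Q h0 hs
    have hm := face_meets hface huniq v0 ρ hρv hf hzz hx'
    obtain ⟨⟨ab, ba⟩, ⟨bc, cb⟩, ca, ac⟩ := adj_of_face hf
    have hmW : a ∈ W' ∧ b ∈ W' ∧ c ∈ W' := by
      rcases hm with h | h | h
      · have h' : a ∈ W := by rw [hW]; exact h
        exact ⟨hWW' _ h', hadjW' _ h' _ ab, hadjW' _ h' _ ac⟩
      · have h' : b ∈ W := by rw [hW]; exact h
        exact ⟨hadjW' _ h' _ ba, hWW' _ h', hadjW' _ h' _ bc⟩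
      · have h' : c ∈ W := by rw [hW]; exact h
        exact ⟨hadjW' _ h' _ ca, hadjW' _ h' _ cb, hWW' _ h'⟩
    show x.1 ∈ ⋃ p ∈ FF, F p
    refine Set.mem_biUnion (x := (a, b, c)) ?_ ?_
    · rw [hFF]
      exact ⟨hmW, hf⟩
    · rw [hF]
      exact ⟨h0, hs, hz⟩
  have hh : IsHomeomorph φ :=
    isHomeomorph_iff_continuous_isClosedMap_bijective.2 ⟨hφc, hproper.isClosedMap, hinj, hsurj⟩
  exact ⟨hh.homeomorph⟩

end Pool.Agent.Helper11.Fatou
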