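import Mathlib
import Pool.Agent.Helper11.Koebe.Defs
import Pool.Agent.Helper11.Fatou.Defs
import Pool.Agent.Helper11.Fatou.Bridge
import Pool.Agent.Helper11.Fatou.Complex
import Pool.Agent.Helper11.Fatou.FaceUniq

namespace Pool.Agent.Helper11.Fatou

open Pool.Agent.Helper11.Koebe

/-- the vertex set of a face -/
def f5_vts (b : ℕ → ℕ) (F : ℕ × ℕ × Bool) : Set (Vtx b) :=
  if F.2.2 then {mk b F.1 (F.2.1 : ℤ), mk b (F.1 + 1) (((F.2.1 : ℤ) + 1) * (b F.1 : ℤ)),
    mk b F.1 ((F.2.1 : ℤ) + 1)}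
  else {mk b F.1 ((F.2.1 : ℤ) / (b F.1 : ℤ)), mk b (F.1 + 1) (F.2.1 : ℤ),
    mk b (F.1 + 1) ((F.2.1 : ℤ) + 1)}

theorem f5_base {b : ℕ → ℕ} (hb : ∀ n, 4 ≤ b n) {x y z : Vtx b} (h : Base b x y z) :
    ∃ F, okf b F ∧ f5_vts b F = {x, y, z} := by
  cases h with
  | down n k =>
    have hL : (0 : ℤ) < (L b (n + 1) : ℤ) := by exact_mod_cast L_pos hb (n + 1)
    have hbn : (0 : ℤ) < (b n : ℤ) := by have := hb n; exact_mod_cast (by omega : 0 < b n)
    set k' := k % (L b (n + 1) : ℤ) with hk'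
    have h0 : 0 ≤ k' := Int.emod_nonneg _ hL.ne'
    have h1 : k' < (L b (n + 1) : ℤ) := Int.emod_lt_of_pos _ hL
    have hcast : ((k'.toNat : ℕ) : ℤ) = k' := Int.toNat_of_nonneg h0
    set t := k / (L b (n + 1) : ℤ) with ht
    have hk : k = k' + (L b n : ℤ) * t * (b n : ℤ) := by
      have h2 := Int.emod_add_mul_ediv k (L b (n + 1) : ℤ)
      have h3 : ((L b (n + 1) : ℕ) : ℤ) = (L b n : ℤ) * (b n : ℤ) := by
        simp only [L]; push_cast; ring
      rw [← hk', ← ht, h3] at h2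
      rw [← h2]; ring
    refine ⟨(n, k'.toNat, false), ?_, ?_⟩
    · simp only [okf, Bool.false_eq_true, if_false]
      have : ((k'.toNat : ℕ) : ℤ) < (L b (n + 1) : ℤ) := by rw [hcast]; exact h1
      exact_mod_cast this
    · simp only [f5_vts, Bool.false_eq_true, if_false, hcast]
      have e1 : mk b n (k' / (b n : ℤ)) = mk b n (k / (b n : ℤ)) := by
        rw [mk_eq_iff]
        refine ⟨rfl, ?_⟩
        rw [hk, Int.add_mul_ediv_right _ _ hbn.ne']
        exact ⟨-t, by ring⟩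
      have h3 : ((L b (n + 1) : ℕ) : ℤ) = (L b n : ℤ) * (b n : ℤ) := by
        simp only [L]; push_cast; ring
      have e2 : mk b (n + 1) k' = mk b (n + 1) k := by
        rw [mk_eq_iff]
        refine ⟨rfl, ?_⟩
        rw [h3]
        exact ⟨-t, by rw [hk]; ring⟩
      have e3 : mk b (n + 1) (k' + 1) = mk b (n + 1) (k + 1) := by
        rw [mk_eq_iff]
        refine ⟨rfl, ?_⟩
        rw [h3]
        exact ⟨-t, by rw [hk]; ring⟩
      rw [e1, e2, e3]
  | up n hn j =>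
    have hL : (0 : ℤ) < (L b n : ℤ) := by exact_mod_cast L_pos hb n
    set k' := j % (L b n : ℤ) with hk'
    have h0 : 0 ≤ k' := Int.emod_nonneg _ hL.ne'
    have h1 : k' < (L b n : ℤ) := Int.emod_lt_of_pos _ hL
    have hcast : ((k'.toNat : ℕ) : ℤ) = k' := Int.toNat_of_nonneg h0
    set t := j / (L b n : ℤ) with ht
    have hk : j = k' + (L b n : ℤ) * t := (Int.emod_add_mul_ediv j (L b n : ℤ)).symm
    have h3 : ((L b (n + 1) : ℕ) : ℤ) = (L b n : ℤ) * (b n : ℤ) := by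
      simp only [L]; push_cast; ring
    refine ⟨(n, k'.toNat, true), ?_, ?_⟩
    · simp only [okf, if_true]
      refine ⟨hn, ?_⟩
      have : ((k'.toNat : ℕ) : ℤ) < (L b n : ℤ) := by rw [hcast]; exact h1
      exact_mod_cast this
    · simp only [f5_vts, if_true, hcast]
      have e1 : mk b n k' = mk b n j := by
        rw [mk_eq_iff]
        exact ⟨rfl, -t, by rw [hk]; ring⟩
      have e2 : mk b (n + 1) ((k' + 1) * (b n : ℤ)) = mk b (n + 1) ((j + 1) * (b n : ℤ)) := by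
        rw [mk_eq_iff]
        refine ⟨rfl, ?_⟩
        rw [h3]
        exact ⟨-t, by rw [hk]; ring⟩
      have e3 : mk b n (k' + 1) = mk b n (j + 1) := by
        rw [mk_eq_iff]
        exact ⟨rfl, -t, by rw [hk]; ring⟩
      rw [e1, e2, e3]

theorem f5_face {b : ℕ → ℕ} (hb : ∀ n, 4 ≤ b n) {x y z : Vtx b} (h : fc b x y z) :
    ∃ F, okf b F ∧ f5_vts b F = {x, y, z} := by
  rcases h with h | h | h
  · exact f5_base hb h
  · obtain ⟨F, h1, h2⟩ := f5_base hb h
    refine ⟨F, h1, ?_⟩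
    rw [h2]
    ext w
    simp only [Set.mem_insert_iff, Set.mem_singleton_iff]
    tauto
  · obtain ⟨F, h1, h2⟩ := f5_base hb h
    refine ⟨F, h1, ?_⟩
    rw [h2]
    ext w
    simp only [Set.mem_insert_iff, Set.mem_singleton_iff]
    tauto

theorem f5_trf {b : ℕ → ℕ} {c : ℕ → ℤ → ℂ} {Qc : Vtx b → ℂ}
    (hQ : ∀ n j, Qc (mk b n j) = c n j) (F : ℕ × ℕ × Bool) :
    trf b c F = convexHull ℝ (Qc '' f5_vts b F) := by
  unfold trf f5_vts
  split_ifs with h
  · rw [Set.image_insert_eq, Set.image_insert_eq, Set.image_singleton, hQ, hQ, hQ]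
  · rw [Set.image_insert_eq, Set.image_insert_eq, Set.image_singleton, hQ, hQ, hQ]

theorem univalent_of {b : ℕ → ℕ} (hb : ∀ n, 4 ≤ b n) (Q : Packing (KK b hb)) {c : ℕ → ℤ → ℂ}
    (hc : Per b c) (hQ : ∀ n j, Q.c (mk b n j) = c n j)
    (hgen : ∀ U : Set ℂ, IsOpen U → U.Nonempty → ∃ z ∈ U, Gen b c z)
    (huniq : ∀ z, Gen b c z → ∀ F F', okf b F → okf b F' → z ∈ trf b c F → z ∈ trf b c F' →
      F = F') : Q.Univalent := by
  intro u v huv
  by_contra hcon
  rw [Set.not_disjoint_iff_nonempty_inter] at hcon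
  obtain ⟨z, ⟨hzu, hzv⟩, hz⟩ := hgen _ (Metric.isOpen_ball.inter Metric.isOpen_ball) hcon
  obtain ⟨x, y, hf, hzx⟩ := disc_subset_star' (P := Q) (KK_interior hb u)
    (Metric.ball_subset_closedBall hzu)
  obtain ⟨x', y', hf', hzx'⟩ := disc_subset_star' (P := Q) (KK_interior hb v)
    (Metric.ball_subset_closedBall hzv)
  obtain ⟨F, hF1, hF2⟩ := f5_face hb (show fc b u x y from hf)
  obtain ⟨F', hF1', hF2'⟩ := f5_face hb (show fc b v x' y' from hf')
  have m1 : z ∈ trf b c F := by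
    rw [f5_trf hQ, hF2, Set.image_insert_eq, Set.image_insert_eq, Set.image_singleton]
    exact hzx
  have m2 : z ∈ trf b c F' := by
    rw [f5_trf hQ, hF2', Set.image_insert_eq, Set.image_insert_eq, Set.image_singleton]
    exact hzx'
  have hFF := huniq z hz F F' hF1 hF1' m1 m2
  have hvm : v ∈ ({u, x, y} : Set (Vtx b)) := by
    rw [← hF2, hFF, hF2']
    exact Set.mem_insert _ _
  have hadj : (KK b hb).Adj u v := by
    rcases hvm with h | h | h
    · exact absurd h.symm huv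
    · rw [h]; exact ⟨y, Or.inl hf⟩
    · rw [Set.mem_singleton_iff] at h
      rw [h]
      exact ⟨x, Or.inr ((KK b hb).rot _ _ _ ((KK b hb).rot _ _ _ hf))⟩
  have hd := Q.tangent u v hadj
  exact (Set.not_disjoint_iff_nonempty_inter.2 ⟨z, hzu, hzv⟩)
    (Metric.ball_disjoint_ball hd.ge)

end Pool.Agent.Helper11.Fatou
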