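import Pool.Agent.Helper11.Fatou.HypLabel
import Pool.Agent.Helper11.Fatou.Develop
import Pool.Agent.Helper11.Fatou.Lifts
import Pool.Agent.Helper11.Fatou.Orient
import Pool.Agent.Helper11.Fatou.Univ
import Pool.Agent.Helper11.Fatou.Carrier
import Pool.Agent.Helper11.Fatou.RealHomeo

namespace Pool.Agent.Helper11.Fatou

open Pool.Agent.Helper11.Koebe

theorem norm_lt_of_dev {b : ℕ → ℕ} {f : ℕ → ℤ → ℝ} {p : ℕ → ℤ → ℂ} (hp : Per b p)
    (hdev : Dev GH b f p) (n : ℕ) (j : ℤ) : ‖p n j‖ < 1 := by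
  cases n with
  | zero =>
    have h := (hdev.1 0 0).t1
    have h1 : ‖p 0 (0 / (b 0 : ℤ))‖ < 1 := h.1
    have h2 : ∀ i : ℤ, p 0 i = p 0 0 := by
      intro i
      have hL : ∀ i : ℤ, p 0 (i + 1) = p 0 i := by
        intro i
        have := hp 0 i
        simpa [L] using this
      induction i using Int.induction_on with
      | zero => rfl
      | succ i ih => rw [hL, ih]
      | pred i ih =>
        have := hL (-(i : ℤ) - 1)
        rw [sub_add_cancel] at this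
        rw [← this, ih]
    rw [h2 (0 / (b 0 : ℤ))] at h1
    rw [h2 j]
    exact h1
  | succ n =>
    have h := (hdev.1 n j).t1
    exact h.2.1

theorem to_of_face {r s t : ℝ} {x y z : ℂ} (hr : 1 < r) (hs : 1 < s) (ht : 1 < t)
    (h : FaceOK GH r s t x y z) :
    TO (cc x r) (cc y s) (cc z t) (cr x r) (cr y s) (cr z t) := by
  have t1 : TgH r s x y := h.t1
  have t2 : TgH s t y z := h.t2
  have t3 : TgH r t x z := h.t3
  refine ⟨?_, ?_, ?_, ?_⟩
  · rw [dist_comm, dist_eq_norm]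
    exact cc_tangent hr hs t1
  · rw [dist_comm, dist_eq_norm]
    exact cc_tangent hs ht t2
  · rw [dist_comm, dist_eq_norm]
    exact cc_tangent hr ht t3
  · refine cc_orient hr hs ht t1 t2 t3 ?_
    have d1 : un (ph x z) = Complex.exp ((ah r s t : ℝ) * Complex.I) * un (ph x y) := h.d1
    have hα := ah_pos hr hs ht
    have hα2 : ah r s t < Real.pi := ah_lt_pi
    have hy : ‖ph x y‖ = Th (r * s) := t1.2.2
    have hz : ‖ph x z‖ = Th (r * t) := t3.2.2
    have hy0 : 0 < ‖ph x y‖ := by rw [hy]; exact Th_pos (by nlinarith)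
    have hz0 : 0 < ‖ph x z‖ := by rw [hz]; exact Th_pos (by nlinarith)
    have e1 := un_spec (ph x y)
    have e2 := un_spec (ph x z)
    have e3 : ‖un (ph x y)‖ = 1 := un_norm hy0
    have e4 : (starRingEnd ℂ) (un (ph x y)) * un (ph x y) = 1 := by
      rw [← Complex.normSq_eq_conj_mul_self, Complex.normSq_eq_norm_sq, e3]
      norm_num
    have e5 : (starRingEnd ℂ) (ph x y) * ph x z =
        ((‖ph x y‖ * ‖ph x z‖ : ℝ) : ℂ) * Complex.exp ((ah r s t : ℝ) * Complex.I) := by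
      calc (starRingEnd ℂ) (ph x y) * ph x z
          = (starRingEnd ℂ) ((‖ph x y‖ : ℂ) * un (ph x y)) * ((‖ph x z‖ : ℂ) * un (ph x z)) := by
            rw [e1, e2]
        _ = (‖ph x y‖ : ℂ) * (‖ph x z‖ : ℂ) * Complex.exp ((ah r s t : ℝ) * Complex.I) *
              ((starRingEnd ℂ) (un (ph x y)) * un (ph x y)) := by
            rw [d1, map_mul, Complex.conj_ofReal]
            ring
        _ = _ := by
            rw [e4]
            push_cast
            ring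
    rw [e5, Complex.im_ofReal_mul, Complex.exp_ofReal_mul_I_im]
    exact mul_pos (mul_pos hy0 hz0) (Real.sin_pos_of_pos_of_lt_pi hα hα2)

/-- The maximal packing of the layered complex. -/
theorem exists_Q {b : ℕ → ℕ} (hb4 : ∀ n, 4 ≤ b n) (hb : ∀ n, 10000 ≤ b n) :
    ∃ (Q : Packing (KK b hb4)) (c : ℕ → ℤ → ℂ) (r : ℕ → ℤ → ℝ) (Θ : ℕ → ℤ → ℝ),
      (∀ n j, Q.c (mk b n j) = c n j) ∧ (∀ n j, Q.r (mk b n j) = r n j) ∧
      Per b c ∧ Per b r ∧ Q.Univalent ∧ Q.carrier = Metric.ball 0 1 ∧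
      (∀ v, ‖Q.c v‖ + Q.r v < 1) ∧
      (∀ ρ : ℝ, 0 ≤ ρ → ρ < 1 → {v | ‖Q.c v‖ - Q.r v ≤ ρ}.Finite) ∧
      Nonempty (realization (KK b hb4) ≃ₜ Metric.ball (0 : ℂ) 1) ∧
      (∀ n, 1 ≤ n →
        (∀ j, c n j ≠ 0 ∧ c n j = (‖c n j‖ : ℂ) * Complex.exp ((Θ n j : ℝ) * Complex.I)) ∧
        (∀ j, 0 < Θ n (j + 1) - Θ n j ∧ Θ n (j + 1) - Θ n j < Real.pi) ∧
        (∀ j, Θ n (j + (L b n : ℤ)) = Θ n j + 2 * Real.pi) ∧
        (∀ j, Θ (n + 1) (j * (b n : ℤ)) < Θ n j ∧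
          Θ n j < Θ (n + 1) ((j + 1) * (b n : ℤ) - 1))) := by
  obtain ⟨f, hf, hf1, htot⟩ := hyp_label hb
  have hf2 : ∀ n j, 1 < f n j := fun n j => by have := hf1 n j; linarith
  obtain ⟨p, hp, hp0, hdev⟩ := develop GH b hb4 f hf hf2
    (fun n j => ⟨1, by
      show total b ah f n j = _
      rw [htot]; push_cast; ring⟩) 0 (by show ‖(0 : ℂ)‖ < 1; simp)
  have hlt := norm_lt_of_dev hp hdev
  obtain ⟨Θ, hΘ⟩ := lifts hb hf hf1 htot hp hp0 hdev
  set c : ℕ → ℤ → ℂ := fun n j => cc (p n j) (f n j) with hcdef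
  set r : ℕ → ℤ → ℝ := fun n j => cr (p n j) (f n j) with hrdef
  have hc : Per b c := fun n j => by simp only [hcdef, hp n j, hf n j]
  have hr : Per b r := fun n j => by simp only [hrdef, hp n j, hf n j]
  have hdown : ∀ (n : ℕ) (k : ℤ), TO (c n (k / (b n : ℤ))) (c (n + 1) k) (c (n + 1) (k + 1))
      (r n (k / (b n : ℤ))) (r (n + 1) k) (r (n + 1) (k + 1)) :=
    fun n k => to_of_face (hf2 _ _) (hf2 _ _) (hf2 _ _) (hdev.1 n k)
  have hup : ∀ (n : ℕ), 1 ≤ n → ∀ j : ℤ, TO (c n j) (c (n + 1) ((j + 1) * (b n : ℤ)))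
      (c n (j + 1)) (r n j) (r (n + 1) ((j + 1) * (b n : ℤ))) (r n (j + 1)) :=
    fun n hn j => to_of_face (hf2 _ _) (hf2 _ _) (hf2 _ _) (hdev.2 n hn j)
  obtain ⟨Q, hQc, hQr⟩ := exists_packing hb4 hc hr (fun n j => cr_pos (hlt n j) (hf2 n j))
    hdown hup
  have hc0 : ∀ n, 1 ≤ n → ∀ j, c n j ≠ 0 ∧
      c n j = (‖c n j‖ : ℂ) * Complex.exp ((Θ n j : ℝ) * Complex.I) := by
    intro n hn j
    obtain ⟨s, hs, hse⟩ := cc_eq (a := p n j) (x := f n j) (hlt n j) (hf2 n j)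
    have h1 := (hΘ n hn).1 j
    have e : c n j = (s : ℂ) * p n j := hse
    refine ⟨?_, ?_⟩
    · rw [e]
      exact mul_ne_zero (by exact_mod_cast hs.ne') h1.1
    · have e2 : ‖c n j‖ = s * ‖p n j‖ := by
        rw [e, norm_mul, Complex.norm_real, Real.norm_of_nonneg hs.le]
      rw [e2, e]
      push_cast
      rw [mul_assoc, ← h1.2]
  have hdo : ∀ (n : ℕ) (k : ℤ),
      0 < orient (c n (k / (b n : ℤ))) (c (n + 1) k) (c (n + 1) (k + 1)) :=
    fun n k => (hdown n k).2.2.2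
  have huo : ∀ (n : ℕ), 1 ≤ n → ∀ j : ℤ,
      0 < orient (c n j) (c (n + 1) ((j + 1) * (b n : ℤ))) (c n (j + 1)) :=
    fun n hn j => (hup n hn j).2.2.2
  have hgen : ∀ U : Set ℂ, IsOpen U → U.Nonempty → ∃ z ∈ U, Gen b c z :=
    fun U hU hne => exists_generic hdo huo (fun n hn j => (hc0 n hn j).1) hU hne
  have hfu : ∀ z, Gen b c z → ∀ F F', okf b F → okf b F' → z ∈ trf b c F → z ∈ trf b c F' →
      F = F' := by
    intro z hz F F' hF hF' h h'
    exact face_unique hb4 hc hdo huo (Θ := Θ)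
      (fun n hn => ⟨hc0 n hn, (hΘ n hn).2.1, (hΘ n hn).2.2.1⟩) hz hF hF' h h'
  have huni : Q.Univalent := univalent_of hb4 Q hc hQc hgen hfu
  have hGu : ∀ z, Gen b c z → ∀ u v w u' v' w', (KK b hb4).face u v w →
      (KK b hb4).face u' v' w' → z ∈ convexHull ℝ {Q.c u, Q.c v, Q.c w} →
      z ∈ convexHull ℝ {Q.c u', Q.c v', Q.c w'} → ({u, v, w} : Set (Vtx b)) = {u', v', w'} := by
    intro z hz u v w u' v' w' hf hf' h h'
    obtain ⟨F, hF1, hF2⟩ := f5_face hb4 (show fc b u v w from hf)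
    obtain ⟨F', hF1', hF2'⟩ := f5_face hb4 (show fc b u' v' w' from hf')
    have m1 : z ∈ trf b c F := by
      rw [f5_trf hQc, hF2, Set.image_insert_eq, Set.image_insert_eq, Set.image_singleton]
      exact h
    have m2 : z ∈ trf b c F' := by
      rw [f5_trf hQc, hF2', Set.image_insert_eq, Set.image_insert_eq, Set.image_singleton]
      exact h'
    rw [← hF2, hfu z hz F F' hF1 hF1' m1 m2, hF2']
  have hin : ∀ v, ‖Q.c v‖ + Q.r v < 1 := by
    intro v
    obtain ⟨n, j, rfl⟩ := exists_rep v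
    rw [hQc, hQr]
    exact cc_inside (hlt n j) (hf2 n j)
  have hlow : ∀ v ρ, 0 ≤ ρ → ρ < 1 → ‖Q.c v‖ - Q.r v ≤ ρ → (1 - ρ) / 8 ≤ Q.r v := by
    intro v ρ h0 h1 h2
    obtain ⟨n, j, rfl⟩ := exists_rep v
    rw [hQc, hQr] at h2
    rw [hQr]
    exact cr_ge (hlt n j) (hf1 n j) h0 h1 h2
  have hcar : Q.carrier = Metric.ball 0 1 :=
    carrier_eq huni (KK_interior hb4) hin hlow (mk b 0 0) (by
      rw [hQc]
      show cc (p 0 0) (f 0 0) = 0
      rw [hp0]
      unfold cc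
      simp)
  have hfin : ∀ ρ : ℝ, 0 ≤ ρ → ρ < 1 → {v | ‖Q.c v‖ - Q.r v ≤ ρ}.Finite :=
    fun ρ h0 h1 => finite_in huni hin hlow h0 h1
  have hhomeo : Nonempty (realization (KK b hb4) ≃ₜ Metric.ball (0 : ℂ) 1) := by
    refine realization_homeo hcar hin hfin ?_ ?_
    · intro u v w hf z hz
      rcases Packing.interior_or_disc hf hz with h | h | h | h
      · exact Or.inr h
      · exact Or.inl (Or.inl (Or.inl h))
      · exact Or.inl (Or.inl (Or.inr h))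
      · exact Or.inl (Or.inr h)
    · intro x hx y hy h
      exact coord_unique (KK_connected hb4) huni hgen hGu hx hy h
  exact ⟨Q, c, r, Θ, hQc, hQr, hc, hr, huni, hcar, hin, hfin, hhomeo,
    fun n hn => ⟨hc0 n hn, (hΘ n hn).2.1, (hΘ n hn).2.2.1, (hΘ n hn).2.2.2⟩⟩

end Pool.Agent.Helper11.Fatou
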